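import Pool.Agent.H843R2.KZ.Stubs

set_option autoImplicit false

namespace Pool.Agent.H843R2.KZ

private theorem ARC_two (r S θ al ep al' ep' : ℝ) (hr : 0 < r) (hal : 0 ≤ al) (hep : 0 ≤ ep)
    (hal' : 0 ≤ al') (hep' : 0 ≤ ep') (h : ep ^ 2 = r ^ 2 * al ^ 2 + S)
    (h' : ep' ^ 2 = r ^ 2 * al' ^ 2 + S) (hS : S ≠ 0) (h1 : 0 < S → |al - al'| ≤ θ)
    (h2 : S < 0 → |ep - ep'| ≤ θ * r) : |al - al'| ≤ θ ∧ |ep - ep'| ≤ θ * r := by
  have hid : (ep + ep') * |ep - ep'| = (r * al + r * al') * (r * |al - al'|) := by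
    have e1 : (ep + ep') * |ep - ep'| = |(ep + ep') * (ep - ep')| := by
      rw [abs_mul, abs_of_nonneg (add_nonneg hep hep')]
    have e2 : (r * al + r * al') * (r * |al - al'|) = |(r ^ 2 * (al + al')) * (al - al')| := by
      rw [abs_mul, abs_of_nonneg (mul_nonneg (sq_nonneg r) (add_nonneg hal hal'))]; ring
    rw [e1, e2]
    congr 1
    linear_combination h - h'
  have hral : 0 ≤ r * al := mul_nonneg hr.le hal
  have hral' : 0 ≤ r * al' := mul_nonneg hr.le hal'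
  rcases lt_or_gt_of_ne hS with hneg | hpos
  · have hb := h2 hneg
    have x1 : ep ≤ r * al := by
      by_contra hc
      push Not at hc
      nlinarith
    have x2 : ep' ≤ r * al' := by
      by_contra hc
      push Not at hc
      nlinarith
    have x3 : 0 < r * al + r * al' := by
      rcases (add_nonneg hral hral').lt_or_eq with h3 | h3
      · exact h3
      · exfalso
        have : r * al = 0 := by linarith
        nlinarith [sq_nonneg ep]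
    have x4 : (r * al + r * al') * (r * |al - al'|) ≤ (r * al + r * al') * |ep - ep'| := by
      rw [← hid]
      exact mul_le_mul_of_nonneg_right (by linarith) (abs_nonneg _)
    have x5 : r * |al - al'| ≤ |ep - ep'| := le_of_mul_le_mul_left x4 x3
    refine ⟨?_, hb⟩
    have x6 : r * |al - al'| ≤ r * θ := by linarith
    exact le_of_mul_le_mul_left x6 hr
  · have hb := h1 hpos
    refine ⟨hb, ?_⟩
    have x1 : r * al ≤ ep := by
      by_contra hc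
      push Not at hc
      nlinarith
    have x2 : r * al' ≤ ep' := by
      by_contra hc
      push Not at hc
      nlinarith
    have x3 : 0 < ep + ep' := by
      rcases (add_nonneg hep hep').lt_or_eq with h3 | h3
      · exact h3
      · exfalso
        have : ep = 0 := by linarith
        nlinarith [sq_nonneg (r * al)]
    have x4 : (ep + ep') * |ep - ep'| ≤ (ep + ep') * (r * |al - al'|) := by
      rw [hid]
      exact mul_le_mul_of_nonneg_right (by linarith) (mul_nonneg hr.le (abs_nonneg _))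
    have x5 : |ep - ep'| ≤ r * |al - al'| := le_of_mul_le_mul_left x4 x3
    have x6 : r * |al - al'| ≤ r * θ := mul_le_mul_of_nonneg_left hb hr.le
    linarith

theorem ARC_ok : S_ARC := by
  intro S m M θ hS hm hM hθ z w v hu hd
  obtain ⟨a1, b1, c1⟩ := z
  obtain ⟨a2, b2, c2⟩ := w
  obtain ⟨a3, b3, c3⟩ := v
  have hu1 := hu (a1, b1, c1) (by simp)
  have hu2 := hu (a2, b2, c2) (by simp)
  have hu3 := hu (a3, b3, c3) (by simp)
  have hd12 := hd (a2, b2, c2) (by simp) (a1, b1, c1) (by simp)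
  have hd13 := hd (a3, b3, c3) (by simp) (a1, b1, c1) (by simp)
  simp only at hu1 hu2 hu3 hd12 hd13
  obtain ⟨p1, q1, r1, s1, t1⟩ := hu1
  obtain ⟨p2, q2, r2, s2, t2⟩ := hu2
  obtain ⟨p3, q3, r3, s3, t3⟩ := hu3
  have hmr : (0 : ℝ) < (m : ℝ) := by exact_mod_cast hm
  obtain ⟨r, hr⟩ : ∃ r : ℝ, r = √(m : ℝ) := ⟨_, rfl⟩
  have hr0 : 0 < r := by rw [hr]; exact Real.sqrt_pos.mpr hmr
  have hr2 : r ^ 2 = m := by rw [hr]; exact Real.sq_sqrt hmr.le
  have key : ∀ a b c : ℤ, 1 ≤ b → c ^ 2 = m * a ^ 2 + S * b ^ 2 →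
      ((c : ℝ) / b) ^ 2 = r ^ 2 * ((a : ℝ) / b) ^ 2 + (S : ℝ) := by
    intro a b c hb h
    have hb' : (b : ℝ) ≠ 0 := by
      have : (1 : ℝ) ≤ b := by exact_mod_cast hb
      linarith
    have h' : (c : ℝ) ^ 2 = m * a ^ 2 + S * b ^ 2 := by exact_mod_cast h
    rw [hr2, div_pow, div_pow, h']
    field_simp
  have hnn : ∀ a b : ℤ, 1 ≤ b → 0 ≤ a → 0 ≤ (a : ℝ) / b := by
    intro a b hb ha
    have h1 : (1 : ℝ) ≤ b := by exact_mod_cast hb
    have h2 : (0 : ℝ) ≤ a := by exact_mod_cast ha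
    positivity
  have hSr : (S : ℝ) ≠ 0 := by exact_mod_cast hS
  rw [← hr] at hd12 hd13 ⊢
  have A12 := ARC_two r S θ ((a2 : ℝ) / b2) ((c2 : ℝ) / b2) ((a1 : ℝ) / b1) ((c1 : ℝ) / b1) hr0
    (hnn _ _ p2 r2) (hnn _ _ p2 s2) (hnn _ _ p1 r1) (hnn _ _ p1 s1) (key _ _ _ p2 t2)
    (key _ _ _ p1 t1) hSr (fun h => hd12.1 (by exact_mod_cast h)) (fun h => hd12.2 (by exact_mod_cast h))
  have A13 := ARC_two r S θ ((a3 : ℝ) / b3) ((c3 : ℝ) / b3) ((a1 : ℝ) / b1) ((c1 : ℝ) / b1) hr0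
    (hnn _ _ p3 r3) (hnn _ _ p3 s3) (hnn _ _ p1 r1) (hnn _ _ p1 s1) (key _ _ _ p3 t3)
    (key _ _ _ p1 t1) hSr (fun h => hd13.1 (by exact_mod_cast h)) (fun h => hd13.2 (by exact_mod_cast h))
  have P1 : (1 : ℝ) ≤ b1 := by exact_mod_cast p1
  have P2 : (1 : ℝ) ≤ b2 := by exact_mod_cast p2
  have P3 : (1 : ℝ) ≤ b3 := by exact_mod_cast p3
  have hdet : ((det3 (a1, b1, c1) (a2, b2, c2) (a3, b3, c3) : ℤ) : ℝ) =
      -((b1 : ℝ) * b2 * b3 * ((((a2 : ℝ) / b2) - (a1 : ℝ) / b1) * ((c3 : ℝ) / b3 - (c1 : ℝ) / b1) -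
        ((a3 : ℝ) / b3 - (a1 : ℝ) / b1) * ((c2 : ℝ) / b2 - (c1 : ℝ) / b1))) := by
    unfold det3
    push_cast
    have n1 : (b1 : ℝ) ≠ 0 := by linarith
    have n2 : (b2 : ℝ) ≠ 0 := by linarith
    have n3 : (b3 : ℝ) ≠ 0 := by linarith
    field_simp
    ring
  rw [hdet, abs_neg, abs_mul]
  have hB : |(b1 : ℝ) * b2 * b3| ≤ M ^ 3 := by
    rw [abs_of_pos (by positivity)]
    calc (b1 : ℝ) * b2 * b3 ≤ M * M * M := by gcongr
      _ = M ^ 3 := by ring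
  have hD : |(((a2 : ℝ) / b2) - (a1 : ℝ) / b1) * ((c3 : ℝ) / b3 - (c1 : ℝ) / b1) -
        ((a3 : ℝ) / b3 - (a1 : ℝ) / b1) * ((c2 : ℝ) / b2 - (c1 : ℝ) / b1)| ≤ 2 * r * θ ^ 2 := by
    refine (abs_sub _ _).trans ?_
    rw [abs_mul, abs_mul]
    have g1 : |(a2 : ℝ) / b2 - (a1 : ℝ) / b1| * |(c3 : ℝ) / b3 - (c1 : ℝ) / b1| ≤ θ * (θ * r) :=
      mul_le_mul A12.1 A13.2 (abs_nonneg _) hθ
    have g2 : |(a3 : ℝ) / b3 - (a1 : ℝ) / b1| * |(c2 : ℝ) / b2 - (c1 : ℝ) / b1| ≤ θ * (θ * r) :=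
      mul_le_mul A13.1 A12.2 (abs_nonneg _) hθ
    nlinarith
  calc _ ≤ M ^ 3 * (2 * r * θ ^ 2) := mul_le_mul hB hD (abs_nonneg _) (by positivity)
    _ = 2 * M ^ 3 * r * θ ^ 2 := by ring

end Pool.Agent.H843R2.KZ
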