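import Pool.Agent.H843R2.KZ.Stubs

set_option autoImplicit false

namespace Pool.Agent.H843R2.KZ

open Finset

theorem CLOSE_aux {r d e y y1 B δ : ℝ} (hr : 0 < r) (hd : r ≤ d) (he : r ≤ e)
    (hdB : d ≤ B * r) (heB : e ≤ B * r) (hB : 1 ≤ B) (hδ : 0 < δ) (hy : 0 ≤ y) (hyd : y ≤ d)
    (hy1 : 0 ≤ y1) (hye : y1 ≤ e)
    (h1 : |(y + r) / d - (y1 + r) / e| ≤ δ) (h2 : |(y - r) / d - (y1 - r) / e| ≤ δ) :
    |d - e| ≤ 5 * B ^ 2 * r * δ ∧ |y - y1| ≤ 5 * B ^ 2 * r * δ ∧
      |(r ^ 2 - y ^ 2) / d - (r ^ 2 - y1 ^ 2) / e| ≤ 5 * B ^ 2 * r * δ := by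
  have hd0 : 0 < d := by linarith
  have he0 : 0 < e := by linarith
  set w := (y + r) / d with hw
  set w' := (y - r) / d with hw'
  set v := (y1 + r) / e with hv
  set v' := (y1 - r) / e with hv'
  have hB0 : 0 < B := by linarith
  have hBB : B ≤ B ^ 2 := by nlinarith
  have hrδ : 0 < r * δ := by positivity
  have e1 : w - w' = 2 * r / d := by rw [hw, hw']; field_simp; ring
  have e2 : v - v' = 2 * r / e := by rw [hv, hv']; field_simp; ring
  have h3 : |2 * r / d - 2 * r / e| ≤ 2 * δ := by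
    rw [← e1, ← e2]
    calc |w - w' - (v - v')| = |(w - v) - (w' - v')| := by congr 1; ring
      _ ≤ |w - v| + |w' - v'| := abs_sub _ _
      _ ≤ 2 * δ := by linarith
  have h4 : |d - e| ≤ B ^ 2 * r * δ := by
    have h5 : 2 * r / d - 2 * r / e = (2 * r / (d * e)) * (e - d) := by
      field_simp
    rw [h5, abs_mul, abs_of_pos (by positivity), abs_sub_comm] at h3
    have h6 : |d - e| * (2 * r) ≤ 2 * δ * (d * e) := by
      rw [div_mul_eq_mul_div, div_le_iff₀ (by positivity)] at h3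
      linarith
    have h7 : d * e ≤ (B * r) * (B * r) := mul_le_mul hdB heB he0.le (by positivity)
    have h8 : |d - e| * (2 * r) ≤ (B ^ 2 * r * δ) * (2 * r) := by
      calc |d - e| * (2 * r) ≤ 2 * δ * (d * e) := h6
        _ ≤ 2 * δ * ((B * r) * (B * r)) := mul_le_mul_of_nonneg_left h7 (by positivity)
        _ = _ := by ring
    exact le_of_mul_le_mul_right h8 (by positivity)
  have heδ : e * δ ≤ B ^ 2 * r * δ := by
    have : e ≤ B ^ 2 * r := heB.trans (mul_le_mul_of_nonneg_right hBB hr.le)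
    exact mul_le_mul_of_nonneg_right this hδ.le
  have hww : |w + w'| ≤ 2 := by
    have : w + w' = 2 * y / d := by rw [hw, hw']; field_simp; ring
    rw [this, abs_of_nonneg (by positivity), div_le_iff₀ hd0]
    linarith
  have hw2 : |w| ≤ 2 := by
    rw [hw, abs_of_nonneg (by positivity), div_le_iff₀ hd0]
    linarith
  have hv2 : |v| ≤ 2 := by
    rw [hv, abs_of_nonneg (by positivity), div_le_iff₀ he0]
    linarith
  have hw'1 : |w'| ≤ 1 := by
    rw [hw', abs_div, abs_of_pos hd0, div_le_iff₀ hd0, abs_le]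
    constructor <;> linarith
  have hB2 : 0 ≤ B ^ 2 * r * δ := by positivity
  refine ⟨by linarith, ?_, ?_⟩
  · have h5 : y - y1 = ((d - e) * (w + w') + e * ((w - v) + (w' - v'))) / 2 := by
      have a1 : d * (w + w') = 2 * y := by rw [hw, hw']; field_simp; ring
      have a2 : e * (v + v') = 2 * y1 := by rw [hv, hv']; field_simp; ring
      linarith
    have h6 : |(d - e) * (w + w')| ≤ (B ^ 2 * r * δ) * 2 := by
      rw [abs_mul]
      exact mul_le_mul h4 hww (abs_nonneg _) hB2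
    have h7 : |e * ((w - v) + (w' - v'))| ≤ e * (2 * δ) := by
      rw [abs_mul, abs_of_pos he0]
      refine mul_le_mul_of_nonneg_left ?_ he0.le
      exact (abs_add_le _ _).trans (by linarith)
    rw [h5, abs_div, abs_two]
    have h8 := abs_add_le ((d - e) * (w + w')) (e * ((w - v) + (w' - v')))
    rw [div_le_iff₀ (by norm_num)]
    nlinarith
  · have a1 : (r ^ 2 - y ^ 2) / d = - (d * (w * w')) := by rw [hw, hw']; field_simp; ring
    have a2 : (r ^ 2 - y1 ^ 2) / e = - (e * (v * v')) := by rw [hv, hv']; field_simp; ring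
    have h5 : (r ^ 2 - y ^ 2) / d - (r ^ 2 - y1 ^ 2) / e =
        - ((d - e) * (w * w') + e * ((w - v) * w' + v * (w' - v'))) := by
      rw [a1, a2]; ring
    have h6 : |(d - e) * (w * w')| ≤ (B ^ 2 * r * δ) * (2 * 1) := by
      rw [abs_mul, abs_mul]
      exact mul_le_mul h4 (mul_le_mul hw2 hw'1 (abs_nonneg _) (by norm_num)) (by positivity) hB2
    have h7 : |e * ((w - v) * w' + v * (w' - v'))| ≤ e * (δ * 1 + 2 * δ) := by
      rw [abs_mul, abs_of_pos he0]
      refine mul_le_mul_of_nonneg_left ?_ he0.le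
      refine (abs_add_le _ _).trans ?_
      rw [abs_mul, abs_mul]
      exact add_le_add (mul_le_mul h1 hw'1 (abs_nonneg _) hδ.le)
        (mul_le_mul hv2 h2 (abs_nonneg _) (by norm_num))
    rw [h5, abs_neg]
    refine (abs_add_le _ _).trans ?_
    nlinarith

theorem CLOSE_ok : S_CLOSE := by
  intro n D hn B hB hD δ hδ hδ1 P hP Q hQ h1 h2
  have hn0 : (0 : ℝ) < n := by exact_mod_cast hn
  have hr : 0 < √(n : ℝ) := Real.sqrt_pos.mpr hn0
  unfold obj at hP hQ
  rw [mem_filter, mem_product, mem_Icc, mem_range] at hP hQ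
  obtain ⟨⟨⟨p1, p2⟩, p3⟩, p4, p5, p6, p7⟩ := hP
  obtain ⟨⟨⟨q1, q2⟩, q3⟩, q4, q5, q6, q7⟩ := hQ
  have hdr : ∀ d : ℕ, n ≤ d ^ 2 → √(n : ℝ) ≤ d := by
    intro d hd
    rw [Real.sqrt_le_left (by positivity)]
    exact_mod_cast hd
  have hlv : ∀ R : ℕ × ℕ, 1 ≤ R.1 → (R.1 : ℤ) ∣ (n : ℤ) - (R.2 : ℤ) ^ 2 →
      ((lv n R : ℤ) : ℝ) = (√(n : ℝ) ^ 2 - (R.2 : ℝ) ^ 2) / R.1 := by
    intro R h h'
    unfold lv
    rw [Int.cast_div h' (by
      have : (R.1 : ℤ) ≠ 0 := by positivity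
      exact_mod_cast this), Real.sq_sqrt hn0.le]
    push_cast
    rfl
  have key := CLOSE_aux (r := √(n : ℝ)) (d := P.1) (e := Q.1) (y := P.2) (y1 := Q.2) (B := B)
    (δ := δ) hr (hdr _ p4) (hdr _ q4)
    ((Nat.cast_le.mpr p2).trans hD) ((Nat.cast_le.mpr q2).trans hD) hB hδ
    (Nat.cast_nonneg _) (Nat.cast_le.mpr p6.le) (Nat.cast_nonneg _) (Nat.cast_le.mpr q6.le) h1 h2
  rw [hlv P p1 p7, hlv Q q1 q7]
  exact key

end Pool.Agent.H843R2.KZ
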