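import Pool.Agent.H843R2.KZ.Stubs

set_option autoImplicit false

namespace Pool.Agent.H843R2.KZ

open Finset

/-- a triple in normal form in a fixed box -/
def Gd (n : ℕ) (S : ℤ) (e1 e2 h1 h2 : ℕ) (S0 m0 ρ σ τ : ℤ) (M : ℝ) (θ : ℝ) (j : ℕ)
    (u : ℤ × ℤ × ℤ) : Prop :=
  ∃ A1 B1 E1 : ℤ, u = ((e1 : ℤ) * A1, (e2 : ℤ) * B1, (e1 : ℤ) * e2 * h1 * h2 * E1) ∧
    S0 ∣ E1 - ρ * A1 ∧ m0 ∣ E1 - σ * B1 ∧ (h1 : ℤ) ∣ A1 - τ * B1 ∧ 1 ≤ u.2.1 ∧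
    (u.2.1 : ℝ) ≤ M ∧ Int.gcd u.1 u.2.1 = 1 ∧ 0 ≤ u.1 ∧ 0 ≤ u.2.2 ∧
    u.2.2 ^ 2 = (4 * n - S) * u.1 ^ 2 + S * u.2.1 ^ 2 ∧
    (0 < S → ⌊(u.1 : ℝ) / u.2.1 / θ⌋₊ = j) ∧
    (S < 0 → ⌊(u.2.2 : ℝ) / u.2.1 / (θ * √((4 * (n : ℤ) - S : ℤ) : ℝ))⌋₊ = j)

theorem cls_floor {x y θ : ℝ} {j : ℕ} (hθ : 0 < θ) (hx : 0 ≤ x) (hy : 0 ≤ y)
    (h1 : ⌊x / θ⌋₊ = j) (h2 : ⌊y / θ⌋₊ = j) : |x - y| ≤ θ := by
  have hx0 : 0 ≤ x / θ := by positivity
  have hy0 : 0 ≤ y / θ := by positivity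
  have a1 := Nat.floor_le hx0
  have a2 := Nat.lt_floor_add_one (x / θ)
  have b1 := Nat.floor_le hy0
  have b2 := Nat.lt_floor_add_one (y / θ)
  rw [h1] at a1 a2
  rw [h2] at b1 b2
  rw [le_div_iff₀ hθ] at a1 b1
  rw [div_lt_iff₀ hθ] at a2 b2
  rw [abs_le]
  constructor <;> nlinarith

theorem cls_det (e1 e2 h1 h2 : ℤ) (a b : ℤ × ℤ × ℤ) (c : ℤ × ℤ × ℤ) :
    det3 (e1 * a.1, e2 * a.2.1, e1 * e2 * h1 * h2 * a.2.2)
      (e1 * b.1, e2 * b.2.1, e1 * e2 * h1 * h2 * b.2.2)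
      (e1 * c.1, e2 * c.2.1, e1 * e2 * h1 * h2 * c.2.2) =
    e1 ^ 2 * e2 ^ 2 * h1 * h2 * det3 a b c := by
  unfold det3
  ring

theorem cls_real {Sa m n D H h2 r M : ℝ} (hSR : 0 < Sa) (hmR : 3 * n ≤ m) (hnR : 1 ≤ n)
    (hDR : 1 ≤ D) (hHR : 1 ≤ H) (hh2R : 1 ≤ h2) (hM : 0 < M) (hMD : M ≤ 2 * D)
    (hr : 4 * ((1 + D / √n) * H * h2 ^ (3 / 2 : ℝ) / √Sa) < r)
    (h3 : Sa * m ≤ h2 ^ 3 * (2 * M ^ 3 * √m * (2 * H / (M * r)) ^ 2)) : False := by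
  have hmRpos : 0 < m := by linarith
  have hsm : 0 < √m := Real.sqrt_pos.mpr hmRpos
  have hsn : 0 < √n := Real.sqrt_pos.mpr (by linarith)
  have hsS : 0 < √Sa := Real.sqrt_pos.mpr hSR
  have hX : 0 ≤ 4 * ((1 + D / √n) * H * h2 ^ (3 / 2 : ℝ) / √Sa) := by positivity
  have hrR : 0 < r := lt_of_le_of_lt hX hr
  have h4 : 2 * M ^ 3 * √m * (2 * H / (M * r)) ^ 2 = 8 * M * √m * H ^ 2 / r ^ 2 := by
    field_simp
    ring
  have hpw : (h2 ^ (3 / 2 : ℝ)) ^ 2 = h2 ^ 3 := by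
    rw [← Real.rpow_natCast (h2 ^ (3 / 2 : ℝ)) 2, ← Real.rpow_mul (by positivity),
      ← Real.rpow_natCast h2 3]
    norm_num
  have h5 : 16 * ((1 + D / √n) ^ 2 * H ^ 2 * h2 ^ 3 / Sa) < r ^ 2 := by
    have h := pow_lt_pow_left₀ hr hX (two_ne_zero)
    refine lt_of_eq_of_lt ?_ h
    rw [mul_pow, div_pow, mul_pow, mul_pow, Real.sq_sqrt hSR.le, hpw]
    norm_num
  rw [h4] at h3
  have hr2 : 0 < r ^ 2 := by positivity
  have h6 : Sa * m * r ^ 2 ≤ h2 ^ 3 * (16 * D * √m * H ^ 2) := by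
    have : h2 ^ 3 * (8 * M * √m * H ^ 2 / r ^ 2) =
        (h2 ^ 3 * (8 * M * √m * H ^ 2)) / r ^ 2 := by ring
    rw [this, le_div_iff₀ hr2] at h3
    refine h3.trans ?_
    have h8 : 8 * M ≤ 16 * D := by linarith
    gcongr
  have h7 : 16 * ((1 + D / √n) ^ 2 * H ^ 2 * h2 ^ 3) < r ^ 2 * Sa := by
    rw [mul_div_assoc', div_lt_iff₀ hSR] at h5
    exact h5
  have h8 : 16 * ((1 + D / √n) ^ 2 * H ^ 2 * h2 ^ 3) * m < h2 ^ 3 * (16 * D * √m * H ^ 2) := by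
    have h := mul_lt_mul_of_pos_right h7 hmRpos
    have e : r ^ 2 * Sa * m = Sa * m * r ^ 2 := by ring
    rw [e] at h
    exact h.trans_le h6
  have hmm : m = √m * √m := (Real.mul_self_sqrt hmRpos.le).symm
  have hcoef : 0 < 16 * H ^ 2 * h2 ^ 3 * √m := by positivity
  have h9 : (1 + D / √n) ^ 2 * √m < D := by
    have e1' : 16 * ((1 + D / √n) ^ 2 * H ^ 2 * h2 ^ 3) * m =
        (16 * H ^ 2 * h2 ^ 3 * √m) * ((1 + D / √n) ^ 2 * √m) := by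
      calc 16 * ((1 + D / √n) ^ 2 * H ^ 2 * h2 ^ 3) * m
          = 16 * ((1 + D / √n) ^ 2 * H ^ 2 * h2 ^ 3) * (√m * √m) := by rw [← hmm]
        _ = (16 * H ^ 2 * h2 ^ 3 * √m) * ((1 + D / √n) ^ 2 * √m) := by ring
    have e2' : h2 ^ 3 * (16 * D * √m * H ^ 2) = (16 * H ^ 2 * h2 ^ 3 * √m) * D := by ring
    rw [e1', e2'] at h8
    exact lt_of_mul_lt_mul_left h8 hcoef.le
  have h10 : √n ≤ √m := Real.sqrt_le_sqrt (by linarith)
  have h11 : D ≤ (1 + D / √n) ^ 2 * √n := by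
    have hq : 0 ≤ D / √n := by positivity
    have : D = (D / √n) * √n := by field_simp
    calc D = (D / √n) * √n := this
      _ ≤ (1 + D / √n) ^ 2 * √n := by
        gcongr
        nlinarith
  have h12 : (1 + D / √n) ^ 2 * √n ≤ (1 + D / √n) ^ 2 * √m := by
    gcongr
  linarith

theorem cls_three (hDt : S_DET) (hC : S_CON) (hA : S_ARC) {n D H : ℕ} (hH : 1 ≤ H)
    (h2n : 2 * H ^ 2 ≤ n) (hD : 1 ≤ D) {S : ℤ} (hS : S ≠ 0) (hSH : |S| ≤ 2 * (H : ℤ) ^ 2)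
    {e1 e2 h1 h2 : ℕ} (he1 : 1 ≤ e1) (he2 : 1 ≤ e2) (hh1 : 1 ≤ h1) (hh2 : 1 ≤ h2)
    {S0 m0 : ℤ} (hS0 : S = (e1 : ℤ) ^ 2 * h1 * (h2 : ℤ) ^ 2 * S0)
    (hm0 : 4 * (n : ℤ) - S = (e2 : ℤ) ^ 2 * h1 * (h2 : ℤ) ^ 2 * m0)
    (c1 : IsCoprime m0 S0) (c2 : IsCoprime (h1 : ℤ) S0) (c3 : IsCoprime (h1 : ℤ) m0)
    {ρ σ τ : ℤ} {M : ℝ} {r : ℕ} {j : ℕ} (hM : 0 < M) (hMD : M ≤ 2 * D)
    (hr : 4 * ((1 + D / √(n : ℝ)) * H * (h2 : ℝ) ^ (3 / 2 : ℝ) / √(|(S : ℝ)|)) < r)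
    {z w v : ℤ × ℤ × ℤ}
    (hz : Gd n S e1 e2 h1 h2 S0 m0 ρ σ τ M (2 * H / (M * r)) j z)
    (hw : Gd n S e1 e2 h1 h2 S0 m0 ρ σ τ M (2 * H / (M * r)) j w)
    (hv : Gd n S e1 e2 h1 h2 S0 m0 ρ σ τ M (2 * H / (M * r)) j v)
    (hzw : z ≠ w) (hzv : z ≠ v) (hwv : w ≠ v) : False := by
  have hHR : (1 : ℝ) ≤ H := by exact_mod_cast hH
  have hDR : (1 : ℝ) ≤ D := by exact_mod_cast hD
  have hn : 1 ≤ n := by nlinarith
  have hnR : (1 : ℝ) ≤ n := by exact_mod_cast hn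
  have hSn : |S| ≤ (n : ℤ) := by
    refine hSH.trans ?_
    exact_mod_cast h2n
  have hm3 : 3 * (n : ℤ) ≤ 4 * n - S := by
    have := (abs_le.mp hSn).2
    linarith
  have hnZ : (1 : ℤ) ≤ n := by exact_mod_cast hn
  have hmpos : 0 < 4 * (n : ℤ) - S := by linarith
  set m : ℤ := 4 * (n : ℤ) - S with hmdef
  have hmR : 3 * (n : ℝ) ≤ (m : ℝ) := by exact_mod_cast hm3
  have hmRpos : 0 < (m : ℝ) := by linarith
  have hsm : 0 < √(m : ℝ) := Real.sqrt_pos.mpr hmRpos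
  have hsn : 0 < √(n : ℝ) := Real.sqrt_pos.mpr (by linarith)
  have hSR : 0 < |(S : ℝ)| := abs_pos.mpr (by exact_mod_cast hS)
  have hsS : 0 < √(|(S : ℝ)|) := Real.sqrt_pos.mpr hSR
  have hh2R : (1 : ℝ) ≤ h2 := by exact_mod_cast hh2
  have hX : 0 ≤ 4 * ((1 + D / √(n : ℝ)) * H * (h2 : ℝ) ^ (3 / 2 : ℝ) / √(|(S : ℝ)|)) := by positivity
  have hrR : (0 : ℝ) < r := lt_of_le_of_lt hX hr
  have hθ : 0 < 2 * (H : ℝ) / (M * r) := by positivity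
  set θ : ℝ := 2 * (H : ℝ) / (M * r) with hθdef
  -- lower bound
  have hdet0 : det3 z w v ≠ 0 := by
    refine hC S m hS hmpos z w v ?_ hzw hzv hwv
    intro u hu
    simp only [List.mem_cons, List.not_mem_nil, or_false] at hu
    rcases hu with rfl | rfl | rfl
    · obtain ⟨_, _, _, _, _, _, _, a1, _, a2, _, _, a3, _⟩ := hz
      exact ⟨a1, a2, a3⟩
    · obtain ⟨_, _, _, _, _, _, _, a1, _, a2, _, _, a3, _⟩ := hw
      exact ⟨a1, a2, a3⟩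
    · obtain ⟨_, _, _, _, _, _, _, a1, _, a2, _, _, a3, _⟩ := hv
      exact ⟨a1, a2, a3⟩
  -- upper bound
  have hup : |((det3 z w v : ℤ) : ℝ)| ≤ 2 * M ^ 3 * √(m : ℝ) * θ ^ 2 := by
    have hall : ∀ u ∈ [z, w, v], Gd n S e1 e2 h1 h2 S0 m0 ρ σ τ M θ j u := by
      intro u hu
      simp only [List.mem_cons, List.not_mem_nil, or_false] at hu
      rcases hu with rfl | rfl | rfl <;> assumption
    refine hA S m M θ hS hmpos hM hθ.le z w v ?_ ?_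
    · intro u hu
      obtain ⟨_, _, _, _, _, _, _, a1, a2, _, a3, a4, a5, _⟩ := hall u hu
      exact ⟨a1, a2, a3, a4, a5⟩
    · intro u hu u' hu'
      obtain ⟨_, _, _, _, _, _, _, a1, _, _, a3, a4, a5, a6, a7⟩ := hall u hu
      obtain ⟨_, _, _, _, _, _, _, b1, _, _, b3, b4, b5, b6, b7⟩ := hall u' hu'
      have a1' : (1 : ℝ) ≤ (u.2.1 : ℝ) := by exact_mod_cast a1
      have b1' : (1 : ℝ) ≤ (u'.2.1 : ℝ) := by exact_mod_cast b1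
      have a3' : (0 : ℝ) ≤ (u.1 : ℝ) := by exact_mod_cast a3
      have b3' : (0 : ℝ) ≤ (u'.1 : ℝ) := by exact_mod_cast b3
      have a4' : (0 : ℝ) ≤ (u.2.2 : ℝ) := by exact_mod_cast a4
      have b4' : (0 : ℝ) ≤ (u'.2.2 : ℝ) := by exact_mod_cast b4
      refine ⟨fun h => ?_, fun h => ?_⟩
      · exact cls_floor hθ (by positivity) (by positivity) (a6 h) (b6 h)
      · exact cls_floor (by positivity) (by positivity) (by positivity) (a7 h) (b7 h)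
  -- divisibility
  obtain ⟨A, B, E, rfl, x1, x2, x3, -⟩ := hz
  obtain ⟨A', B', E', rfl, y1, y2, y3, -⟩ := hw
  obtain ⟨A'', B'', E'', rfl, z1, z2, z3, -⟩ := hv
  have hkey := cls_det (e1 : ℤ) e2 h1 h2 (A, B, E) (A', B', E') (A'', B'', E'')
  simp only at hkey
  rw [hkey] at hdet0 hup
  have hS0ne : S0 ≠ 0 := by
    rintro rfl
    apply hS
    rw [hS0]; ring
  have hm0ne : m0 ≠ 0 := by
    rintro rfl
    rw [mul_zero] at hm0
    rw [hm0] at hmpos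
    exact lt_irrefl _ hmpos
  have hh1ne : (h1 : ℤ) ≠ 0 := by
    have : 0 < h1 := hh1
    exact_mod_cast this.ne'
  have hdvd := hDt S0 m0 h1 hS0ne hm0ne hh1ne c1 c2 c3 ρ σ τ (A, B, E) (A', B', E') (A'', B'', E'')
    (by
      intro u hu
      simp only [List.mem_cons, List.not_mem_nil, or_false] at hu
      rcases hu with rfl | rfl | rfl
      · exact ⟨x1, x2, x3⟩
      · exact ⟨y1, y2, y3⟩
      · exact ⟨z1, z2, z3⟩)
  have hd1 : det3 (A, B, E) (A', B', E') (A'', B'', E'') ≠ 0 := by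
    intro h
    rw [h, mul_zero] at hdet0
    exact hdet0 rfl
  set d1 := det3 (A, B, E) (A', B', E') (A'', B'', E'') with hd1def
  have hle : |S0 * m0 * h1| ≤ |d1| := by
    obtain ⟨k, hk⟩ := hdvd
    have hk0 : k ≠ 0 := by
      rintro rfl
      rw [mul_zero] at hk
      exact hd1 hk
    have hk1 : 1 ≤ |k| := Int.one_le_abs hk0
    rw [hk, abs_mul (S0 * m0 * h1) k]
    exact le_mul_of_one_le_right (abs_nonneg _) hk1
  -- S m = h2^3 * (e1^2 e2^2 h1 h2) * (S0 m0 h1)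
  have hSm : S * m = (h2 : ℤ) ^ 3 * ((e1 : ℤ) ^ 2 * (e2 : ℤ) ^ 2 * h1 * h2 * (S0 * m0 * h1)) := by
    rw [hm0, hS0]; ring
  have hlow : |S * m| ≤ (h2 : ℤ) ^ 3 * |(e1 : ℤ) ^ 2 * (e2 : ℤ) ^ 2 * h1 * h2 * d1| := by
    rw [hSm, abs_mul, abs_mul, abs_mul ((e1 : ℤ) ^ 2 * (e2 : ℤ) ^ 2 * h1 * h2) d1]
    rw [abs_of_nonneg (by positivity : (0 : ℤ) ≤ (h2 : ℤ) ^ 3)]
    gcongr
  have hlowR : |(S : ℝ)| * m ≤ (h2 : ℝ) ^ 3 *
      |(((e1 : ℤ) ^ 2 * (e2 : ℤ) ^ 2 * h1 * h2 * d1 : ℤ) : ℝ)| := by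
    have h := (Int.cast_le (R := ℝ)).mpr hlow
    rw [abs_mul, abs_of_pos hmpos] at h
    rw [Int.cast_mul, Int.cast_abs, Int.cast_mul, Int.cast_abs] at h
    simpa using h
  have h3 : |(S : ℝ)| * m ≤ (h2 : ℝ) ^ 3 * (2 * M ^ 3 * √(m : ℝ) * θ ^ 2) := by
    refine hlowR.trans ?_
    gcongr
  exact cls_real hSR hmR hnR hDR hHR hh2R hM hMD hr h3

theorem cls_card {α β : Type*} [DecidableEq α] [DecidableEq β] [Nonempty β] {P : Finset α} {T : Finset β}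
    (Q : α → β → Prop) (h1 : ∀ z ∈ P, ∃ t ∈ T, Q z t)
    (h2 : ∀ t ∈ T, ∀ z ∈ P, ∀ w ∈ P, ∀ v ∈ P, Q z t → Q w t → Q v t → z ≠ w → z ≠ v → w ≠ v → False) :
    P.card ≤ 2 * T.card := by
  classical
  choose! f hf1 hf2 using h1
  refine Finset.card_le_mul_card_image_of_maps_to hf1 2 ?_
  intro t ht
  by_contra hcon
  push Not at hcon
  obtain ⟨a, ha, b, hb, c, hc, hab, hac, hbc⟩ := Finset.two_lt_card.mp hcon
  rw [Finset.mem_filter] at ha hb hc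
  refine h2 t ht a ha.1 b hb.1 c hc.1 ?_ ?_ ?_ hab hac hbc
  · rw [← ha.2]; exact hf2 a ha.1
  · rw [← hb.2]; exact hf2 b hb.1
  · rw [← hc.2]; exact hf2 c hc.1

theorem cls_res {N a b c h : ℤ} (hN : N ≠ 0) (hco : IsCoprime a N) (hd : N ∣ h * b ^ 2 - c * a ^ 2) :
    ∃ r : ℕ, r < N.natAbs ∧ ((N.natAbs : ℕ) : ℤ) ∣ h * (r : ℤ) ^ 2 - c ∧ N ∣ b - (r : ℤ) * a := by
  obtain ⟨u, v, huv⟩ := hco
  have h0 : 0 ≤ (u * b) % N := Int.emod_nonneg _ hN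
  have h1 : (u * b) % N < |N| := Int.emod_lt_abs _ hN
  refine ⟨((u * b) % N).toNat, ?_, ?_, ?_⟩
  · have : ((((u * b) % N).toNat : ℕ) : ℤ) < ((N.natAbs : ℕ) : ℤ) := by
      rw [Int.toNat_of_nonneg h0, Int.natCast_natAbs]
      exact h1
    exact_mod_cast this
  · rw [Int.toNat_of_nonneg h0, Int.natCast_natAbs, abs_dvd]
    have hq : N ∣ u * b - (u * b) % N := ⟨u * b / N, by
      have := Int.emod_add_mul_ediv (u * b) N
      linarith⟩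
    set r := (u * b) % N with hr
    have hba : N ∣ b - r * a := by
      have e : b - r * a = b * v * N + (u * b - r) * a := by
        have : b = b * (u * a + v * N) := by rw [huv, mul_one]
        nth_rewrite 1 [this]
        ring
      rw [e]
      exact dvd_add (Dvd.intro_left _ rfl) (Dvd.dvd.mul_right hq _)
    have hco2 : IsCoprime N (a ^ 2) := (IsCoprime.pow_left ⟨u, v, huv⟩).symm
    refine hco2.dvd_of_dvd_mul_right ?_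
    have e : (h * r ^ 2 - c) * a ^ 2 = (h * b ^ 2 - c * a ^ 2) - (b - r * a) * (h * (b + r * a)) := by
      ring
    rw [e]
    exact dvd_sub hd (Dvd.dvd.mul_right hba _)
  · rw [Int.toNat_of_nonneg h0]
    have hq : N ∣ u * b - (u * b) % N := ⟨u * b / N, by
      have := Int.emod_add_mul_ediv (u * b) N
      linarith⟩
    set r := (u * b) % N with hr
    have e : b - r * a = b * v * N + (u * b - r) * a := by
      have : b = b * (u * a + v * N) := by rw [huv, mul_one]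
      nth_rewrite 1 [this]
      ring
    rw [e]
    exact dvd_add (Dvd.intro_left _ rfl) (Dvd.dvd.mul_right hq _)

theorem cls_coabs {a N : ℤ} (h : IsCoprime a N) : IsCoprime a ((N.natAbs : ℕ) : ℤ) := by
  rw [Int.natCast_natAbs]
  rcases abs_choice N with h' | h' <;> rw [h']
  · exact h
  · exact h.neg_right

theorem cls_coabs' {a N : ℤ} (h : IsCoprime a N) : IsCoprime |a| N := by
  rcases abs_choice a with h' | h' <;> rw [h']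
  · exact h
  · exact h.neg_left

theorem cls_clog {b : ℤ} (hb : 1 ≤ b) : b ≤ 2 ^ (Nat.clog 2 b.toNat) ∧
    (2 : ℤ) ^ (Nat.clog 2 b.toNat) ≤ 2 * b := by
  have hb0 : 0 ≤ b := by linarith
  constructor
  · have h := Nat.le_pow_clog (by norm_num : 1 < 2) b.toNat
    have : ((b.toNat : ℕ) : ℤ) ≤ ((2 ^ (Nat.clog 2 b.toNat) : ℕ) : ℤ) := by exact_mod_cast h
    rw [Int.toNat_of_nonneg hb0] at this
    simpa using this
  · rcases eq_or_lt_of_le hb with h1 | h1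
    · rw [← h1]; simp
    · have hx : 1 < b.toNat := by
        have : (1 : ℤ) < ((b.toNat : ℕ) : ℤ) := by rw [Int.toNat_of_nonneg hb0]; exact h1
        exact_mod_cast this
      have h := Nat.pow_pred_clog_lt_self (by norm_num : 1 < 2) hx
      have hpos : 0 < Nat.clog 2 b.toNat := Nat.clog_pos (by norm_num) hx
      have h2 : 2 ^ (Nat.clog 2 b.toNat) = 2 * 2 ^ (Nat.clog 2 b.toNat).pred := by
        obtain ⟨k, hk⟩ := Nat.exists_eq_succ_of_ne_zero hpos.ne'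
        rw [hk, Nat.pred_succ, Nat.pow_succ]; ring
      have h3 : 2 ^ (Nat.clog 2 b.toNat) ≤ 2 * b.toNat := by omega
      have h4 : ((2 ^ (Nat.clog 2 b.toNat) : ℕ) : ℤ) ≤ ((2 * b.toNat : ℕ) : ℤ) := by exact_mod_cast h3
      push_cast at h4
      rw [Int.toNat_of_nonneg hb0] at h4
      exact h4

/-- the nonnegative solutions -/
def pscp (n D H : ℕ) (S : ℤ) (e1 e2 h1 h2 : ℕ) : Set (ℤ × ℤ × ℤ) :=
  {z | z ∈ psc n D H S e1 e2 h1 h2 ∧ 0 ≤ z.1 ∧ 0 ≤ z.2.2}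

theorem cls_sym (hF : S_PSFIN) (n D H : ℕ) (S : ℤ) (e1 e2 h1 h2 : ℕ) :
    (psc n D H S e1 e2 h1 h2).ncard ≤ 4 * (pscp n D H S e1 e2 h1 h2).ncard := by
  classical
  have hfin : (psc n D H S e1 e2 h1 h2).Finite := (hF n D H S).subset (fun z hz => hz.1)
  have hfin' : (pscp n D H S e1 e2 h1 h2).Finite := hfin.subset (fun z hz => hz.1)
  rw [Set.ncard_eq_toFinset_card _ hfin, Set.ncard_eq_toFinset_card _ hfin']
  refine Finset.card_le_mul_card_image_of_maps_to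
    (f := fun z : ℤ × ℤ × ℤ => (|z.1|, z.2.1, |z.2.2|)) ?_ 4 ?_
  · intro z hz
    rw [Set.Finite.mem_toFinset] at hz ⊢
    obtain ⟨⟨a1, a2, a3, a4, a5⟩, S0, m0, A1, B1, E1, b1, b2, b3, b4, b5, b6, b7, b8, b9, b10, b11, b12, b13⟩ := hz
    refine ⟨⟨⟨?_, a2, a3, ?_, ?_⟩, S0, m0, |A1|, B1, |E1|, b1, b2, ?_, b4, ?_, ?_, cls_coabs' b7, b8,
      cls_coabs' b9, b10, b11, b12, b13⟩, abs_nonneg _, abs_nonneg _⟩
    · simpa using a1
    · show Int.gcd |z.1| z.2.1 = 1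
      rw [Int.gcd, Int.natAbs_abs]
      exact a4
    · simpa using a5
    · show |z.1| = (e1 : ℤ) * |A1|
      rw [b3, abs_mul, Nat.abs_cast]
    · show |z.2.2| = (e1 : ℤ) * e2 * h1 * h2 * |E1|
      rw [b5, abs_mul, abs_mul, abs_mul, abs_mul, Nat.abs_cast, Nat.abs_cast, Nat.abs_cast,
        Nat.abs_cast]
    · rw [sq_abs, sq_abs]; exact b6
  · intro b hb
    have hsub : (hfin.toFinset.filter (fun z : ℤ × ℤ × ℤ => (|z.1|, z.2.1, |z.2.2|) = b)) ⊆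
        ({(b.1, b.2.1, b.2.2), (-b.1, b.2.1, b.2.2), (b.1, b.2.1, -b.2.2), (-b.1, b.2.1, -b.2.2)} :
          Finset (ℤ × ℤ × ℤ)) := by
      intro z hz
      rw [Finset.mem_filter] at hz
      obtain ⟨-, rfl⟩ := hz
      obtain ⟨x, y, w⟩ := z
      simp only [Finset.mem_insert, Finset.mem_singleton, Prod.mk.injEq, true_and]
      rcases abs_choice x with hx | hx <;> rcases abs_choice w with hw | hw <;> rw [hx, hw] <;> simp
    exact (Finset.card_le_card hsub).trans Finset.card_le_four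

theorem cls_count (hF : S_PSFIN) (hDt : S_DET) (hC : S_CON) (hA : S_ARC) {n D H : ℕ} (hH : 1 ≤ H)
    (h2n : 2 * H ^ 2 ≤ n) (hD : 1 ≤ D) {S : ℤ} (hS : S ≠ 0) (hSH : |S| ≤ 2 * (H : ℤ) ^ 2)
    {e1 e2 h1 h2 : ℕ} (he1 : 1 ≤ e1) (he2 : 1 ≤ e2) (hh1 : 1 ≤ h1) (hh2 : 1 ≤ h2)
    {S0 m0 : ℤ} (hS0 : S = (e1 : ℤ) ^ 2 * h1 * (h2 : ℤ) ^ 2 * S0)
    (hm0 : 4 * (n : ℤ) - S = (e2 : ℤ) ^ 2 * h1 * (h2 : ℤ) ^ 2 * m0)
    (c1 : IsCoprime m0 S0) (c2 : IsCoprime (h1 : ℤ) S0) (c3 : IsCoprime (h1 : ℤ) m0)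
    {r : ℕ} (hr : 4 * ((1 + D / √(n : ℝ)) * H * (h2 : ℝ) ^ (3 / 2 : ℝ) / √(|(S : ℝ)|)) < r) :
    (pscp n D H S e1 e2 h1 h2).ncard ≤ 2 *
      (((range S0.natAbs).filter (fun x : ℕ => ((S0.natAbs : ℕ) : ℤ) ∣ h1 * (x : ℤ) ^ 2 - m0)) ×ˢ
       ((range m0.natAbs).filter (fun x : ℕ => ((m0.natAbs : ℕ) : ℤ) ∣ h1 * (x : ℤ) ^ 2 - S0)) ×ˢ
       ((range h1).filter (fun x : ℕ => (h1 : ℤ) ∣ m0 * (x : ℤ) ^ 2 - (-S0))) ×ˢ
       (range (Nat.clog 2 D + 1)) ×ˢ (range (r + 1))).card := by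
  classical
  have hfin : (pscp n D H S e1 e2 h1 h2).Finite := (hF n D H S).subset (fun z hz => hz.1.1)
  rw [Set.ncard_eq_toFinset_card _ hfin]
  have hHR : (1 : ℝ) ≤ H := by exact_mod_cast hH
  have hn : 1 ≤ n := by nlinarith
  have hSn : |S| ≤ (n : ℤ) := by
    refine hSH.trans ?_
    exact_mod_cast h2n
  have hnZ : (1 : ℤ) ≤ n := by exact_mod_cast hn
  have hm3 : 3 * (n : ℤ) ≤ 4 * n - S := by
    have := (abs_le.mp hSn).2
    linarith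
  have hmpos : 0 < 4 * (n : ℤ) - S := by linarith
  have hmRpos : (0 : ℝ) < ((4 * (n : ℤ) - S : ℤ) : ℝ) := by exact_mod_cast hmpos
  have hsm : 0 < √((4 * (n : ℤ) - S : ℤ) : ℝ) := Real.sqrt_pos.mpr hmRpos
  have hX : 0 ≤ 4 * ((1 + D / √(n : ℝ)) * H * (h2 : ℝ) ^ (3 / 2 : ℝ) / √(|(S : ℝ)|)) := by positivity
  have hrR : (0 : ℝ) < r := lt_of_le_of_lt hX hr
  have hS0ne : S0 ≠ 0 := by
    rintro rfl
    apply hS
    rw [hS0]; ring
  have hm0ne : m0 ≠ 0 := by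
    rintro rfl
    rw [mul_zero] at hm0
    rw [hm0] at hmpos
    exact lt_irrefl _ hmpos
  have hh1ne : (h1 : ℤ) ≠ 0 := by
    have : 0 < h1 := hh1
    exact_mod_cast this.ne'
  have hh2ne : (h2 : ℤ) ≠ 0 := by
    have : 0 < h2 := hh2
    exact_mod_cast this.ne'
  have he1ne : (e1 : ℤ) ≠ 0 := by
    have : 0 < e1 := he1
    exact_mod_cast this.ne'
  have he2ne : (e2 : ℤ) ≠ 0 := by
    have : 0 < e2 := he2
    exact_mod_cast this.ne'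
  refine cls_card (fun (z : ℤ × ℤ × ℤ) (t : ℕ × ℕ × ℕ × ℕ × ℕ) =>
    Gd n S e1 e2 h1 h2 S0 m0 t.1 t.2.1 t.2.2.1 (2 ^ t.2.2.2.1)
      (2 * H / ((2 ^ t.2.2.2.1) * r)) t.2.2.2.2 z ∧ ((2 : ℝ) ^ t.2.2.2.1 ≤ 2 * D)) ?_ ?_
  · intro z hz
    rw [Set.Finite.mem_toFinset] at hz
    obtain ⟨⟨⟨a1, a2, a3, a4, a5⟩, S0', m0', A1, B1, E1, b1, b2, b3, b4, b5, b6, b7, b8, b9, b10, b11, b12, b13⟩, p1, p2⟩ := hz
    have hcS : (e1 : ℤ) ^ 2 * h1 * (h2 : ℤ) ^ 2 ≠ 0 := by positivity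
    have hcm : (e2 : ℤ) ^ 2 * h1 * (h2 : ℤ) ^ 2 ≠ 0 := by positivity
    have hSS : S0' = S0 := mul_left_cancel₀ hcS (b1.symm.trans hS0)
    have hmm : m0' = m0 := mul_left_cancel₀ hcm (b2.symm.trans hm0)
    subst hSS hmm
    obtain ⟨ρ, hρ1, hρ2, hρ3⟩ := cls_res (N := S0') (a := A1) (b := E1) (c := m0') (h := h1) hS0ne b7
      ⟨B1 ^ 2, by rw [b6]; ring⟩
    obtain ⟨σ, hσ1, hσ2, hσ3⟩ := cls_res (N := m0') (a := B1) (b := E1) (c := S0') (h := h1) hm0ne b8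
      ⟨A1 ^ 2, by rw [b6]; ring⟩
    obtain ⟨τ, hτ1, hτ2, hτ3⟩ := cls_res (N := (h1 : ℤ)) (a := B1) (b := A1) (c := -S0') (h := m0')
      hh1ne b10 ⟨E1 ^ 2, by rw [b6]; ring⟩
    rw [Int.natAbs_natCast] at hτ1 hτ2
    obtain ⟨g1, g2⟩ := cls_clog a2
    set i := Nat.clog 2 z.2.1.toNat with hi
    have hBpos : (0 : ℝ) < (z.2.1 : ℝ) := by exact_mod_cast a2
    have hAnn : (0 : ℝ) ≤ (z.1 : ℝ) := by exact_mod_cast p1
    have hEnn : (0 : ℝ) ≤ (z.2.2 : ℝ) := by exact_mod_cast p2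
    have g1' : (z.2.1 : ℝ) ≤ 2 ^ i := by exact_mod_cast g1
    have g2' : (2 : ℝ) ^ i ≤ 2 * (z.2.1 : ℝ) := by exact_mod_cast g2
    have hBD : (z.2.1 : ℝ) ≤ D := by exact_mod_cast a3
    have hAH : (z.1 : ℝ) ≤ H := by
      have : z.1 ≤ (H : ℤ) := (le_abs_self _).trans a1
      exact_mod_cast this
    have h2i : (0 : ℝ) < 2 ^ i := by positivity
    have hAB : (z.1 : ℝ) / z.2.1 ≤ 2 * H / 2 ^ i := by
      rw [div_le_div_iff₀ hBpos h2i]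
      nlinarith
    have hθ : (0 : ℝ) < 2 * H / (2 ^ i * r) := by positivity
    have hidx1 : (z.1 : ℝ) / z.2.1 / (2 * H / (2 ^ i * r)) ≤ r := by
      rw [div_le_iff₀ hθ]
      refine hAB.trans (le_of_eq ?_)
      field_simp
    have hidx2 : S < 0 → (z.2.2 : ℝ) / z.2.1 / (2 * H / (2 ^ i * r) * √((4 * (n : ℤ) - S : ℤ) : ℝ)) ≤ r := by
      intro hneg
      have hE : (z.2.2 : ℝ) ≤ √((4 * (n : ℤ) - S : ℤ) : ℝ) * z.1 := by
        have h1 : (z.2.2 : ℝ) ^ 2 ≤ (√((4 * (n : ℤ) - S : ℤ) : ℝ) * z.1) ^ 2 := by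
          rw [mul_pow, Real.sq_sqrt hmRpos.le]
          have : z.2.2 ^ 2 ≤ (4 * (n : ℤ) - S) * z.1 ^ 2 := by
            rw [a5]
            nlinarith [sq_nonneg z.2.1]
          exact_mod_cast this
        exact (sq_le_sq₀ hEnn (by positivity)).mp h1
      rw [div_le_iff₀ (by positivity)]
      have h5 : (z.2.2 : ℝ) / z.2.1 ≤ √((4 * (n : ℤ) - S : ℤ) : ℝ) * ((z.1 : ℝ) / z.2.1) := by
        rw [← mul_div_assoc]
        gcongr
      rw [div_le_iff₀ hθ] at hidx1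
      calc (z.2.2 : ℝ) / z.2.1 ≤ √((4 * (n : ℤ) - S : ℤ) : ℝ) * ((z.1 : ℝ) / z.2.1) := h5
        _ ≤ √((4 * (n : ℤ) - S : ℤ) : ℝ) * (r * (2 * H / (2 ^ i * r))) := by gcongr
        _ = r * (2 * H / (2 ^ i * r) * √((4 * (n : ℤ) - S : ℤ) : ℝ)) := by ring
    refine ⟨(ρ, σ, τ, i, if 0 < S then ⌊(z.1 : ℝ) / z.2.1 / (2 * H / (2 ^ i * r))⌋₊ else
      ⌊(z.2.2 : ℝ) / z.2.1 / (2 * H / (2 ^ i * r) * √((4 * (n : ℤ) - S : ℤ) : ℝ))⌋₊), ?_, ?_, ?_⟩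
    · simp only [Finset.mem_product, Finset.mem_filter, Finset.mem_range]
      refine ⟨⟨hρ1, hρ2⟩, ⟨hσ1, hσ2⟩, ⟨hτ1, hτ2⟩, ?_, ?_⟩
      · refine Nat.lt_succ_of_le (Nat.clog_mono_right 2 ?_)
        have : z.2.1.toNat ≤ (D : ℤ).toNat := Int.toNat_le_toNat a3
        simpa using this
      · split_ifs with hpos
        · refine Nat.lt_succ_of_le (Nat.floor_le_of_le ?_)
          exact hidx1
        · refine Nat.lt_succ_of_le (Nat.floor_le_of_le ?_)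
          exact hidx2 (lt_of_le_of_ne (not_lt.mp hpos) hS)
    · refine ⟨A1, B1, E1, ?_, hρ3, hσ3, hτ3, a2, g1', a4, p1, p2, a5, ?_, ?_⟩
      · rw [← b3, ← b4, ← b5]
      · intro hpos
        simp only [if_pos hpos]
      · intro hneg
        simp only [if_neg (not_lt.mpr hneg.le)]
    · show (2 : ℝ) ^ i ≤ 2 * D
      linarith
  · intro t ht z hz w hw v hv q1 q2 q3 hzw hzv hwv
    exact cls_three hDt hC hA hH h2n hD hS hSH he1 he2 hh1 hh2 hS0 hm0 c1 c2 c3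
      (by positivity) q1.2 hr q1.1 q2.1 q3.1 hzw hzv hwv

theorem cls_log (ε : ℝ) (hε : 0 < ε) : ∃ C : ℝ, 0 < C ∧ ∀ n D : ℕ, 1 ≤ D → D ≤ n →
    ((Nat.clog 2 D + 1 : ℕ) : ℝ) ≤ C * (n : ℝ) ^ ε := by
  have hl2 : 0 < Real.log 2 := Real.log_pos (by norm_num)
  refine ⟨2 + 1 / (ε * Real.log 2), by positivity, fun n D hD hDn => ?_⟩
  have hDR : (1 : ℝ) ≤ D := by exact_mod_cast hD
  have hDn' : (D : ℝ) ≤ n := by exact_mod_cast hDn
  have hn1 : (1 : ℝ) ≤ (n : ℝ) ^ ε := Real.one_le_rpow (hDR.trans hDn') hε.le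
  have hDn2 : (D : ℝ) ^ ε ≤ (n : ℝ) ^ ε := Real.rpow_le_rpow (by positivity) hDn' hε.le
  have hlog : Real.log D ≤ (D : ℝ) ^ ε / ε := Real.log_le_rpow_div (by positivity) hε
  have hc : ((Nat.clog 2 D : ℕ) : ℝ) ≤ 1 + Real.log D / Real.log 2 := by
    rcases eq_or_lt_of_le hD with h1 | h1
    · rw [← h1]; simp
    · have h := Nat.pow_pred_clog_lt_self (by norm_num : 1 < 2) h1
      have hpos : 0 < Nat.clog 2 D := Nat.clog_pos (by norm_num) h1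
      have h' : ((2 : ℝ)) ^ (Nat.clog 2 D).pred ≤ D := by exact_mod_cast h.le
      have h2 := Real.log_le_log (by positivity) h'
      rw [Real.log_pow] at h2
      have h3 : (((Nat.clog 2 D).pred : ℕ) : ℝ) ≤ Real.log D / Real.log 2 := by
        rw [le_div_iff₀ hl2]; exact h2
      have h4 : ((Nat.clog 2 D : ℕ) : ℝ) = 1 + (((Nat.clog 2 D).pred : ℕ) : ℝ) := by
        have : Nat.clog 2 D = 1 + (Nat.clog 2 D).pred := by
          rw [Nat.pred_eq_sub_one]; omega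
        exact_mod_cast this
      rw [h4]; linarith
  have h5 : Real.log D / Real.log 2 ≤ 1 / (ε * Real.log 2) * (n : ℝ) ^ ε := by
    rw [div_le_iff₀ hl2]
    calc Real.log D ≤ (D : ℝ) ^ ε / ε := hlog
      _ ≤ (n : ℝ) ^ ε / ε := by gcongr
      _ = 1 / (ε * Real.log 2) * (n : ℝ) ^ ε * Real.log 2 := by field_simp
  push_cast
  nlinarith

theorem cls_root (hR : S_ROOT) (ε : ℝ) (hε : 0 < ε) : ∃ C : ℝ, 0 < C ∧ ∀ n : ℕ, 1 ≤ n → ∀ N : ℕ, 1 ≤ N → N ≤ 5 * n →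
    ∀ h c : ℤ, IsCoprime h (N : ℤ) → IsCoprime c (N : ℤ) →
    (((range N).filter (fun r : ℕ => (N : ℤ) ∣ h * (r : ℤ) ^ 2 - c)).card : ℝ) ≤ C * (n : ℝ) ^ ε := by
  obtain ⟨C, hC, h⟩ := hR ε hε
  refine ⟨C * (5 : ℝ) ^ ε, by positivity, fun n hn N hN hNn a c h1 h2 => ?_⟩
  refine (h N hN a c h1 h2).trans ?_
  have hNn' : (N : ℝ) ≤ 5 * n := by exact_mod_cast hNn
  rw [mul_assoc, ← Real.mul_rpow (by norm_num) (by positivity)]
  gcongr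

theorem CLS_ok (hF : S_PSFIN) (hR : S_ROOT) (hDt : S_DET) (hC : S_CON) (hA : S_ARC) : S_CLS := by
  intro ε hε
  obtain ⟨C1, hC1, hroot⟩ := cls_root hR (ε / 4) (by positivity)
  obtain ⟨C2, hC2, hlog⟩ := cls_log (ε / 4) (by positivity)
  refine ⟨32 * (C1 ^ 3 * C2), by positivity, ?_⟩
  intro n D H hH h2n hD hDn S hS hSH e1 e2 h1 h2 he1 he2 hh1 hh2
  have hHR : (1 : ℝ) ≤ H := by exact_mod_cast hH
  have hn : 1 ≤ n := by nlinarith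
  have hnR : (1 : ℝ) ≤ n := by exact_mod_cast hn
  set X : ℝ := (1 + D / √(n : ℝ)) * H * (h2 : ℝ) ^ (3 / 2 : ℝ) / √(|(S : ℝ)|) with hXdef
  have hX0 : 0 ≤ X := by positivity
  have htrm : trm n D H S h2 = 1 + X := rfl
  have hRHS : 0 ≤ 32 * (C1 ^ 3 * C2) * (n : ℝ) ^ ε * trm n D H S h2 := by
    rw [htrm]; positivity
  by_cases hne : (pscp n D H S e1 e2 h1 h2).Nonempty
  · obtain ⟨z, ⟨⟨a1, a2, a3, a4, a5⟩, S0, m0, A1, B1, E1, b1, b2, b3, b4, b5, b6, b7, b8, b9, b10, b11, b12, b13⟩, p1, p2⟩ := hne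
    have hSn : |S| ≤ (n : ℤ) := by
      refine hSH.trans ?_
      exact_mod_cast h2n
    have hmpos : 0 < 4 * (n : ℤ) - S := by
      have := (abs_le.mp hSn).2
      have : (1 : ℤ) ≤ n := by exact_mod_cast hn
      linarith
    have hm5 : 4 * (n : ℤ) - S ≤ 5 * n := by
      have := (abs_le.mp hSn).1
      linarith
    have hr : 4 * ((1 + D / √(n : ℝ)) * H * (h2 : ℝ) ^ (3 / 2 : ℝ) / √(|(S : ℝ)|)) <
        ((⌊4 * X⌋₊ + 1 : ℕ) : ℝ) := by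
      have := Nat.lt_floor_add_one (4 * X)
      push_cast
      exact this
    have hcount := cls_count hF hDt hC hA hH h2n hD hS hSH he1 he2 hh1 hh2 b1 b2 b11 b12 b13 hr
    have hsym := cls_sym hF n D H S e1 e2 h1 h2
    have hS0ne : S0 ≠ 0 := by
      rintro rfl
      apply hS
      rw [b1]; ring
    have hm0pos : 0 < m0 := by
      have hc : 0 < (e2 : ℤ) ^ 2 * h1 * (h2 : ℤ) ^ 2 := by
        have : 0 < (e2 : ℤ) := by exact_mod_cast he2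
        have : 0 < (h1 : ℤ) := by exact_mod_cast hh1
        have : 0 < (h2 : ℤ) := by exact_mod_cast hh2
        positivity
      rw [b2] at hmpos
      exact (mul_pos_iff_of_pos_left hc).mp hmpos
    have d1 : S0.natAbs ≤ 5 * n := by
      have h1' : S0.natAbs ≤ S.natAbs := Nat.le_of_dvd (Int.natAbs_pos.mpr hS)
        (Int.natAbs_dvd_natAbs.mpr ⟨(e1 : ℤ) ^ 2 * h1 * (h2 : ℤ) ^ 2, by rw [b1]; ring⟩)
      have h2' : (S.natAbs : ℤ) ≤ n := by rw [Int.natCast_natAbs]; exact hSn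
      have h3' : S.natAbs ≤ n := by exact_mod_cast h2'
      omega
    have d3 : h1 ≤ 5 * n := by
      have h1' : h1 ≤ S.natAbs := Nat.le_of_dvd (Int.natAbs_pos.mpr hS)
        (Int.natCast_dvd.mp ⟨(e1 : ℤ) ^ 2 * (h2 : ℤ) ^ 2 * S0, by rw [b1]; ring⟩)
      have h2' : (S.natAbs : ℤ) ≤ n := by rw [Int.natCast_natAbs]; exact hSn
      have h3' : S.natAbs ≤ n := by exact_mod_cast h2'
      omega
    have d2 : m0.natAbs ≤ 5 * n := by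
      have h1' : m0 ≤ 4 * (n : ℤ) - S := Int.le_of_dvd hmpos
        ⟨(e2 : ℤ) ^ 2 * h1 * (h2 : ℤ) ^ 2, by rw [b2]; ring⟩
      have h2' : (m0.natAbs : ℤ) ≤ 5 * n := by
        rw [Int.natCast_natAbs, abs_of_pos hm0pos]
        linarith
      exact_mod_cast h2'
    have r1 := hroot n hn S0.natAbs (Int.natAbs_pos.mpr hS0ne) d1 (h1 : ℤ) m0 (cls_coabs b12)
      (cls_coabs b11)
    have r2 := hroot n hn m0.natAbs (Int.natAbs_pos.mpr hm0pos.ne') d2 (h1 : ℤ) S0 (cls_coabs b13)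
      (cls_coabs b11.symm)
    have r3 := hroot n hn h1 hh1 d3 m0 (-S0) b13.symm b12.symm.neg_left
    have r4 := hlog n D hD hDn
    have r5 : ((⌊4 * X⌋₊ + 1 + 1 : ℕ) : ℝ) ≤ 4 * (1 + X) := by
      have := Nat.floor_le (by positivity : 0 ≤ 4 * X)
      push_cast
      linarith
    have hcountR : ((psc n D H S e1 e2 h1 h2).ncard : ℝ) ≤ 4 * (2 *
        ((((range S0.natAbs).filter (fun x : ℕ => ((S0.natAbs : ℕ) : ℤ) ∣ h1 * (x : ℤ) ^ 2 - m0)).card : ℝ) *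
        ((((range m0.natAbs).filter (fun x : ℕ => ((m0.natAbs : ℕ) : ℤ) ∣ h1 * (x : ℤ) ^ 2 - S0)).card : ℝ) *
        ((((range h1).filter (fun x : ℕ => (h1 : ℤ) ∣ m0 * (x : ℤ) ^ 2 - (-S0))).card : ℝ) *
        (((Nat.clog 2 D + 1 : ℕ) : ℝ) * ((⌊4 * X⌋₊ + 1 + 1 : ℕ) : ℝ)))))) := by
      have h := hsym.trans (Nat.mul_le_mul_left 4 hcount)
      rw [Finset.card_product, Finset.card_product, Finset.card_product, Finset.card_product,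
        Finset.card_range, Finset.card_range] at h
      exact_mod_cast h
    refine hcountR.trans ?_
    have hnε : 0 ≤ (n : ℝ) ^ (ε / 4) := by positivity
    calc 4 * (2 * ((((range S0.natAbs).filter (fun x : ℕ => ((S0.natAbs : ℕ) : ℤ) ∣ h1 * (x : ℤ) ^ 2 - m0)).card : ℝ) *
        ((((range m0.natAbs).filter (fun x : ℕ => ((m0.natAbs : ℕ) : ℤ) ∣ h1 * (x : ℤ) ^ 2 - S0)).card : ℝ) *
        ((((range h1).filter (fun x : ℕ => (h1 : ℤ) ∣ m0 * (x : ℤ) ^ 2 - (-S0))).card : ℝ) *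
        (((Nat.clog 2 D + 1 : ℕ) : ℝ) * ((⌊4 * X⌋₊ + 1 + 1 : ℕ) : ℝ))))))
        ≤ 4 * (2 * ((C1 * (n : ℝ) ^ (ε / 4)) * ((C1 * (n : ℝ) ^ (ε / 4)) * ((C1 * (n : ℝ) ^ (ε / 4)) *
          ((C2 * (n : ℝ) ^ (ε / 4)) * (4 * (1 + X))))))) := by
          gcongr
      _ = 32 * (C1 ^ 3 * C2) * ((n : ℝ) ^ (ε / 4)) ^ 4 * (1 + X) := by ring
      _ = 32 * (C1 ^ 3 * C2) * (n : ℝ) ^ ε * trm n D H S h2 := by
          rw [← Real.rpow_natCast ((n : ℝ) ^ (ε / 4)) 4, ← Real.rpow_mul (by positivity), htrm]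
          norm_num
  · have hsym := cls_sym hF n D H S e1 e2 h1 h2
    rw [Set.not_nonempty_iff_eq_empty.mp hne, Set.ncard_empty, mul_zero, Nat.le_zero] at hsym
    rw [hsym]
    simpa using hRHS

end Pool.Agent.H843R2.KZ
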