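import Pool.Agent.H843R2.KZ.Stubs

namespace Pool.Agent.H843R2.KZ

private theorem con_aux {S m A B E A' B' E' : ℤ} (hS : S ≠ 0) (hm : 0 < m) (hB : 1 ≤ B) (hB' : 1 ≤ B')
    (hg : Int.gcd A B = 1) (hg' : Int.gcd A' B' = 1) (h : E ^ 2 = m * A ^ 2 + S * B ^ 2)
    (h' : E' ^ 2 = m * A' ^ 2 + S * B' ^ 2) (hb : E * E' - m * A * A' - S * B * B' = 0) :
    A = A' ∧ B = B' ∧ E = E' := by
  have e1 : m * S * (A * B' - A' * B) ^ 2 = 0 := by
    linear_combination (-(m * A' ^ 2 + S * B' ^ 2)) * h - E ^ 2 * h' +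
      (E * E' + (m * A * A' + S * B * B')) * hb
  have e2 : A * B' = A' * B := by
    have h1 : (A * B' - A' * B) ^ 2 = 0 := by
      rcases mul_eq_zero.1 e1 with h1 | h1
      · rcases mul_eq_zero.1 h1 with h2 | h2
        · omega
        · exact absurd h2 hS
      · exact h1
    have h2 := pow_eq_zero_iff (two_ne_zero) |>.1 h1
    linarith
  have hc : IsCoprime B A := (Int.isCoprime_iff_gcd_eq_one.2 hg).symm
  have hc' : IsCoprime B' A' := (Int.isCoprime_iff_gcd_eq_one.2 hg').symm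
  have d1 : B ∣ B' := hc.dvd_of_dvd_mul_left (by rw [e2]; exact Dvd.intro_left _ rfl)
  have d2 : B' ∣ B := hc'.dvd_of_dvd_mul_left (by rw [← e2]; exact Dvd.intro_left _ rfl)
  have hBB : B = B' := Int.dvd_antisymm (by omega) (by omega) d1 d2
  subst hBB
  have hAA : A = A' := by
    have : (A - A') * B = 0 := by linarith
    rcases mul_eq_zero.1 this with h1 | h1
    · linarith
    · omega
  subst hAA
  refine ⟨rfl, rfl, ?_⟩
  have h1 : E * (E' - E) = 0 := by linear_combination hb - h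
  rcases mul_eq_zero.1 h1 with h2 | h2
  · have h3 : E' ^ 2 = 0 := by rw [h', ← h, h2]; ring
    have h4 := pow_eq_zero_iff (two_ne_zero) |>.1 h3
    rw [h2, h4]
  · linarith

theorem CON_ok : S_CON := by
  intro S m hS hm z w v hu hzw hzv hwv h0
  obtain ⟨bz, gz, qz⟩ := hu z (by simp)
  obtain ⟨bw, gw, qw⟩ := hu w (by simp)
  obtain ⟨bv, gv, qv⟩ := hu v (by simp)
  have key : 2 * (z.2.2 * w.2.2 - m * z.1 * w.1 - S * z.2.1 * w.2.1) *
      (w.2.2 * v.2.2 - m * w.1 * v.1 - S * w.2.1 * v.2.1) *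
      (z.2.2 * v.2.2 - m * z.1 * v.1 - S * z.2.1 * v.2.1) = m * S * (det3 z w v) ^ 2 := by
    unfold det3
    linear_combination ((w.2.2 * v.2.2 - m * w.1 * v.1 - S * w.2.1 * v.2.1) ^ 2 -
        (w.2.2 ^ 2 - (m * w.1 ^ 2 + S * w.2.1 ^ 2)) * (v.2.2 ^ 2 - (m * v.1 ^ 2 + S * v.2.1 ^ 2))) * qz +
      (z.2.2 * v.2.2 - m * z.1 * v.1 - S * z.2.1 * v.2.1) ^ 2 * qw +
      (z.2.2 * w.2.2 - m * z.1 * w.1 - S * z.2.1 * w.2.1) ^ 2 * qv
  rw [h0] at key
  have key2 : (z.2.2 * w.2.2 - m * z.1 * w.1 - S * z.2.1 * w.2.1) *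
      (w.2.2 * v.2.2 - m * w.1 * v.1 - S * w.2.1 * v.2.1) *
      (z.2.2 * v.2.2 - m * z.1 * v.1 - S * z.2.1 * v.2.1) = 0 := by linarith
  rcases mul_eq_zero.1 key2 with h1 | h1
  · rcases mul_eq_zero.1 h1 with h2 | h2
    · obtain ⟨a, b, c⟩ := con_aux hS hm bz bw gz gw qz qw h2
      exact hzw (Prod.ext a (Prod.ext b c))
    · obtain ⟨a, b, c⟩ := con_aux hS hm bw bv gw gv qw qv h2
      exact hwv (Prod.ext a (Prod.ext b c))
  · obtain ⟨a, b, c⟩ := con_aux hS hm bz bv gz gv qz qv h1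
    exact hzv (Prod.ext a (Prod.ext b c))

end Pool.Agent.H843R2.KZ
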