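import Pool.Agent.H843R2.KZ.Stubs

set_option autoImplicit false

namespace Pool.Agent.H843R2.KZ

open Finset

namespace COPaux

open ArithmeticFunction in
theorem ind (f N : ℕ) (hN : 1 ≤ N) : (if Nat.Coprime f N then (1 : ℤ) else 0) =
    ∑ d ∈ N.divisors, if d ∣ f then moebius d else 0 := by
  have h1 : ∑ d ∈ (Nat.gcd f N).divisors, (moebius d : ℤ) = if Nat.gcd f N = 1 then 1 else 0 := by
    have := DFunLike.congr_fun moebius_mul_coe_zeta (Nat.gcd f N)
    rw [coe_mul_zeta_apply, one_apply] at this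
    exact this
  have h2 : (Nat.gcd f N).divisors = N.divisors.filter (fun d => d ∣ f) := by
    ext d
    simp only [Nat.mem_divisors, mem_filter, Nat.dvd_gcd_iff, ne_eq, Nat.gcd_eq_zero_iff]
    constructor
    · rintro ⟨⟨h, h'⟩, -⟩
      exact ⟨⟨h', by omega⟩, h⟩
    · rintro ⟨⟨h, h'⟩, h''⟩
      exact ⟨⟨h'', h⟩, fun hh => h' hh.2⟩
  rw [← sum_filter, ← h2, h1]

open ArithmeticFunction in
theorem cop_id (N Y : ℕ) (hN : 1 ≤ N) : (((Icc 1 Y).filter (fun f => Nat.Coprime f N)).card : ℤ) =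
    ∑ d ∈ N.divisors, moebius d * ((Y / d : ℕ) : ℤ) := by
  rw [card_filter, Nat.cast_sum]
  simp only [Nat.cast_ite, Nat.cast_one, Nat.cast_zero]
  rw [sum_congr rfl (fun f _ => ind f N hN), sum_comm]
  refine sum_congr rfl fun d _ => ?_
  rw [← sum_filter, sum_const, nsmul_eq_mul, mul_comm]
  have h : Icc 1 Y = Ioc 0 Y := by
    ext x
    simp only [mem_Icc, mem_Ioc]
    omega
  rw [h, Nat.Ioc_filter_dvd_card_eq_div]

end COPaux

open COPaux

theorem COP_ok : S_COP := by
  intro n Y hn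
  set N := 2 * n with hN
  have hN1 : 1 ≤ N := by omega
  have h1 := cop_id N Y hN1
  have h2 := cop_id N N hN1
  have h3 : ((Icc 1 N).filter (fun f => Nat.Coprime f N)).card = Nat.totient N := by
    rw [← Nat.filter_coprime_Ico_eq_totient N 1]
    congr 1
    ext x
    simp only [mem_filter, mem_Icc, mem_Ico, Nat.coprime_comm]
    omega
  rw [h3] at h2
  have hNR : (0 : ℝ) < (N : ℝ) := by exact_mod_cast hN1
  have h1' : (((Icc 1 Y).filter (fun f => Nat.Coprime f N)).card : ℝ) =
      ∑ d ∈ N.divisors, (ArithmeticFunction.moebius d : ℝ) * ((Y / d : ℕ) : ℝ) := by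
    rw [← Int.cast_natCast, h1, Int.cast_sum]
    exact sum_congr rfl fun d _ => by rw [Int.cast_mul, Int.cast_natCast]
  have h2' : (Nat.totient N : ℝ) =
      ∑ d ∈ N.divisors, (ArithmeticFunction.moebius d : ℝ) * ((N / d : ℕ) : ℝ) := by
    rw [← Int.cast_natCast, h2, Int.cast_sum]
    exact sum_congr rfl fun d _ => by rw [Int.cast_mul, Int.cast_natCast]
  have h4 : (Y : ℝ) * (Nat.totient N : ℝ) / (N : ℝ) =
      ∑ d ∈ N.divisors, (ArithmeticFunction.moebius d : ℝ) * ((Y : ℝ) / d) := by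
    rw [h2', mul_sum, sum_div]
    refine sum_congr rfl fun d hd => ?_
    have hd' := Nat.mem_divisors.1 hd
    have hd0 : (d : ℝ) ≠ 0 := by
      have : d ≠ 0 := fun h => hd'.2 (by simpa [h] using hd'.1)
      exact_mod_cast this
    rw [Nat.cast_div hd'.1 hd0]
    field_simp
  rw [h1', h4, ← sum_sub_distrib]
  calc |∑ d ∈ N.divisors, ((ArithmeticFunction.moebius d : ℝ) * ((Y / d : ℕ) : ℝ) -
        (ArithmeticFunction.moebius d : ℝ) * ((Y : ℝ) / d))|
      ≤ ∑ d ∈ N.divisors, |(ArithmeticFunction.moebius d : ℝ) * ((Y / d : ℕ) : ℝ) -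
        (ArithmeticFunction.moebius d : ℝ) * ((Y : ℝ) / d)| := abs_sum_le_sum_abs _ _
    _ ≤ ∑ _d ∈ N.divisors, (1 : ℝ) := by
        refine sum_le_sum fun d hd => ?_
        have hd' := Nat.mem_divisors.1 hd
        have hd0 : d ≠ 0 := fun h => hd'.2 (by simpa [h] using hd'.1)
        have hdR : (0 : ℝ) < d := by exact_mod_cast Nat.pos_of_ne_zero hd0
        rw [← mul_sub, abs_mul]
        have hm : |(ArithmeticFunction.moebius d : ℝ)| ≤ 1 := by
          have := ArithmeticFunction.abs_moebius_le_one (n := d)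
          exact_mod_cast this
        have hq : |((Y / d : ℕ) : ℝ) - (Y : ℝ) / d| ≤ 1 := by
          have e1 : ((Y / d : ℕ) : ℝ) ≤ (Y : ℝ) / d := Nat.cast_div_le
          have e2 : (Y : ℝ) / d < ((Y / d : ℕ) : ℝ) + 1 := by
            rw [div_lt_iff₀ hdR]
            have h5 : Y < (Y / d + 1) * d := by
              have h6 := Nat.div_add_mod Y d
              have h7 := Nat.mod_lt Y (Nat.pos_of_ne_zero hd0)
              nlinarith
            exact_mod_cast h5
          rw [abs_le]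
          constructor <;> linarith
        calc |(ArithmeticFunction.moebius d : ℝ)| * |((Y / d : ℕ) : ℝ) - (Y : ℝ) / d|
            ≤ 1 * 1 := mul_le_mul hm hq (abs_nonneg _) zero_le_one
          _ = 1 := one_mul 1
    _ = (N.divisors.card : ℝ) := by simp

end Pool.Agent.H843R2.KZ
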