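import Pool.Agent.H843R2.KZ.Stubs

set_option autoImplicit false

/-! Task COV0 (helper487): covering numbers of Ev 0, induction on the scale. -/

namespace Pool.Agent.H843R2.KZ

open Finset

theorem cov0_one (δ : ℝ) (h1 : 1 ≤ δ) (N : ℝ) (hN : 1 ≤ N) : Cov (Ev 0) δ N := by
  refine ⟨{0}, by simpa using hN, ?_⟩
  intro a ha
  obtain ⟨h0, h2, _, _⟩ := ha
  exact ⟨0, by simp, h0.le, by linarith⟩

theorem cov0_mono {A : Set ℝ} {δ N N' : ℝ} (h : Cov A δ N) (hN : N ≤ N') : Cov A δ N' := by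
  obtain ⟨F, h1, h2⟩ := h
  exact ⟨F, h1.trans hN, h2⟩

theorem cov0_log (δ : ℝ) (h0 : 0 < δ) (h1 : δ ≤ 1) :
    20 * δ ^ (-(1 / 2) : ℝ) * (1 + Real.log (1 / δ)) ≤ 40 * δ ^ (-(9 / 10) : ℝ) := by
  have hx : 0 ≤ Real.log (1 / δ) := Real.log_nonneg (by rw [le_div_iff₀ h0]; linarith)
  set x := Real.log (1 / δ) with hxd
  have hlog : Real.log δ = -x := by rw [hxd, one_div, Real.log_inv]; ring
  have e1 : δ ^ (-(9 / 10) : ℝ) = δ ^ (-(1 / 2) : ℝ) * δ ^ (-(2 / 5) : ℝ) := by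
    rw [← Real.rpow_add h0]; norm_num
  have e2 : δ ^ (-(2 / 5) : ℝ) = Real.exp (2 / 5 * x) := by
    rw [Real.rpow_def_of_pos h0, hlog]; congr 1; ring
  have e3 := Real.quadratic_le_exp_of_nonneg (show 0 ≤ 2 / 5 * x by positivity)
  rw [e1, e2]
  have h3 : 0 < δ ^ (-(1 / 2) : ℝ) := Real.rpow_pos_of_pos h0 _
  have h4 : 1 + x ≤ 2 * Real.exp (2 / 5 * x) := by nlinarith [sq_nonneg (x - 1)]
  nlinarith

theorem COV0_ok (hR : S_REC) (hN : S_NUM) : S_COV0 := by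
  have key : ∀ j : ℕ, ∀ δ : ℝ, (1 / 9 : ℝ) ^ j ≤ δ → δ ≤ 1 →
      Cov (Ev 0) δ (200 * δ ^ (-(9 / 10) : ℝ)) := by
    intro j
    induction j with
    | zero =>
      intro δ h0 h1
      have : δ = 1 := le_antisymm h1 (by simpa using h0)
      subst this
      exact cov0_one 1 le_rfl _ (by norm_num)
    | succ j ih =>
      intro δ h0 h1
      have hpos : 0 < δ := lt_of_lt_of_le (by positivity) h0
      rcases h1.eq_or_lt with h1 | h1
      · subst h1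
        exact cov0_one 1 le_rfl _ (by norm_num)
      set M := ⌈1 / δ⌉₊ with hM
      set T : Finset (ℕ × ℕ) := ((Icc 1 M) ×ˢ (Icc 1 M)).filter
        (fun ab => ((2 * ab.1 * ab.2 + 1 : ℕ) : ℝ) ^ 2 * δ ≤ 1) with hT
      have hTm : ∀ ab : ℕ × ℕ, ab ∈ T ↔
          (1 ≤ ab.1 ∧ 1 ≤ ab.2 ∧ ((2 * ab.1 * ab.2 + 1 : ℕ) : ℝ) ^ 2 * δ ≤ 1) := by
        rintro ⟨a, b⟩
        simp only [hT, mem_filter, mem_product, mem_Icc]
        constructor
        · rintro ⟨⟨⟨h1, _⟩, h2, _⟩, h3⟩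
          exact ⟨h1, h2, h3⟩
        · rintro ⟨h1, h2, h3⟩
          have hb : ((2 * a * b + 1 : ℕ) : ℝ) ≤ 1 / δ := by
            rw [le_div_iff₀ hpos]
            have h11 : 1 ≤ 2 * a * b + 1 := by omega
            have h12 : (1 : ℝ) ≤ ((2 * a * b + 1 : ℕ) : ℝ) := by exact_mod_cast h11
            have h13 : ((2 * a * b + 1 : ℕ) : ℝ) ≤ ((2 * a * b + 1 : ℕ) : ℝ) ^ 2 := by nlinarith
            exact (mul_le_mul_of_nonneg_right h13 hpos.le).trans h3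
          have hc : ((2 * a * b + 1 : ℕ) : ℝ) ≤ (M : ℝ) := hb.trans (Nat.le_ceil _)
          have hd : 2 * a * b + 1 ≤ M := by exact_mod_cast hc
          have ha : a ≤ M := by nlinarith
          have hb' : b ≤ M := by nlinarith
          exact ⟨⟨⟨h1, ha⟩, h2, hb'⟩, h3⟩
      have hrec := hR δ hpos h1 T hTm
        (fun ab => 200 * (((2 * ab.1 * ab.2 + 1 : ℕ) : ℝ) ^ 2 * δ) ^ (-(9 / 10) : ℝ)) ?_
      · refine cov0_mono hrec ?_
        have hlog := cov0_log δ hpos h1.le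
        have hsum : ∑ ab ∈ T, 200 * (((2 * ab.1 * ab.2 + 1 : ℕ) : ℝ) ^ 2 * δ) ^ (-(9 / 10) : ℝ) =
            200 * δ ^ (-(9 / 10) : ℝ) *
              ∑ ab ∈ T, ((2 * ab.1 * ab.2 + 1 : ℕ) : ℝ) ^ (-(9 / 5) : ℝ) := by
          rw [mul_sum]
          refine sum_congr rfl fun ab _ => ?_
          rw [Real.mul_rpow (by positivity) hpos.le]
          have h9 : (((2 * ab.1 * ab.2 + 1 : ℕ) : ℝ) ^ 2) ^ (-(9 / 10) : ℝ) =
              ((2 * ab.1 * ab.2 + 1 : ℕ) : ℝ) ^ (-(9 / 5) : ℝ) := by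
            rw [← Real.rpow_natCast, ← Real.rpow_mul (by positivity)]
            norm_num
          rw [h9]; ring
        have hn := hN T (fun ab hab => ⟨((hTm ab).1 hab).1, ((hTm ab).1 hab).2.1⟩)
        have hp : 0 < δ ^ (-(9 / 10) : ℝ) := Real.rpow_pos_of_pos hpos _
        rw [hsum]
        nlinarith
      · intro ab hab
        obtain ⟨h2, h3, h4⟩ := (hTm ab).1 hab
        refine ih _ ?_ h4
        have h5 : (3 : ℝ) ≤ ((2 * ab.1 * ab.2 + 1 : ℕ) : ℝ) := by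
          have h51 : 1 ≤ ab.1 * ab.2 := Nat.mul_pos h2 h3
          have h52 : 3 ≤ 2 * ab.1 * ab.2 + 1 := by nlinarith
          exact_mod_cast h52
        have h6 : (1 / 9 : ℝ) ^ j = 9 * (1 / 9 : ℝ) ^ (j + 1) := by rw [pow_succ]; ring
        have h7 : (9 : ℝ) ≤ ((2 * ab.1 * ab.2 + 1 : ℕ) : ℝ) ^ 2 := by nlinarith
        rw [h6]
        calc 9 * (1 / 9 : ℝ) ^ (j + 1) ≤ 9 * δ := by linarith
          _ ≤ ((2 * ab.1 * ab.2 + 1 : ℕ) : ℝ) ^ 2 * δ := mul_le_mul_of_nonneg_right h7 hpos.le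
  intro δ h0 h1
  obtain ⟨j, hj⟩ := exists_pow_lt_of_lt_one h0 (show (1 / 9 : ℝ) < 1 by norm_num)
  exact key j δ hj.le h1

end Pool.Agent.H843R2.KZ
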