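import Pool.Agent.H843R2.KZ.Stubs

set_option autoImplicit false

namespace Pool.Agent.H843R2.KZ

open Finset

private lemma covw_mono {A B : Set ℝ} {δ N M : ℝ} (h : Cov A δ N) (hAB : B ⊆ A) (hNM : N ≤ M) :
    Cov B δ M := by
  obtain ⟨F, hF, hc⟩ := h
  exact ⟨F, hF.trans hNM, fun a ha => hc a (hAB ha)⟩

private lemma covw_union {A B : Set ℝ} {δ N M : ℝ} (h : Cov A δ N) (h' : Cov B δ M) :
    Cov (A ∪ B) δ (N + M) := by
  classical
  obtain ⟨F, hF, hc⟩ := h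
  obtain ⟨G, hG, hd⟩ := h'
  refine ⟨F ∪ G, ?_, ?_⟩
  · have := Finset.card_union_le F G
    have h2 : ((F ∪ G).card : ℝ) ≤ F.card + G.card := by exact_mod_cast this
    linarith
  · rintro a (ha | ha)
    · obtain ⟨f, hf, h⟩ := hc a ha
      exact ⟨f, Finset.mem_union_left _ hf, h⟩
    · obtain ⟨f, hf, h⟩ := hd a ha
      exact ⟨f, Finset.mem_union_right _ hf, h⟩

private lemma covw_pieces {ι : Type*} (I : Finset ι) (A : Set ℝ) (P : ι → Set ℝ) (δ : ℝ)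
    (hA : ∀ a ∈ A, ∃ i ∈ I, a ∈ P i) (hP : ∀ i ∈ I, ∀ a ∈ P i, ∀ b ∈ P i, a ≤ b + δ) :
    Cov A δ I.card := by
  classical
  refine ⟨I.image (fun i => sInf (P i)), ?_, ?_⟩
  · exact_mod_cast Finset.card_image_le
  · intro a ha
    obtain ⟨i, hi, hai⟩ := hA a ha
    refine ⟨sInf (P i), Finset.mem_image_of_mem _ hi, ?_, ?_⟩
    · exact csInf_le ⟨a - δ, fun b hb => by linarith [hP i hi a hai b hb]⟩ hai
    · have : a - δ ≤ sInf (P i) :=
        le_csInf ⟨a, hai⟩ (fun b hb => by linarith [hP i hi a hai b hb])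
      linarith

private lemma gm_mem_of_irr {s : ℝ} (hs0 : 0 < s) (hirr : Irrational s) :
    0 < gm s ∧ gm s < 1 ∧ Irrational (gm s) := by
  have hi : Irrational s⁻¹ := irrational_inv_iff.mpr hirr
  have hg : Irrational (gm s) := by
    unfold gm
    rw [Int.fract]
    exact hi.sub_intCast _
  refine ⟨?_, Int.fract_lt_one _, hg⟩
  have h0 : 0 ≤ gm s := Int.fract_nonneg _
  rcases h0.lt_or_eq with h | h
  · exact h
  · exact absurd h.symm hg.ne_zero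

private lemma dig_gm (s : ℝ) (i : ℕ) : dig (gm s) i = dig s (i + 1) := by
  unfold dig
  rw [Function.iterate_succ_apply]

private lemma mob_diff (p p' q q' : ℤ) (s t δ : ℝ) (hq : 1 ≤ q) (hq' : 0 ≤ q')
    (hdet : (p * q' - p' * q) ^ 2 = 1) (hs : 0 < s) (ht : 0 < t) (hst : |s - t| ≤ δ) :
    ((p : ℝ) + p' * s) / (q + q' * s) ≤ ((p : ℝ) + p' * t) / (q + q' * t) + δ := by
  have hqR : (1 : ℝ) ≤ q := by exact_mod_cast hq
  have hqR' : (0 : ℝ) ≤ q' := by exact_mod_cast hq'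
  have hd : ((p : ℝ) * q' - p' * q) ^ 2 = 1 := by exact_mod_cast hdet
  have ha : 1 ≤ (q : ℝ) + q' * s := by nlinarith [mul_nonneg hqR' hs.le]
  have hb : 1 ≤ (q : ℝ) + q' * t := by nlinarith [mul_nonneg hqR' ht.le]
  have hab : 1 ≤ ((q : ℝ) + q' * s) * (q + q' * t) := by nlinarith
  have hdiff : ((p : ℝ) + p' * s) / (q + q' * s) - ((p : ℝ) + p' * t) / (q + q' * t)
      = ((p : ℝ) * q' - p' * q) * (t - s) / (((q : ℝ) + q' * s) * (q + q' * t)) := by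
    field_simp
    ring
  have habs : |(p : ℝ) * q' - p' * q| = 1 := by
    have := sq_abs ((p : ℝ) * q' - p' * q)
    rw [hd] at this
    nlinarith [abs_nonneg ((p : ℝ) * q' - p' * q)]
  have h1 : |((p : ℝ) * q' - p' * q) * (t - s) / (((q : ℝ) + q' * s) * (q + q' * t))| ≤ δ := by
    rw [abs_div, abs_mul, habs, one_mul, abs_of_pos (by linarith : (0:ℝ) < ((q : ℝ) + q' * s) * (q + q' * t))]
    calc |t - s| / (((q : ℝ) + q' * s) * (q + q' * t)) ≤ |t - s| / 1 :=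
          div_le_div_of_nonneg_left (abs_nonneg _) one_pos hab
      _ = |s - t| := by rw [div_one, abs_sub_comm]
      _ ≤ δ := hst
  have h2 := le_abs_self (((p : ℝ) * q' - p' * q) * (t - s) / (((q : ℝ) + q' * s) * (q + q' * t)))
  linarith

theorem COVW_ok (h0 : S_COV0) (hF : S_FREE) : S_COVW := by
  classical
  have hEv0 : ∀ a ∈ Ev 0, 0 < a ∧ a < 1 := fun a ha => ⟨ha.1, ha.2.1⟩
  have hEv1 : ∀ a ∈ Ev 1, 0 < a ∧ a < 1 := fun a ha => ⟨ha.1, ha.2.1⟩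
  have h1 : ∀ δ : ℝ, 0 < δ → δ ≤ 1 → Cov (Ev 1) δ (603 * δ ^ (-(9 / 10) : ℝ)) := by
    intro δ hδ hδ1
    have := hF (Ev 0) 200 (by norm_num) hEv0 h0 δ hδ hδ1
    refine covw_mono this ?_ (by norm_num)
    intro s hs
    obtain ⟨g1, g2, g3⟩ := gm_mem_of_irr hs.1 hs.2.2.1
    refine ⟨hs.1, hs.2.1, g1, g2, g3, ?_⟩
    intro i hi
    rw [dig_gm]
    exact hs.2.2.2 (i + 1) (by omega)
  have h01 : ∀ δ : ℝ, 0 < δ → δ ≤ 1 → Cov (Ev 0 ∪ Ev 1) δ (803 * δ ^ (-(9 / 10) : ℝ)) := by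
    intro δ hδ hδ1
    refine covw_mono (covw_union (h0 δ hδ hδ1) (h1 δ hδ hδ1)) (subset_refl _) (by linarith)
  have hT := hF (Ev 0 ∪ Ev 1) 803 (by norm_num)
    (fun a ha => ha.elim (hEv0 a) (hEv1 a)) h01
  refine ⟨200 * 2412, by norm_num, ?_⟩
  intro B hB δ hδ hδ1
  obtain ⟨F, hFc, hFcov⟩ := hT δ hδ hδ1
  have hδp : 0 < δ ^ (-(9 / 10) : ℝ) := Real.rpow_pos_of_pos hδ _
  set R : ℤ := ⌊2 * B + 2⌋ with hR
  set Q : ℤ := ⌊B⌋ with hQ
  have hR0 : 0 ≤ R := Int.floor_nonneg.mpr (by linarith)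
  have hQ1 : 1 ≤ Q := Int.le_floor.mpr (by exact_mod_cast hB)
  have hRle : (R : ℝ) ≤ 2 * B + 2 := Int.floor_le _
  have hQle : (Q : ℝ) ≤ B := Int.floor_le _
  set I : Finset (ℤ × ℤ × ℤ × ℤ × ℝ) :=
    (Finset.Icc (-R) R) ×ˢ (Finset.Icc (-R) R) ×ˢ (Finset.Icc 1 Q) ×ˢ (Finset.Icc 0 Q) ×ˢ F with hI
  have hcov := covw_pieces I (WB B)
    (fun x => {w | 1 ≤ x.2.2.1 ∧ 0 ≤ x.2.2.2.1 ∧
      (x.1 * x.2.2.2.1 - x.2.1 * x.2.2.1) ^ 2 = 1 ∧
      ∃ s : ℝ, 0 < s ∧ x.2.2.2.2 ≤ s ∧ s ≤ x.2.2.2.2 + δ ∧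
        w = ((x.1 : ℝ) + x.2.1 * s) / (x.2.2.1 + x.2.2.2.1 * s)}) δ ?_ ?_
  · refine covw_mono hcov (subset_refl _) ?_
    have hcard : (I.card : ℝ) = (2 * R + 1) * ((2 * R + 1) * (Q * ((Q + 1) * F.card))) := by
      rw [hI]
      simp only [Finset.card_product, Int.card_Icc]
      push_cast
      rw [show (R + 1 - -R).toNat = (2 * R + 1).toNat by congr 1; ring,
        show (Q + 1 - 1).toNat = Q.toNat by congr 1; ring,
        show (Q + 1 - 0).toNat = (Q + 1).toNat by congr 1; ring]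
      have e1 : (((2 * R + 1).toNat : ℕ) : ℝ) = 2 * R + 1 := by
        have : (((2 * R + 1).toNat : ℕ) : ℤ) = 2 * R + 1 := Int.toNat_of_nonneg (by omega)
        exact_mod_cast this
      have e2 : ((Q.toNat : ℕ) : ℝ) = Q := by
        have : ((Q.toNat : ℕ) : ℤ) = Q := Int.toNat_of_nonneg (by omega)
        exact_mod_cast this
      have e3 : (((Q + 1).toNat : ℕ) : ℝ) = Q + 1 := by
        have : (((Q + 1).toNat : ℕ) : ℤ) = Q + 1 := Int.toNat_of_nonneg (by omega)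
        exact_mod_cast this
      rw [e1, e2, e3]
    rw [hcard]
    have hRR : (0 : ℝ) ≤ R := by exact_mod_cast hR0
    have hQQ : (1 : ℝ) ≤ Q := by exact_mod_cast hQ1
    have hFc' : (F.card : ℝ) ≤ 2412 * δ ^ (-(9 / 10) : ℝ) := by
      refine hFc.trans (le_of_eq ?_)
      norm_num
    have a1 : (2 * (R : ℝ) + 1) ≤ 9 * B := by linarith
    have a2 : (Q : ℝ) * (Q + 1) ≤ 2 * B ^ 2 := by nlinarith
    calc (2 * (R : ℝ) + 1) * ((2 * R + 1) * (Q * ((Q + 1) * F.card)))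
        = ((2 * (R : ℝ) + 1) * (2 * R + 1)) * ((Q * (Q + 1)) * F.card) := by ring
      _ ≤ ((9 * B) * (9 * B)) * ((2 * B ^ 2) * (2412 * δ ^ (-(9 / 10) : ℝ))) := by
          gcongr
      _ ≤ 200 * 2412 * B ^ 4 * δ ^ (-(9 / 10) : ℝ) := by
          have : 0 ≤ B ^ 4 * δ ^ (-(9 / 10) : ℝ) := by positivity
          nlinarith
  · rintro w ⟨p, p', q, q', s, hp, hp', hq, hq', hqq, hqB, hdet, hs0, hs1, hw, hg⟩
    obtain ⟨f, hf, hfs, hfs'⟩ := hFcov s ⟨hs0, hs1, hg⟩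
    refine ⟨(p, p', q, q', f), ?_, hq, hq', hdet, s, hs0, hfs, hfs', hw⟩
    rw [hI]
    simp only [Finset.mem_product, Finset.mem_Icc]
    have b1 : ∀ z : ℤ, |(z : ℝ)| ≤ 2 * B + 2 → -R ≤ z ∧ z ≤ R := by
      intro z hz
      have hz' := abs_le.mp hz
      refine ⟨?_, Int.le_floor.mpr hz'.2⟩
      have : -z ≤ R := Int.le_floor.mpr (by push_cast; linarith)
      omega
    have b2 : q ≤ Q := Int.le_floor.mpr hqB
    exact ⟨b1 p hp, b1 p' hp', ⟨hq, b2⟩, ⟨hq', by omega⟩, hf⟩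
  · rintro ⟨p, p', q, q', f⟩ hx a ⟨hq, hq', hdet, s, hs0, hfs, hfs', ha⟩ b
      ⟨_, _, _, t, ht0, hft, hft', hb⟩
    rw [ha, hb]
    refine mob_diff p p' q q' s t δ hq hq' hdet hs0 ht0 ?_
    rw [abs_le]
    simp only at hfs hfs' hft hft'
    constructor <;> linarith

end Pool.Agent.H843R2.KZ
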