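import Pool.Agent.H843R2.KZ.Stubs

namespace Pool.Agent.H843R2.KZ

theorem DET_ok : S_DET := by
  intro S0 m0 h1 _ _ _ hmS hhS hhm ρ σ τ z w v hu
  obtain ⟨⟨kz, hkz⟩, ⟨lz, hlz⟩, ⟨pz, hpz⟩⟩ := hu z (by simp)
  obtain ⟨⟨kw, hkw⟩, ⟨lw, hlw⟩, ⟨pw, hpw⟩⟩ := hu w (by simp)
  obtain ⟨⟨kv, hkv⟩, ⟨lv, hlv⟩, ⟨pv, hpv⟩⟩ := hu v (by simp)
  have d1 : S0 ∣ det3 z w v := by
    refine ⟨z.1 * (w.2.1 * kv - kw * v.2.1) - z.2.1 * (w.1 * kv - kw * v.1) +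
      kz * (w.1 * v.2.1 - w.2.1 * v.1), ?_⟩
    unfold det3
    linear_combination (z.1 * w.2.1 - z.2.1 * w.1) * hkv - (z.1 * v.2.1 - z.2.1 * v.1) * hkw +
      (w.1 * v.2.1 - w.2.1 * v.1) * hkz
  have d2 : m0 ∣ det3 z w v := by
    refine ⟨z.1 * (w.2.1 * lv - lw * v.2.1) - z.2.1 * (w.1 * lv - lw * v.1) +
      lz * (w.1 * v.2.1 - w.2.1 * v.1), ?_⟩
    unfold det3
    linear_combination (z.1 * w.2.1 - z.2.1 * w.1) * hlv - (z.1 * v.2.1 - z.2.1 * v.1) * hlw +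
      (w.1 * v.2.1 - w.2.1 * v.1) * hlz
  have d3 : h1 ∣ det3 z w v := by
    refine ⟨pz * (w.2.1 * v.2.2 - w.2.2 * v.2.1) - z.2.1 * (pw * v.2.2 - w.2.2 * pv) +
      z.2.2 * (pw * v.2.1 - w.2.1 * pv), ?_⟩
    unfold det3
    linear_combination (w.2.1 * v.2.2 - w.2.2 * v.2.1) * hpz +
      (z.2.2 * v.2.1 - z.2.1 * v.2.2) * hpw + (z.2.1 * w.2.2 - z.2.2 * w.2.1) * hpv
  have e1 : S0 * m0 ∣ det3 z w v := IsCoprime.mul_dvd hmS.symm d1 d2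
  exact IsCoprime.mul_dvd (IsCoprime.mul_left hhS.symm hhm.symm) e1 d3

end Pool.Agent.H843R2.KZ
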