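import Pool.Agent.H843R2.KZ.Stubs

set_option autoImplicit false

namespace Pool.Agent.H843R2.KZ

theorem DIG_ok (hR : S_RED) (hS : S_STEP) : S_DIG := by
  intro n hn4 hn hRep
  have key : ∀ i : ℕ, ∀ x k : ℤ, Red n x k →
      (Odd k → i % 2 = 0 → Even (dig (((x : ℝ) + √(n : ℝ)) / k)⁻¹ i)) ∧
      (Even k → i % 2 = 1 → Even (dig (((x : ℝ) + √(n : ℝ)) / k)⁻¹ i)) := by
    intro i
    induction i with
    | zero =>
      intro x k hred
      refine ⟨fun hk _ => ?_, fun _ h => absurd h (by norm_num)⟩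
      obtain ⟨x', k', hred', hx', hkk, hfr⟩ := hS n hn x k hred
      have p1 := hR n hn4 hRep x k hred
      have p2 := hR n hn4 hRep x' k' hred'
      show Even ⌊((((x : ℝ) + √(n : ℝ)) / k)⁻¹)⁻¹⌋
      rw [inv_inv]
      have h5 : Even (⌊((x : ℝ) + √(n : ℝ)) / k⌋ * k) := by
        have : ⌊((x : ℝ) + √(n : ℝ)) / k⌋ * k = x + x' := by rw [hx']; ring
        rw [this, Int.even_iff]
        omega
      rw [Int.even_mul] at h5
      rcases h5 with h5 | h5
      · exact h5
      · exact absurd h5 (Int.not_even_iff_odd.2 hk)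
    | succ i ih =>
      intro x k hred
      obtain ⟨x', k', hred', hx', hkk, hfr⟩ := hS n hn x k hred
      have p2 := hR n hn4 hRep x' k' hred'
      obtain ⟨ih1, ih2⟩ := ih x' k' hred'
      have hdig : dig (((x : ℝ) + √(n : ℝ)) / k)⁻¹ (i + 1) =
          dig (((x' : ℝ) + √(n : ℝ)) / k')⁻¹ i := by
        unfold dig
        rw [Function.iterate_succ_apply]
        have : gm (((x : ℝ) + √(n : ℝ)) / k)⁻¹ = (((x' : ℝ) + √(n : ℝ)) / k')⁻¹ := by
          unfold gm
          rw [inv_inv, ← hfr, inv_inv]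
        rw [this]
      -- parity of k and k'
      have hpar : (k * k') % 4 = 2 := by
        rw [hkk]
        rcases hn4 with h4 | h4
        · obtain ⟨c, hc⟩ : ∃ c, x' = 2 * c := ⟨x' / 2, by omega⟩
          rw [hc]
          have : (2 * c) ^ 2 = 4 * c ^ 2 := by ring
          rw [this]
          omega
        · obtain ⟨c, hc⟩ : ∃ c, x' = 2 * c + 1 := ⟨x' / 2, by omega⟩
          rw [hc]
          have : (2 * c + 1) ^ 2 = 4 * (c ^ 2 + c) + 1 := by ring
          rw [this]
          omega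
      rw [hdig]
      constructor
      · intro hk hi
        apply ih2 _ (by omega)
        by_contra hc
        rw [Int.not_even_iff_odd] at hc
        have := hk.mul hc
        rw [Int.odd_iff] at this
        omega
      · intro hk hi
        apply ih1 _ (by omega)
        rw [← Int.not_even_iff_odd]
        intro hc
        obtain ⟨c, hc⟩ := hc
        obtain ⟨d, hd⟩ := hk
        rw [hc, hd] at hpar
        have : (d + d) * (c + c) = 4 * (d * c) := by ring
        rw [this] at hpar
        omega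
  intro x k hred
  obtain ⟨hk, hdvd, h1, h2, h3⟩ := hred
  have hkR : (0 : ℝ) < k := by exact_mod_cast hk
  have hirr : Irrational (((x : ℝ) + √(n : ℝ)) / k)⁻¹ :=
    (((irrational_sqrt_natCast_iff.2 hn).intCast_add x).div_intCast hk.ne').inv
  have hpos : 0 < (((x : ℝ) + √(n : ℝ)) / k)⁻¹ := inv_pos.2 (by linarith)
  have hlt : (((x : ℝ) + √(n : ℝ)) / k)⁻¹ < 1 := inv_lt_one_of_one_lt₀ h1
  rcases Int.even_or_odd k with he | ho
  · right
    exact ⟨hpos, hlt, hirr, fun i hi => (key i x k ⟨hk, hdvd, h1, h2, h3⟩).2 he hi⟩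
  · left
    exact ⟨hpos, hlt, hirr, fun i hi => (key i x k ⟨hk, hdvd, h1, h2, h3⟩).1 ho hi⟩

end Pool.Agent.H843R2.KZ
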