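import Pool.Agent.H843R2.KZ.Stubs

set_option autoImplicit false

namespace Pool.Agent.H843R2.KZ

namespace FREEaux

lemma sum_le (B : ℕ) : ∑ b ∈ Finset.range B, ((b : ℝ) + 1) ^ (-(9 / 5) : ℝ) ≤ 3 := by
  have key : ∀ B : ℕ, ∑ b ∈ Finset.range (B + 1), ((b : ℝ) + 1) ^ (-(9 / 5) : ℝ) ≤
      3 - 2 / √((B : ℝ) + 1) := by
    intro B
    induction B with
    | zero => norm_num
    | succ B ih =>
      rw [Finset.sum_range_succ]
      have hu : 0 < √((B : ℝ) + 1) := Real.sqrt_pos.2 (by positivity)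
      have hv : 0 < √((B : ℝ) + 2) := Real.sqrt_pos.2 (by positivity)
      have hu2 : √((B : ℝ) + 1) ^ 2 = B + 1 := Real.sq_sqrt (by positivity)
      have hv2 : √((B : ℝ) + 2) ^ 2 = B + 2 := Real.sq_sqrt (by positivity)
      have huv : √((B : ℝ) + 1) < √((B : ℝ) + 2) :=
        Real.sqrt_lt_sqrt (by positivity) (by linarith)
      have e1 : (((B + 1 : ℕ) : ℝ) + 1) = (B : ℝ) + 2 := by push_cast; ring
      rw [e1]
      have h1 : ((B : ℝ) + 2) ^ (-(9 / 5) : ℝ) ≤ ((B : ℝ) + 2) ^ (-(3 / 2) : ℝ) :=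
        Real.rpow_le_rpow_of_exponent_le (by linarith [Nat.cast_nonneg (α := ℝ) B]) (by norm_num)
      have h2 : ((B : ℝ) + 2) ^ (-(3 / 2) : ℝ) = 1 / √((B : ℝ) + 2) ^ 3 := by
        rw [Real.sqrt_eq_rpow, ← Real.rpow_natCast, ← Real.rpow_mul (by positivity),
          Real.rpow_neg (by positivity), one_div]
        norm_num
      set u := √((B : ℝ) + 1)
      set v := √((B : ℝ) + 2)
      have h3 : 1 / v ^ 3 ≤ 2 / u - 2 / v := by
        have e2 : 2 / u - 2 / v = 2 / ((v + u) * (u * v)) := by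
          have h5 : (v - u) * (v + u) = 1 := by nlinarith
          have h6 : v + u ≠ 0 := by positivity
          rw [div_sub_div _ _ hu.ne' hv.ne', div_eq_div_iff (by positivity) (by positivity)]
          linear_combination (2 * u * v) * h5
        rw [e2, div_le_div_iff₀ (by positivity) (by positivity)]
        have h7 : (v + u) * (u * v) ≤ (v + v) * (v * v) := by
          apply mul_le_mul (by linarith) (by nlinarith) (by positivity) (by positivity)
        nlinarith
      linarith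
  rcases B with _ | B
  · norm_num
  · have h8 : 0 ≤ 2 / √((B : ℝ) + 1) := by positivity
    linarith [key B]

end FREEaux

open FREEaux

theorem FREE_ok : S_FREE := by
  intro A K hK hA hcov δ hδ hδ1
  classical
  -- digits with b^2 δ ≤ 1
  have hsq : (δ ^ (-(1 / 2) : ℝ)) ^ 2 * δ = 1 := by
    rw [← Real.rpow_natCast, ← Real.rpow_mul hδ.le]
    nth_rewrite 2 [← Real.rpow_one δ]
    rw [← Real.rpow_add hδ]
    norm_num
  set R : ℝ := δ ^ (-(1 / 2) : ℝ) with hR
  have hR0 : 0 < R := Real.rpow_pos_of_pos hδ _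
  have hR1 : 1 ≤ R := by
    by_contra hc
    push Not at hc
    have : R ^ 2 * δ < 1 := by
      have : R ^ 2 < 1 := by nlinarith
      nlinarith
    linarith
  set N : ℕ := ⌊R⌋₊ with hN
  have hNR : (N : ℝ) ≤ R := Nat.floor_le hR0.le
  -- covers for each digit b = j + 1, j < N
  have hb : ∀ j : ℕ, j < N → 0 < ((j : ℝ) + 1) ^ 2 * δ ∧ ((j : ℝ) + 1) ^ 2 * δ ≤ 1 := by
    intro j hj
    refine ⟨by positivity, ?_⟩
    have h1 : ((j : ℝ) + 1) ≤ R := by
      have : ((j + 1 : ℕ) : ℝ) ≤ N := by exact_mod_cast hj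
      push_cast at this
      linarith
    have h2 : ((j : ℝ) + 1) ^ 2 ≤ R ^ 2 := pow_le_pow_left₀ (by positivity) h1 2
    nlinarith
  have hch : ∀ j : ℕ, ∃ F : Finset ℝ, j < N →
      ((F.card : ℝ) ≤ K * (((j : ℝ) + 1) ^ 2 * δ) ^ (-(9 / 10) : ℝ) ∧
        ∀ a ∈ A, ∃ f ∈ F, f ≤ a ∧ a ≤ f + ((j : ℝ) + 1) ^ 2 * δ) := by
    intro j
    by_cases hj : j < N
    · obtain ⟨F, h1, h2⟩ := hcov _ (hb j hj).1 (hb j hj).2
      exact ⟨F, fun _ => ⟨h1, h2⟩⟩
    · exact ⟨∅, fun h => absurd h hj⟩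
  choose F hF using hch
  let G1 : Finset ℝ := (Finset.range N).biUnion fun j =>
    (F j).image fun f => 1 / ((j : ℝ) + 1 + max f 0 + ((j : ℝ) + 1) ^ 2 * δ)
  let G2 : Finset ℝ := (Finset.range (⌊R⌋₊ + 1)).image fun i : ℕ => (i : ℝ) * δ
  refine ⟨G1 ∪ G2, ?_, ?_⟩
  · -- cardinality
    have c0 : ((G1 ∪ G2).card : ℝ) ≤ (G1.card : ℝ) + G2.card := by
      exact_mod_cast Finset.card_union_le G1 G2
    have c1 : (G1.card : ℝ) ≤ ∑ j ∈ Finset.range N,
        K * (((j : ℝ) + 1) ^ 2 * δ) ^ (-(9 / 10) : ℝ) := by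
      have h1 : (G1.card : ℝ) ≤ ∑ j ∈ Finset.range N, ((F j).card : ℝ) := by
        have h2 : G1.card ≤ ∑ j ∈ Finset.range N, (F j).card :=
          Finset.card_biUnion_le.trans (Finset.sum_le_sum fun j _ => Finset.card_image_le)
        exact_mod_cast h2
      refine h1.trans (Finset.sum_le_sum fun j hj => (hF j (Finset.mem_range.1 hj)).1)
    have c2 : ∑ j ∈ Finset.range N, K * (((j : ℝ) + 1) ^ 2 * δ) ^ (-(9 / 10) : ℝ) =
        K * δ ^ (-(9 / 10) : ℝ) * ∑ j ∈ Finset.range N, ((j : ℝ) + 1) ^ (-(9 / 5) : ℝ) := by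
      rw [Finset.mul_sum]
      apply Finset.sum_congr rfl
      intro j _
      rw [Real.mul_rpow (by positivity) hδ.le, ← Real.rpow_natCast, ← Real.rpow_mul (by positivity)]
      have : ((2 : ℕ) : ℝ) * (-(9 / 10)) = -(9 / 5) := by norm_num
      rw [this]
      ring
    have c3 : K * δ ^ (-(9 / 10) : ℝ) * ∑ j ∈ Finset.range N, ((j : ℝ) + 1) ^ (-(9 / 5) : ℝ) ≤
        K * δ ^ (-(9 / 10) : ℝ) * 3 :=
      mul_le_mul_of_nonneg_left (sum_le N) (by positivity)
    have c4 : (G2.card : ℝ) ≤ N + 1 := by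
      have : G2.card ≤ N + 1 := by
        refine Finset.card_image_le.trans ?_
        rw [Finset.card_range]
      exact_mod_cast this
    have c5 : R ≤ δ ^ (-(9 / 10) : ℝ) :=
      Real.rpow_le_rpow_of_exponent_ge hδ hδ1 (by norm_num)
    have c6 : (G2.card : ℝ) ≤ 3 * δ ^ (-(9 / 10) : ℝ) := by linarith
    calc ((G1 ∪ G2).card : ℝ) ≤ (G1.card : ℝ) + G2.card := c0
      _ ≤ K * δ ^ (-(9 / 10) : ℝ) * 3 + 3 * δ ^ (-(9 / 10) : ℝ) := by
        rw [c2] at c1
        linarith
      _ = (3 * K + 3) * δ ^ (-(9 / 10) : ℝ) := by ring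
  · rintro s ⟨hs0, hs1, hsA⟩
    set g := gm s with hg
    obtain ⟨hg0, hg1⟩ := hA g hsA
    have hinv1 : 1 < s⁻¹ := (one_lt_inv₀ hs0).2 hs1
    have hgeq : s⁻¹ = ⌊s⁻¹⌋ + g := by
      rw [hg]
      unfold gm
      exact (Int.floor_add_fract s⁻¹).symm
    have hfl : 1 ≤ ⌊s⁻¹⌋ := Int.le_floor.2 (by exact_mod_cast hinv1.le)
    obtain ⟨j, hj⟩ : ∃ j : ℕ, ⌊s⁻¹⌋ = (j : ℤ) + 1 := ⟨(⌊s⁻¹⌋ - 1).toNat, by omega⟩
    have hsi : s⁻¹ = (j : ℝ) + 1 + g := by
      rw [hgeq, hj]
      push_cast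
      ring
    have hs : s = 1 / ((j : ℝ) + 1 + g) := by
      rw [← hsi]
      simp
    by_cases hjN : j < N
    · obtain ⟨f, hf, hf1, hf2⟩ := (hF j hjN).2 g hsA
      refine ⟨1 / ((j : ℝ) + 1 + max f 0 + ((j : ℝ) + 1) ^ 2 * δ), ?_, ?_, ?_⟩
      · apply Finset.mem_union_left
        exact Finset.mem_biUnion.2 ⟨j, Finset.mem_range.2 hjN, Finset.mem_image.2 ⟨f, hf, rfl⟩⟩
      · rw [hs]
        apply one_div_le_one_div_of_le (by positivity)
        have := le_max_left f 0
        linarith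
      · have hm0 : 0 ≤ max f 0 := le_max_right _ _
        have hmg : max f 0 ≤ g := max_le hf1 hg0.le
        set c := max f 0
        set b : ℝ := (j : ℝ) + 1 with hbdef
        have hb1 : 1 ≤ b := by rw [hbdef]; linarith [Nat.cast_nonneg (α := ℝ) j]
        have h1 : s ≤ 1 / (b + c) := by
          rw [hs]
          exact one_div_le_one_div_of_le (by positivity) (by linarith)
        have h2 : 1 / (b + c) ≤ 1 / (b + c + b ^ 2 * δ) + δ := by
          have hp1 : 0 < b + c := by linarith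
          have hp2 : 0 < b + c + b ^ 2 * δ := by positivity
          have h3 : 1 / (b + c) - 1 / (b + c + b ^ 2 * δ) =
              b ^ 2 * δ / ((b + c) * (b + c + b ^ 2 * δ)) := by
            rw [div_sub_div _ _ hp1.ne' hp2.ne']
            congr 1
            ring
          have h4 : b ^ 2 * δ / ((b + c) * (b + c + b ^ 2 * δ)) ≤ δ := by
            rw [div_le_iff₀ (by positivity)]
            have h5 : b ^ 2 ≤ (b + c) * (b + c + b ^ 2 * δ) := by
              have h6 : b * b ≤ (b + c) * (b + c + b ^ 2 * δ) :=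
                mul_le_mul (by linarith) (by nlinarith [mul_pos (pow_pos (by linarith : 0 < b) 2) hδ])
                  (by linarith) (by linarith)
              nlinarith
            nlinarith
          linarith
        linarith
    · push Not at hjN
      have hRj : R < (j : ℝ) + 1 := by
        have h1 : R < (N : ℝ) + 1 := Nat.lt_floor_add_one R
        have h2 : (N : ℝ) ≤ j := by exact_mod_cast hjN
        linarith
      -- s < 1/(j+1) < 1/R = R δ
      have hsR : s < R * δ := by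
        have h1 : s * ((j : ℝ) + 1 + g) = 1 := by
          rw [← hsi]
          exact mul_inv_cancel₀ hs0.ne'
        have h2 : s * R < 1 := by nlinarith
        have h3 : R * (R * δ) = 1 := by nlinarith
        nlinarith
      refine ⟨(⌊s / δ⌋₊ : ℝ) * δ, ?_, ?_, ?_⟩
      · apply Finset.mem_union_right
        refine Finset.mem_image.2 ⟨⌊s / δ⌋₊, Finset.mem_range.2 ?_, rfl⟩
        have h1 : s / δ ≤ R := by
          rw [div_le_iff₀ hδ]
          exact hsR.le
        exact Nat.lt_succ_of_le (Nat.floor_le_floor h1)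
      · have := Nat.floor_le (div_nonneg hs0.le hδ.le)
        rwa [le_div_iff₀ hδ] at this
      · have := Nat.lt_floor_add_one (s / δ)
        rw [div_lt_iff₀ hδ] at this
        nlinarith

end Pool.Agent.H843R2.KZ
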