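import Pool.Agent.H843R2.KZ.Stubs

set_option autoImplicit false

namespace Pool.Agent.H843R2.KZ

open Finset

namespace HYPaux

/-- rearrangement (hyperbola) -/
lemma rearr (n D E : ℕ) (hE : 1 ≤ E) (hED : E ≤ D) (r : ℕ → ℝ)
    (hr : ∀ e, ¬ Nat.Coprime e (2 * n) → r e = 0) :
    ∑ d ∈ (Icc 1 D).filter (fun d => Nat.Coprime d (2 * n)), ∑ e ∈ d.divisors, r e =
      ∑ e ∈ Icc 1 E, r e * (((Icc 1 (D / e)).filter (fun f => Nat.Coprime f (2 * n))).card : ℝ) +
      ∑ f ∈ (Icc 1 (D / E)).filter (fun f => Nat.Coprime f (2 * n)), ∑ e ∈ Ioc E (D / f), r e := by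
  have h1 : ∑ d ∈ (Icc 1 D).filter (fun d => Nat.Coprime d (2 * n)), ∑ e ∈ d.divisors, r e =
      ∑ e ∈ Icc 1 D, ∑ d ∈ (Icc 1 D).filter (fun d => Nat.Coprime d (2 * n) ∧ e ∣ d), r e := by
    apply Finset.sum_comm'
    intro d e
    simp only [mem_filter, mem_Icc, Nat.mem_divisors]
    constructor
    · rintro ⟨⟨⟨hd1, hd2⟩, hc⟩, he, hd0⟩
      exact ⟨⟨⟨hd1, hd2⟩, hc, he⟩, Nat.pos_of_dvd_of_pos he hd1, (Nat.le_of_dvd hd1 he).trans hd2⟩
    · rintro ⟨⟨⟨hd1, hd2⟩, hc, he⟩, he1, he2⟩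
      exact ⟨⟨⟨hd1, hd2⟩, hc⟩, he, by omega⟩
  have h2 : ∀ e ∈ Icc 1 D, ∑ d ∈ (Icc 1 D).filter (fun d => Nat.Coprime d (2 * n) ∧ e ∣ d), r e =
      r e * (((Icc 1 (D / e)).filter (fun f => Nat.Coprime f (2 * n))).card : ℝ) := by
    intro e he
    rw [mem_Icc] at he
    rw [sum_const, nsmul_eq_mul, mul_comm]
    by_cases hc : Nat.Coprime e (2 * n)
    · congr 2
      refine card_nbij' (fun d => d / e) (fun f => e * f) ?_ ?_ ?_ ?_
      · intro d hd
        simp only [coe_filter, mem_Icc, Set.mem_ofPred_eq] at hd ⊢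
        obtain ⟨⟨hd1, hd2⟩, hcd, k, rfl⟩ := hd
        rw [Nat.mul_div_cancel_left k (by omega)]
        refine ⟨⟨?_, ?_⟩, ?_⟩
        · rcases Nat.eq_zero_or_pos k with h | h
          · subst h; omega
          · exact h
        · rw [Nat.le_div_iff_mul_le (by omega)]; rw [mul_comm]; exact hd2
        · exact Nat.Coprime.coprime_mul_left hcd
      · intro f hf
        simp only [coe_filter, mem_Icc, Set.mem_ofPred_eq] at hf ⊢
        obtain ⟨⟨hf1, hf2⟩, hcf⟩ := hf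
        rw [Nat.le_div_iff_mul_le (by omega)] at hf2
        refine ⟨⟨Nat.mul_pos (by omega) (by omega), by rw [mul_comm]; exact hf2⟩, ?_, dvd_mul_right _ _⟩
        exact Nat.Coprime.mul_left hc hcf
      · intro d hd
        simp only [coe_filter, mem_Icc, Set.mem_ofPred_eq] at hd
        exact Nat.mul_div_cancel' hd.2.2
      · intro f hf
        exact Nat.mul_div_cancel_left f (by omega)
    · rw [hr e hc]; simp
  have h3 : Icc 1 D = Icc 1 E ∪ Ioc E D := by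
    ext x; simp only [mem_Icc, mem_union, mem_Ioc]; omega
  have h4 : Disjoint (Icc 1 E) (Ioc E D) := by
    rw [disjoint_left]; intro x hx hy
    simp only [mem_Icc, mem_Ioc] at hx hy; omega
  rw [h1, sum_congr rfl h2, h3, sum_union h4]
  congr 1
  have h5 : ∀ e ∈ Ioc E D, r e *
      (((Icc 1 (D / e)).filter (fun f => Nat.Coprime f (2 * n))).card : ℝ) =
      ∑ f ∈ (Icc 1 (D / e)).filter (fun f => Nat.Coprime f (2 * n)), r e := by
    intro e _
    rw [sum_const, nsmul_eq_mul, mul_comm]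
  rw [sum_congr rfl h5]
  apply Finset.sum_comm'
  intro e f
  simp only [mem_filter, mem_Icc, mem_Ioc]
  constructor
  · rintro ⟨⟨he1, he2⟩, ⟨hf1, hf2⟩, hc⟩
    rw [Nat.le_div_iff_mul_le (by omega)] at hf2
    refine ⟨⟨he1, ?_⟩, ⟨hf1, ?_⟩, hc⟩
    · rw [Nat.le_div_iff_mul_le (by omega), mul_comm]; exact hf2
    · rw [Nat.le_div_iff_mul_le (by omega)]; nlinarith
  · rintro ⟨⟨he1, he2⟩, ⟨hf1, hf2⟩, hc⟩
    rw [Nat.le_div_iff_mul_le (by omega)] at he2
    refine ⟨⟨he1, ?_⟩, ⟨hf1, ?_⟩, hc⟩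
    · nlinarith
    · rw [Nat.le_div_iff_mul_le (by omega), mul_comm]; exact he2

/-- phi(m) d(m) ≥ m -/
lemma tot_div (m : ℕ) (hm : 1 ≤ m) : (m : ℝ) ≤ (Nat.totient m : ℝ) * (m.divisors.card : ℝ) := by
  have h : m ≤ Nat.totient m * m.divisors.card := by
    calc m = ∑ d ∈ m.divisors, Nat.totient d := (Nat.sum_totient m).symm
      _ ≤ ∑ _d ∈ m.divisors, Nat.totient m := by
          apply sum_le_sum
          intro d hd
          exact Nat.le_of_dvd (Nat.totient_pos.2 (by omega))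
            (Nat.totient_dvd_of_dvd (Nat.dvd_of_mem_divisors hd))
      _ = Nat.totient m * m.divisors.card := by
          rw [sum_const, smul_eq_mul, mul_comm]
  exact_mod_cast h

/-- the inequality with explicit error terms -/
lemma lower (hP : S_PV) (hL : S_LSER) (hC : S_COP) (hPo : S_POS) (n D E : ℕ) (hn : 1 ≤ n)
    (hE : 1 ≤ E) (hED : E ≤ D) [NeZero (4 * n)] (χ : DirichletCharacter ℂ (4 * n)) (h1 : χ ≠ 1)
    (h2 : χ ^ 2 = 1) :
    (Nat.totient (2 * n) : ℝ) / ((2 * n : ℕ) : ℝ) * D * ‖χ.LFunction 1‖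
      - 40 * (√((4 * n : ℕ) : ℝ) * (1 + Real.log ((4 * n : ℕ) : ℝ))) * (D / E)
      - E * (((2 * n).divisors.card : ℝ) + 1) ≤
    ∑ d ∈ (Icc 1 D).filter (fun d => Nat.Coprime d (2 * n)),
      ∑ e ∈ d.divisors, (χ (e : ZMod (4 * n))).re := by
  set c : ℝ := (Nat.totient (2 * n) : ℝ) / ((2 * n : ℕ) : ℝ) with hc
  set R : ℝ := √((4 * n : ℕ) : ℝ) * (1 + Real.log ((4 * n : ℕ) : ℝ)) with hR
  set τ : ℝ := ((2 * n).divisors.card : ℝ) with hτ
  have hc0 : 0 ≤ c := by positivity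
  have hc1 : c ≤ 1 := by
    rw [hc]
    apply div_le_one_of_le₀ _ (by positivity)
    exact_mod_cast Nat.totient_le (2 * n)
  have hR0 : 0 ≤ R := by
    have : 0 ≤ Real.log ((4 * n : ℕ) : ℝ) := Real.log_natCast_nonneg _
    positivity
  have hD0 : (0 : ℝ) < D := by exact_mod_cast (by omega : 0 < D)
  have hE0 : (0 : ℝ) < E := by exact_mod_cast (by omega : 0 < E)
  rw [rearr n D E hE hED (fun e => (χ (e : ZMod (4 * n))).re)]
  swap
  · intro e he
    have : ¬ IsUnit (e : ZMod (4 * n)) := by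
      rw [ZMod.isUnit_iff_coprime]
      intro h
      exact he (Nat.Coprime.coprime_dvd_right ⟨2, by ring⟩ h)
    simp only [MulChar.map_nonunit χ this, Complex.zero_re]
  -- second sum
  have hG : |∑ f ∈ (Icc 1 (D / E)).filter (fun f => Nat.Coprime f (2 * n)),
      ∑ e ∈ Ioc E (D / f), (χ (e : ZMod (4 * n))).re| ≤ 8 * R * (D / E) := by
    calc |∑ f ∈ (Icc 1 (D / E)).filter (fun f => Nat.Coprime f (2 * n)),
          ∑ e ∈ Ioc E (D / f), (χ (e : ZMod (4 * n))).re|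
        ≤ ∑ f ∈ (Icc 1 (D / E)).filter (fun f => Nat.Coprime f (2 * n)), 8 * R := by
          refine (abs_sum_le_sum_abs _ _).trans (sum_le_sum ?_)
          intro f _
          have h := hP (4 * n) χ (by omega) h1 E (D / f)
          rw [← Complex.re_sum]
          refine (Complex.abs_re_le_norm _).trans (h.trans (le_of_eq ?_))
          rw [hR]; ring
      _ = (((Icc 1 (D / E)).filter (fun f => Nat.Coprime f (2 * n))).card : ℝ) * (8 * R) := by
          rw [sum_const, nsmul_eq_mul]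
      _ ≤ (D / E : ℝ) * (8 * R) := by
          apply mul_le_mul_of_nonneg_right _ (by positivity)
          have : ((Icc 1 (D / E)).filter (fun f => Nat.Coprime f (2 * n))).card ≤ D / E := by
            refine (card_filter_le _ _).trans ?_
            simp
          refine (Nat.cast_le.2 this).trans ?_
          exact Nat.cast_div_le
      _ = 8 * R * (D / E) := by ring
  -- first sum
  have hF : |∑ e ∈ Icc 1 E, (χ (e : ZMod (4 * n))).re *
      (((Icc 1 (D / e)).filter (fun f => Nat.Coprime f (2 * n))).card : ℝ) -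
      c * D * ∑ e ∈ Icc 1 E, (χ (e : ZMod (4 * n))).re / e| ≤ E * (τ + 1) := by
    rw [mul_sum, ← sum_sub_distrib]
    refine (abs_sum_le_sum_abs _ _).trans ?_
    have : ∀ e ∈ Icc 1 E, |(χ (e : ZMod (4 * n))).re *
      (((Icc 1 (D / e)).filter (fun f => Nat.Coprime f (2 * n))).card : ℝ) -
      c * D * ((χ (e : ZMod (4 * n))).re / e)| ≤ τ + 1 := by
      intro e he
      rw [mem_Icc] at he
      have he0 : (0 : ℝ) < e := by exact_mod_cast (by omega : 0 < e)
      have hχ : |(χ (e : ZMod (4 * n))).re| ≤ 1 :=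
        (Complex.abs_re_le_norm _).trans (DirichletCharacter.norm_le_one χ _)
      have hcnt := hC n (D / e) hn
      set K : ℝ := (((Icc 1 (D / e)).filter (fun f => Nat.Coprime f (2 * n))).card : ℝ) with hK
      have e1 : ((D / e : ℕ) : ℝ) * (Nat.totient (2 * n) : ℝ) / ((2 * n : ℕ) : ℝ) =
          ((D / e : ℕ) : ℝ) * c := by rw [hc]; ring
      rw [e1] at hcnt
      have e2 : ((D / e : ℕ) : ℝ) ≤ (D : ℝ) / e := Nat.cast_div_le
      have e3 : (D : ℝ) / e ≤ ((D / e : ℕ) : ℝ) + 1 := by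
        rw [div_le_iff₀ he0]
        have := Nat.lt_div_mul_add (a := D) (b := e) (by omega)
        have h' : (D : ℝ) ≤ ((D / e * e + e : ℕ) : ℝ) := by exact_mod_cast this.le
        push_cast at h'
        nlinarith
      have e4 : |K - c * ((D : ℝ) / e)| ≤ τ + 1 := by
        rw [abs_le] at hcnt ⊢
        constructor
        · nlinarith
        · nlinarith
      have e5 : (χ (e : ZMod (4 * n))).re * K - c * D * ((χ (e : ZMod (4 * n))).re / e) =
          (χ (e : ZMod (4 * n))).re * (K - c * ((D : ℝ) / e)) := by ring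
      rw [e5, abs_mul]
      calc |(χ (e : ZMod (4 * n))).re| * |K - c * ((D : ℝ) / e)| ≤ 1 * (τ + 1) :=
            mul_le_mul hχ e4 (abs_nonneg _) zero_le_one
        _ = τ + 1 := one_mul _
    refine (sum_le_sum this).trans ?_
    rw [sum_const, nsmul_eq_mul]
    simp
  -- the series
  have hS : ‖χ.LFunction 1‖ - 32 * R / E ≤ ∑ e ∈ Icc 1 E, (χ (e : ZMod (4 * n))).re / e := by
    have h := hL (4 * n) χ (by omega) h1 E hE
    have hre := (Complex.abs_re_le_norm _).trans h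
    rw [Complex.sub_re, Complex.re_sum] at hre
    have hp := hPo (4 * n) χ h2 h1
    have hpr : (χ.LFunction 1).re = ‖χ.LFunction 1‖ := by
      rw [hp]; simp
    rw [hpr] at hre
    have hsum : ∑ e ∈ Icc 1 E, (χ (e : ZMod (4 * n)) / (e : ℂ)).re =
        ∑ e ∈ Icc 1 E, (χ (e : ZMod (4 * n))).re / e := by
      apply sum_congr rfl
      intro e _
      rw [Complex.div_natCast_re]
    rw [hsum] at hre
    have h3 := (abs_le.1 hre).2
    have h4 : 32 * √((4 * n : ℕ) : ℝ) * (1 + Real.log ((4 * n : ℕ) : ℝ)) / E = 32 * R / E := by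
      rw [hR]; ring
    rw [h4] at h3
    linarith
  have hG' := (abs_le.1 hG).1
  have hF' := (abs_le.1 hF).1
  have hcD : 0 ≤ c * D := by positivity
  have hmul := mul_le_mul_of_nonneg_left hS hcD
  have h5 : c * D * (32 * R / E) ≤ 32 * R * (D / E) := by
    have : c * D * (32 * R / E) = c * (32 * R * (D / E)) := by ring
    rw [this]
    have h6 : 0 ≤ 32 * R * (D / E : ℝ) := by positivity
    nlinarith
  nlinarith

lemma floor_half (y : ℝ) (hy : 1 ≤ y) : y / 2 ≤ (⌊y⌋₊ : ℝ) := by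
  have h1 : 1 ≤ ⌊y⌋₊ := Nat.le_floor (by exact_mod_cast hy)
  have h2 := Nat.lt_floor_add_one y
  have h3 : (1 : ℝ) ≤ (⌊y⌋₊ : ℝ) := by exact_mod_cast h1
  linarith

end HYPaux

open HYPaux in
theorem HYP_ok (hS : S_SIG) (hPo : S_POS) (hP : S_PV) (hL : S_LSER) (hC : S_COP) (hD : S_DIV) :
    S_HYP := by
  obtain ⟨c1, hc1, hsig⟩ := hS (1 / 10000) (by norm_num)
  obtain ⟨C1, hC1, hdiv⟩ := hD (1 / 10000) (by norm_num)
  set κ : ℝ := c1 / (16 * C1) with hκ
  have hκ0 : 0 < κ := by positivity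
  set C2 : ℝ := 160 * 40001 + 2 * C1 + 1 with hC2
  have ht : Filter.Tendsto (fun n : ℕ => (n : ℝ) ^ (1 / 10000 : ℝ)) Filter.atTop Filter.atTop :=
    (tendsto_rpow_atTop (by norm_num)).comp tendsto_natCast_atTop_atTop
  obtain ⟨N1, hN1⟩ := Filter.eventually_atTop.1 (ht.eventually_ge_atTop ((C2 + 1) / κ))
  refine ⟨max N1 1, ?_⟩
  intro n hn χ h1 h2
  have hn1 : 1 ≤ n := le_trans (le_max_right _ _) hn
  have hnN : N1 ≤ n := le_trans (le_max_left _ _) hn
  have hne : NeZero (4 * n) := ⟨by omega⟩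
  have ha := hN1 n hnN
  set x : ℝ := (n : ℝ) with hx
  have hx1 : 1 ≤ x := by rw [hx]; exact_mod_cast hn1
  have hx0 : 0 < x := by linarith
  set a : ℝ := x ^ (1 / 10000 : ℝ) with haa
  have ha1 : 1 ≤ a := Real.one_le_rpow hx1 (by norm_num)
  have ha0 : 0 < a := by linarith
  set D : ℕ := ⌊x ^ (502 / 1000 : ℝ)⌋₊ with hDd
  set E : ℕ := ⌊x ^ (501 / 1000 : ℝ)⌋₊ with hEd
  have y1 : 1 ≤ x ^ (501 / 1000 : ℝ) := Real.one_le_rpow hx1 (by norm_num)
  have y2 : 1 ≤ x ^ (502 / 1000 : ℝ) := Real.one_le_rpow hx1 (by norm_num)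
  have hE1 : 1 ≤ E := Nat.le_floor (by exact_mod_cast y1)
  have hED : E ≤ D := Nat.floor_le_floor (Real.rpow_le_rpow_of_exponent_le hx1 (by norm_num))
  have hlow := lower hP hL hC hPo n D E hn1 hE1 hED χ h1 h2
  refine le_trans ?_ hlow
  have hDle : (D : ℝ) ≤ x ^ (502 / 1000 : ℝ) := Nat.floor_le (by positivity)
  have hDge : x ^ (502 / 1000 : ℝ) / 2 ≤ (D : ℝ) := floor_half _ y2
  have hEle : (E : ℝ) ≤ x ^ (501 / 1000 : ℝ) := Nat.floor_le (by positivity)
  have hEge : x ^ (501 / 1000 : ℝ) / 2 ≤ (E : ℝ) := floor_half _ y1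
  have hE0 : (0 : ℝ) < E := by exact_mod_cast (by omega : 0 < E)
  -- powers
  have two1 : (2 : ℝ) ^ (1 / 10000 : ℝ) ≤ 2 := by
    calc (2 : ℝ) ^ (1 / 10000 : ℝ) ≤ (2 : ℝ) ^ (1 : ℝ) :=
          Real.rpow_le_rpow_of_exponent_le (by norm_num) (by norm_num)
      _ = 2 := Real.rpow_one 2
  have four1 : (4 : ℝ) ^ (1 / 10000 : ℝ) ≤ 4 := by
    calc (4 : ℝ) ^ (1 / 10000 : ℝ) ≤ (4 : ℝ) ^ (1 : ℝ) :=
          Real.rpow_le_rpow_of_exponent_le (by norm_num) (by norm_num)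
      _ = 4 := Real.rpow_one 4
  have p2 : (((2 * n : ℕ) : ℝ)) ^ (1 / 10000 : ℝ) ≤ 2 * a := by
    push_cast
    rw [Real.mul_rpow (by norm_num) hx0.le]
    exact mul_le_mul_of_nonneg_right two1 ha0.le
  have p4 : (((4 * n : ℕ) : ℝ)) ^ (1 / 10000 : ℝ) ≤ 4 * a := by
    push_cast
    rw [Real.mul_rpow (by norm_num) hx0.le]
    exact mul_le_mul_of_nonneg_right four1 ha0.le
  have q4pos : (0 : ℝ) < ((4 * n : ℕ) : ℝ) := by positivity
  have hτ : ((2 * n).divisors.card : ℝ) ≤ C1 * (2 * a) :=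
    (hdiv (2 * n) (by omega)).trans (mul_le_mul_of_nonneg_left p2 hC1.le)
  have hτ0 : (0 : ℝ) < ((2 * n).divisors.card : ℝ) := by
    exact_mod_cast Finset.card_pos.2 ⟨1, Nat.one_mem_divisors.2 (by omega)⟩
  -- lower bound for c
  have hcl : 1 / (C1 * (2 * a)) ≤ (Nat.totient (2 * n) : ℝ) / ((2 * n : ℕ) : ℝ) := by
    have h3 := tot_div (2 * n) (by omega)
    have h4 : (0 : ℝ) < ((2 * n : ℕ) : ℝ) := by positivity
    rw [div_le_div_iff₀ (by positivity) h4, one_mul]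
    refine h3.trans ?_
    exact mul_le_mul_of_nonneg_left hτ (Nat.cast_nonneg _)
  -- lower bound for L
  have hLl : c1 / (4 * a) ≤ ‖χ.LFunction 1‖ := by
    refine le_trans ?_ (hsig (4 * n) χ h2 h1)
    rw [Real.rpow_neg q4pos.le, ← div_eq_mul_inv]
    exact div_le_div_of_nonneg_left hc1.le (by positivity) p4
  -- exponents
  have ex1 : x ^ (502 / 1000 : ℝ) = a ^ 3 * x ^ (5017 / 10000 : ℝ) := by
    rw [haa, ← Real.rpow_natCast, ← Real.rpow_mul hx0.le, ← Real.rpow_add hx0]; norm_num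
  have ex2 : x ^ (501 / 1000 : ℝ) * a ≤ x ^ (5017 / 10000 : ℝ) := by
    rw [haa, ← Real.rpow_add hx0]
    exact Real.rpow_le_rpow_of_exponent_le hx1 (by norm_num)
  set Y : ℝ := x ^ (5017 / 10000 : ℝ) with hY
  have hY0 : 0 < Y := by positivity
  -- main term
  have main : κ * a * Y ≤ (Nat.totient (2 * n) : ℝ) / ((2 * n : ℕ) : ℝ) * D * ‖χ.LFunction 1‖ := by
    calc κ * a * Y = 1 / (C1 * (2 * a)) * (x ^ (502 / 1000 : ℝ) / 2) * (c1 / (4 * a)) := by
          rw [ex1, hκ]; field_simp; ring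
      _ ≤ (Nat.totient (2 * n) : ℝ) / ((2 * n : ℕ) : ℝ) * D * ‖χ.LFunction 1‖ := by
          apply mul_le_mul _ hLl (by positivity) (by positivity)
          exact mul_le_mul hcl hDge (by positivity) (by positivity)
  -- first error
  have hlog : 1 + Real.log ((4 * n : ℕ) : ℝ) ≤ 40001 * a := by
    have h5 := Real.log_le_rpow_div q4pos.le (by norm_num : (0 : ℝ) < 1 / 10000)
    have h6 : (((4 * n : ℕ) : ℝ)) ^ (1 / 10000 : ℝ) / (1 / 10000) ≤ 40000 * a := by
      rw [div_le_iff₀ (by norm_num)]; linarith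
    linarith
  have hlog0 : 0 ≤ 1 + Real.log ((4 * n : ℕ) : ℝ) := by
    have : 0 ≤ Real.log ((4 * n : ℕ) : ℝ) := Real.log_natCast_nonneg _
    linarith
  have hsq : √((4 * n : ℕ) : ℝ) = 2 * x ^ (1 / 2 : ℝ) := by
    push_cast
    rw [Real.sqrt_mul (by norm_num), Real.sqrt_eq_rpow x]
    congr 1
    rw [show (4 : ℝ) = 2 ^ 2 by norm_num, Real.sqrt_sq (by norm_num)]
  have hDE : (D : ℝ) / E ≤ 2 * x ^ (1 / 1000 : ℝ) := by
    rw [div_le_iff₀ hE0]
    calc (D : ℝ) ≤ x ^ (502 / 1000 : ℝ) := hDle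
      _ = 2 * x ^ (1 / 1000 : ℝ) * (x ^ (501 / 1000 : ℝ) / 2) := by
          have : x ^ (502 / 1000 : ℝ) = x ^ (1 / 1000 : ℝ) * x ^ (501 / 1000 : ℝ) := by
            rw [← Real.rpow_add hx0]; norm_num
          rw [this]; ring
      _ ≤ 2 * x ^ (1 / 1000 : ℝ) * E := mul_le_mul_of_nonneg_left hEge (by positivity)
  have err1 : 40 * (√((4 * n : ℕ) : ℝ) * (1 + Real.log ((4 * n : ℕ) : ℝ))) * ((D : ℝ) / E) ≤
      160 * 40001 * Y := by
    calc 40 * (√((4 * n : ℕ) : ℝ) * (1 + Real.log ((4 * n : ℕ) : ℝ))) * ((D : ℝ) / E)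
        ≤ 40 * ((2 * x ^ (1 / 2 : ℝ)) * (40001 * a)) * (2 * x ^ (1 / 1000 : ℝ)) := by
          apply mul_le_mul _ hDE (by positivity) (by positivity)
          rw [hsq]
          apply mul_le_mul_of_nonneg_left _ (by norm_num)
          exact mul_le_mul_of_nonneg_left hlog (by positivity)
      _ = 160 * 40001 * (x ^ (501 / 1000 : ℝ) * a) := by
          have : x ^ (501 / 1000 : ℝ) = x ^ (1 / 2 : ℝ) * x ^ (1 / 1000 : ℝ) := by
            rw [← Real.rpow_add hx0]; norm_num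
          rw [this]; ring
      _ ≤ 160 * 40001 * Y := mul_le_mul_of_nonneg_left ex2 (by norm_num)
  -- second error
  have err2 : (E : ℝ) * (((2 * n).divisors.card : ℝ) + 1) ≤ (2 * C1 + 1) * Y := by
    calc (E : ℝ) * (((2 * n).divisors.card : ℝ) + 1)
        ≤ x ^ (501 / 1000 : ℝ) * ((2 * C1 + 1) * a) := by
          apply mul_le_mul hEle _ (by positivity) (by positivity)
          nlinarith
      _ = (2 * C1 + 1) * (x ^ (501 / 1000 : ℝ) * a) := by ring
      _ ≤ (2 * C1 + 1) * Y := mul_le_mul_of_nonneg_left ex2 (by positivity)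
  have fin : (C2 + 1) * Y ≤ κ * a * Y := by
    apply mul_le_mul_of_nonneg_right _ hY0.le
    rw [div_le_iff₀ hκ0] at ha
    linarith
  have : (C2 + 1) * Y = 160 * 40001 * Y + (2 * C1 + 1) * Y + Y := by rw [hC2]; ring
  linarith

end Pool.Agent.H843R2.KZ
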