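import Pool.Agent.H843R2.KZ.Stubs

set_option autoImplicit false

namespace Pool.Agent.H843R2.KZ

open Finset

theorem IDEN_odd (a n : ℕ) (h : Nat.Coprime a (2 * n)) : Odd a := by
  have h1 : Nat.Coprime a 2 := Nat.Coprime.coprime_mul_right_right h
  rcases Nat.even_or_odd a with h2 | h2
  · exfalso
    have h3 : 2 ∣ Nat.gcd a 2 := Nat.dvd_gcd h2.two_dvd dvd_rfl
    rw [h1] at h3
    omega
  · exact h2

theorem IDEN_sq (n : ℕ) (E c : ℤ) (hc : c ≠ 0) (h : E ^ 2 = n * c ^ 2) : IsSquare n := by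
  have h1 : c ^ 2 ∣ E ^ 2 := ⟨n, by rw [h]; ring⟩
  have h2 : c ∣ E := (Int.pow_dvd_pow_iff (by norm_num)).mp h1
  obtain ⟨k, rfl⟩ := h2
  have h3 : (n : ℤ) = k ^ 2 := by
    have : c ^ 2 * ((n : ℤ) - k ^ 2) = 0 := by linarith [h, mul_pow c k 2, mul_comm (n:ℤ) (c^2)]
    rcases mul_eq_zero.mp this with h4 | h4
    · exact absurd (pow_eq_zero_iff (by norm_num) |>.mp h4) hc
    · linarith
  refine ⟨k.natAbs, ?_⟩
  zify
  rw [h3, ← sq, sq_abs]

theorem IDEN_ok : S_IDEN := by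
  intro n D hn P hP Q hQ hPQ
  simp only [obj, mem_filter, mem_product, mem_Icc, mem_range] at hP hQ
  obtain ⟨⟨⟨hP1, -⟩, -⟩, -, hPc, hPy, hPd⟩ := hP
  obtain ⟨⟨⟨hQ1, -⟩, -⟩, -, hQc, hQy, hQd⟩ := hQ
  have hl : (P.1 : ℤ) * lv n P = n - (P.2 : ℤ) ^ 2 := Int.mul_ediv_cancel' hPd
  have hm : (Q.1 : ℤ) * lv n Q = n - (Q.2 : ℤ) ^ 2 := Int.mul_ediv_cancel' hQd
  obtain ⟨i, hi⟩ := IDEN_odd _ _ hPc
  obtain ⟨j, hj⟩ := IDEN_odd _ _ hQc
  have hi' : (P.1 : ℤ) = 2 * i + 1 := by exact_mod_cast hi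
  have hj' : (Q.1 : ℤ) = 2 * j + 1 := by exact_mod_cast hj
  have hdpos : (0 : ℤ) < P.1 := by exact_mod_cast hP1
  set d : ℤ := (P.1 : ℤ) with hd
  set e : ℤ := (Q.1 : ℤ) with he
  set y : ℤ := (P.2 : ℤ) with hy
  set z : ℤ := (Q.2 : ℤ) with hz
  set l : ℤ := lv n P with hl0
  set m : ℤ := lv n Q with hm0
  have hA : 2 * ((j : ℤ) - i) = e - d := by rw [hi', hj']; ring
  have hB : 2 * ((j : ℤ) + i + 1) = e + d := by rw [hi', hj']; ring
  set A : ℤ := (j : ℤ) - i with hA0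
  set B : ℤ := (j : ℤ) + i + 1 with hB0
  have hid : (y * e - z * d) ^ 2 = (4 * n - ((z - y) ^ 2 + (e - d) * (m - l))) * A ^ 2
      + ((z - y) ^ 2 + (e - d) * (m - l)) * B ^ 2 := by
    have h4A : 4 * A ^ 2 = (e - d) ^ 2 := by rw [← hA]; ring
    have h4B : 4 * B ^ 2 = (e + d) ^ 2 := by rw [← hB]; ring
    have key : 4 * (y * e - z * d) ^ 2 = 4 * ((4 * n - ((z - y) ^ 2 + (e - d) * (m - l))) * A ^ 2
      + ((z - y) ^ 2 + (e - d) * (m - l)) * B ^ 2) := by
      have : 4 * ((4 * n - ((z - y) ^ 2 + (e - d) * (m - l))) * A ^ 2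
        + ((z - y) ^ 2 + (e - d) * (m - l)) * B ^ 2)
        = (4 * n - ((z - y) ^ 2 + (e - d) * (m - l))) * (4 * A ^ 2)
        + ((z - y) ^ 2 + (e - d) * (m - l)) * (4 * B ^ 2) := by ring
      rw [this, h4A, h4B]
      linear_combination (4 * e * (e - d)) * hl - (4 * d * (e - d)) * hm
    linarith
  have hg1 : ((Int.gcd A B : ℕ) : ℤ) ∣ d := by
    have : d = B - A := by linarith
    rw [this]
    exact dvd_sub (Int.gcd_dvd_right _ _) (Int.gcd_dvd_left _ _)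
  have hg2 : ((Int.gcd A B : ℕ) : ℤ) ∣ e := by
    have : e = A + B := by linarith
    rw [this]
    exact dvd_add (Int.gcd_dvd_left _ _) (Int.gcd_dvd_right _ _)
  refine ⟨A, B, y * e - z * d, (z - y) ^ 2 + (e - d) * (m - l), hA, hB, rfl, rfl, hid, ?_, ?_, ?_⟩
  · intro hS
    rw [hS] at hid
    have hE : (y * e - z * d) ^ 2 = n * (e - d) ^ 2 := by
      rw [hid, ← hA]; ring
    have hed : e - d = 0 := by
      by_contra hc
      exact hn (IDEN_sq n _ _ hc hE)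
    have hed' : e = d := by linarith
    rw [hed] at hE
    have hE0 : y * e - z * d = 0 := by
      have : (y * e - z * d) ^ 2 = 0 := by rw [hE]; ring
      exact pow_eq_zero_iff (by norm_num) |>.mp this
    rw [hed'] at hE0
    have h1 : (y - z) * d = 0 := by linarith
    have h2 : y = z := by
      rcases mul_eq_zero.mp h1 with h | h
      · linarith
      · omega
    apply hPQ
    apply Prod.ext
    · have : (P.1 : ℤ) = Q.1 := by rw [← hd, ← he, hed']
      exact_mod_cast this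
    · have : (P.2 : ℤ) = Q.2 := by rw [← hy, ← hz, h2]
      exact_mod_cast this
  · set g : ℤ := ((Int.gcd A B : ℕ) : ℤ)
    obtain ⟨d', hd'⟩ := hg1
    obtain ⟨e', he'⟩ := hg2
    have hu : g ∣ (e - d) * (m - l) := by
      rw [hd', he']; exact ⟨(e' - d') * (m - l), by ring⟩
    have hw : g ∣ d * l - e * m := by
      rw [hd', he']; exact ⟨d' * l - e' * m, by ring⟩
    have hv : g ∣ 2 * (d * l) + 2 * (e * m) - (e - d) * (m - l) := by
      refine dvd_sub ?_ hu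
      rw [hd', he']; exact ⟨2 * (d' * l) + 2 * (e' * m), by ring⟩
    have heq : ((z - y) ^ 2 + (e - d) * (m - l)) * (4 * n - ((z - y) ^ 2 + (e - d) * (m - l)))
        = (d * l - e * m) * (d * l - e * m) + ((e - d) * (m - l)) * (y + z) ^ 2
          + (2 * (d * l) + 2 * (e * m) - (e - d) * (m - l)) * (z - y) ^ 2
          + ((e - d) * (m - l)) * (2 * (d * l) + 2 * (e * m) - (e - d) * (m - l)) := by
      have h1 : 4 * (n:ℤ) = 2 * (d * l + y ^ 2) + 2 * (e * m + z ^ 2) := by rw [hl, hm]; ring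
      have h2 : d * l - e * m = z ^ 2 - y ^ 2 := by rw [hl, hm]; ring
      rw [h1, h2]
      ring
    rw [heq]
    exact dvd_add (dvd_add (dvd_add (hw.mul_right _) (hu.mul_right _)) (hv.mul_right _)) (hu.mul_right _)
  · exact dvd_sub (hg2.mul_left _) (hg1.mul_left _)

end Pool.Agent.H843R2.KZ
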