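import Pool.Agent.H843R2.KZ.Stubs

set_option autoImplicit false

namespace Pool.Agent.H843R2.KZ

theorem KE_ok : S_KE := by
  intro n hn
  obtain ⟨a, ha⟩ : ∃ a : ℕ, a = Nat.sqrt n := ⟨_, rfl⟩
  have h1 : a * a ≤ n := by rw [ha]; exact Nat.sqrt_le n
  have h2 : n ≤ a * a + a + a := by rw [ha]; exact Nat.sqrt_le_add n
  obtain ⟨b, hb⟩ : ∃ b : ℕ, n = a * a + b := ⟨n - a * a, by omega⟩
  have hb2 : b ≤ 2 * a := by omega
  have hnz : (n : ℤ) = (a : ℤ) * a + b := by rw [hb]; push_cast; ring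
  have haz : (0 : ℤ) ≤ a := Int.natCast_nonneg a
  have hbz : (0 : ℤ) ≤ b := Int.natCast_nonneg b
  have hb2z : (b : ℤ) ≤ 2 * a := by exact_mod_cast hb2
  -- `b` is not a multiple of four
  have hb4 : b % 4 ≠ 0 := by
    intro h
    apply hn
    rcases Nat.eq_zero_or_pos b with h0 | h0
    · refine ⟨a, 0, 0, ?_, ?_, ?_, ?_⟩
      · rw [hnz, h0]; push_cast; ring
      · rw [hnz]; nlinarith
      · rw [hnz]; nlinarith
      · rw [hnz]; nlinarith
    · obtain ⟨m, hm⟩ : ∃ m : ℕ, b = 4 * m := ⟨b / 4, by omega⟩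
      have hm1 : 1 ≤ m := by omega
      have hma : 2 * m ≤ a := by omega
      have hmz : (1 : ℤ) ≤ m := by exact_mod_cast hm1
      have hmaz : 2 * (m : ℤ) ≤ a := by exact_mod_cast hma
      refine ⟨a, m + 1, m - 1, ?_, ?_, ?_, ?_⟩
      · rw [hnz, hm]; push_cast; ring
      · rw [hnz]; nlinarith
      · rw [hnz]; nlinarith
      · rw [hnz]; nlinarith
  have hb1 : b % 2 = 0 := by
    by_contra h
    apply hn
    obtain ⟨m, hm⟩ : ∃ m : ℕ, b = 2 * m + 1 := ⟨b / 2, by omega⟩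
    have hma : m + 1 ≤ a := by omega
    have hmz : (0 : ℤ) ≤ m := Int.natCast_nonneg m
    have hmaz : (m : ℤ) + 1 ≤ a := by exact_mod_cast hma
    refine ⟨a, m + 1, m, ?_, ?_, ?_, ?_⟩
    · rw [hnz, hm]; push_cast; ring
    · rw [hnz]; nlinarith
    · rw [hnz]; nlinarith
    · rw [hnz]; nlinarith
  have hb3 : b % 4 = 2 := by omega
  have hsq : a * a % 4 = 0 ∨ a * a % 4 = 1 := by
    have h3 : a % 4 = 0 ∨ a % 4 = 1 ∨ a % 4 = 2 ∨ a % 4 = 3 := by omega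
    rcases h3 with h | h | h | h <;> simp [Nat.mul_mod, h]
  have hmod : n % 4 = 2 ∨ n % 4 = 3 := by omega
  refine ⟨hmod, ?_⟩
  rintro ⟨c, hc⟩
  have hsc : c * c % 4 = 0 ∨ c * c % 4 = 1 := by
    have h3 : c % 4 = 0 ∨ c % 4 = 1 ∨ c % 4 = 2 ∨ c % 4 = 3 := by omega
    rcases h3 with h | h | h | h <;> simp [Nat.mul_mod, h]
  omega

end Pool.Agent.H843R2.KZ
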