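import Pool.Agent.H843R2.KZ.Stubs

set_option autoImplicit false

namespace Pool.Agent.H843R2.KZ

open Finset

/-- large powers -/
theorem LOW_big (c K : ℝ) (hc : 0 < c) : ∃ N : ℕ, ∀ n : ℕ, N ≤ n → K ≤ (n : ℝ) ^ c := by
  have h := (tendsto_rpow_atTop hc).comp (tendsto_natCast_atTop_atTop (R := ℝ))
  have h2 := h.eventually_ge_atTop K
  rw [Filter.eventually_atTop] at h2
  obtain ⟨N, hN⟩ := h2
  exact ⟨N, fun n hn => hN n hn⟩

/-- moduli coprime to 2n -/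
def LOW_F (n D : ℕ) : Finset ℕ := (Icc 1 D).filter (fun d => Nat.Coprime d (2 * n))

theorem LOW_mem (n D d : ℕ) : d ∈ LOW_F n D ↔ (1 ≤ d ∧ d ≤ D) ∧ Nat.Coprime d (2 * n) := by
  simp [LOW_F]

theorem LOW_obj (n D : ℕ) :
    ∑ d ∈ (LOW_F n D).filter (fun d => n ≤ d ^ 2), rho n d ≤ (obj n D).card := by
  have h1 : ∑ d ∈ (LOW_F n D).filter (fun d => n ≤ d ^ 2), rho n d =
      (((LOW_F n D).filter (fun d => n ≤ d ^ 2)).sigma (fun d => (range d).filter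
        (fun y : ℕ => (d : ℤ) ∣ (n : ℤ) - (y : ℤ) ^ 2))).card := by
    rw [Finset.card_sigma]; rfl
  rw [h1]
  refine Finset.card_le_card_of_injOn (fun x => (x.1, x.2)) ?_ ?_
  · intro x hx
    have hx' : x ∈ (((LOW_F n D).filter (fun d => n ≤ d ^ 2)).sigma (fun d => (range d).filter
        (fun y : ℕ => (d : ℤ) ∣ (n : ℤ) - (y : ℤ) ^ 2))) := hx
    rw [Finset.mem_sigma, Finset.mem_filter, LOW_mem, Finset.mem_filter, Finset.mem_range] at hx'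
    obtain ⟨⟨⟨⟨a1, a2⟩, a3⟩, a4⟩, a5, a6⟩ := hx'
    show (x.1, x.2) ∈ obj n D
    simp only [obj, Finset.mem_filter, Finset.mem_product, Finset.mem_Icc, Finset.mem_range]
    exact ⟨⟨⟨a1, a2⟩, by omega⟩, a4, a3, a5, a6⟩
  · rintro ⟨a, b⟩ _ ⟨a', b'⟩ _ h
    simp only [Prod.mk.injEq] at h
    obtain ⟨rfl, rfl⟩ := h
    rfl

theorem LOW_T (n D g : ℕ) (hg : 1 ≤ g) :
    ∑ d ∈ (LOW_F n D).filter (fun d => g ^ 2 ∣ d), rho n (d / g ^ 2) ≤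
      ∑ d ∈ LOW_F n D, rho n d := by
  have hg2 : 0 < g ^ 2 := by positivity
  have hinj : Set.InjOn (fun d => d / g ^ 2)
      ((LOW_F n D).filter (fun d => g ^ 2 ∣ d) : Finset ℕ) := by
    intro a ha b hb h
    have ha' := (Finset.mem_filter.mp ha).2
    have hb' := (Finset.mem_filter.mp hb).2
    have h' : a / g ^ 2 = b / g ^ 2 := h
    rw [← Nat.div_mul_cancel ha', ← Nat.div_mul_cancel hb', h']
  rw [← Finset.sum_image (f := fun m => rho n m) hinj]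
  refine Finset.sum_le_sum_of_subset ?_
  intro m hm
  rw [Finset.mem_image] at hm
  obtain ⟨d, hd, rfl⟩ := hm
  rw [Finset.mem_filter, LOW_mem] at hd
  obtain ⟨⟨⟨a1, a2⟩, a3⟩, a4⟩ := hd
  rw [LOW_mem]
  refine ⟨⟨?_, ?_⟩, ?_⟩
  · exact Nat.div_pos (Nat.le_of_dvd a1 a4) hg2
  · exact (Nat.div_le_self _ _).trans a2
  · exact Nat.Coprime.coprime_dvd_left (Nat.div_dvd_of_dvd a4) a3

theorem LOW_T2 (n D g : ℕ) (hg : 1 ≤ g) (R : ℝ) (hR0 : 0 ≤ R)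
    (hR : ∀ m ∈ LOW_F n D, (rho n m : ℝ) ≤ R) :
    ((∑ d ∈ (LOW_F n D).filter (fun d => g ^ 2 ∣ d), rho n (d / g ^ 2) : ℕ) : ℝ) ≤
      D * R * ((g : ℝ) ^ 2)⁻¹ := by
  have hg2 : 0 < g ^ 2 := by positivity
  have h1 : ((∑ d ∈ (LOW_F n D).filter (fun d => g ^ 2 ∣ d), rho n (d / g ^ 2) : ℕ) : ℝ) ≤
      ∑ d ∈ (LOW_F n D).filter (fun d => g ^ 2 ∣ d), R := by
    rw [Nat.cast_sum]
    refine Finset.sum_le_sum (fun d hd => hR _ ?_)
    rw [Finset.mem_filter, LOW_mem] at hd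
    obtain ⟨⟨⟨a1, a2⟩, a3⟩, a4⟩ := hd
    rw [LOW_mem]
    exact ⟨⟨Nat.div_pos (Nat.le_of_dvd a1 a4) hg2, (Nat.div_le_self _ _).trans a2⟩,
      Nat.Coprime.coprime_dvd_left (Nat.div_dvd_of_dvd a4) a3⟩
  have h2 : ((LOW_F n D).filter (fun d => g ^ 2 ∣ d)).card ≤ D / g ^ 2 := by
    rw [← Nat.Ioc_filter_dvd_card_eq_div]
    refine Finset.card_le_card ?_
    intro d hd
    rw [Finset.mem_filter, LOW_mem] at hd
    rw [Finset.mem_filter, Finset.mem_Ioc]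
    exact ⟨⟨by omega, hd.1.1.2⟩, hd.2⟩
  rw [Finset.sum_const, nsmul_eq_mul] at h1
  have h3 : (((LOW_F n D).filter (fun d => g ^ 2 ∣ d)).card : ℝ) ≤ D * ((g : ℝ) ^ 2)⁻¹ := by
    have h4 : ((D / g ^ 2 : ℕ) : ℝ) ≤ (D : ℝ) / ((g ^ 2 : ℕ) : ℝ) := Nat.cast_div_le
    have h5 : (((LOW_F n D).filter (fun d => g ^ 2 ∣ d)).card : ℝ) ≤ ((D / g ^ 2 : ℕ) : ℝ) := by
      exact_mod_cast h2
    refine (h5.trans h4).trans (le_of_eq ?_)
    push_cast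
    rw [div_eq_mul_inv]
  calc _ ≤ _ := h1
    _ ≤ (D * ((g : ℝ) ^ 2)⁻¹) * R := by gcongr
    _ = D * R * ((g : ℝ) ^ 2)⁻¹ := by ring

/-- the double sum -/
theorem LOW_double (n D G : ℕ) (hG : 1 ≤ G) (R : ℝ) (hR0 : 0 ≤ R)
    (hR : ∀ m ∈ LOW_F n D, (rho n m : ℝ) ≤ R) :
    ((∑ d ∈ LOW_F n D, ∑ g ∈ (Icc 1 d).filter (fun g => g ^ 2 ∣ d), rho n (d / g ^ 2) : ℕ) : ℝ) ≤
      G * ((∑ d ∈ LOW_F n D, rho n d : ℕ) : ℝ) + D * R / G := by
  have h1 : (∑ d ∈ LOW_F n D, ∑ g ∈ (Icc 1 d).filter (fun g => g ^ 2 ∣ d), rho n (d / g ^ 2)) ≤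
      ∑ g ∈ Icc 1 D, ∑ d ∈ (LOW_F n D).filter (fun d => g ^ 2 ∣ d), rho n (d / g ^ 2) := by
    simp only [Finset.sum_filter]
    rw [Finset.sum_comm]
    refine Finset.sum_le_sum (fun d hd => ?_)
    refine Finset.sum_le_sum_of_subset ?_
    rw [LOW_mem] at hd
    exact Finset.Icc_subset_Icc le_rfl hd.1.2
  have h2 : ((∑ g ∈ Icc 1 D, ∑ d ∈ (LOW_F n D).filter (fun d => g ^ 2 ∣ d),
      rho n (d / g ^ 2) : ℕ) : ℝ) ≤
      G * ((∑ d ∈ LOW_F n D, rho n d : ℕ) : ℝ) + D * R / G := by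
    rw [Nat.cast_sum, ← Finset.sum_filter_add_sum_filter_not (Icc 1 D) (fun g => g ≤ G)]
    refine add_le_add ?_ ?_
    · have h3 : ∑ g ∈ (Icc 1 D).filter (fun g => g ≤ G),
          ((∑ d ∈ (LOW_F n D).filter (fun d => g ^ 2 ∣ d), rho n (d / g ^ 2) : ℕ) : ℝ) ≤
          ∑ g ∈ (Icc 1 D).filter (fun g => g ≤ G), ((∑ d ∈ LOW_F n D, rho n d : ℕ) : ℝ) := by
        refine Finset.sum_le_sum (fun g hg => ?_)
        rw [Finset.mem_filter, Finset.mem_Icc] at hg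
        exact_mod_cast LOW_T n D g hg.1.1
      refine h3.trans ?_
      rw [Finset.sum_const, nsmul_eq_mul]
      refine mul_le_mul_of_nonneg_right ?_ (Nat.cast_nonneg _)
      have h4 : ((Icc 1 D).filter (fun g => g ≤ G)).card ≤ (Icc 1 G).card := by
        refine Finset.card_le_card ?_
        intro g hg
        rw [Finset.mem_filter, Finset.mem_Icc] at hg
        rw [Finset.mem_Icc]
        exact ⟨hg.1.1, hg.2⟩
      rw [Nat.card_Icc, Nat.add_sub_cancel] at h4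
      exact_mod_cast h4
    · have h3 : ∑ g ∈ (Icc 1 D).filter (fun g => ¬ g ≤ G),
          ((∑ d ∈ (LOW_F n D).filter (fun d => g ^ 2 ∣ d), rho n (d / g ^ 2) : ℕ) : ℝ) ≤
          ∑ g ∈ (Icc 1 D).filter (fun g => ¬ g ≤ G), (D * R) * ((g : ℝ) ^ 2)⁻¹ := by
        refine Finset.sum_le_sum (fun g hg => ?_)
        rw [Finset.mem_filter, Finset.mem_Icc] at hg
        exact LOW_T2 n D g hg.1.1 R hR0 hR
      refine h3.trans ?_
      rw [← Finset.mul_sum, div_eq_mul_inv]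
      refine mul_le_mul_of_nonneg_left ?_ (by positivity)
      have h4 : (Icc 1 D).filter (fun g => ¬ g ≤ G) = Ioc G D := by
        ext g
        rw [Finset.mem_filter, Finset.mem_Icc, Finset.mem_Ioc]
        omega
      rw [h4]
      rcases le_or_gt G D with hGD | hGD
      · refine (sum_Ioc_inv_sq_le_sub (by omega) hGD).trans ?_
        have : (0 : ℝ) ≤ (D : ℝ)⁻¹ := by positivity
        linarith
      · rw [Finset.Ioc_eq_empty_of_le hGD.le, Finset.sum_empty]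
        positivity
  refine le_trans ?_ h2
  exact_mod_cast h1

/-- small moduli -/
theorem LOW_small (n D : ℕ) (R : ℝ) (hR0 : 0 ≤ R)
    (hR : ∀ m ∈ LOW_F n D, (rho n m : ℝ) ≤ R) :
    ((∑ d ∈ LOW_F n D, rho n d : ℕ) : ℝ) ≤ ((obj n D).card : ℝ) + √(n : ℝ) * R := by
  rw [← Finset.sum_filter_add_sum_filter_not (LOW_F n D) (fun d => n ≤ d ^ 2)]
  push_cast
  refine add_le_add ?_ ?_
  · exact_mod_cast LOW_obj n D
  · have h1 : ∑ d ∈ (LOW_F n D).filter (fun d => ¬ n ≤ d ^ 2), (rho n d : ℝ) ≤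
        ∑ d ∈ (LOW_F n D).filter (fun d => ¬ n ≤ d ^ 2), R := by
      refine Finset.sum_le_sum (fun d hd => hR d (Finset.mem_filter.mp hd).1)
    refine h1.trans ?_
    rw [Finset.sum_const, nsmul_eq_mul]
    refine mul_le_mul_of_nonneg_right ?_ hR0
    have h2 : ((LOW_F n D).filter (fun d => ¬ n ≤ d ^ 2)).card ≤ (Icc 1 (Nat.sqrt n)).card := by
      refine Finset.card_le_card ?_
      intro d hd
      rw [Finset.mem_filter, LOW_mem] at hd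
      rw [Finset.mem_Icc]
      refine ⟨hd.1.1.1, ?_⟩
      rw [Nat.le_sqrt]
      have := hd.2
      rw [pow_two] at this
      omega
    rw [Nat.card_Icc, Nat.add_sub_cancel] at h2
    have h3 : (((LOW_F n D).filter (fun d => ¬ n ≤ d ^ 2)).card : ℝ) ≤ (Nat.sqrt n : ℝ) := by
      exact_mod_cast h2
    exact h3.trans Real.nat_sqrt_le_real_sqrt

theorem LOW_ok (hQ : S_QCH) (hH : S_HYP) (hR : S_RHO) (hRd : S_RHD) (hD : S_DIV) : S_LOW := by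
  obtain ⟨N1, hN1⟩ := hH
  obtain ⟨C, hC0, hC⟩ := hD (1 / 100000) (by norm_num)
  obtain ⟨N2, hN2⟩ := LOW_big (9 / 100000) (2 * C) (by norm_num)
  obtain ⟨N3, hN3⟩ := LOW_big (99 / 100000) C (by norm_num)
  obtain ⟨N4, hN4⟩ := LOW_big (3 / 10000) 8 (by norm_num)
  refine ⟨max (max N1 N2) (max (max N3 N4) 2), fun n hn hsq => ?_⟩
  have hn1 : N1 ≤ n := by omega
  have hn2 : N2 ≤ n := by omega
  have hn3 : N3 ≤ n := by omega
  have hn4 : N4 ≤ n := by omega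
  have hn5 : 2 ≤ n := by omega
  have hnr : (1 : ℝ) ≤ n := by exact_mod_cast (by omega : 1 ≤ n)
  have hn0 : (0 : ℝ) < n := by linarith
  have hadd : ∀ a b : ℝ, (n : ℝ) ^ a * (n : ℝ) ^ b = (n : ℝ) ^ (a + b) :=
    fun a b => (Real.rpow_add hn0 a b).symm
  have hpos : ∀ a : ℝ, 0 < (n : ℝ) ^ a := fun a => Real.rpow_pos_of_pos hn0 a
  obtain ⟨χ, hχ1, hχ2, hχ3⟩ := hQ n hn5 hsq
  have key := hN1 n hn1 χ hχ1 hχ2
  obtain ⟨D, hDdef⟩ : ∃ D : ℕ, D = ⌊(n : ℝ) ^ (502 / 1000 : ℝ)⌋₊ := ⟨_, rfl⟩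
  rw [← hDdef] at key ⊢
  have hDle : (D : ℝ) ≤ (n : ℝ) ^ (502 / 1000 : ℝ) := by
    rw [hDdef]; exact Nat.floor_le (hpos _).le
  have hDn : D ≤ n := by
    have : (D : ℝ) ≤ n := by
      refine hDle.trans ?_
      conv_rhs => rw [← Real.rpow_one (n : ℝ)]
      exact Real.rpow_le_rpow_of_exponent_le hnr (by norm_num)
    exact_mod_cast this
  -- bound for rho
  obtain ⟨R, hRdef⟩ : ∃ R : ℝ, R = C * (n : ℝ) ^ (1 / 100000 : ℝ) := ⟨_, rfl⟩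
  have hR0 : 0 ≤ R := by rw [hRdef]; exact (mul_pos hC0 (hpos _)).le
  have hRb : ∀ m ∈ LOW_F n D, (rho n m : ℝ) ≤ R := by
    intro m hm
    rw [LOW_mem] at hm
    have h1 : (rho n m : ℝ) ≤ (m.divisors.card : ℝ) := by
      exact_mod_cast hRd n m hm.1.1 hm.2
    have h2 := hC m hm.1.1
    have h3 : (m : ℝ) ^ (1 / 100000 : ℝ) ≤ (n : ℝ) ^ (1 / 100000 : ℝ) := by
      refine Real.rpow_le_rpow (Nat.cast_nonneg _) ?_ (by norm_num)
      exact_mod_cast hm.1.2.trans hDn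
    rw [hRdef]
    exact (h1.trans h2).trans (by gcongr)
  -- the character sum
  have hsum : ∑ d ∈ (Icc 1 D).filter (fun d => Nat.Coprime d (2 * n)),
      ∑ e ∈ d.divisors, (χ (e : ZMod (4 * n))).re ≤
      ((∑ d ∈ LOW_F n D, ∑ g ∈ (Icc 1 d).filter (fun g => g ^ 2 ∣ d),
        rho n (d / g ^ 2) : ℕ) : ℝ) := by
    rw [Nat.cast_sum]
    refine Finset.sum_le_sum (fun d hd => ?_)
    have hd' : d ∈ LOW_F n D := hd
    rw [LOW_mem] at hd'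
    have h1 := hR n d hd'.1.1 hd'.2
    have h2 : ∑ e ∈ d.divisors, (χ (e : ZMod (4 * n))).re =
        ((∑ e ∈ d.divisors, jacobiSym n e : ℤ) : ℝ) := by
      rw [Int.cast_sum]
      refine Finset.sum_congr rfl (fun e he => ?_)
      have hed := Nat.dvd_of_mem_divisors he
      have hodd : Odd e := by
        have h3 : Nat.Coprime e 2 :=
          (Nat.Coprime.coprime_dvd_left hed hd'.2).coprime_mul_right_right
        exact Nat.coprime_two_right.mp h3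
      rw [hχ3 e hodd]
      simp
    rw [h2]
    exact_mod_cast h1
  obtain ⟨G, hGdef⟩ : ∃ G : ℕ, G = ⌈(n : ℝ) ^ (4 / 10000 : ℝ)⌉₊ := ⟨_, rfl⟩
  have hG1 : (n : ℝ) ^ (4 / 10000 : ℝ) ≤ G := by rw [hGdef]; exact Nat.le_ceil _
  have hone : (1 : ℝ) ≤ (n : ℝ) ^ (4 / 10000 : ℝ) := Real.one_le_rpow hnr (by norm_num)
  have hG2 : (G : ℝ) ≤ 2 * (n : ℝ) ^ (4 / 10000 : ℝ) := by
    have : (G : ℝ) ≤ (n : ℝ) ^ (4 / 10000 : ℝ) + 1 := by
      rw [hGdef]; exact (Nat.ceil_lt_add_one (hpos _).le).le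
    linarith
  have hGone : 1 ≤ G := by
    have : (1 : ℝ) ≤ G := hone.trans hG1
    exact_mod_cast this
  have hGpos : (0 : ℝ) < G := by exact_mod_cast hGone
  have hdb := LOW_double n D G hGone R hR0 hRb
  have hsm := LOW_small n D R hR0 hRb
  obtain ⟨NN, hNN⟩ : ∃ NN : ℝ, NN = ((∑ d ∈ LOW_F n D, rho n d : ℕ) : ℝ) := ⟨_, rfl⟩
  rw [← hNN] at hdb hsm
  have hNN0 : 0 ≤ NN := by rw [hNN]; exact Nat.cast_nonneg _
  have e1 : (n : ℝ) ^ (5017 / 10000 : ℝ) ≤ G * NN + D * R / G := (key.trans hsum).trans hdb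
  have e2 : D * R / G ≤ (n : ℝ) ^ (5017 / 10000 : ℝ) / 2 := by
    have h1 : D * R / G ≤ (n : ℝ) ^ (502 / 1000 : ℝ) * R / (n : ℝ) ^ (4 / 10000 : ℝ) := by
      gcongr
    refine h1.trans ?_
    rw [div_le_iff₀ (hpos _), hRdef]
    have h2 := hN2 n hn2
    have h3 : (n : ℝ) ^ (502 / 1000 : ℝ) * (C * (n : ℝ) ^ (1 / 100000 : ℝ)) =
        C * (n : ℝ) ^ (50201 / 100000 : ℝ) := by
      rw [mul_left_comm, hadd]; norm_num
    have h4 : (n : ℝ) ^ (5017 / 10000 : ℝ) / 2 * (n : ℝ) ^ (4 / 10000 : ℝ) =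
        ((n : ℝ) ^ (9 / 100000 : ℝ) / 2) * (n : ℝ) ^ (50201 / 100000 : ℝ) := by
      rw [div_mul_eq_mul_div, div_mul_eq_mul_div, hadd, hadd]; norm_num
    rw [h3, h4]
    have h5 : C ≤ (n : ℝ) ^ (9 / 100000 : ℝ) / 2 := by linarith
    exact mul_le_mul_of_nonneg_right h5 (hpos _).le
  have e3 : (n : ℝ) ^ (5017 / 10000 : ℝ) / 2 ≤ (2 * (n : ℝ) ^ (4 / 10000 : ℝ)) * NN := by
    have : (G : ℝ) * NN ≤ (2 * (n : ℝ) ^ (4 / 10000 : ℝ)) * NN := by gcongr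
    linarith
  have e4 : (n : ℝ) ^ (5013 / 10000 : ℝ) / 4 ≤ NN := by
    have h1 : (n : ℝ) ^ (5017 / 10000 : ℝ) =
        (n : ℝ) ^ (4 / 10000 : ℝ) * (n : ℝ) ^ (5013 / 10000 : ℝ) := by
      rw [hadd]; norm_num
    rw [h1] at e3
    have h2 : (n : ℝ) ^ (4 / 10000 : ℝ) * ((n : ℝ) ^ (5013 / 10000 : ℝ) / 4) ≤
        (n : ℝ) ^ (4 / 10000 : ℝ) * NN := by linarith
    exact le_of_mul_le_mul_left h2 (hpos _)
  have e5 : √(n : ℝ) * R ≤ (n : ℝ) ^ (501 / 1000 : ℝ) := by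
    rw [Real.sqrt_eq_rpow, hRdef, mul_left_comm, hadd]
    have h1 : (n : ℝ) ^ (501 / 1000 : ℝ) = (n : ℝ) ^ (99 / 100000 : ℝ) *
        (n : ℝ) ^ (1 / 2 + 1 / 100000 : ℝ) := by
      rw [hadd]; norm_num
    rw [h1]
    exact mul_le_mul_of_nonneg_right (hN3 n hn3) (hpos _).le
  have e6 : 8 * (n : ℝ) ^ (501 / 1000 : ℝ) ≤ (n : ℝ) ^ (5013 / 10000 : ℝ) := by
    have h1 : (n : ℝ) ^ (5013 / 10000 : ℝ) = (n : ℝ) ^ (3 / 10000 : ℝ) *
        (n : ℝ) ^ (501 / 1000 : ℝ) := by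
      rw [hadd]; norm_num
    rw [h1]
    exact mul_le_mul_of_nonneg_right (hN4 n hn4) (hpos _).le
  linarith

end Pool.Agent.H843R2.KZ
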