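import Pool.Agent.H843R2.KZ.Stubs

set_option autoImplicit false

/-! LSER: the tail of the series of `L(1, χ)`. -/

namespace Pool.Agent.H843R2.KZ

open Finset

theorem LSER_abel {f : ℕ → ℂ} {a : ℕ → ℝ} {P : ℝ} {E M : ℕ} (hEM : E ≤ M)
    (hf : ∀ k, ‖∑ e ∈ Ioc E k, f e‖ ≤ P) (ha : ∀ k, E ≤ k → a (k + 1) ≤ a k)
    (ha0 : ∀ k, E ≤ k → 0 ≤ a k) : ‖∑ e ∈ Ioc E M, f e * (a e : ℂ)‖ ≤ P * a E := by
  have hP : 0 ≤ P := (norm_nonneg _).trans (hf E)
  have key : ∀ M, E ≤ M → ‖∑ e ∈ Ioc E M, f e * (a e : ℂ) - (∑ e ∈ Ioc E M, f e) * (a M : ℂ)‖ ≤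
      P * (a E - a M) := by
    intro M hM
    induction M, hM using Nat.le_induction with
    | base => simp
    | succ M hM ih =>
      rw [Finset.sum_Ioc_succ_top (by omega), Finset.sum_Ioc_succ_top (by omega)]
      have e1 : ∑ e ∈ Ioc E M, f e * (a e : ℂ) + f (M + 1) * (a (M + 1) : ℂ) -
          (∑ e ∈ Ioc E M, f e + f (M + 1)) * (a (M + 1) : ℂ) =
          (∑ e ∈ Ioc E M, f e * (a e : ℂ) - (∑ e ∈ Ioc E M, f e) * (a M : ℂ)) +
          (∑ e ∈ Ioc E M, f e) * ((a M - a (M + 1) : ℝ) : ℂ) := by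
        push_cast; ring
      rw [e1]
      refine (norm_add_le _ _).trans ?_
      rw [norm_mul, Complex.norm_real, Real.norm_of_nonneg (sub_nonneg.2 (ha M hM))]
      have h1 : ‖∑ e ∈ Ioc E M, f e‖ * (a M - a (M + 1)) ≤ P * (a M - a (M + 1)) :=
        mul_le_mul_of_nonneg_right (hf M) (sub_nonneg.2 (ha M hM))
      linarith
  have h1 := key M hEM
  have h2 : ‖(∑ e ∈ Ioc E M, f e) * (a M : ℂ)‖ ≤ P * a M := by
    rw [norm_mul, Complex.norm_real, Real.norm_of_nonneg (ha0 M hEM)]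
    exact mul_le_mul_of_nonneg_right (hf M) (ha0 M hEM)
  have h3 : ∑ e ∈ Ioc E M, f e * (a e : ℂ) =
      (∑ e ∈ Ioc E M, f e * (a e : ℂ) - (∑ e ∈ Ioc E M, f e) * (a M : ℂ)) +
        (∑ e ∈ Ioc E M, f e) * (a M : ℂ) := by ring
  rw [h3]
  refine (norm_add_le _ _).trans ?_
  linarith

theorem LSER_range (g : ℕ → ℂ) (N : ℕ) :
    ∑ n ∈ range (N + 1), g n = g 0 + ∑ n ∈ Ioc 0 N, g n := by
  induction N with
  | zero => simp
  | succ N ih => rw [Finset.sum_range_succ, ih, Finset.sum_Ioc_succ_top (by omega), add_assoc]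

theorem LSER_key (hP : S_PV) (q : ℕ) [NeZero q] (χ : DirichletCharacter ℂ q) (hq : 2 ≤ q)
    (hχ : χ ≠ 1) (E : ℕ) (hE : 1 ≤ E) (s : ℝ) (hs : 1 < s) :
    ‖χ.LFunction s - ∑ e ∈ Icc 1 E, χ (e : ZMod q) / (e : ℂ) ^ (s : ℂ)‖ ≤
      8 * √q * (1 + Real.log q) / E := by
  have hE0 : (0 : ℝ) < E := by exact_mod_cast hE
  have hs' : 1 < (s : ℂ).re := by simpa using hs
  set P : ℝ := 8 * √q * (1 + Real.log q) with hPdef
  set g : ℕ → ℂ := LSeries.term (fun n : ℕ => χ (n : ZMod q)) (s : ℂ) with hg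
  have hsum : Summable g := DirichletCharacter.LSeriesSummable_of_one_lt_re χ hs'
  have hL : χ.LFunction s = ∑' n, g n := DirichletCharacter.LFunction_eq_LSeries χ hs'
  have hgn : ∀ n : ℕ, n ≠ 0 → g n = χ (n : ZMod q) / (n : ℂ) ^ (s : ℂ) := fun n hn =>
    LSeries.term_of_ne_zero hn _ _
  have hga : ∀ n : ℕ, n ≠ 0 → g n = χ (n : ZMod q) * (((n : ℝ) ^ (-s) : ℝ) : ℂ) := by
    intro n hn
    rw [hgn n hn, Complex.ofReal_cpow (Nat.cast_nonneg n), div_eq_mul_inv]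
    push_cast
    rw [Complex.cpow_neg]
  have ht : Filter.Tendsto (fun N => ∑ n ∈ range N, g n) Filter.atTop
      (nhds (χ.LFunction s)) := by
    rw [hL]; exact hsum.hasSum.tendsto_sum_nat
  have ht2 := ht.sub_const (∑ e ∈ Icc 1 E, χ (e : ZMod q) / (e : ℂ) ^ (s : ℂ))
  refine le_of_tendsto ht2.norm ?_
  filter_upwards [Filter.eventually_gt_atTop E] with N hN
  obtain ⟨M, rfl⟩ : ∃ M, N = M + 1 := ⟨N - 1, by omega⟩
  have hEM : E ≤ M := by omega
  have e1 : ∑ e ∈ Icc 1 E, χ (e : ZMod q) / (e : ℂ) ^ (s : ℂ) = ∑ n ∈ Ioc 0 E, g n := by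
    have : Icc 1 E = Ioc 0 E := by
      ext n; simp only [Finset.mem_Icc, Finset.mem_Ioc]; omega
    rw [this]
    refine Finset.sum_congr rfl fun n hn => ?_
    rw [Finset.mem_Ioc] at hn
    exact (hgn n (by omega)).symm
  have e2 : ∑ n ∈ range (M + 1), g n - ∑ n ∈ Ioc 0 E, g n = ∑ n ∈ Ioc E M, g n := by
    rw [LSER_range, ← Finset.sum_Ioc_consecutive g (Nat.zero_le E) hEM]
    have : g 0 = 0 := LSeries.term_zero _ _
    rw [this]; ring
  rw [e1, e2]
  have e3 : ∑ n ∈ Ioc E M, g n =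
      ∑ n ∈ Ioc E M, χ (n : ZMod q) * (((n : ℝ) ^ (-s) : ℝ) : ℂ) := by
    refine Finset.sum_congr rfl fun n hn => ?_
    rw [Finset.mem_Ioc] at hn
    exact hga n (by omega)
  rw [e3]
  have h1 := LSER_abel (f := fun n => χ (n : ZMod q)) (a := fun n => (n : ℝ) ^ (-s)) (P := P)
    hEM (fun k => hP q χ hq hχ E k) (by
      intro k hk
      have hk0 : (0 : ℝ) < k := by exact_mod_cast (show 0 < k by omega)
      rw [Real.rpow_neg (by positivity), Real.rpow_neg (by positivity)]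
      apply inv_anti₀ (Real.rpow_pos_of_pos hk0 s)
      apply Real.rpow_le_rpow hk0.le _ (by linarith)
      push_cast; linarith) (fun k _ => by positivity)
  refine h1.trans ?_
  have hPn : 0 ≤ P := (norm_nonneg _).trans (hP q χ hq hχ E E)
  rw [div_eq_mul_inv]
  refine mul_le_mul_of_nonneg_left ?_ hPn
  rw [Real.rpow_neg hE0.le]
  apply inv_anti₀ hE0
  calc (E : ℝ) = (E : ℝ) ^ (1 : ℝ) := (Real.rpow_one _).symm
    _ ≤ (E : ℝ) ^ s := Real.rpow_le_rpow_of_exponent_le (by exact_mod_cast hE) hs.le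

theorem LSER_ok (hP : S_PV) : S_LSER := by
  intro q _ χ hq hχ E hE
  have hE0 : (0 : ℝ) < E := by exact_mod_cast hE
  have hPn : 0 ≤ 8 * √q * (1 + Real.log q) := (norm_nonneg _).trans (hP q χ hq hχ E E)
  have h1 : ‖χ.LFunction 1 - ∑ e ∈ Icc 1 E, χ (e : ZMod q) / (e : ℂ)‖ ≤
      8 * √q * (1 + Real.log q) / E := by
    have hcont : Filter.Tendsto (fun s : ℝ => χ.LFunction (s : ℂ) -
        ∑ e ∈ Icc 1 E, χ (e : ZMod q) / (e : ℂ) ^ (s : ℂ)) (nhdsWithin 1 (Set.Ioi 1))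
        (nhds (χ.LFunction ((1 : ℝ) : ℂ) -
          ∑ e ∈ Icc 1 E, χ (e : ZMod q) / (e : ℂ) ^ (((1 : ℝ) : ℝ) : ℂ))) := by
      refine Filter.Tendsto.mono_left ?_ nhdsWithin_le_nhds
      refine Filter.Tendsto.sub ?_ ?_
      · have hd : ContinuousAt χ.LFunction ((1 : ℝ) : ℂ) :=
          (DirichletCharacter.differentiableAt_LFunction χ _ (Or.inr hχ)).continuousAt
        exact hd.tendsto.comp (Complex.continuous_ofReal.tendsto 1)
      · refine tendsto_finsetSum _ fun e he => ?_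
        rw [Finset.mem_Icc] at he
        have he0 : (e : ℂ) ≠ 0 := by
          have : e ≠ 0 := by omega
          exact_mod_cast this
        refine Filter.Tendsto.div tendsto_const_nhds ?_ ?_
        · exact (Complex.continuous_ofReal.tendsto 1).const_cpow (Or.inl he0)
        · rw [Ne, Complex.cpow_eq_zero_iff]
          exact fun h => he0 h.1
    have h2 := le_of_tendsto hcont.norm
      (Filter.eventually_of_mem self_mem_nhdsWithin fun s hs =>
        LSER_key hP q χ hq hχ E hE s hs)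
    simpa using h2
  refine h1.trans ?_
  rw [div_le_div_iff_of_pos_right hE0]
  nlinarith [hPn]

end Pool.Agent.H843R2.KZ
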