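import Mathlib

set_option autoImplicit false

/-! MP_5632c9_nt (Ke Zhao, Erdos): every large n is x^2 + y^2 - z^2 with all squares at most n.
Definitions and statements of the project KZ (helper843). -/

namespace Pool.Agent.H843R2.KZ

open Finset

/-- n = x^2 + y^2 - z^2 with all three squares at most n -/
def Rep (n : ℕ) : Prop :=
  ∃ x y z : ℤ, (n : ℤ) = x ^ 2 + y ^ 2 - z ^ 2 ∧ x ^ 2 ≤ n ∧ y ^ 2 ≤ n ∧ z ^ 2 ≤ n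

/-- Gauss map -/
noncomputable def gm (s : ℝ) : ℝ := Int.fract s⁻¹

/-- the partial quotients of s (index 0 first) -/
noncomputable def dig (s : ℝ) (i : ℕ) : ℤ := ⌊(gm^[i] s)⁻¹⌋

/-- irrationals in (0,1) whose partial quotients at positions congruent to c mod 2 are even -/
def Ev (c : ℕ) : Set ℝ :=
  {s | 0 < s ∧ s < 1 ∧ Irrational s ∧ ∀ i, i % 2 = c → Even (dig s i)}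

/-- A is covered by at most N intervals [f, f + δ] -/
def Cov (A : Set ℝ) (δ N : ℝ) : Prop :=
  ∃ F : Finset ℝ, (F.card : ℝ) ≤ N ∧ ∀ a ∈ A, ∃ f ∈ F, f ≤ a ∧ a ≤ f + δ

/-- (x + √n)/k is reduced -/
def Red (n : ℕ) (x k : ℤ) : Prop :=
  0 < k ∧ k ∣ (n : ℤ) - x ^ 2 ∧ 1 < ((x : ℝ) + √n) / k ∧ -1 < ((x : ℝ) - √n) / k ∧
    ((x : ℝ) - √n) / k < 0

/-- the objects: pairs (d,y), √n ≤ d ≤ D, (d,2n)=1, 0 ≤ y < d, d ∣ n - y^2 -/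
def obj (n D : ℕ) : Finset (ℕ × ℕ) :=
  ((Icc 1 D) ×ˢ (range D)).filter (fun p => n ≤ p.1 ^ 2 ∧ Nat.Coprime p.1 (2 * n) ∧
    p.2 < p.1 ∧ (p.1 : ℤ) ∣ (n : ℤ) - (p.2 : ℤ) ^ 2)

noncomputable def wr (n : ℕ) (P : ℕ × ℕ) : ℝ := ((P.2 : ℝ) + √n) / P.1
noncomputable def wl (n : ℕ) (P : ℕ × ℕ) : ℝ := ((P.2 : ℝ) - √n) / P.1
/-- third coefficient -/
def lv (n : ℕ) (P : ℕ × ℕ) : ℤ := ((n : ℤ) - (P.2 : ℤ) ^ 2) / P.1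

/-! ### Ke Zhao's elementary reduction -/

def S_KE : Prop := ∀ n : ℕ, ¬ Rep n → (n % 4 = 2 ∨ n % 4 = 3) ∧ ¬ IsSquare n

/-! ### Part 2: continued fractions -/

def S_RED : Prop := ∀ n : ℕ, (n % 4 = 2 ∨ n % 4 = 3) → ¬ Rep n → ∀ x k : ℤ, Red n x k →
  (x - n) % 2 = 0

def S_STEP : Prop := ∀ n : ℕ, ¬ IsSquare n → ∀ x k : ℤ, Red n x k → ∃ x' k' : ℤ, Red n x' k' ∧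
  x' = ⌊((x : ℝ) + √n) / k⌋ * k - x ∧ k * k' = n - x' ^ 2 ∧
  (Int.fract (((x : ℝ) + √n) / k))⁻¹ = ((x' : ℝ) + √n) / k'

def S_DIG : Prop := ∀ n : ℕ, (n % 4 = 2 ∨ n % 4 = 3) → ¬ IsSquare n → ¬ Rep n → ∀ x k : ℤ,
  Red n x k → (((x : ℝ) + √n) / k)⁻¹ ∈ Ev 0 ∪ Ev 1

/-- prefix data of w -/
def Pre (n : ℕ) (B w : ℝ) : Prop := ∃ p p' q q' : ℤ, ∃ s : ℝ, ∃ x k : ℤ,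
  |(p : ℝ)| ≤ 2 * B + 2 ∧ |(p' : ℝ)| ≤ 2 * B + 2 ∧ 1 ≤ q ∧ 0 ≤ q' ∧ q' ≤ q ∧ (q : ℝ) ≤ B ∧
  (p * q' - p' * q) ^ 2 = 1 ∧ 0 < s ∧ s < 1 ∧ w = (p + p' * s) / (q + q' * s) ∧
  Red n x k ∧ gm s = (((x : ℝ) + √n) / k)⁻¹

def S_PRE : Prop := ∀ n : ℕ, ¬ IsSquare n → ∀ (B : ℝ) (d y : ℤ), 1 ≤ B → 0 < d → 0 ≤ y → y < d →
  (n : ℝ) ≤ (d : ℝ) ^ 2 → (d : ℝ) ≤ B * √n → d ∣ (n : ℤ) - y ^ 2 →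
  Pre n B (((y : ℝ) + √n) / d)

/-- the only numerical input: sum over a,b ≥ 1 of (2ab+1)^(-9/5) is at most 4/5 (true value .762) -/
def S_NUM : Prop := ∀ F : Finset (ℕ × ℕ), (∀ ab ∈ F, 1 ≤ ab.1 ∧ 1 ≤ ab.2) →
  ∑ ab ∈ F, ((2 * ab.1 * ab.2 + 1 : ℕ) : ℝ) ^ (-(9 / 5) : ℝ) ≤ 4 / 5

def S_REC : Prop := ∀ δ : ℝ, 0 < δ → δ < 1 → ∀ T : Finset (ℕ × ℕ),
  (∀ ab : ℕ × ℕ, ab ∈ T ↔ (1 ≤ ab.1 ∧ 1 ≤ ab.2 ∧ ((2 * ab.1 * ab.2 + 1 : ℕ) : ℝ) ^ 2 * δ ≤ 1)) →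
  ∀ N : ℕ × ℕ → ℝ, (∀ ab ∈ T, Cov (Ev 0) (((2 * ab.1 * ab.2 + 1 : ℕ) : ℝ) ^ 2 * δ) (N ab)) →
  Cov (Ev 0) δ (∑ ab ∈ T, N ab + 20 * δ ^ (-(1 / 2) : ℝ) * (1 + Real.log (1 / δ)))

def S_COV0 : Prop := ∀ δ : ℝ, 0 < δ → δ ≤ 1 → Cov (Ev 0) δ (200 * δ ^ (-(9 / 10) : ℝ))

def S_FREE : Prop := ∀ A : Set ℝ, ∀ K : ℝ, 0 < K → (∀ a ∈ A, 0 < a ∧ a < 1) →
  (∀ δ : ℝ, 0 < δ → δ ≤ 1 → Cov A δ (K * δ ^ (-(9 / 10) : ℝ))) →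
  ∀ δ : ℝ, 0 < δ → δ ≤ 1 → Cov {s | 0 < s ∧ s < 1 ∧ gm s ∈ A} δ ((3 * K + 3) * δ ^ (-(9 / 10) : ℝ))

/-- all numbers with prefix bounded by B and good tail -/
def WB (B : ℝ) : Set ℝ := {w | ∃ p p' q q' : ℤ, ∃ s : ℝ, |(p : ℝ)| ≤ 2 * B + 2 ∧
  |(p' : ℝ)| ≤ 2 * B + 2 ∧ 1 ≤ q ∧ 0 ≤ q' ∧ q' ≤ q ∧ (q : ℝ) ≤ B ∧
  (p * q' - p' * q) ^ 2 = 1 ∧ 0 < s ∧ s < 1 ∧ w = (p + p' * s) / (q + q' * s) ∧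
  gm s ∈ Ev 0 ∪ Ev 1}

def S_COVW : Prop := ∃ K : ℝ, 0 < K ∧ ∀ B : ℝ, 1 ≤ B → ∀ δ : ℝ, 0 < δ → δ ≤ 1 →
  Cov (WB B) δ (K * B ^ 4 * δ ^ (-(9 / 10) : ℝ))

/-! ### Part 3: many close pairs -/

open Classical in
/-- ordered pairs of objects at distance at most δ -/
noncomputable def close (n D : ℕ) (δ : ℝ) : Finset ((ℕ × ℕ) × (ℕ × ℕ)) :=
  ((obj n D) ×ˢ (obj n D)).filter (fun z => |wr n z.1 - wr n z.2| ≤ δ ∧ |wl n z.1 - wl n z.2| ≤ δ)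

def S_PLOW : Prop := ∃ K : ℝ, 0 < K ∧ ∀ n D : ℕ, ¬ IsSquare n → (n % 4 = 2 ∨ n % 4 = 3) → ¬ Rep n →
  ∀ B : ℝ, 1 ≤ B → (D : ℝ) ≤ B * √n → ∀ δ : ℝ, 0 < δ → δ ≤ 1 →
  ((obj n D).card : ℝ) ^ 2 ≤ K * B ^ 8 * δ ^ (-(9 / 5) : ℝ) * ((close n D δ).card : ℝ)

def S_CLOSE : Prop := ∀ n D : ℕ, 1 ≤ n → ∀ B : ℝ, 1 ≤ B → (D : ℝ) ≤ B * √n → ∀ δ : ℝ, 0 < δ → δ ≤ 1 →
  ∀ P ∈ obj n D, ∀ Q ∈ obj n D, |wr n P - wr n Q| ≤ δ → |wl n P - wl n Q| ≤ δ →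
  |(P.1 : ℝ) - Q.1| ≤ 5 * B ^ 2 * √n * δ ∧ |(P.2 : ℝ) - Q.2| ≤ 5 * B ^ 2 * √n * δ ∧
  |(lv n P : ℝ) - lv n Q| ≤ 5 * B ^ 2 * √n * δ

/-! ### Part 1: many objects -/

def S_DIV : Prop := ∀ ε : ℝ, 0 < ε → ∃ C : ℝ, 0 < C ∧ ∀ m : ℕ, 1 ≤ m →
  (m.divisors.card : ℝ) ≤ C * (m : ℝ) ^ ε

def S_QCH : Prop := ∀ n : ℕ, 2 ≤ n → ¬ IsSquare n → ∃ χ : DirichletCharacter ℂ (4 * n), χ ≠ 1 ∧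
  χ ^ 2 = 1 ∧ ∀ m : ℕ, Odd m → χ (m : ZMod (4 * n)) = ((jacobiSym n m : ℤ) : ℂ)

def S_SIG : Prop := ∀ ε : ℝ, 0 < ε → ∃ c : ℝ, 0 < c ∧ ∀ (q : ℕ) [NeZero q]
  (χ : DirichletCharacter ℂ q), χ ^ 2 = 1 → χ ≠ 1 → c * (q : ℝ) ^ (-ε) ≤ ‖χ.LFunction 1‖

def S_POS : Prop := ∀ (q : ℕ) [NeZero q] (χ : DirichletCharacter ℂ q), χ ^ 2 = 1 → χ ≠ 1 →
  χ.LFunction 1 = ((‖χ.LFunction 1‖ : ℝ) : ℂ)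

def S_PV : Prop := ∀ (q : ℕ) (χ : DirichletCharacter ℂ q), 2 ≤ q → χ ≠ 1 → ∀ a b : ℕ,
  ‖∑ e ∈ Ioc a b, χ (e : ZMod q)‖ ≤ 8 * √q * (1 + Real.log q)

def S_LSER : Prop := ∀ (q : ℕ) [NeZero q] (χ : DirichletCharacter ℂ q), 2 ≤ q → χ ≠ 1 →
  ∀ E : ℕ, 1 ≤ E →
  ‖χ.LFunction 1 - ∑ e ∈ Icc 1 E, χ (e : ZMod q) / (e : ℂ)‖ ≤ 32 * √q * (1 + Real.log q) / E

def S_COP : Prop := ∀ n Y : ℕ, 1 ≤ n →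
  |(((Icc 1 Y).filter (fun f => Nat.Coprime f (2 * n))).card : ℝ) -
    (Y : ℝ) * (Nat.totient (2 * n) : ℝ) / ((2 * n : ℕ) : ℝ)| ≤ ((2 * n).divisors.card : ℝ)

def S_HYP : Prop := ∃ N0 : ℕ, ∀ n : ℕ, N0 ≤ n → ∀ χ : DirichletCharacter ℂ (4 * n), χ ≠ 1 →
  χ ^ 2 = 1 → (n : ℝ) ^ (5017 / 10000 : ℝ) ≤
    ∑ d ∈ (Icc 1 ⌊(n : ℝ) ^ (502 / 1000 : ℝ)⌋₊).filter (fun d => Nat.Coprime d (2 * n)),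
      ∑ e ∈ d.divisors, (χ (e : ZMod (4 * n))).re

/-- number of y mod d with y^2 = n mod d -/
def rho (n d : ℕ) : ℕ := ((range d).filter (fun y : ℕ => (d : ℤ) ∣ (n : ℤ) - (y : ℤ) ^ 2)).card

def S_RHO : Prop := ∀ n d : ℕ, 1 ≤ d → Nat.Coprime d (2 * n) →
  ∑ e ∈ d.divisors, jacobiSym n e ≤
    ((∑ g ∈ (Icc 1 d).filter (fun g => g ^ 2 ∣ d), rho n (d / g ^ 2) : ℕ) : ℤ)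

def S_RHD : Prop := ∀ n d : ℕ, 1 ≤ d → Nat.Coprime d (2 * n) → rho n d ≤ d.divisors.card

def S_LOW : Prop := ∃ N0 : ℕ, ∀ n : ℕ, N0 ≤ n → ¬ IsSquare n →
  (n : ℝ) ^ (501 / 1000 : ℝ) ≤ ((obj n ⌊(n : ℝ) ^ (502 / 1000 : ℝ)⌋₊).card : ℝ)

/-! ### Part 4: few close pairs -/

/-- pairs of different objects with all three differences at most H -/
def prs (n D H : ℕ) : Finset ((ℕ × ℕ) × (ℕ × ℕ)) :=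
  ((obj n D) ×ˢ (obj n D)).filter (fun z => z.1 ≠ z.2 ∧ |(z.1.1 : ℤ) - z.2.1| ≤ H ∧
    |(z.1.2 : ℤ) - z.2.2| ≤ H ∧ |lv n z.1 - lv n z.2| ≤ H)

def S_PAIR : Prop := ∀ ε : ℝ, 0 < ε → ∃ C : ℝ, 0 < C ∧ ∀ n D H : ℕ, ¬ IsSquare n → 1 ≤ H →
  2 * H ^ 2 ≤ n → 1 ≤ D → D ≤ n →
  ((prs n D H).card : ℝ) ≤ C * (n : ℝ) ^ ε * (1 + D / √n) * (H : ℝ) ^ 2

/-- primitive solutions of E^2 = (4n-S) A^2 + S B^2 in the box -/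
def ps (n D H : ℕ) (S : ℤ) : Set (ℤ × ℤ × ℤ) :=
  {z | |z.1| ≤ H ∧ 1 ≤ z.2.1 ∧ z.2.1 ≤ D ∧ Int.gcd z.1 z.2.1 = 1 ∧
    z.2.2 ^ 2 = (4 * n - S) * z.1 ^ 2 + S * z.2.1 ^ 2}

def S_PSFIN : Prop := ∀ (n D H : ℕ) (S : ℤ), (ps n D H S).Finite

/-- identity and divisibility for a pair of objects -/
def S_IDEN : Prop := ∀ n D : ℕ, ¬ IsSquare n → ∀ P ∈ obj n D, ∀ Q ∈ obj n D, P ≠ Q →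
  ∃ A B E S : ℤ, 2 * A = (Q.1 : ℤ) - P.1 ∧ 2 * B = (Q.1 : ℤ) + P.1 ∧
    E = (P.2 : ℤ) * Q.1 - (Q.2 : ℤ) * P.1 ∧
    S = ((Q.2 : ℤ) - P.2) ^ 2 + ((Q.1 : ℤ) - P.1) * (lv n Q - lv n P) ∧
    E ^ 2 = (4 * n - S) * A ^ 2 + S * B ^ 2 ∧ S ≠ 0 ∧
    ((Int.gcd A B : ℕ) : ℤ) ∣ S * (4 * n - S) ∧ ((Int.gcd A B : ℕ) : ℤ) ∣ E

def S_PM : Prop := ∀ ε : ℝ, 0 < ε → ∃ C : ℝ, 0 < C ∧ ∀ n D H : ℕ, ¬ IsSquare n → 1 ≤ H →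
  2 * H ^ 2 ≤ n → 1 ≤ D → D ≤ n →
  ((prs n D H).card : ℝ) ≤ C * (n : ℝ) ^ ε *
    ∑ S ∈ (Icc (-(2 * (H : ℤ) ^ 2)) (2 * (H : ℤ) ^ 2)).filter (fun S => S ≠ 0),
      ((ps n D H S).ncard : ℝ)

/-- the basic summand -/
noncomputable def trm (n D H : ℕ) (S : ℤ) (h : ℕ) : ℝ :=
  1 + (1 + D / √n) * H * (h : ℝ) ^ (3 / 2 : ℝ) / √(|(S : ℝ)|)

/-- admissible h: h^2 ∣ S and h^2 ∣ 4n -/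
def hs (n H : ℕ) (S : ℤ) : Finset ℕ :=
  (Icc 1 (2 * H)).filter (fun h => ((h : ℤ) ^ 2 ∣ S) ∧ ((h : ℤ) ^ 2 ∣ 4 * (n : ℤ)))

def S_MP : Prop := ∀ ε : ℝ, 0 < ε → ∃ C : ℝ, 0 < C ∧ ∀ n D H : ℕ, 1 ≤ H →
  2 * H ^ 2 ≤ n → 1 ≤ D → D ≤ n → ∀ S : ℤ, S ≠ 0 → |S| ≤ 2 * (H : ℤ) ^ 2 →
  ((ps n D H S).ncard : ℝ) ≤ C * (n : ℝ) ^ ε * ∑ h ∈ hs n H S, trm n D H S h

def S_SUMS : Prop := ∀ ε : ℝ, 0 < ε → ∃ C : ℝ, 0 < C ∧ ∀ n D H : ℕ, 1 ≤ H → 2 * H ^ 2 ≤ n → 1 ≤ D →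
  D ≤ n → ∑ S ∈ (Icc (-(2 * (H : ℤ) ^ 2)) (2 * (H : ℤ) ^ 2)).filter (fun S => S ≠ 0),
      ∑ h ∈ hs n H S, trm n D H S h ≤ C * (n : ℝ) ^ ε * (1 + D / √n) * (H : ℝ) ^ 2

/-- normal form data: m = 4n - S -/
def NF (S m : ℤ) (e1 e2 h1 h2 : ℕ) (A B E : ℤ) : Prop :=
  ∃ S0 m0 A1 B1 E1 : ℤ, S = (e1 : ℤ) ^ 2 * h1 * (h2 : ℤ) ^ 2 * S0 ∧
    m = (e2 : ℤ) ^ 2 * h1 * (h2 : ℤ) ^ 2 * m0 ∧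
    A = e1 * A1 ∧ B = e2 * B1 ∧ E = e1 * e2 * h1 * h2 * E1 ∧
    h1 * E1 ^ 2 = m0 * A1 ^ 2 + S0 * B1 ^ 2 ∧
    IsCoprime A1 S0 ∧ IsCoprime B1 m0 ∧ IsCoprime A1 (h1 : ℤ) ∧ IsCoprime B1 (h1 : ℤ) ∧
    IsCoprime m0 S0 ∧ IsCoprime (h1 : ℤ) S0 ∧ IsCoprime (h1 : ℤ) m0

def S_NF : Prop := ∀ S m A B E : ℤ, S ≠ 0 → 0 < m → 1 ≤ B → Int.gcd A B = 1 →
  E ^ 2 = m * A ^ 2 + S * B ^ 2 → ∃ e1 e2 h1 h2 : ℕ, 1 ≤ e1 ∧ 1 ≤ e2 ∧ 1 ≤ h1 ∧ 1 ≤ h2 ∧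
    NF S m e1 e2 h1 h2 A B E

/-- number of square roots -/
def S_ROOT : Prop := ∀ ε : ℝ, 0 < ε → ∃ C : ℝ, 0 < C ∧ ∀ N : ℕ, 1 ≤ N → ∀ h c : ℤ,
  IsCoprime h (N : ℤ) → IsCoprime c (N : ℤ) →
  (((range N).filter (fun r : ℕ => (N : ℤ) ∣ h * (r : ℤ) ^ 2 - c)).card : ℝ) ≤ C * (N : ℝ) ^ ε

/-- determinant of three triples -/
def det3 (z w v : ℤ × ℤ × ℤ) : ℤ :=
  z.1 * (w.2.1 * v.2.2 - w.2.2 * v.2.1) - z.2.1 * (w.1 * v.2.2 - w.2.2 * v.1) +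
    z.2.2 * (w.1 * v.2.1 - w.2.1 * v.1)

/-- a plane meets the conic in at most two points -/
def S_CON : Prop := ∀ S m : ℤ, S ≠ 0 → 0 < m → ∀ z w v : ℤ × ℤ × ℤ,
  (∀ u ∈ [z, w, v], 1 ≤ u.2.1 ∧ Int.gcd u.1 u.2.1 = 1 ∧ u.2.2 ^ 2 = m * u.1 ^ 2 + S * u.2.1 ^ 2) →
  z ≠ w → z ≠ v → w ≠ v → det3 z w v ≠ 0

/-- divisibility of the determinant for three solutions in the same class -/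
def S_DET : Prop := ∀ S0 m0 h1 : ℤ, S0 ≠ 0 → m0 ≠ 0 → h1 ≠ 0 → IsCoprime m0 S0 → IsCoprime h1 S0 →
  IsCoprime h1 m0 → ∀ ρ σ τ : ℤ, ∀ z w v : ℤ × ℤ × ℤ,
  (∀ u ∈ [z, w, v], S0 ∣ u.2.2 - ρ * u.1 ∧ m0 ∣ u.2.2 - σ * u.2.1 ∧ h1 ∣ u.1 - τ * u.2.1) →
  S0 * m0 * h1 ∣ det3 z w v

/-- three solutions on a short arc have a small determinant -/
def S_ARC : Prop := ∀ (S m : ℤ) (M θ : ℝ), S ≠ 0 → 0 < m → 0 < M → 0 ≤ θ → ∀ z w v : ℤ × ℤ × ℤ,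
  (∀ u ∈ [z, w, v], 1 ≤ u.2.1 ∧ (u.2.1 : ℝ) ≤ M ∧ 0 ≤ u.1 ∧ 0 ≤ u.2.2 ∧
    u.2.2 ^ 2 = m * u.1 ^ 2 + S * u.2.1 ^ 2) →
  (∀ u ∈ [z, w, v], ∀ u' ∈ [z, w, v],
    (0 < S → |(u.1 : ℝ) / u.2.1 - (u'.1 : ℝ) / u'.2.1| ≤ θ) ∧
    (S < 0 → |(u.2.2 : ℝ) / u.2.1 - (u'.2.2 : ℝ) / u'.2.1| ≤ θ * √(m : ℝ))) →
  |((det3 z w v : ℤ) : ℝ)| ≤ 2 * M ^ 3 * √(m : ℝ) * θ ^ 2

/-- the solutions with given normal form data -/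
def psc (n D H : ℕ) (S : ℤ) (e1 e2 h1 h2 : ℕ) : Set (ℤ × ℤ × ℤ) :=
  {z | z ∈ ps n D H S ∧ NF S (4 * n - S) e1 e2 h1 h2 z.1 z.2.1 z.2.2}

def S_CLS : Prop := ∀ ε : ℝ, 0 < ε → ∃ C : ℝ, 0 < C ∧ ∀ n D H : ℕ, 1 ≤ H →
  2 * H ^ 2 ≤ n → 1 ≤ D → D ≤ n → ∀ S : ℤ, S ≠ 0 → |S| ≤ 2 * (H : ℤ) ^ 2 →
  ∀ e1 e2 h1 h2 : ℕ, 1 ≤ e1 → 1 ≤ e2 → 1 ≤ h1 → 1 ≤ h2 →
  ((psc n D H S e1 e2 h1 h2).ncard : ℝ) ≤ C * (n : ℝ) ^ ε * trm n D H S h2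

/-- the main theorem -/
def S_MAIN : Prop := ∃ N0 : ℕ, ∀ n : ℕ, N0 ≤ n → Rep n

end Pool.Agent.H843R2.KZ
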