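import Mathlib
import Pool.Agent.H843R2.KZ.Stubs

set_option autoImplicit false

namespace Pool.Agent.H843R2.KZ

open Finset

/-- the number of objects is at most the number of pairs (d, root) -/
lemma obj_card_le (hRHD : S_RHD) (n D : ℕ) (c : ℝ) (hc : 0 ≤ c)
    (hdiv : ∀ d : ℕ, 1 ≤ d → d ≤ D → (d.divisors.card : ℝ) ≤ c) :
    ((obj n D).card : ℝ) ≤ D * c := by
  classical
  have h1 : (obj n D).card ≤ ∑ d ∈ Icc 1 D,
      ((obj n D).filter (fun p => p.1 = d)).card := by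
    have hm : ∀ p ∈ obj n D, p.1 ∈ Icc 1 D := by
      intro p hp
      simp only [obj, mem_filter, mem_product] at hp
      exact hp.1.1
    exact le_of_eq (Finset.card_eq_sum_card_fiberwise hm)
  have h2 : ∀ d ∈ Icc 1 D, (((obj n D).filter (fun p => p.1 = d)).card : ℝ) ≤ c := by
    intro d hd
    rw [mem_Icc] at hd
    by_cases hcop : Nat.Coprime d (2 * n)
    · have h3 : ((obj n D).filter (fun p => p.1 = d)).card ≤ rho n d := by
        unfold rho
        apply Finset.card_le_card_of_injOn (fun p => p.2)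
        · intro p hp
          simp only [obj, coe_filter, mem_filter, mem_product, Set.mem_setOf_eq] at hp
          obtain ⟨⟨_, _, _, h4, h5⟩, rfl⟩ := hp
          simp only [coe_filter, mem_range, Set.mem_setOf_eq]
          exact ⟨h4, h5⟩
        · intro p hp q hq hpq
          simp only [obj, coe_filter, mem_filter, mem_product, Set.mem_setOf_eq] at hp hq
          exact Prod.ext (hp.2.trans hq.2.symm) hpq
      have h4 := hRHD n d hd.1 hcop
      calc (((obj n D).filter (fun p => p.1 = d)).card : ℝ) ≤ (d.divisors.card : ℝ) := by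
            exact_mod_cast h3.trans h4
        _ ≤ c := hdiv d hd.1 hd.2
    · have h3 : (obj n D).filter (fun p => p.1 = d) = ∅ := by
        apply Finset.filter_eq_empty_iff.mpr
        intro p hp h
        simp only [obj, mem_filter, mem_product] at hp
        exact hcop (h ▸ hp.2.2.1)
      rw [h3]; simpa using hc
  calc ((obj n D).card : ℝ) ≤ ((∑ d ∈ Icc 1 D,
      ((obj n D).filter (fun p => p.1 = d)).card : ℕ) : ℝ) := by exact_mod_cast h1
    _ = ∑ d ∈ Icc 1 D, (((obj n D).filter (fun p => p.1 = d)).card : ℝ) := by push_cast; rfl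
    _ ≤ ∑ d ∈ Icc 1 D, c := Finset.sum_le_sum h2
    _ = D * c := by simp

/-- close pairs are diagonal or in prs -/
lemma close_card_le (n D H : ℕ) (δ : ℝ)
    (h : ∀ P ∈ obj n D, ∀ Q ∈ obj n D, |wr n P - wr n Q| ≤ δ → |wl n P - wl n Q| ≤ δ →
      |(P.1 : ℝ) - Q.1| ≤ H ∧ |(P.2 : ℝ) - Q.2| ≤ H ∧ |(lv n P : ℝ) - lv n Q| ≤ H) :
    (close n D δ).card ≤ (obj n D).card + (prs n D H).card := by
  classical
  have h1 : close n D δ ⊆ ((obj n D).image (fun P => (P, P))) ∪ prs n D H := by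
    intro z hz
    simp only [close, mem_filter, mem_product] at hz
    obtain ⟨⟨hz1, hz2⟩, hz3, hz4⟩ := hz
    by_cases he : z.1 = z.2
    · apply mem_union_left
      rw [mem_image]
      exact ⟨z.1, hz1, Prod.ext rfl he⟩
    · apply mem_union_right
      obtain ⟨a, b, c⟩ := h z.1 hz1 z.2 hz2 hz3 hz4
      simp only [prs, mem_filter, mem_product]
      refine ⟨⟨hz1, hz2⟩, he, ?_, ?_, ?_⟩
      · have : ((|(z.1.1 : ℤ) - z.2.1| : ℤ) : ℝ) ≤ ((H : ℤ) : ℝ) := by push_cast; exact a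
        exact_mod_cast this
      · have : ((|(z.1.2 : ℤ) - z.2.2| : ℤ) : ℝ) ≤ ((H : ℤ) : ℝ) := by push_cast; exact b
        exact_mod_cast this
      · have : ((|lv n z.1 - lv n z.2| : ℤ) : ℝ) ≤ ((H : ℤ) : ℝ) := by push_cast; exact c
        exact_mod_cast this
  calc (close n D δ).card ≤ (((obj n D).image (fun P => (P, P))) ∪ prs n D H).card :=
        Finset.card_le_card h1
    _ ≤ ((obj n D).image (fun P => (P, P))).card + (prs n D H).card := Finset.card_union_le _ _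
    _ ≤ (obj n D).card + (prs n D H).card := by gcongr; exact Finset.card_image_le

theorem MAIN_ok (hKE : S_KE) (hLOW : S_LOW) (hPLOW : S_PLOW) (hCLOSE : S_CLOSE) (hPAIR : S_PAIR)
    (hRHD : S_RHD) (hDIV : S_DIV) : S_MAIN := by
  classical
  obtain ⟨N1, hN1⟩ := hLOW
  obtain ⟨K, hK, hPL⟩ := hPLOW
  obtain ⟨C1, hC1, hD1⟩ := hDIV (1 / 1000) (by norm_num)
  obtain ⟨C2, hC2, hP2⟩ := hPAIR (1 / 1000) (by norm_num)
  set X0 : ℝ := max 72 (K * (C1 + 72 * C2) + 1) with hX0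
  refine ⟨max (max N1 2) ⌈X0 ^ 1000⌉₊, fun n hn => ?_⟩
  by_contra hR
  obtain ⟨hmod, hsq⟩ := hKE n hR
  have hnN1 : N1 ≤ n := le_trans (le_trans (le_max_left _ _) (le_max_left _ _)) hn
  have hn2 : 2 ≤ n := le_trans (le_trans (le_max_right _ _) (le_max_left _ _)) hn
  have hnX : X0 ^ 1000 ≤ (n : ℝ) := by
    have := le_trans (le_max_right (max N1 2) ⌈X0 ^ 1000⌉₊) hn
    exact le_trans (Nat.le_ceil _) (by exact_mod_cast this)
  have hn0 : (0 : ℝ) ≤ n := by positivity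
  set x : ℝ := (n : ℝ) ^ (1 / 1000 : ℝ) with hx
  have hx0 : 0 ≤ x := by positivity
  have hX0' : 0 ≤ X0 := le_trans (by norm_num) (le_max_left _ _)
  have hxn : x ^ 1000 = (n : ℝ) := by
    rw [hx, ← Real.rpow_natCast, ← Real.rpow_mul hn0]; norm_num
  have hxX : X0 ≤ x := by
    by_contra hlt
    push Not at hlt
    have : x ^ 1000 < X0 ^ 1000 := pow_lt_pow_left₀ hlt hx0 (by norm_num)
    linarith
  have hx72 : 72 ≤ x := le_trans (le_max_left _ _) hxX
  have hxK : K * (C1 + 72 * C2) + 1 ≤ x := le_trans (le_max_right _ _) hxX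
  have hx1 : 1 ≤ x := by linarith
  have hxp : 0 < x := by linarith
  -- powers
  have hpow : ∀ k : ℕ, (n : ℝ) ^ ((k : ℝ) / 1000) = x ^ k := by
    intro k
    rw [hx, ← Real.rpow_natCast, ← Real.rpow_mul hn0]
    congr 1; ring
  have h502 : (n : ℝ) ^ (502 / 1000 : ℝ) = x ^ 502 := by simpa using hpow 502
  have h501 : (n : ℝ) ^ (501 / 1000 : ℝ) = x ^ 501 := by simpa using hpow 501
  have h1k : (n : ℝ) ^ (1 / 1000 : ℝ) = x := rfl
  have hsqrt : √(n : ℝ) = x ^ 500 := by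
    rw [← hxn, show x ^ 1000 = (x ^ 500) ^ 2 by ring, Real.sqrt_sq (by positivity)]
  set D : ℕ := ⌊(n : ℝ) ^ (502 / 1000 : ℝ)⌋₊ with hD
  have hDle : (D : ℝ) ≤ x ^ 502 := by
    rw [← h502]; exact Nat.floor_le (by positivity)
  have hD1' : 1 ≤ D := by
    rw [hD, Nat.one_le_floor_iff, h502]
    exact one_le_pow₀ hx1
  have hDn : D ≤ n := by
    have : (D : ℝ) ≤ n := by
      rw [← hxn]; exact hDle.trans (pow_le_pow_right₀ hx1 (by norm_num))
    exact_mod_cast this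
  set B : ℝ := x ^ 2 with hB
  have hB1 : 1 ≤ B := one_le_pow₀ hx1
  have hDB : (D : ℝ) ≤ B * √(n : ℝ) := by
    rw [hsqrt, hB]
    calc (D : ℝ) ≤ x ^ 502 := hDle
      _ = x ^ 2 * x ^ 500 := by ring
  set δ : ℝ := (x ^ 250)⁻¹ with hδ
  have hδ0 : 0 < δ := by positivity
  have hδ1 : δ ≤ 1 := inv_le_one_of_one_le₀ (one_le_pow₀ hx1)
  have hδp : δ ^ (-(9 / 5) : ℝ) = x ^ 450 := by
    rw [hδ, Real.inv_rpow (by positivity), Real.rpow_neg (by positivity), inv_inv,
      ← Real.rpow_natCast, ← Real.rpow_mul hx0, ← Real.rpow_natCast]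
    congr 1; norm_num
  have hPL' := hPL n D hsq hmod hR B hB1 hDB δ hδ0 hδ1
  have hL : x ^ 501 ≤ ((obj n D).card : ℝ) := by
    have := hN1 n hnN1 hsq
    rw [h501] at this
    exact this
  -- H
  set H : ℕ := ⌈5 * x ^ 254⌉₊ with hH
  have hHge : 5 * x ^ 254 ≤ (H : ℝ) := Nat.le_ceil _
  have hHle : (H : ℝ) ≤ 6 * x ^ 254 := by
    have h1 : (H : ℝ) < 5 * x ^ 254 + 1 := Nat.ceil_lt_add_one (by positivity)
    have h2 : 1 ≤ x ^ 254 := one_le_pow₀ hx1
    linarith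
  have hH1 : 1 ≤ H := by
    have : (0 : ℝ) < H := lt_of_lt_of_le (by positivity) hHge
    exact_mod_cast this
  have hHn : 2 * H ^ 2 ≤ n := by
    have : (2 * (H : ℝ) ^ 2) ≤ n := by
      have h1 : (H : ℝ) ^ 2 ≤ (6 * x ^ 254) ^ 2 := pow_le_pow_left₀ (by positivity) hHle 2
      have h2 : (6 * x ^ 254) ^ 2 = 36 * x ^ 508 := by ring
      have h3 : 72 * x ^ 508 ≤ x * x ^ 508 := by gcongr
      have h4 : x * x ^ 508 ≤ x ^ 1000 := by
        rw [show x * x ^ 508 = x ^ 509 by ring]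
        exact pow_le_pow_right₀ hx1 (by norm_num)
      rw [← hxn]; linarith
    exact_mod_cast this
  have hcl : (close n D δ).card ≤ (obj n D).card + (prs n D H).card := by
    apply close_card_le
    intro P hP Q hQ h1 h2
    have h3 := hCLOSE n D (by omega) B hB1 hDB δ hδ0 hδ1 P hP Q hQ h1 h2
    have h4 : 5 * B ^ 2 * √(n : ℝ) * δ ≤ H := by
      refine le_trans (le_of_eq ?_) hHge
      rw [hB, hsqrt, hδ]
      field_simp
    exact ⟨h3.1.trans h4, h3.2.1.trans h4, h3.2.2.trans h4⟩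
  have hobj : ((obj n D).card : ℝ) ≤ C1 * x ^ 503 := by
    have h1 := obj_card_le hRHD n D (C1 * x) (by positivity) (by
      intro d hd1 hdD
      refine (hD1 d hd1).trans ?_
      gcongr
      rw [hx]
      apply Real.rpow_le_rpow (by positivity) _ (by norm_num)
      exact_mod_cast hdD.trans hDn)
    calc ((obj n D).card : ℝ) ≤ D * (C1 * x) := h1
      _ ≤ x ^ 502 * (C1 * x) := by gcongr
      _ = C1 * x ^ 503 := by ring
  have hprs : ((prs n D H).card : ℝ) ≤ 72 * C2 * x ^ 511 := by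
    have h1 := hP2 n D H hsq hH1 hHn hD1' hDn
    have h2 : (1 + (D : ℝ) / √(n : ℝ)) ≤ 2 * x ^ 2 := by
      rw [hsqrt]
      have h3 : (D : ℝ) / x ^ 500 ≤ x ^ 2 := by
        rw [div_le_iff₀ (by positivity)]
        calc (D : ℝ) ≤ x ^ 502 := hDle
          _ = x ^ 2 * x ^ 500 := by ring
      have h4 : 1 ≤ x ^ 2 := one_le_pow₀ hx1
      linarith
    rw [h1k] at h1
    have h5 : 0 ≤ (1 + (D : ℝ) / √(n : ℝ)) := by positivity
    calc ((prs n D H).card : ℝ) ≤ C2 * x * (1 + (D : ℝ) / √(n : ℝ)) * (H : ℝ) ^ 2 := h1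
      _ ≤ C2 * x * (2 * x ^ 2) * (6 * x ^ 254) ^ 2 := by gcongr
      _ = 72 * C2 * x ^ 511 := by ring
  have hclR : ((close n D δ).card : ℝ) ≤ (C1 + 72 * C2) * x ^ 511 := by
    have h1 : ((close n D δ).card : ℝ) ≤ ((obj n D).card : ℝ) + ((prs n D H).card : ℝ) := by
      exact_mod_cast hcl
    have h2 : x ^ 503 ≤ x ^ 511 := pow_le_pow_right₀ hx1 (by norm_num)
    have h3 : C1 * x ^ 503 ≤ C1 * x ^ 511 := by gcongr
    calc ((close n D δ).card : ℝ) ≤ C1 * x ^ 511 + 72 * C2 * x ^ 511 := by linarith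
      _ = (C1 + 72 * C2) * x ^ 511 := by ring
  have hfin : (x ^ 501) ^ 2 ≤ K * (x ^ 2) ^ 8 * x ^ 450 * ((C1 + 72 * C2) * x ^ 511) := by
    calc (x ^ 501) ^ 2 ≤ ((obj n D).card : ℝ) ^ 2 := pow_le_pow_left₀ (by positivity) hL 2
      _ ≤ K * B ^ 8 * δ ^ (-(9 / 5) : ℝ) * ((close n D δ).card : ℝ) := hPL'
      _ ≤ K * (x ^ 2) ^ 8 * x ^ 450 * ((C1 + 72 * C2) * x ^ 511) := by
        rw [hδp, hB]; gcongr
  have hfin2 : x ^ 25 * x ^ 977 ≤ (K * (C1 + 72 * C2)) * x ^ 977 := by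
    calc x ^ 25 * x ^ 977 = (x ^ 501) ^ 2 := by ring
      _ ≤ K * (x ^ 2) ^ 8 * x ^ 450 * ((C1 + 72 * C2) * x ^ 511) := hfin
      _ = (K * (C1 + 72 * C2)) * x ^ 977 := by ring
  have hfin3 : x ^ 25 ≤ K * (C1 + 72 * C2) := le_of_mul_le_mul_right hfin2 (by positivity)
  have hfin4 : x ≤ x ^ 25 := le_self_pow₀ hx1 (by norm_num)
  linarith

end Pool.Agent.H843R2.KZ
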