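import Pool.Agent.H843R2.KZ.Stubs

set_option autoImplicit false

/-! Task MP (helper487): the number of primitive solutions, from the classes. -/

namespace Pool.Agent.H843R2.KZ

open Finset

theorem mp_trm_nonneg (n D H : ℕ) (S : ℤ) (h : ℕ) : 0 ≤ trm n D H S h := by
  unfold trm; positivity

theorem MP_ok (hN : S_NF) (hC : S_CLS) (hF : S_PSFIN) (hD : S_DIV) : S_MP := by
  intro ε hε
  obtain ⟨C1, hC1, h1⟩ := hC (ε / 4) (by positivity)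
  obtain ⟨C2, hC2, h2⟩ := hD (ε / 4) (by positivity)
  refine ⟨C1 * C2 ^ 3 * 5 ^ (ε / 4), by positivity, ?_⟩
  intro n D H hH hHn hD1 hDn S hS hSH
  have hn : 1 ≤ n := le_trans hD1 hDn
  have hn0 : (0 : ℝ) < n := by exact_mod_cast hn
  have hHnZ : 2 * (H : ℤ) ^ 2 ≤ n := by exact_mod_cast hHn
  have hSabs := abs_le.1 hSH
  have hnZ : (1 : ℤ) ≤ n := by exact_mod_cast hn
  have hm0 : 0 < 4 * (n : ℤ) - S := by linarith [hSabs.2]
  have hm5 : 4 * (n : ℤ) - S ≤ 5 * n := by linarith [hSabs.1]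
  set K : Finset (ℕ × ℕ × ℕ × ℕ) := S.natAbs.divisors ×ˢ (4 * (n : ℤ) - S).natAbs.divisors ×ˢ
    S.natAbs.divisors ×ˢ hs n H S with hK
  have hsub : ps n D H S ⊆ ⋃ i ∈ K, psc n D H S i.1 i.2.1 i.2.2.1 i.2.2.2 := by
    rintro ⟨A, B, E⟩ hz
    obtain ⟨hz1, hz2, hz3, hz4, hz5⟩ := id hz
    obtain ⟨e1, e2, g1, g2, he1, he2, hg1, hg2, hnf⟩ :=
      hN S (4 * (n : ℤ) - S) A B E hS hm0 hz2 hz4 hz5
    obtain ⟨S0, m0, A1, B1, E1, hS0, hm0', hrest⟩ := id hnf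
    have d1 : (e1 : ℤ) ∣ S := ⟨e1 * g1 * (g2 : ℤ) ^ 2 * S0, by rw [hS0]; ring⟩
    have d2 : (g1 : ℤ) ∣ S := ⟨(e1 : ℤ) ^ 2 * (g2 : ℤ) ^ 2 * S0, by rw [hS0]; ring⟩
    have d3 : (e2 : ℤ) ∣ 4 * (n : ℤ) - S :=
      ⟨e2 * g1 * (g2 : ℤ) ^ 2 * m0, by rw [hm0']; ring⟩
    have d4 : (g2 : ℤ) ^ 2 ∣ S := ⟨(e1 : ℤ) ^ 2 * g1 * S0, by rw [hS0]; ring⟩
    have d5 : (g2 : ℤ) ^ 2 ∣ 4 * (n : ℤ) - S := ⟨(e2 : ℤ) ^ 2 * g1 * m0, by rw [hm0']; ring⟩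
    have d6 : (g2 : ℤ) ^ 2 ∣ 4 * (n : ℤ) := by
      have := dvd_add d5 d4
      simpa using this
    have hle : (g2 : ℤ) ^ 2 ≤ |S| :=
      Int.le_of_dvd (abs_pos.2 hS) ((dvd_abs _ _).2 d4)
    have hle2 : (g2 : ℤ) ≤ 2 * H := by
      by_contra hcon
      push Not at hcon
      have hH0 : (0 : ℤ) ≤ H := by positivity
      nlinarith
    have hle3 : g2 ≤ 2 * H := by exact_mod_cast hle2
    refine Set.mem_iUnion₂.2 ⟨(e1, e2, g1, g2), ?_, hz, hnf⟩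
    simp only [hK, mem_product, Nat.mem_divisors, hs, mem_filter, mem_Icc]
    refine ⟨⟨Int.natCast_dvd.1 d1, by simpa using hS⟩,
      ⟨Int.natCast_dvd.1 d3, by simpa using hm0.ne'⟩,
      ⟨Int.natCast_dvd.1 d2, by simpa using hS⟩, ⟨hg2, hle3⟩, d4, d6⟩
  have hfin : (⋃ i ∈ K, psc n D H S i.1 i.2.1 i.2.2.1 i.2.2.2).Finite :=
    (hF n D H S).subset (Set.iUnion₂_subset fun _ _ => fun z hz => hz.1)
  have c1 : ((ps n D H S).ncard : ℝ) ≤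
      ∑ i ∈ K, ((psc n D H S i.1 i.2.1 i.2.2.1 i.2.2.2).ncard : ℝ) := by
    have := (Set.ncard_le_ncard hsub hfin).trans (Finset.set_ncard_biUnion_le K _)
    exact_mod_cast this
  have c2 : ∑ i ∈ K, ((psc n D H S i.1 i.2.1 i.2.2.1 i.2.2.2).ncard : ℝ) ≤
      ∑ i ∈ K, C1 * (n : ℝ) ^ (ε / 4) * trm n D H S i.2.2.2 := by
    refine sum_le_sum fun i hi => ?_
    simp only [hK, mem_product, hs, mem_filter, mem_Icc] at hi
    obtain ⟨i1, i2, i3, i4, i5⟩ := hi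
    exact h1 n D H hH hHn hD1 hDn S hS hSH _ _ _ _ (Nat.pos_of_mem_divisors i1)
      (Nat.pos_of_mem_divisors i2) (Nat.pos_of_mem_divisors i3) i4.1
  have c3 : ∑ i ∈ K, C1 * (n : ℝ) ^ (ε / 4) * trm n D H S i.2.2.2 =
      (S.natAbs.divisors.card : ℝ) * ((4 * (n : ℤ) - S).natAbs.divisors.card : ℝ) *
        (S.natAbs.divisors.card : ℝ) * (C1 * (n : ℝ) ^ (ε / 4)) *
        ∑ h ∈ hs n H S, trm n D H S h := by
    rw [hK]
    simp only [sum_product, sum_const, nsmul_eq_mul, ← mul_sum]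
    ring
  have e1 : (S.natAbs.divisors.card : ℝ) ≤ C2 * (n : ℝ) ^ (ε / 4) := by
    refine (h2 _ (Int.natAbs_pos.2 hS)).trans ?_
    refine mul_le_mul_of_nonneg_left ?_ hC2.le
    refine Real.rpow_le_rpow (by positivity) ?_ (by positivity)
    have : (S.natAbs : ℤ) ≤ n := by
      rw [Int.natCast_natAbs]; exact hSH.trans hHnZ
    exact_mod_cast this
  have e2 : ((4 * (n : ℤ) - S).natAbs.divisors.card : ℝ) ≤
      C2 * (5 ^ (ε / 4) * (n : ℝ) ^ (ε / 4)) := by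
    refine (h2 _ (Int.natAbs_pos.2 hm0.ne')).trans ?_
    refine mul_le_mul_of_nonneg_left ?_ hC2.le
    rw [← Real.mul_rpow (by norm_num) hn0.le]
    refine Real.rpow_le_rpow (by positivity) ?_ (by positivity)
    have : ((4 * (n : ℤ) - S).natAbs : ℤ) ≤ 5 * n := by
      rw [Int.natCast_natAbs, abs_of_pos hm0]; exact hm5
    exact_mod_cast this
  have hq : (n : ℝ) ^ ε = ((n : ℝ) ^ (ε / 4)) ^ 4 := by
    rw [← Real.rpow_natCast, ← Real.rpow_mul hn0.le]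
    congr 1
    push_cast
    ring
  have hsum0 : 0 ≤ ∑ h ∈ hs n H S, trm n D H S h :=
    sum_nonneg fun h _ => mp_trm_nonneg n D H S h
  have hnq : 0 < (n : ℝ) ^ (ε / 4) := Real.rpow_pos_of_pos hn0 _
  refine (c1.trans (c2.trans_eq c3)).trans ?_
  refine mul_le_mul_of_nonneg_right ?_ hsum0
  calc (S.natAbs.divisors.card : ℝ) * ((4 * (n : ℤ) - S).natAbs.divisors.card : ℝ) *
        (S.natAbs.divisors.card : ℝ) * (C1 * (n : ℝ) ^ (ε / 4))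
      ≤ (C2 * (n : ℝ) ^ (ε / 4)) * (C2 * (5 ^ (ε / 4) * (n : ℝ) ^ (ε / 4))) *
        (C2 * (n : ℝ) ^ (ε / 4)) * (C1 * (n : ℝ) ^ (ε / 4)) := by gcongr
    _ = C1 * C2 ^ 3 * 5 ^ (ε / 4) * (n : ℝ) ^ ε := by rw [hq]; ring

end Pool.Agent.H843R2.KZ
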