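import Pool.Agent.H843R2.KZ.Stubs

set_option autoImplicit false

/-! Task NF: normal form of a primitive solution. -/

namespace Pool.Agent.H843R2.KZ

theorem NF_ok : S_NF := by
  intro S m A B E hS hm hB hAB hE
  have hABc : IsCoprime A B := Int.isCoprime_iff_gcd_eq_one.mpr hAB
  -- e1
  have he1pos : 0 < Int.gcd A E := by
    rw [Int.gcd_pos_iff]
    by_contra hc
    push Not at hc
    obtain ⟨hA0, hE0⟩ := hc
    rw [hA0, hE0] at hE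
    have h1 : S * B ^ 2 = 0 := by linarith
    rcases mul_eq_zero.mp h1 with h2 | h2
    · exact hS h2
    · have : B = 0 := by simpa using h2
      omega
  have he2pos : 0 < Int.gcd B E := by
    rw [Int.gcd_pos_iff]
    left
    omega
  obtain ⟨A1, X1, hc1, hA, hE1⟩ := Int.exists_gcd_one he1pos
  obtain ⟨B1, X2, hc2, hB', hE2⟩ := Int.exists_gcd_one he2pos
  set e1 : ℕ := Int.gcd A E with he1
  set e2 : ℕ := Int.gcd B E with he2
  have he1' : (e1 : ℤ) ≠ 0 := by exact_mod_cast he1pos.ne'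
  have he2' : (e2 : ℤ) ≠ 0 := by exact_mod_cast he2pos.ne'
  have hd1A : (e1 : ℤ) ∣ A := ⟨A1, by rw [hA]; ring⟩
  have hd2B : (e2 : ℤ) ∣ B := ⟨B1, by rw [hB']; ring⟩
  have hd1E : (e1 : ℤ) ∣ E := ⟨X1, by rw [hE1]; ring⟩
  have hd2E : (e2 : ℤ) ∣ E := ⟨X2, by rw [hE2]; ring⟩
  have hc12 : IsCoprime (e1 : ℤ) (e2 : ℤ) :=
    (hABc.of_isCoprime_of_dvd_left hd1A).of_isCoprime_of_dvd_right hd2B
  have hS1 : (e1 : ℤ) ^ 2 ∣ S := by
    have h1 : (e1 : ℤ) ^ 2 ∣ S * B ^ 2 := by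
      have h2 : S * B ^ 2 = E ^ 2 - m * A ^ 2 := by linarith
      rw [h2]
      exact dvd_sub (pow_dvd_pow_of_dvd hd1E 2) ((pow_dvd_pow_of_dvd hd1A 2).mul_left m)
    have h3 : IsCoprime ((e1 : ℤ) ^ 2) (B ^ 2) := (hABc.of_isCoprime_of_dvd_left hd1A).pow
    exact h3.dvd_of_dvd_mul_right h1
  have hm1 : (e2 : ℤ) ^ 2 ∣ m := by
    have h1 : (e2 : ℤ) ^ 2 ∣ m * A ^ 2 := by
      have h2 : m * A ^ 2 = E ^ 2 - S * B ^ 2 := by linarith
      rw [h2]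
      exact dvd_sub (pow_dvd_pow_of_dvd hd2E 2) ((pow_dvd_pow_of_dvd hd2B 2).mul_left S)
    have h3 : IsCoprime ((e2 : ℤ) ^ 2) (A ^ 2) := (hABc.symm.of_isCoprime_of_dvd_left hd2B).pow
    exact h3.dvd_of_dvd_mul_right h1
  obtain ⟨S', hS'⟩ := hS1
  obtain ⟨m', hm'⟩ := hm1
  obtain ⟨E', hE'⟩ : (e1 : ℤ) * e2 ∣ E := hc12.mul_dvd hd1E hd2E
  have hS'0 : S' ≠ 0 := by
    rintro rfl
    exact hS (by rw [hS', mul_zero])
  have hX1 : X1 = e2 * E' := by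
    have : (e1 : ℤ) * X1 = e1 * (e2 * E') := by
      rw [← mul_assoc, ← hE', hE1]; ring
    exact mul_left_cancel₀ he1' this
  have hX2 : X2 = e1 * E' := by
    have : (e2 : ℤ) * X2 = e2 * (e1 * E') := by
      rw [← mul_assoc, mul_comm (e2 : ℤ) e1, ← hE', hE2]; ring
    exact mul_left_cancel₀ he2' this
  have hA1E : IsCoprime A1 E' := by
    have h1 : IsCoprime A1 X1 := Int.isCoprime_iff_gcd_eq_one.mpr hc1
    exact h1.of_isCoprime_of_dvd_right ⟨e2, by rw [hX1]; ring⟩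
  have hB1E : IsCoprime B1 E' := by
    have h1 : IsCoprime B1 X2 := Int.isCoprime_iff_gcd_eq_one.mpr hc2
    exact h1.of_isCoprime_of_dvd_right ⟨e1, by rw [hX2]; ring⟩
  have heq : E' ^ 2 = m' * A1 ^ 2 + S' * B1 ^ 2 := by
    have h0 : ((e1 : ℤ) * e2) ^ 2 ≠ 0 := pow_ne_zero _ (mul_ne_zero he1' he2')
    apply mul_left_cancel₀ h0
    have h1 : E ^ 2 = ((e1 : ℤ) * e2) ^ 2 * E' ^ 2 := by rw [hE']; ring
    rw [← h1, hE, hS', hm', hA, hB']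
    ring
  -- h
  have hhpos : 0 < Int.gcd S' m' := by
    rw [Int.gcd_pos_iff]
    left
    exact hS'0
  obtain ⟨S0, m0, hc3, hS0, hm0⟩ := Int.exists_gcd_one hhpos
  set h : ℕ := Int.gcd S' m' with hh
  obtain ⟨h1, h2, hh12, hsq⟩ := Nat.sq_mul_squarefree h
  have hh12' : (h : ℤ) = (h2 : ℤ) ^ 2 * h1 := by rw [← hh12]; push_cast; ring
  have hne : (h : ℤ) ≠ 0 := by exact_mod_cast hhpos.ne'
  have h2ne : (h2 : ℤ) ≠ 0 := by
    intro h0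
    rw [h0] at hh12'
    exact hne (by rw [hh12']; ring)
  have h1ne : (h1 : ℤ) ≠ 0 := by
    intro h0
    rw [h0] at hh12'
    exact hne (by rw [hh12']; ring)
  have hsq' : Squarefree (h1 : ℤ) := Int.squarefree_natCast.mpr hsq
  have hhE : (h : ℤ) ∣ E' ^ 2 := by
    rw [heq, hS0, hm0]
    exact ⟨m0 * A1 ^ 2 + S0 * B1 ^ 2, by ring⟩
  have h2E : (h2 : ℤ) ∣ E' := by
    have h3 : (h2 : ℤ) ^ 2 ∣ E' ^ 2 := (Dvd.intro _ hh12'.symm).trans hhE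
    exact (Int.pow_dvd_pow_iff two_ne_zero).mp h3
  obtain ⟨E'', hE''⟩ := h2E
  have h1E : (h1 : ℤ) ∣ E'' := by
    have h3 : (h2 : ℤ) ^ 2 * h1 ∣ (h2 : ℤ) ^ 2 * E'' ^ 2 := by
      rw [← hh12']
      have : (h2 : ℤ) ^ 2 * E'' ^ 2 = E' ^ 2 := by rw [hE'']; ring
      rw [this]
      exact hhE
    have h4 : (h1 : ℤ) ∣ E'' ^ 2 := (mul_dvd_mul_iff_left (pow_ne_zero 2 h2ne)).mp h3
    exact (hsq'.dvd_pow_iff_dvd two_ne_zero).mp h4
  obtain ⟨E1, hE1'⟩ := h1E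
  have hEE : E' = h1 * h2 * E1 := by rw [hE'', hE1']; ring
  have hmain : h1 * E1 ^ 2 = m0 * A1 ^ 2 + S0 * B1 ^ 2 := by
    have h0 : (h1 : ℤ) * h2 ^ 2 ≠ 0 := mul_ne_zero h1ne (pow_ne_zero _ h2ne)
    apply mul_left_cancel₀ h0
    have e3 : (h1 : ℤ) * h2 ^ 2 * (h1 * E1 ^ 2) = E' ^ 2 := by rw [hEE]; ring
    rw [e3, heq, hS0, hm0, hh12']
    ring
  have hh1E : (h1 : ℤ) ∣ E' := ⟨h2 * E1, by rw [hEE]; ring⟩
  have hE1E : E1 ∣ E' := ⟨h1 * h2, by rw [hEE]; ring⟩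
  have hA1h : IsCoprime A1 (h1 : ℤ) := hA1E.of_isCoprime_of_dvd_right hh1E
  have hB1h : IsCoprime B1 (h1 : ℤ) := hB1E.of_isCoprime_of_dvd_right hh1E
  have hA1E1 : IsCoprime A1 E1 := hA1E.of_isCoprime_of_dvd_right hE1E
  have hB1E1 : IsCoprime B1 E1 := hB1E.of_isCoprime_of_dvd_right hE1E
  have hS0m0 : IsCoprime S0 m0 := Int.isCoprime_iff_gcd_eq_one.mpr hc3
  have hS00 : S0 ≠ 0 := by
    rintro rfl
    exact hS'0 (by rw [hS0, zero_mul])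
  have hm00 : m0 ≠ 0 := by
    rintro rfl
    rw [zero_mul] at hm0
    rw [hm0, mul_zero] at hm'
    omega
  refine ⟨e1, e2, h1, h2, he1pos, he2pos, ?_, ?_, S0, m0, A1, B1, E1, ?_, ?_, ?_, ?_, ?_, hmain,
    ?_, ?_, hA1h, hB1h, hS0m0.symm, ?_, ?_⟩
  · have : h1 ≠ 0 := by exact_mod_cast h1ne
    omega
  · have : h2 ≠ 0 := by exact_mod_cast h2ne
    omega
  · rw [hS', hS0, hh12']; ring
  · rw [hm', hm0, hh12']; ring
  · rw [hA]; ring
  · rw [hB']; ring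
  · rw [hE', hEE]; ring
  · -- A1, S0
    refine isCoprime_of_prime_dvd (fun h => hS00 h.2) fun p hp hpA hpS => ?_
    have h3 : p ∣ h1 * E1 ^ 2 := by
      rw [hmain]
      exact dvd_add ((dvd_pow hpA two_ne_zero).mul_left _) (hpS.mul_right _)
    rcases hp.dvd_or_dvd h3 with h4 | h4
    · exact hp.not_isUnit (hA1h.isUnit_of_dvd' hpA h4)
    · exact hp.not_isUnit (hA1E1.isUnit_of_dvd' hpA (hp.dvd_of_dvd_pow h4))
  · -- B1, m0
    refine isCoprime_of_prime_dvd (fun h => hm00 h.2) fun p hp hpB hpm => ?_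
    have h3 : p ∣ h1 * E1 ^ 2 := by
      rw [hmain]
      exact dvd_add (hpm.mul_right _) ((dvd_pow hpB two_ne_zero).mul_left _)
    rcases hp.dvd_or_dvd h3 with h4 | h4
    · exact hp.not_isUnit (hB1h.isUnit_of_dvd' hpB h4)
    · exact hp.not_isUnit (hB1E1.isUnit_of_dvd' hpB (hp.dvd_of_dvd_pow h4))
  · -- h1, S0
    refine isCoprime_of_prime_dvd (fun h => hS00 h.2) fun p hp hph hpS => ?_
    have h3 : p ∣ m0 * A1 ^ 2 := by
      have h4 : m0 * A1 ^ 2 = h1 * E1 ^ 2 - S0 * B1 ^ 2 := by rw [hmain]; ring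
      rw [h4]
      exact dvd_sub (hph.mul_right _) (hpS.mul_right _)
    rcases hp.dvd_or_dvd h3 with h4 | h4
    · exact hp.not_isUnit (hS0m0.isUnit_of_dvd' hpS h4)
    · exact hp.not_isUnit (hA1h.isUnit_of_dvd' (hp.dvd_of_dvd_pow h4) hph)
  · -- h1, m0
    refine isCoprime_of_prime_dvd (fun h => hm00 h.2) fun p hp hph hpm => ?_
    have h3 : p ∣ S0 * B1 ^ 2 := by
      have h4 : S0 * B1 ^ 2 = h1 * E1 ^ 2 - m0 * A1 ^ 2 := by rw [hmain]; ring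
      rw [h4]
      exact dvd_sub (hph.mul_right _) (hpm.mul_right _)
    rcases hp.dvd_or_dvd h3 with h4 | h4
    · exact hp.not_isUnit (hS0m0.isUnit_of_dvd' h4 hpm)
    · exact hp.not_isUnit (hB1h.isUnit_of_dvd' (hp.dvd_of_dvd_pow h4) hph)

end Pool.Agent.H843R2.KZ
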