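import Pool.Agent.H843R2.KZ.Stubs

set_option autoImplicit false

namespace Pool.Agent.H843R2.KZ

open Finset

namespace NUMaux

lemma key (u : ℝ) (h0 : 0 ≤ u) (h1 : u < 1) :
    (8 / 5) * u ≤ (1 - u) ^ (-(4 / 5) : ℝ) - (1 + u) ^ (-(4 / 5) : ℝ) := by
  have hd : ∀ x ∈ Set.Ico (0 : ℝ) 1, HasDerivAt
      (fun u : ℝ => (1 - u) ^ (-(4 / 5) : ℝ) - (1 + u) ^ (-(4 / 5) : ℝ) - (8 / 5) * u)
      ((4 / 5) * (1 - x) ^ (-(9 / 5) : ℝ) + (4 / 5) * (1 + x) ^ (-(9 / 5) : ℝ) - 8 / 5) x := by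
    intro x hx
    have e1 : (0 : ℝ) < 1 - x := by linarith [hx.2]
    have e2 : (0 : ℝ) < 1 + x := by linarith [hx.1]
    have a1 : HasDerivAt (fun u : ℝ => 1 - u) (-1) x := by
      simpa using (hasDerivAt_id x).const_sub 1
    have a2 : HasDerivAt (fun u : ℝ => 1 + u) 1 x := by
      simpa using (hasDerivAt_id x).const_add 1
    have b1 := a1.rpow_const (p := (-(4 / 5) : ℝ)) (Or.inl e1.ne')
    have b2 := a2.rpow_const (p := (-(4 / 5) : ℝ)) (Or.inl e2.ne')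
    have b3 : HasDerivAt (fun u : ℝ => (8 / 5) * u) (8 / 5) x := by
      simpa using (hasDerivAt_id x).const_mul (8 / 5 : ℝ)
    have b4 := (b1.sub b2).sub b3
    refine b4.congr_deriv ?_
    have e : (-(4 / 5) : ℝ) - 1 = -(9 / 5) := by norm_num
    rw [e]
    ring
  have hmono : MonotoneOn
      (fun u : ℝ => (1 - u) ^ (-(4 / 5) : ℝ) - (1 + u) ^ (-(4 / 5) : ℝ) - (8 / 5) * u)
      (Set.Ico 0 1) := by
    refine monotoneOn_of_deriv_nonneg (convex_Ico 0 1) ?_ ?_ ?_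
    · intro x hx
      exact (hd x hx).continuousAt.continuousWithinAt
    · intro x hx
      rw [interior_Ico] at hx
      exact (hd x ⟨hx.1.le, hx.2⟩).differentiableAt.differentiableWithinAt
    · intro x hx
      rw [interior_Ico] at hx
      rw [(hd x ⟨hx.1.le, hx.2⟩).deriv]
      have e1 : (0 : ℝ) < 1 - x := by linarith [hx.2]
      have e2 : (0 : ℝ) < 1 + x := by linarith [hx.1]
      set p := (1 - x) ^ (-(9 / 10) : ℝ) with hp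
      set q := (1 + x) ^ (-(9 / 10) : ℝ) with hq
      have hp2 : (1 - x) ^ (-(9 / 5) : ℝ) = p ^ 2 := by
        rw [hp, ← Real.rpow_natCast, ← Real.rpow_mul e1.le]; norm_num
      have hq2 : (1 + x) ^ (-(9 / 5) : ℝ) = q ^ 2 := by
        rw [hq, ← Real.rpow_natCast, ← Real.rpow_mul e2.le]; norm_num
      have hpq : 1 ≤ p * q := by
        rw [hp, hq, ← Real.mul_rpow e1.le e2.le]
        refine Real.one_le_rpow_of_pos_of_le_one_of_nonpos (by positivity) ?_ (by norm_num)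
        nlinarith [sq_nonneg x]
      rw [hp2, hq2]
      nlinarith [sq_nonneg (p - q)]
  have h := hmono (⟨le_refl 0, one_pos⟩ : (0 : ℝ) ∈ Set.Ico (0 : ℝ) 1) (⟨h0, h1⟩ : u ∈ Set.Ico (0 : ℝ) 1) h0
  simp only [sub_zero, add_zero, mul_zero, Real.one_rpow, sub_self] at h
  linarith

lemma split (x : ℝ) (hx : 0 < x) : x ^ (-(9 / 5) : ℝ) = x ^ (-(4 / 5) : ℝ) / x := by
  rw [show (-(9 / 5) : ℝ) = -(4 / 5) - 1 by norm_num, Real.rpow_sub hx, Real.rpow_one]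

lemma keyx (x h : ℝ) (h0 : 0 < h) (h1 : h < x) :
    (8 / 5) * h * x ^ (-(9 / 5) : ℝ) ≤ (x - h) ^ (-(4 / 5) : ℝ) - (x + h) ^ (-(4 / 5) : ℝ) := by
  have hx : 0 < x := h0.trans h1
  have hu1 : h / x < 1 := (div_lt_one hx).2 h1
  have hu0 : 0 ≤ h / x := by positivity
  have k := key (h / x) hu0 hu1
  have e1 : x - h = x * (1 - h / x) := by field_simp
  have e2 : x + h = x * (1 + h / x) := by field_simp
  rw [e1, e2, Real.mul_rpow hx.le (by linarith), Real.mul_rpow hx.le (by linarith), split x hx]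
  have hpos : 0 < x ^ (-(4 / 5) : ℝ) := Real.rpow_pos_of_pos hx _
  have := mul_le_mul_of_nonneg_left k hpos.le
  calc (8 / 5) * h * (x ^ (-(4 / 5) : ℝ) / x) = x ^ (-(4 / 5) : ℝ) * ((8 / 5) * (h / x)) := by ring
    _ ≤ x ^ (-(4 / 5) : ℝ) * ((1 - h / x) ^ (-(4 / 5) : ℝ) - (1 + h / x) ^ (-(4 / 5) : ℝ)) := this
    _ = _ := by ring

/-- rational upper bound -/
lemma rb (x r : ℝ) (hx : 0 < x) (hr : 0 < r) (h : 1 ≤ r ^ 5 * x ^ 4) :
    x ^ (-(4 / 5) : ℝ) ≤ r := by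
  have h5 : (x ^ (-(4 / 5) : ℝ)) ^ 5 ≤ r ^ 5 := by
    have e : (x ^ (-(4 / 5) : ℝ)) ^ 5 = (x ^ 4)⁻¹ := by
      rw [← Real.rpow_natCast, ← Real.rpow_mul hx.le, ← Real.rpow_natCast x 4, ← Real.rpow_neg hx.le]
      norm_num
    rw [e, inv_le_iff_one_le_mul₀ (by positivity)]
    exact h
  exact le_of_pow_le_pow_left₀ (by norm_num) hr.le h5

/-- bound for one row -/
noncomputable def G (a : ℝ) : ℝ := (2 * a + 1) ^ (-(9 / 5) : ℝ) + (3 * a + 1) ^ (-(4 / 5) : ℝ) / ((8 / 5) * a)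

lemma row (a : ℝ) (ha : 0 < a) (N : ℕ) :
    ∑ b ∈ Icc 1 (N + 1), (2 * a * (b : ℝ) + 1) ^ (-(9 / 5) : ℝ) ≤
      (2 * a + 1) ^ (-(9 / 5) : ℝ) + ((3 * a + 1) ^ (-(4 / 5) : ℝ) -
        (2 * a * ((N + 1 : ℕ) : ℝ) + a + 1) ^ (-(4 / 5) : ℝ)) / ((8 / 5) * a) := by
  induction N with
  | zero =>
    simp only [zero_add, Icc_self, sum_singleton, Nat.cast_one, mul_one]
    rw [show 2 * a + a + 1 = 3 * a + 1 by ring]
    simp
  | succ N ih =>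
    rw [Finset.sum_Icc_succ_top (by omega)]
    have hN : (0 : ℝ) ≤ (N : ℝ) := Nat.cast_nonneg N
    have k := keyx (2 * a * ((N + 1 + 1 : ℕ) : ℝ) + 1) a ha (by push_cast; nlinarith)
    have e1 : 2 * a * ((N + 1 + 1 : ℕ) : ℝ) + 1 - a = 2 * a * ((N + 1 : ℕ) : ℝ) + a + 1 := by
      push_cast; ring
    have e2 : 2 * a * ((N + 1 + 1 : ℕ) : ℝ) + 1 + a = 2 * a * ((N + 1 + 1 : ℕ) : ℝ) + a + 1 := by
      ring
    rw [e1, e2] at k
    have k2 : (2 * a * ((N + 1 + 1 : ℕ) : ℝ) + 1) ^ (-(9 / 5) : ℝ) ≤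
        ((2 * a * ((N + 1 : ℕ) : ℝ) + a + 1) ^ (-(4 / 5) : ℝ) -
          (2 * a * ((N + 1 + 1 : ℕ) : ℝ) + a + 1) ^ (-(4 / 5) : ℝ)) / ((8 / 5) * a) := by
      rw [le_div_iff₀ (by positivity)]
      linarith
    calc _ ≤ _ := add_le_add ih k2
      _ = _ := by ring

lemma row' (a : ℝ) (ha : 0 < a) (N : ℕ) :
    ∑ b ∈ Icc 1 (N + 1), (2 * a * (b : ℝ) + 1) ^ (-(9 / 5) : ℝ) ≤ G a := by
  refine (row a ha N).trans ?_
  unfold G
  have h1 : 0 ≤ (2 * a * ((N + 1 : ℕ) : ℝ) + a + 1) ^ (-(4 / 5) : ℝ) := by positivity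
  gcongr
  linarith

/-- the tail constant -/
noncomputable def C : ℝ := (2 : ℝ) ^ (-(9 / 5) : ℝ) + (3 : ℝ) ^ (-(4 / 5) : ℝ) / (8 / 5)

lemma G_le (a : ℝ) (ha : 0 < a) : G a ≤ C * a ^ (-(9 / 5) : ℝ) := by
  unfold G C
  have h1 : (2 * a + 1) ^ (-(9 / 5) : ℝ) ≤ (2 : ℝ) ^ (-(9 / 5) : ℝ) * a ^ (-(9 / 5) : ℝ) := by
    rw [← Real.mul_rpow (by norm_num) ha.le]
    exact Real.rpow_le_rpow_of_nonpos (by positivity) (by linarith) (by norm_num)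
  have h2 : (3 * a + 1) ^ (-(4 / 5) : ℝ) ≤ (3 : ℝ) ^ (-(4 / 5) : ℝ) * a ^ (-(4 / 5) : ℝ) := by
    rw [← Real.mul_rpow (by norm_num) ha.le]
    exact Real.rpow_le_rpow_of_nonpos (by positivity) (by linarith) (by norm_num)
  have h3 : (3 * a + 1) ^ (-(4 / 5) : ℝ) / ((8 / 5) * a) ≤
      (3 : ℝ) ^ (-(4 / 5) : ℝ) / (8 / 5) * a ^ (-(9 / 5) : ℝ) := by
    rw [split a ha]
    calc (3 * a + 1) ^ (-(4 / 5) : ℝ) / ((8 / 5) * a) ≤
        (3 : ℝ) ^ (-(4 / 5) : ℝ) * a ^ (-(4 / 5) : ℝ) / ((8 / 5) * a) := by gcongr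
      _ = _ := by field_simp
  calc _ ≤ _ := add_le_add h1 h3
    _ = _ := by ring

lemma asum (N : ℕ) : ∑ a ∈ Icc 1 (N + 3), G (a : ℝ) ≤ G 1 + G 2 + G 3 +
    C * (5 / 4) * ((7 / 2 : ℝ) ^ (-(4 / 5) : ℝ) - ((N : ℝ) + 7 / 2) ^ (-(4 / 5) : ℝ)) := by
  have hC : 0 ≤ C := by unfold C; positivity
  induction N with
  | zero =>
    rw [show Icc 1 (0 + 3) = ({1, 2, 3} : Finset ℕ) by decide, Finset.sum_insert (by decide),
      Finset.sum_insert (by decide), Finset.sum_singleton]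
    have e1 : ((1 : ℕ) : ℝ) = 1 := by norm_num
    have e2 : ((2 : ℕ) : ℝ) = 2 := by norm_num
    have e3 : ((3 : ℕ) : ℝ) = 3 := by norm_num
    have e0 : ((0 : ℕ) : ℝ) + 7 / 2 = 7 / 2 := by norm_num
    rw [e1, e2, e3, e0, sub_self, mul_zero, add_zero]
    exact le_of_eq (by ring)
  | succ N ih =>
    rw [show N + 1 + 3 = (N + 3) + 1 by ring, Finset.sum_Icc_succ_top (by omega)]
    have hN : (0 : ℝ) ≤ (N : ℝ) := Nat.cast_nonneg N
    have k := keyx ((N : ℝ) + 4) (1 / 2) (by norm_num) (by linarith)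
    rw [show (N : ℝ) + 4 - 1 / 2 = N + 7 / 2 by ring, show (N : ℝ) + 4 + 1 / 2 = N + 9 / 2 by ring] at k
    have g := G_le ((N : ℝ) + 4) (by linarith)
    have e : (((N + 3 + 1 : ℕ)) : ℝ) = (N : ℝ) + 4 := by push_cast; ring
    rw [e]
    have e3 : (((N + 1 : ℕ)) : ℝ) + 7 / 2 = (N : ℝ) + 9 / 2 := by push_cast; ring
    rw [e3]
    have k2 : C * ((N : ℝ) + 4) ^ (-(9 / 5) : ℝ) ≤ C * (5 / 4) *
        (((N : ℝ) + 7 / 2) ^ (-(4 / 5) : ℝ) - ((N : ℝ) + 9 / 2) ^ (-(4 / 5) : ℝ)) := by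
      have := mul_le_mul_of_nonneg_left k (by positivity : 0 ≤ C * (5 / 4))
      linarith
    linarith

lemma total : G 1 + G 2 + G 3 + C * (5 / 4) * (7 / 2 : ℝ) ^ (-(4 / 5) : ℝ) ≤ 4 / 5 := by
  have r2 := rb 2 0.5744 (by norm_num) (by norm_num) (by norm_num)
  have r3 := rb 3 0.4154 (by norm_num) (by norm_num) (by norm_num)
  have r4 := rb 4 0.33 (by norm_num) (by norm_num) (by norm_num)
  have r5 := rb 5 0.276 (by norm_num) (by norm_num) (by norm_num)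
  have r7 := rb 7 0.2109 (by norm_num) (by norm_num) (by norm_num)
  have r10 := rb 10 0.1585 (by norm_num) (by norm_num) (by norm_num)
  have r35 := rb (7 / 2) 0.3671 (by norm_num) (by norm_num) (by norm_num)
  have s2 := split 2 (by norm_num)
  have s3 := split 3 (by norm_num)
  have s5 := split 5 (by norm_num)
  have s7 := split 7 (by norm_num)
  have g1 : G 1 = (3 : ℝ) ^ (-(9 / 5) : ℝ) + (4 : ℝ) ^ (-(4 / 5) : ℝ) / (8 / 5) := by
    unfold G; norm_num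
  have g2 : G 2 = (5 : ℝ) ^ (-(9 / 5) : ℝ) + (7 : ℝ) ^ (-(4 / 5) : ℝ) / (16 / 5) := by
    unfold G; norm_num
  have g3 : G 3 = (7 : ℝ) ^ (-(9 / 5) : ℝ) + (10 : ℝ) ^ (-(4 / 5) : ℝ) / (24 / 5) := by
    unfold G; norm_num
  have hC : C ≤ 0.54685 := by
    unfold C
    rw [s2]
    linarith
  have hC0 : 0 ≤ C := by unfold C; positivity
  have hm : C * (7 / 2 : ℝ) ^ (-(4 / 5) : ℝ) ≤ 0.54685 * 0.3671 :=
    mul_le_mul hC r35 (by positivity) (by norm_num)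
  rw [g1, g2, g3, s3, s5, s7]
  nlinarith

end NUMaux

open NUMaux in
theorem NUM_ok : S_NUM := by
  intro F hF
  -- F is contained in a box
  obtain ⟨N, hN⟩ : ∃ N : ℕ, ∀ ab ∈ F, ab.1 ≤ N + 3 ∧ ab.2 ≤ N + 1 := by
    refine ⟨∑ ab ∈ F, (ab.1 + ab.2), fun ab hab => ?_⟩
    have h : ab.1 + ab.2 ≤ ∑ ab ∈ F, (ab.1 + ab.2) :=
      Finset.single_le_sum (f := fun ab : ℕ × ℕ => ab.1 + ab.2) (fun _ _ => Nat.zero_le _) hab
    constructor <;> omega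
  have hsub : F ⊆ (Icc 1 (N + 3)) ×ˢ (Icc 1 (N + 1)) := by
    intro ab hab
    rw [mem_product, mem_Icc, mem_Icc]
    exact ⟨⟨(hF ab hab).1, (hN ab hab).1⟩, ⟨(hF ab hab).2, (hN ab hab).2⟩⟩
  calc ∑ ab ∈ F, ((2 * ab.1 * ab.2 + 1 : ℕ) : ℝ) ^ (-(9 / 5) : ℝ)
      ≤ ∑ ab ∈ (Icc 1 (N + 3)) ×ˢ (Icc 1 (N + 1)), ((2 * ab.1 * ab.2 + 1 : ℕ) : ℝ) ^ (-(9 / 5) : ℝ) :=
        Finset.sum_le_sum_of_subset_of_nonneg hsub (fun _ _ _ => by positivity)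
    _ = ∑ a ∈ Icc 1 (N + 3), ∑ b ∈ Icc 1 (N + 1), (2 * (a : ℝ) * (b : ℝ) + 1) ^ (-(9 / 5) : ℝ) := by
        rw [Finset.sum_product]
        refine Finset.sum_congr rfl fun a _ => Finset.sum_congr rfl fun b _ => ?_
        push_cast
        rfl
    _ ≤ ∑ a ∈ Icc 1 (N + 3), G (a : ℝ) := by
        refine Finset.sum_le_sum fun a ha => ?_
        have ha1 := (mem_Icc.1 ha).1
        exact row' (a : ℝ) (by exact_mod_cast ha1) N
    _ ≤ _ := asum N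
    _ ≤ 4 / 5 := by
        refine le_trans ?_ total
        have hC : 0 ≤ C := by unfold C; positivity
        have : 0 ≤ ((N : ℝ) + 7 / 2) ^ (-(4 / 5) : ℝ) := by positivity
        have := mul_nonneg (by positivity : 0 ≤ C * (5 / 4)) this
        linarith

end Pool.Agent.H843R2.KZ
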