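import Pool.Agent.H843R2.KZ.Stubs

set_option autoImplicit false

/-! Task PAIR: few close pairs. -/

namespace Pool.Agent.H843R2.KZ

open Finset

theorem PAIR_ok (hP : S_PM) (hM : S_MP) (hS : S_SUMS) : S_PAIR := by
  intro ε hε
  obtain ⟨C1, hC1, h1⟩ := hP (ε / 3) (by positivity)
  obtain ⟨C2, hC2, h2⟩ := hM (ε / 3) (by positivity)
  obtain ⟨C3, hC3, h3⟩ := hS (ε / 3) (by positivity)
  refine ⟨C1 * C2 * C3, by positivity, ?_⟩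
  intro n D H hsq hH hHn hD hDn
  have hn : 1 ≤ n := hD.trans hDn
  have hnR : (0 : ℝ) < n := by exact_mod_cast hn
  have a1 := h1 n D H hsq hH hHn hD hDn
  have a3 := h3 n D H hH hHn hD hDn
  have a2 : ∑ S ∈ (Icc (-(2 * (H : ℤ) ^ 2)) (2 * (H : ℤ) ^ 2)).filter (fun S => S ≠ 0),
      ((ps n D H S).ncard : ℝ) ≤ C2 * (n : ℝ) ^ (ε / 3) *
      ∑ S ∈ (Icc (-(2 * (H : ℤ) ^ 2)) (2 * (H : ℤ) ^ 2)).filter (fun S => S ≠ 0),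
        ∑ h ∈ hs n H S, trm n D H S h := by
    rw [Finset.mul_sum]
    refine Finset.sum_le_sum fun S hS => ?_
    rw [Finset.mem_filter, Finset.mem_Icc] at hS
    exact h2 n D H hH hHn hD hDn S hS.2 (abs_le.2 hS.1)
  have e : (n : ℝ) ^ ε = (n : ℝ) ^ (ε / 3) * (n : ℝ) ^ (ε / 3) * (n : ℝ) ^ (ε / 3) := by
    rw [← Real.rpow_add hnR, ← Real.rpow_add hnR]
    congr 1; ring
  have hpos : (0 : ℝ) ≤ (n : ℝ) ^ (ε / 3) := Real.rpow_nonneg hnR.le _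
  calc ((prs n D H).card : ℝ) ≤ C1 * (n : ℝ) ^ (ε / 3) *
        ∑ S ∈ (Icc (-(2 * (H : ℤ) ^ 2)) (2 * (H : ℤ) ^ 2)).filter (fun S => S ≠ 0),
      ((ps n D H S).ncard : ℝ) := a1
    _ ≤ C1 * (n : ℝ) ^ (ε / 3) * (C2 * (n : ℝ) ^ (ε / 3) *
      ∑ S ∈ (Icc (-(2 * (H : ℤ) ^ 2)) (2 * (H : ℤ) ^ 2)).filter (fun S => S ≠ 0),
        ∑ h ∈ hs n H S, trm n D H S h) :=
        mul_le_mul_of_nonneg_left a2 (by positivity)
    _ ≤ C1 * (n : ℝ) ^ (ε / 3) * (C2 * (n : ℝ) ^ (ε / 3) *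
      (C3 * (n : ℝ) ^ (ε / 3) * (1 + D / √n) * (H : ℝ) ^ 2)) :=
        mul_le_mul_of_nonneg_left (mul_le_mul_of_nonneg_left a3 (by positivity)) (by positivity)
    _ = C1 * C2 * C3 * (n : ℝ) ^ ε * (1 + D / √n) * (H : ℝ) ^ 2 := by rw [e]; ring

end Pool.Agent.H843R2.KZ
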