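import Pool.Agent.H843R2.KZ.Stubs

set_option autoImplicit false

namespace Pool.Agent.H843R2.KZ

open Finset

namespace TPLOW

theorem mem_WB (hP : S_PRE) (hD : S_DIG) (n : ℕ) (hsq : ¬ IsSquare n)
    (h4 : n % 4 = 2 ∨ n % 4 = 3) (hrep : ¬ Rep n) (B : ℝ) (d y : ℤ) (hB : 1 ≤ B) (hd : 0 < d)
    (hy : 0 ≤ y) (hyd : y < d) (hn : (n : ℝ) ≤ (d : ℝ) ^ 2) (hdB : (d : ℝ) ≤ B * √n)
    (hdvd : d ∣ (n : ℤ) - y ^ 2) : ((y : ℝ) + √n) / d ∈ WB B := by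
  obtain ⟨p, p', q, q', s, x, k, h1, h2, h3, h5, h6, h7, h8, h9, h10, h11, h12, h13⟩ :=
    hP n hsq B d y hB hd hy hyd hn hdB hdvd
  exact ⟨p, p', q, q', s, h1, h2, h3, h5, h6, h7, h8, h9, h10, h11,
    by rw [h13]; exact hD n h4 hsq hrep x k h12⟩

theorem obj_facts (hP : S_PRE) (hD : S_DIG) (n D : ℕ) (hsq : ¬ IsSquare n)
    (h4 : n % 4 = 2 ∨ n % 4 = 3) (hrep : ¬ Rep n) (B : ℝ) (hB : 1 ≤ B)
    (hDB : (D : ℝ) ≤ B * √n) (P : ℕ × ℕ) (hPm : P ∈ obj n D) :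
    wr n P ∈ WB B ∧ 1 - wl n P ∈ WB B := by
  unfold obj at hPm
  rw [mem_filter, mem_product, mem_Icc, mem_range] at hPm
  obtain ⟨⟨⟨hd1, hd2⟩, -⟩, hn, hcop, hy, hdvd⟩ := hPm
  obtain ⟨d, y⟩ := P
  simp only at hd1 hd2 hn hcop hy hdvd
  have hn' : (n : ℝ) ≤ (((d : ℕ) : ℤ) : ℝ) ^ 2 := by
    have : ((n : ℕ) : ℝ) ≤ ((d ^ 2 : ℕ) : ℝ) := by exact_mod_cast hn
    simpa using this
  have hdB : ((((d : ℕ) : ℤ)) : ℝ) ≤ B * √n := by
    have : (d : ℝ) ≤ D := by exact_mod_cast hd2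
    simpa using this.trans hDB
  have hd0 : (0 : ℤ) < (d : ℤ) := by omega
  have hd0' : (0 : ℝ) < (d : ℝ) := by exact_mod_cast hd1
  have hy1 : 1 ≤ y := by
    by_contra hy0
    have hy0' : y = 0 := by omega
    subst hy0'
    have h5 : (d : ℤ) ∣ (n : ℤ) := by simpa using hdvd
    have h6 : d ∣ n := by exact_mod_cast h5
    have h7 : d ∣ Nat.gcd d (2 * n) := Nat.dvd_gcd dvd_rfl (Dvd.dvd.mul_left h6 2)
    have h8 : Nat.gcd d (2 * n) = 1 := hcop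
    rw [h8] at h7
    have h9 : d = 1 := Nat.dvd_one.1 h7
    subst h9
    omega
  constructor
  · have := mem_WB hP hD n hsq h4 hrep B d y hB hd0 (by omega) (by omega) hn' hdB hdvd
    simpa [wr] using this
  · have h5 : (d : ℤ) ∣ (n : ℤ) - ((d : ℤ) - y) ^ 2 := by
      have : (n : ℤ) - ((d : ℤ) - y) ^ 2 = ((n : ℤ) - (y : ℤ) ^ 2) + d * (2 * y - d) := by ring
      rw [this]
      exact dvd_add hdvd (dvd_mul_right _ _)
    have := mem_WB hP hD n hsq h4 hrep B d ((d : ℤ) - y) hB hd0 (by omega) (by omega) hn' hdB h5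
    have e : 1 - wl n (d, y) = ((((d : ℤ) - (y : ℤ) : ℤ) : ℝ) + √n) / (((d : ℕ) : ℤ) : ℝ) := by
      unfold wl
      simp only
      push_cast
      field_simp
      ring
    rw [e]
    exact this

end TPLOW

open Classical in
theorem PLOW_ok (hP : S_PRE) (hD : S_DIG) (hC : S_COVW) : S_PLOW := by
  obtain ⟨K, hK, hcov⟩ := hC
  refine ⟨K ^ 2, by positivity, ?_⟩
  intro n D hsq h4 hrep B hB hDB δ hδ hδ1
  obtain ⟨F, hF, hFc⟩ := hcov B hB δ hδ hδ1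
  have hex : ∀ P : ℕ × ℕ, ∃ t : ℝ × ℝ, P ∈ obj n D → t ∈ F ×ˢ F ∧
      t.1 ≤ wr n P ∧ wr n P ≤ t.1 + δ ∧ t.2 ≤ 1 - wl n P ∧ 1 - wl n P ≤ t.2 + δ := by
    intro P
    by_cases hPm : P ∈ obj n D
    · obtain ⟨h5, h6⟩ := TPLOW.obj_facts hP hD n D hsq h4 hrep B hB hDB P hPm
      obtain ⟨f, hf, h7, h8⟩ := hFc _ h5
      obtain ⟨g, hg, h9, h10⟩ := hFc _ h6
      exact ⟨(f, g), fun _ => ⟨mem_product.2 ⟨hf, hg⟩, h7, h8, h9, h10⟩⟩
    · exact ⟨(0, 0), fun h => absurd h hPm⟩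
  choose φ hφ using hex
  set E := ((obj n D) ×ˢ (obj n D)).filter (fun z => φ z.1 = φ z.2) with hE
  have hEc : E ⊆ close n D δ := by
    intro z hz
    rw [hE, mem_filter, mem_product] at hz
    obtain ⟨⟨hz1, hz2⟩, hz3⟩ := hz
    unfold close
    rw [mem_filter, mem_product]
    obtain ⟨-, a1, a2, a3, a4⟩ := hφ _ hz1
    obtain ⟨-, b1, b2, b3, b4⟩ := hφ _ hz2
    rw [← hz3] at b1 b2 b3 b4
    exact ⟨⟨hz1, hz2⟩, abs_le.2 ⟨by linarith, by linarith⟩, abs_le.2 ⟨by linarith, by linarith⟩⟩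
  have c1 : (obj n D).card = ∑ t ∈ F ×ˢ F, ((obj n D).filter (fun P => φ P = t)).card :=
    card_eq_sum_card_fiberwise (fun P hPm => (hφ P hPm).1)
  have c2 : ((obj n D).card) ^ 2 ≤
      (F ×ˢ F).card * ∑ t ∈ F ×ˢ F, ((obj n D).filter (fun P => φ P = t)).card ^ 2 := by
    rw [c1]
    exact sq_sum_le_card_mul_sum_sq
  have c3 : ∑ t ∈ F ×ˢ F, ((obj n D).filter (fun P => φ P = t)).card ^ 2 = E.card := by
    have c4 : E.card = ∑ t ∈ F ×ˢ F, (E.filter (fun z => φ z.1 = t)).card :=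
      card_eq_sum_card_fiberwise (fun z hz => by
        have hz' : z ∈ E := hz
        rw [hE, mem_filter, mem_product] at hz'
        exact (hφ _ hz'.1.1).1)
    rw [c4]
    refine sum_congr rfl fun t _ => ?_
    rw [sq, ← card_product]
    congr 1
    ext z
    simp only [hE, mem_filter, mem_product]
    constructor
    · rintro ⟨⟨h1, h2⟩, h3, h4⟩
      exact ⟨⟨⟨h1, h3⟩, h2.trans h4.symm⟩, h2⟩
    · rintro ⟨⟨⟨h1, h3⟩, h5⟩, h2⟩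
      exact ⟨⟨h1, h2⟩, h3, h5 ▸ h2⟩
  rw [c3, card_product] at c2
  have c5 : (((obj n D).card : ℝ)) ^ 2 ≤ (F.card : ℝ) * F.card * ((close n D δ).card : ℝ) := by
    have c6 : ((obj n D).card) ^ 2 ≤ F.card * F.card * (close n D δ).card :=
      c2.trans (Nat.mul_le_mul_left _ (card_le_card hEc))
    exact_mod_cast c6
  refine c5.trans ?_
  refine mul_le_mul_of_nonneg_right ?_ (Nat.cast_nonneg _)
  have hpos : (0 : ℝ) ≤ F.card := Nat.cast_nonneg _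
  calc (F.card : ℝ) * F.card
      ≤ (K * B ^ 4 * δ ^ (-(9 / 10) : ℝ)) * (K * B ^ 4 * δ ^ (-(9 / 10) : ℝ)) :=
        mul_le_mul hF hF hpos (hpos.trans hF)
    _ = K ^ 2 * B ^ 8 * (δ ^ (-(9 / 10) : ℝ) * δ ^ (-(9 / 10) : ℝ)) := by ring
    _ = K ^ 2 * B ^ 8 * δ ^ (-(9 / 5) : ℝ) := by
        rw [← Real.rpow_add hδ]
        norm_num

end Pool.Agent.H843R2.KZ
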