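import Pool.Agent.H843R2.KZ.Stubs
import Pool.Agent.H307R2.Sg1

set_option autoImplicit false

namespace Pool.Agent.H843R2.KZ

theorem POS_ok : S_POS := by
  intro q _ χ h2 h1
  have hre : ∀ x : ℝ, 0 < x → χ.LFunction (x : ℂ) = (((χ.LFunction (x : ℂ)).re : ℝ) : ℂ) := by
    intro x hx
    apply Complex.ext
    · simp
    · rw [Pool.Agent.H307R2.LFunction_im h2 h1 hx]
      simp
  have hne : ∀ x : ℝ, 1 ≤ x → (χ.LFunction (x : ℂ)).re ≠ 0 := by
    intro x hx h0
    have h3 := DirichletCharacter.LFunction_ne_zero_of_one_le_re χ (s := (x : ℂ)) (Or.inl h1)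
      (by simpa using hx)
    apply h3
    rw [hre x (by linarith), h0]
    simp
  have hcont : Continuous fun x : ℝ => (χ.LFunction (x : ℂ)).re :=
    Complex.continuous_re.comp
      ((DirichletCharacter.differentiable_LFunction h1).continuous.comp Complex.continuous_ofReal)
  have h2pos : 0 < (χ.LFunction ((2 : ℝ) : ℂ)).re := by
    have := Pool.Agent.H307R2.LFunction_two_re (χ := χ)
    have e : ((2 : ℝ) : ℂ) = 2 := by norm_num
    rw [e]
    linarith
  have h1pos : 0 < (χ.LFunction ((1 : ℝ) : ℂ)).re := by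
    by_contra hc
    push Not at hc
    have hiv := intermediate_value_Icc (by norm_num : (1 : ℝ) ≤ 2) hcont.continuousOn
    obtain ⟨x, hx, hx0⟩ := hiv (show (0 : ℝ) ∈ Set.Icc _ _ from ⟨hc, h2pos.le⟩)
    exact hne x hx.1 hx0
  have e1 : ((1 : ℝ) : ℂ) = 1 := by norm_num
  rw [e1] at h1pos
  have h4 := hre 1 one_pos
  rw [e1] at h4
  have h5 : ‖χ.LFunction 1‖ = (χ.LFunction 1).re := by
    rw [h4, Complex.norm_real, Real.norm_of_nonneg (by simpa using h1pos.le), Complex.ofReal_re]
  rw [h5]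
  exact h4

end Pool.Agent.H843R2.KZ
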