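import Pool.Agent.H843R2.KZ.Stubs

set_option autoImplicit false

namespace Pool.Agent.H843R2.KZ

open Finset

private theorem pre_nsq {n : ℕ} (hn : ¬ IsSquare n) (x : ℤ) : (n : ℤ) - x ^ 2 ≠ 0 := by
  intro h
  apply hn
  refine ⟨x.natAbs, ?_⟩
  have h1 : (n : ℤ) = x ^ 2 := by linarith
  have h2 : ((x.natAbs * x.natAbs : ℕ) : ℤ) = x ^ 2 := by
    push_cast
    rw [← sq, sq_abs]
  exact_mod_cast h1.trans h2.symm

/-- the state of the loop -/
private structure PreSt (n : ℕ) (B w w' : ℝ) (X k p p' q q' : ℤ) : Prop where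
  hk : k ≠ 0
  hdvd : k ∣ (n : ℤ) - X ^ 2
  ht : 1 < ((X : ℝ) + √n) / k
  hq : 1 ≤ q
  hq' : 0 ≤ q'
  hqq : q' ≤ q
  hqB : (q : ℝ) ≤ B
  hdet : (p * q' - p' * q) ^ 2 = 1
  h1 : w * (q * (((X : ℝ) + √n) / k) + q') = p * (((X : ℝ) + √n) / k) + p'
  h2 : w' * (q * (((X : ℝ) - √n) / k) + q') = p * (((X : ℝ) - √n) / k) + p'
  h3 : |w * q - p| ≤ 1
  h4 : |w * q' - p'| ≤ 1

private theorem pre_step {n : ℕ} (hn : ¬ IsSquare n) {B w w' : ℝ} (hB : 1 ≤ B)
    (hω : 2 ≤ (w - w') * B) (hw0 : 0 < w) (hw2 : w < 2) {X k p p' q q' : ℤ}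
    (hs : PreSt n B w w' X k p p' q q') :
    Pre n B w ∨ ∃ X1 k1 P Q : ℤ, q + q' ≤ Q ∧ PreSt n B w w' X1 k1 P p Q q := by
  have hr2 : √(n : ℝ) ^ 2 = n := Real.sq_sqrt (Nat.cast_nonneg n)
  have hn0 : 0 < (n : ℝ) := by
    rcases Nat.eq_zero_or_pos n with h | h
    · exact absurd ⟨0, by simp [h]⟩ hn
    · exact_mod_cast h
  have hr0 : 0 < √(n : ℝ) := Real.sqrt_pos.2 hn0
  obtain ⟨hk, hdvd, ht, hq, hq', hqq, hqB, hdet, h1, h2, h3, h4⟩ := hs
  obtain ⟨r, hr⟩ : ∃ r : ℝ, r = √(n : ℝ) := ⟨_, rfl⟩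
  rw [← hr] at hr2 hr0 ht h1 h2
  obtain ⟨l, hl⟩ := hdvd
  obtain ⟨t, htd⟩ : ∃ t : ℝ, t = ((X : ℝ) + r) / k := ⟨_, rfl⟩
  obtain ⟨t', htd'⟩ : ∃ t' : ℝ, t' = ((X : ℝ) - r) / k := ⟨_, rfl⟩
  rw [← htd] at ht h1
  rw [← htd'] at h2
  obtain ⟨a, ha⟩ : ∃ a : ℤ, a = ⌊t⌋ := ⟨_, rfl⟩
  have ha1 : 1 ≤ a := by
    rw [ha]
    exact Int.le_floor.2 (by exact_mod_cast ht.le)
  obtain ⟨X1, hX1⟩ : ∃ X1 : ℤ, X1 = a * k - X := ⟨_, rfl⟩
  obtain ⟨k1, hk1⟩ : ∃ k1 : ℤ, k1 = l + 2 * a * X - a ^ 2 * k := ⟨_, rfl⟩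
  have hkk : (n : ℤ) - X1 ^ 2 = k * k1 := by
    rw [hX1, hk1]
    linear_combination hl
  have hk10 : k1 ≠ 0 := by
    intro h
    rw [h, mul_zero] at hkk
    exact pre_nsq hn X1 hkk
  have hkR : (k : ℝ) ≠ 0 := by exact_mod_cast hk
  have hk1R : (k1 : ℝ) ≠ 0 := by exact_mod_cast hk10
  have hkkR : (n : ℝ) - (X1 : ℝ) ^ 2 = k * k1 := by exact_mod_cast hkk
  have hX1R : (X1 : ℝ) = a * k - X := by rw [hX1]; push_cast; ring
  obtain ⟨u, hu⟩ : ∃ u : ℝ, u = ((X1 : ℝ) + r) / k1 := ⟨_, rfl⟩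
  obtain ⟨u', hu'⟩ : ∃ u' : ℝ, u' = ((X1 : ℝ) - r) / k1 := ⟨_, rfl⟩
  have hut : u * (t - a) = 1 := by
    rw [hu, htd]
    have e1 : ((X : ℝ) + r) / k - a = (r - X1) / k := by
      rw [hX1R]
      field_simp
      ring
    rw [e1, div_mul_div_comm, div_eq_one_iff_eq (mul_ne_zero hk1R hkR)]
    linear_combination hkkR + hr2
  have hut' : u' * (t' - a) = 1 := by
    rw [hu', htd']
    have e1 : ((X : ℝ) - r) / k - a = (-r - X1) / k := by
      rw [hX1R]
      field_simp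
      ring
    rw [e1, div_mul_div_comm, div_eq_one_iff_eq (mul_ne_zero hk1R hkR)]
    linear_combination hkkR + hr2
  have hta0 : 0 ≤ t - a := by
    rw [ha]
    linarith [Int.floor_le t]
  have hta1 : t - a < 1 := by
    rw [ha]
    linarith [Int.lt_floor_add_one t]
  have hta0' : 0 < t - a := lt_of_le_of_ne hta0 (by
    intro h
    rw [← h, mul_zero] at hut
    exact zero_ne_one hut)
  have hu1 : 1 < u := by
    have : u = 1 / (t - a) := by
      field_simp
      exact hut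
    rw [this, lt_div_iff₀ hta0']
    linarith
  obtain ⟨Q, hQ⟩ : ∃ Q : ℤ, Q = a * q + q' := ⟨_, rfl⟩
  obtain ⟨P, hP⟩ : ∃ P : ℤ, P = a * p + p' := ⟨_, rfl⟩
  have hQR : (Q : ℝ) = a * q + q' := by rw [hQ]; push_cast; ring
  have hPR : (P : ℝ) = a * p + p' := by rw [hP]; push_cast; ring
  have hQq : q + q' ≤ Q := by
    rw [hQ]
    nlinarith
  have g1 : w * (Q * u + q) = P * u + p := by
    rw [hQR, hPR]
    linear_combination u * h1 - (w * q - p) * hut
  have g2 : w' * (Q * u' + q) = P * u' + p := by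
    rw [hQR, hPR]
    linear_combination u' * h2 - (w' * q - p) * hut'
  have g3 : |w * Q - P| ≤ 1 := by
    have e1 : u * (w * Q - P) = -(w * q - p) := by linear_combination g1
    have e2 : u * |w * Q - P| ≤ 1 := by
      rw [← abs_of_pos (by linarith : 0 < u), ← abs_mul, e1, abs_neg]
      exact h3
    nlinarith [abs_nonneg (w * Q - P)]
  have hdet' : (P * q - p * Q) ^ 2 = 1 := by
    rw [hP, hQ]
    linear_combination hdet
  have hqR : (1 : ℝ) ≤ q := by exact_mod_cast hq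
  have hq'R : (0 : ℝ) ≤ q' := by exact_mod_cast hq'
  have hqqR : (q' : ℝ) ≤ q := by exact_mod_cast hqq
  by_cases hQB : (Q : ℝ) ≤ B
  · right
    refine ⟨X1, k1, P, Q, hQq, ⟨hk10, ⟨k, by rw [hkk]; ring⟩, ?_, by omega, by omega, by omega,
      hQB, hdet', ?_, ?_, g3, h3⟩⟩
    · rw [← hr, ← hu]
      exact hu1
    · rw [← hr, ← hu]
      exact g1
    · rw [← hr, ← hu']
      exact g2
  · left
    push Not at hQB
    have hQ1 : (q : ℝ) + 1 ≤ Q := by
      have : q < Q := by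
        have : (q : ℝ) < Q := lt_of_le_of_lt hqB hQB
        exact_mod_cast this
      exact_mod_cast this
    obtain ⟨β, hβ⟩ : ∃ β : ℝ, β = P - w' * Q := ⟨_, rfl⟩
    obtain ⟨γ, hγ⟩ : ∃ γ : ℝ, γ = p - w' * q := ⟨_, rfl⟩
    have hww : 0 < w - w' := by
      by_contra hcon
      push Not at hcon
      nlinarith
    have hβ1 : 1 < β := by
      have e1 : (w - w') * B < (w - w') * Q := mul_lt_mul_of_pos_left hQB hww
      have e2 : w * Q - P ≤ 1 := (abs_le.1 g3).2
      rw [hβ]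
      linarith
    have e3 : u' * β = -γ := by
      rw [hβ, hγ]
      linear_combination -g2
    have e4 : β * q - γ * Q = P * q - p * Q := by
      rw [hβ, hγ]
      ring
    have e6 : β * q - 1 ≤ γ * Q ∧ γ * Q ≤ β * q + 1 := by
      rcases sq_eq_one_iff.1 hdet' with h | h
      · have h' : (P : ℝ) * q - p * Q = 1 := by exact_mod_cast h
        constructor <;> linarith
      · have h' : (P : ℝ) * q - p * Q = -1 := by exact_mod_cast h
        constructor <;> linarith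
    have hQ0 : (0 : ℝ) < Q := by linarith
    have e7 : 0 < γ := by
      by_contra hcon
      push Not at hcon
      have e8 : γ * Q ≤ 0 := mul_nonpos_of_nonpos_of_nonneg hcon hQ0.le
      have e9 : β * 1 ≤ β * q := mul_le_mul_of_nonneg_left hqR (by linarith)
      linarith [e6.1]
    have e8 : γ < β := by
      by_contra hcon
      push Not at hcon
      have e9 : β * Q ≤ γ * Q := mul_le_mul_of_nonneg_right hcon hQ0.le
      have e10 : β * (q + 1) ≤ β * Q := mul_le_mul_of_nonneg_left hQ1 (by linarith)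
      linarith [e6.2]
    have hu'0 : u' < 0 := by
      by_contra hcon
      push Not at hcon
      have := mul_nonneg hcon (by linarith : 0 ≤ β)
      linarith
    have hu'1 : -1 < u' := by
      by_contra hcon
      push Not at hcon
      have := mul_le_mul_of_nonneg_right hcon (by linarith : 0 ≤ β)
      linarith
    have hk1pos : 0 < k1 := by
      by_contra hcon
      push Not at hcon
      have hkn : (k1 : ℝ) < 0 := lt_of_le_of_ne (by exact_mod_cast hcon) hk1R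
      have e9 : (u - u') * k1 = 2 * r := by
        rw [hu, hu']
        field_simp
        ring
      have e10 : (u - u') * k1 < 0 := mul_neg_of_pos_of_neg (by linarith) hkn
      linarith
    have ht0 : 0 < t := by linarith
    have hqq0 : 0 < (q : ℝ) * t + q' := by
      have := mul_pos (by linarith : (0 : ℝ) < q) ht0
      linarith
    refine ⟨p, p', q, q', t⁻¹, X1, k1, ?_, ?_, hq, hq', hqq, hqB, hdet, inv_pos.2 ht0,
      inv_lt_one_of_one_lt₀ ht, ?_, ⟨hk1pos, ⟨k, by rw [hkk]; ring⟩, ?_, ?_, ?_⟩, ?_⟩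
    · have e9 := abs_le.1 h3
      have e10 : w * q ≤ 2 * B := mul_le_mul hw2.le hqB (by linarith) (by linarith)
      have e11 : 0 ≤ w * q := mul_nonneg hw0.le (by linarith)
      rw [abs_le]
      constructor <;> linarith
    · have e9 := abs_le.1 h4
      have e10 : w * q' ≤ 2 * B := mul_le_mul hw2.le (by linarith) hq'R (by linarith)
      have e11 : 0 ≤ w * q' := mul_nonneg hw0.le hq'R
      rw [abs_le]
      constructor <;> linarith
    · have e9 : (q : ℝ) + q' * t⁻¹ = (q * t + q') / t := by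
        field_simp
      have e10 : (p : ℝ) + p' * t⁻¹ = (p * t + p') / t := by
        field_simp
      rw [e9, e10, div_div_div_cancel_right₀ ht0.ne', eq_div_iff hqq0.ne']
      exact h1
    · rw [← hr, ← hu]
      exact hu1
    · rw [← hr, ← hu']
      exact hu'1
    · rw [← hr, ← hu']
      exact hu'0
    · rw [← hr, ← hu]
      unfold gm
      rw [inv_inv]
      have e9 : Int.fract t = t - a := by rw [ha]; rfl
      rw [e9]
      exact eq_inv_of_mul_eq_one_right hut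

private theorem pre_loop {n : ℕ} (hn : ¬ IsSquare n) {B w w' : ℝ} (hB : 1 ≤ B)
    (hω : 2 ≤ (w - w') * B) (hw0 : 0 < w) (hw2 : w < 2) :
    ∀ N : ℕ, ∀ X k p p' q q' : ℤ, PreSt n B w w' X k p p' q q' → 2 * B < q + q' + N →
      Pre n B w := by
  intro N
  induction N with
  | zero =>
    intro X k p p' q q' hs h5
    exfalso
    have h6 : (q' : ℝ) ≤ q := by exact_mod_cast hs.hqq
    have h7 := hs.hqB
    push_cast at h5
    linarith
  | succ N ih =>
    intro X k p p' q q' hs h5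
    rcases pre_step hn hB hω hw0 hw2 hs with h | ⟨X1, k1, P, Q, h6, h7⟩
    · exact h
    · refine ih X1 k1 P p Q q h7 ?_
      have h8 : (q : ℝ) + q' ≤ Q := by exact_mod_cast h6
      have h9 : (1 : ℝ) ≤ q := by exact_mod_cast hs.hq
      push_cast at h5
      linarith

theorem PRE_ok : S_PRE := by
  intro n hn B d y hB hd hy hyd hnd hdB hdvd
  have hr2 : √(n : ℝ) ^ 2 = n := Real.sq_sqrt (Nat.cast_nonneg n)
  have hn0 : 0 < (n : ℝ) := by
    rcases Nat.eq_zero_or_pos n with h | h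
    · exact absurd ⟨0, by simp [h]⟩ hn
    · exact_mod_cast h
  have hr0 : 0 < √(n : ℝ) := Real.sqrt_pos.2 hn0
  obtain ⟨r, hr⟩ : ∃ r : ℝ, r = √(n : ℝ) := ⟨_, rfl⟩
  rw [← hr] at hr2 hr0 hdB ⊢
  have hdR : (0 : ℝ) < d := by exact_mod_cast hd
  have hyR : (0 : ℝ) ≤ y := by exact_mod_cast hy
  have hydR : (y : ℝ) + 1 ≤ d := by exact_mod_cast hyd
  have hrd : r ≤ d := by
    by_contra hcon
    push Not at hcon
    nlinarith
  obtain ⟨w, hw⟩ : ∃ w : ℝ, w = ((y : ℝ) + r) / d := ⟨_, rfl⟩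
  obtain ⟨w', hw'⟩ : ∃ w' : ℝ, w' = ((y : ℝ) - r) / d := ⟨_, rfl⟩
  have hw0 : 0 < w := by
    rw [hw]
    positivity
  have hw2 : w < 2 := by
    rw [hw, div_lt_iff₀ hdR]
    linarith
  have hω : 2 ≤ (w - w') * B := by
    have e1 : (w - w') * B = 2 * (B * r) / d := by
      rw [hw, hw']
      ring
    rw [e1, le_div_iff₀ hdR]
    linarith
  rw [← hw]
  obtain ⟨l, hl⟩ := hdvd
  obtain ⟨a, ha⟩ : ∃ a : ℤ, a = ⌊w⌋ := ⟨_, rfl⟩
  obtain ⟨X, hX⟩ : ∃ X : ℤ, X = a * d - y := ⟨_, rfl⟩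
  obtain ⟨k, hk⟩ : ∃ k : ℤ, k = l + 2 * a * y - a ^ 2 * d := ⟨_, rfl⟩
  have hkk : (n : ℤ) - X ^ 2 = d * k := by
    rw [hX, hk]
    linear_combination hl
  have hk0 : k ≠ 0 := by
    intro h
    rw [h, mul_zero] at hkk
    exact pre_nsq hn X hkk
  have hkR : (k : ℝ) ≠ 0 := by exact_mod_cast hk0
  have hkkR : (n : ℝ) - (X : ℝ) ^ 2 = d * k := by exact_mod_cast hkk
  have hXR : (X : ℝ) = a * d - y := by rw [hX]; push_cast; ring
  obtain ⟨t, ht⟩ : ∃ t : ℝ, t = ((X : ℝ) + r) / k := ⟨_, rfl⟩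
  obtain ⟨t', ht'⟩ : ∃ t' : ℝ, t' = ((X : ℝ) - r) / k := ⟨_, rfl⟩
  have htw : t * (w - a) = 1 := by
    rw [ht, hw]
    have e1 : ((y : ℝ) + r) / d - a = (r - X) / d := by
      rw [hXR]
      field_simp
      ring
    rw [e1, div_mul_div_comm, div_eq_one_iff_eq (mul_ne_zero hkR hdR.ne')]
    linear_combination hkkR + hr2
  have htw' : t' * (w' - a) = 1 := by
    rw [ht', hw']
    have e1 : ((y : ℝ) - r) / d - a = (-r - X) / d := by
      rw [hXR]
      field_simp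
      ring
    rw [e1, div_mul_div_comm, div_eq_one_iff_eq (mul_ne_zero hkR hdR.ne')]
    linear_combination hkkR + hr2
  have hwa0 : 0 ≤ w - a := by
    rw [ha]
    linarith [Int.floor_le w]
  have hwa1 : w - a < 1 := by
    rw [ha]
    linarith [Int.lt_floor_add_one w]
  have hwa0' : 0 < w - a := lt_of_le_of_ne hwa0 (by
    intro h
    rw [← h, mul_zero] at htw
    exact zero_ne_one htw)
  have ht1 : 1 < t := by
    have : t = 1 / (w - a) := by
      field_simp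
      exact htw
    rw [this, lt_div_iff₀ hwa0']
    linarith
  refine pre_loop hn hB hω hw0 hw2 (⌊2 * B⌋₊ + 1) X k a 1 1 0 ⟨hk0, ⟨d, by rw [hkk]; ring⟩, ?_,
    le_rfl, le_rfl, by norm_num, by simpa using hB, by norm_num, ?_, ?_, ?_, by simp⟩ ?_
  · rw [← hr, ← ht]
    exact ht1
  · rw [← hr, ← ht]
    push_cast
    linear_combination htw
  · rw [← hr, ← ht']
    push_cast
    linear_combination htw'
  · rw [abs_le]
    push_cast
    constructor <;> linarith
  · push_cast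
    linarith [Nat.lt_floor_add_one (2 * B)]

end Pool.Agent.H843R2.KZ
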