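import Pool.Agent.H843R2.KZ.Stubs

set_option autoImplicit false

namespace Pool.Agent.H843R2.KZ

theorem PSFIN_ok : S_PSFIN := by
  intro n D H S
  obtain ⟨M, hM⟩ : ∃ M : ℤ, M = |4 * (n : ℤ) - S| * (H : ℤ) ^ 2 + |S| * (D : ℤ) ^ 2 := ⟨_, rfl⟩
  refine Set.Finite.subset ((Set.finite_Icc (-(H : ℤ)) H).prod
    ((Set.finite_Icc (1 : ℤ) D).prod (Set.finite_Icc (-M) M))) ?_
  rintro ⟨a, b, e⟩ ⟨h1, h2, h3, -, h5⟩
  simp only at h1 h2 h3 h5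
  have ha := abs_le.1 h1
  have hb : 0 ≤ b := by linarith
  have hH : (0 : ℤ) ≤ H := Int.natCast_nonneg H
  have a2 : a ^ 2 ≤ (H : ℤ) ^ 2 := by nlinarith
  have b2 : b ^ 2 ≤ (D : ℤ) ^ 2 := by nlinarith
  have e2 : e ^ 2 ≤ M := by
    rw [h5, hM]
    have h6 : (4 * (n : ℤ) - S) * a ^ 2 ≤ |4 * (n : ℤ) - S| * (H : ℤ) ^ 2 :=
      mul_le_mul (le_abs_self _) a2 (sq_nonneg _) (abs_nonneg _)
    have h7 : S * b ^ 2 ≤ |S| * (D : ℤ) ^ 2 :=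
      mul_le_mul (le_abs_self _) b2 (sq_nonneg _) (abs_nonneg _)
    linarith
  have e3 : |e| ≤ M := by
    have h8 : |e| ≤ e ^ 2 := by
      rw [← sq_abs]
      rcases eq_or_ne e 0 with h | h
      · rw [h]; norm_num
      · have : 1 ≤ |e| := Int.one_le_abs h
        nlinarith
    linarith
  have he := abs_le.1 e3
  exact ⟨⟨ha.1, ha.2⟩, ⟨h2, h3⟩, ⟨he.1, he.2⟩⟩

end Pool.Agent.H843R2.KZ
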