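import Pool.Agent.H843R2.KZ.Stubs
import Pool.Agent.H38R2.CG.PV

set_option autoImplicit false

namespace Pool.Agent.H843R2.KZ

open Finset

theorem PV_ok : S_PV := by
  intro q χ hq hχ a b
  have hq1 : (1:ℝ) ≤ q := by
    have : 1 ≤ q := by omega
    exact_mod_cast this
  have hlog : 0 ≤ Real.log q := Real.log_nonneg hq1
  have hB : 0 ≤ 4 * √(q : ℝ) * (1 + Real.log q) := by positivity
  rcases le_total a b with hab | hab
  · have h1 := Pool.Agent.H38R2.CG.PVh.sum_le q χ hq hχ a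
    have h2 := Pool.Agent.H38R2.CG.PVh.sum_le q χ hq hχ b
    have h3 : ∑ e ∈ Ioc a b, χ (e : ZMod q) =
        ∑ n ∈ Icc 1 b, χ (n : ZMod q) - ∑ n ∈ Icc 1 a, χ (n : ZMod q) := by
      rw [eq_sub_iff_add_eq]
      have h4 : ∀ c : ℕ, Icc 1 c = Ioc 0 c := by
        intro c
        ext x
        simp only [mem_Icc, mem_Ioc]
        omega
      rw [h4, h4, add_comm, Finset.sum_Ioc_consecutive _ (Nat.zero_le a) hab]
    rw [h3]
    have h5 := norm_sub_le (∑ n ∈ Icc 1 b, χ (n : ZMod q)) (∑ n ∈ Icc 1 a, χ (n : ZMod q))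
    linarith
  · rw [Finset.Ioc_eq_empty (by omega), Finset.sum_empty, norm_zero]
    linarith

end Pool.Agent.H843R2.KZ
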