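import Pool.Agent.H843R2.KZ.Stubs
import Pool.Agent.Helper919.NonRes

set_option autoImplicit false

namespace Pool.Agent.H843R2.KZ

private theorem QCH_odd {n : ℕ} [NeZero (4 * n)] {a : ZMod (4 * n)} (ha : IsUnit a) : Odd a.val := by
  have h := (ZMod.isUnit_iff_coprime a.val (4 * n)).mp (by rwa [ZMod.natCast_zmod_val])
  have h2 : Nat.Coprime a.val 4 := Nat.Coprime.coprime_mul_right_right h
  have h3 : Nat.Coprime a.val 2 := Nat.Coprime.coprime_dvd_right (by norm_num) h2
  exact (Nat.coprime_two_right.mp h3)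

private theorem QCH_mod {n : ℕ} (a : ℕ) (ha : Odd a) :
    jacobiSym (n : ℤ) (a % (4 * n)) = jacobiSym (n : ℤ) a :=
  (jacobiSym.mod_right' n ha).symm

open Classical in
private noncomputable def QCH_char (n : ℕ) (hn : 2 ≤ n) [NeZero (4 * n)] :
    DirichletCharacter ℂ (4 * n) where
  toFun a := if IsUnit a then ((jacobiSym (n : ℤ) a.val : ℤ) : ℂ) else 0
  map_one' := by
    have h : (1 : ZMod (4 * n)).val = 1 := by
      rw [ZMod.val_one_eq_one_mod]
      exact Nat.mod_eq_of_lt (by omega)
    rw [if_pos isUnit_one, h, jacobiSym.one_right]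
    norm_num
  map_mul' a b := by
    by_cases ha : IsUnit a
    · by_cases hb : IsUnit b
      · have hab : IsUnit (a * b) := ha.mul hb
        rw [if_pos ha, if_pos hb, if_pos hab, ZMod.val_mul]
        have h1 := QCH_odd ha
        have h2 := QCH_odd hb
        rw [QCH_mod _ (h1.mul h2), jacobiSym.mul_right' _ (Nat.ne_of_odd_add (by simpa using h1))
          (Nat.ne_of_odd_add (by simpa using h2))]
        push_cast
        rfl
      · have hab : ¬ IsUnit (a * b) := fun h => hb (isUnit_of_mul_isUnit_right h)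
        rw [if_neg hb, if_neg hab, mul_zero]
    · have hab : ¬ IsUnit (a * b) := fun h => ha (isUnit_of_mul_isUnit_left h)
      rw [if_neg ha, if_neg hab, zero_mul]
  map_nonunit' a ha := if_neg ha

private theorem QCH_apply (n : ℕ) (hn : 2 ≤ n) [NeZero (4 * n)] (m : ℕ) (hm : Odd m) :
    QCH_char n hn (m : ZMod (4 * n)) = ((jacobiSym n m : ℤ) : ℂ) := by
  classical
  have h0 : QCH_char n hn (m : ZMod (4 * n)) = if IsUnit (m : ZMod (4 * n)) then
    ((jacobiSym (n : ℤ) (m : ZMod (4 * n)).val : ℤ) : ℂ) else 0 := rfl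
  rw [h0]
  split_ifs with h
  · rw [ZMod.val_natCast, QCH_mod _ hm]
  · have h1 : ¬ Nat.Coprime m (4 * n) := fun hc => h ((ZMod.isUnit_iff_coprime m (4 * n)).mpr hc)
    have h2 : jacobiSym (n : ℤ) m = 0 := by
      have hm0 : NeZero m := ⟨fun h0 => by rw [h0] at hm; exact absurd hm (by decide)⟩
      rw [jacobiSym.eq_zero_iff_not_coprime, Int.gcd_natCast_natCast]
      intro hg
      apply h1
      have h4 : Nat.Coprime m 4 := by
        have := Nat.coprime_two_right.mpr hm
        exact Nat.Coprime.pow_right 2 this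
      have h5 : Nat.Coprime m n := (Nat.coprime_iff_gcd_eq_one.mpr hg).symm
      exact Nat.Coprime.mul_right h4 h5
    rw [h2]; norm_num

theorem QCH_ok : S_QCH := by
  intro n hn hsq
  have hNZ : NeZero (4 * n) := ⟨by omega⟩
  refine ⟨QCH_char n hn, ?_, ?_, fun m hm => QCH_apply n hn m hm⟩
  · intro h
    obtain ⟨d, hd, hJ⟩ := Pool.Agent.Helper919.exists_jacobi_neg_one (n : ℤ) (by
      rintro ⟨r, hr⟩
      apply hsq
      refine ⟨r.natAbs, ?_⟩
      have := congrArg Int.natAbs hr
      rwa [Int.natAbs_natCast, Int.natAbs_mul] at this)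
    have h1 := QCH_apply n hn d hd
    rw [h, hJ] at h1
    by_cases hu : IsUnit (d : ZMod (4 * n))
    · rw [MulChar.one_apply hu] at h1
      norm_num at h1
    · rw [MulChar.map_nonunit _ hu] at h1
      norm_num at h1
  · apply MulChar.ext
    intro u
    have hu : IsUnit (u : ZMod (4 * n)) := u.isUnit
    have ho := QCH_odd hu
    have h1 := QCH_apply n hn (u : ZMod (4 * n)).val ho
    rw [ZMod.natCast_zmod_val] at h1
    rw [MulChar.one_apply_coe, MulChar.pow_apply_coe, h1]
    have h2 : (jacobiSym (n : ℤ) (u : ZMod (4 * n)).val) ^ 2 = 1 := by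
      apply jacobiSym.sq_one
      have h3 := (ZMod.isUnit_iff_coprime (u : ZMod (4 * n)).val (4 * n)).mp
        (by rwa [ZMod.natCast_zmod_val])
      have h4 : Nat.Coprime (u : ZMod (4 * n)).val n := Nat.Coprime.coprime_mul_left_right h3
      rw [Int.gcd_natCast_natCast]
      exact h4.symm
    exact_mod_cast h2

end Pool.Agent.H843R2.KZ
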