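import Pool.Agent.H843R2.KZ.Stubs

set_option autoImplicit false

namespace Pool.Agent.H843R2.KZ

open Finset

namespace RECx

theorem gm_facts {s : ℝ} (h0 : 0 < s) (h1 : s < 1) (hi : Irrational s) :
    0 < gm s ∧ gm s < 1 ∧ Irrational (gm s) ∧ 1 ≤ ⌊s⁻¹⌋ ∧ s⁻¹ = ⌊s⁻¹⌋ + gm s := by
  have hinv : Irrational s⁻¹ := hi.inv
  have h2 : 1 < s⁻¹ := (one_lt_inv₀ h0).2 h1
  have h3 : s⁻¹ = ⌊s⁻¹⌋ + gm s := by
    unfold gm
    exact (Int.floor_add_fract _).symm
  have h4 : Irrational (gm s) := by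
    have h5 : gm s = s⁻¹ - (⌊s⁻¹⌋ : ℤ) := by linarith
    rw [h5]
    exact hinv.sub_intCast _
  refine ⟨?_, Int.fract_lt_one _, h4, ?_, h3⟩
  · have h5 : 0 ≤ gm s := Int.fract_nonneg _
    rcases h5.lt_or_eq with h6 | h6
    · exact h6
    · exfalso
      rw [← h6] at h4
      exact not_irrational_zero h4
  · exact Int.le_floor.2 (by exact_mod_cast h2.le)

/-- the branch map -/
noncomputable def phi (a b : ℕ) (x : ℝ) : ℝ := ((b : ℝ) + x) / (2 * a * (b + x) + 1)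

theorem phi_diff (a b : ℕ) (x y : ℝ) (hx : 0 ≤ x) (hxy : x ≤ y) (L : ℝ) (hL : y - x ≤ L) :
    phi a b x ≤ phi a b y ∧ phi a b y - phi a b x ≤ L / ((2 * a * b + 1 : ℕ) : ℝ) ^ 2 := by
  have hy : 0 ≤ y := hx.trans hxy
  have ha : (0 : ℝ) ≤ a := Nat.cast_nonneg a
  have hb : (0 : ℝ) ≤ b := Nat.cast_nonneg b
  have hdx : (0 : ℝ) < 2 * a * (b + x) + 1 := by positivity
  have hdy : (0 : ℝ) < 2 * a * (b + y) + 1 := by positivity
  have h1 : phi a b y - phi a b x =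
      (y - x) / ((2 * a * (b + y) + 1) * (2 * a * (b + x) + 1)) := by
    unfold phi
    field_simp
    ring
  have h2 : 0 ≤ (y - x) / ((2 * a * (b + y) + 1) * (2 * a * (b + x) + 1)) :=
    div_nonneg (by linarith) (by positivity)
  refine ⟨by linarith, ?_⟩
  rw [h1]
  have h3 : (((2 * a * b + 1 : ℕ) : ℝ)) = 2 * a * b + 1 := by push_cast; ring
  rw [h3]
  have hd0 : (0 : ℝ) < 2 * a * b + 1 := by positivity
  have h4 : ((2 : ℝ) * a * b + 1) ^ 2 ≤ (2 * a * (b + y) + 1) * (2 * a * (b + x) + 1) := by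
    rw [sq]
    apply mul_le_mul
    · have : 0 ≤ 2 * (a : ℝ) * y := by positivity
      nlinarith
    · have : 0 ≤ 2 * (a : ℝ) * x := by positivity
      nlinarith
    · positivity
    · positivity
  have hL0 : 0 ≤ L := by linarith
  exact div_le_div₀ hL0 hL (by positivity) h4

theorem phi_eq (a b : ℕ) (s g : ℝ) (hb : 0 < (b : ℝ) + g)
    (h : s⁻¹ = 2 * a + ((b : ℝ) + g)⁻¹) : s = phi a b g := by
  have h7 : s = (s⁻¹)⁻¹ := (inv_inv s).symm
  rw [h7, h]
  unfold phi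
  have h0 : (0 : ℝ) < 2 * a * (b + g) + 1 := by positivity
  field_simp

/-- decomposition of an element of `Ev 0` -/
theorem decomp {s : ℝ} (hs : s ∈ Ev 0) : ∃ a b : ℕ, ∃ g ∈ Ev 0, 1 ≤ a ∧ 1 ≤ b ∧
    0 < g ∧ g < 1 ∧ s = phi a b g ∧ s⁻¹ = 2 * a + ((b : ℝ) + g)⁻¹ := by
  obtain ⟨h0, h1, hi, hd⟩ := hs
  obtain ⟨g0, g1, gi, gf, ge⟩ := gm_facts h0 h1 hi
  obtain ⟨k0, k1, ki, kf, ke⟩ := gm_facts g0 g1 gi
  have hd0 : Even (dig s 0) := hd 0 rfl
  have hd0' : dig s 0 = ⌊s⁻¹⌋ := rfl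
  obtain ⟨c, hc⟩ := hd0
  rw [hd0'] at hc
  have hc1 : 1 ≤ c := by omega
  refine ⟨c.toNat, (⌊(gm s)⁻¹⌋).toNat, gm (gm s), ⟨k0, k1, ki, ?_⟩, by omega, by omega,
    k0, k1, ?_⟩
  · intro i hi2
    have h5 : dig (gm (gm s)) i = dig s (i + 2) := rfl
    rw [h5]
    exact hd (i + 2) (by omega)
  · have hca : ((c.toNat : ℕ) : ℝ) = (c : ℝ) := by
      have : ((c.toNat : ℤ)) = c := Int.toNat_of_nonneg (by omega)
      exact_mod_cast congrArg (fun z : ℤ => (z : ℝ)) this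
    have hcb : (((⌊(gm s)⁻¹⌋).toNat : ℕ) : ℝ) = (⌊(gm s)⁻¹⌋ : ℝ) := by
      have : (((⌊(gm s)⁻¹⌋).toNat : ℤ)) = ⌊(gm s)⁻¹⌋ := Int.toNat_of_nonneg (by omega)
      exact_mod_cast congrArg (fun z : ℤ => (z : ℝ)) this
    have hg : gm s = ((⌊(gm s)⁻¹⌋ : ℝ) + gm (gm s))⁻¹ := by
      rw [← ke, inv_inv]
    have hs1 : s⁻¹ = 2 * (c : ℝ) + ((⌊(gm s)⁻¹⌋ : ℝ) + gm (gm s))⁻¹ := by
      rw [← hg]
      have h6 : (⌊s⁻¹⌋ : ℝ) = 2 * (c : ℝ) := by
        rw [hc]; push_cast; ring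
      linarith
    have hs2 : s⁻¹ = 2 * ((c.toNat : ℕ) : ℝ) +
        ((((⌊(gm s)⁻¹⌋).toNat : ℕ) : ℝ) + gm (gm s))⁻¹ := by
      rw [hca, hcb]
      exact hs1
    have hpos : 0 < (((⌊(gm s)⁻¹⌋).toNat : ℕ) : ℝ) + gm (gm s) := by positivity
    exact ⟨phi_eq _ _ _ _ hpos hs2, hs2⟩

end RECx

open RECx in
theorem REC_ok : S_REC := by
  classical
  intro δ hδ hδ1 T hT N hN
  set r : ℝ := δ ^ (-(1 / 2) : ℝ) with hr
  have hr0 : 0 < r := Real.rpow_pos_of_pos hδ _
  have hr2 : r ^ 2 * δ = 1 := by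
    rw [hr, ← Real.rpow_natCast, ← Real.rpow_mul hδ.le]
    norm_num
    rw [Real.rpow_neg_one]
    exact inv_mul_cancel₀ hδ.ne'
  have hr1 : 1 < r := by
    by_contra h
    rw [not_lt] at h
    have h1 : r ^ 2 ≤ 1 := by nlinarith
    nlinarith
  have hlog : Real.log r = 1 / 2 * Real.log (1 / δ) := by
    rw [hr, Real.log_rpow hδ, one_div δ, Real.log_inv]
    ring
  -- the coverings
  have hG : ∀ ab : ℕ × ℕ, ∃ F : Finset ℝ, ab ∈ T → ((F.card : ℝ) ≤ N ab ∧ ∀ a ∈ Ev 0,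
      ∃ f ∈ F, f ≤ a ∧ a ≤ f + ((2 * ab.1 * ab.2 + 1 : ℕ) : ℝ) ^ 2 * δ) := by
    intro ab
    by_cases h : ab ∈ T
    · obtain ⟨F, h1, h2⟩ := hN ab h
      exact ⟨F, fun _ => ⟨h1, h2⟩⟩
    · exact ⟨∅, fun h' => absurd h' h⟩
  choose G hG using hG
  set F1 : Finset ℝ := T.biUnion fun ab => (G ab).image fun f => phi ab.1 ab.2 (max f 0) with hF1
  set F2 : Finset ℝ := (range (⌊r⌋₊ + 1)).image fun k : ℕ => (k : ℝ) * δ with hF2
  set F3 : Finset ℝ := (Icc 1 ⌊r⌋₊).biUnion fun a =>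
    (range (⌊r / (2 * a)⌋₊ + 1)).image fun k : ℕ => 1 / (2 * (a : ℝ)) * ((r - 1) / r) + (k : ℝ) * δ
    with hF3
  refine ⟨F1 ∪ F2 ∪ F3, ?_, ?_⟩
  · -- cardinality
    have c1 : (F1.card : ℝ) ≤ ∑ ab ∈ T, N ab := by
      have h1 : F1.card ≤ ∑ ab ∈ T, (G ab).card := by
        refine le_trans card_biUnion_le (sum_le_sum fun ab _ => card_image_le)
      calc (F1.card : ℝ) ≤ ((∑ ab ∈ T, (G ab).card : ℕ) : ℝ) := by exact_mod_cast h1
        _ = ∑ ab ∈ T, ((G ab).card : ℝ) := by push_cast; rfl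
        _ ≤ ∑ ab ∈ T, N ab := sum_le_sum fun ab hab => (hG ab hab).1
    have hfl : (⌊r⌋₊ : ℝ) ≤ r := Nat.floor_le hr0.le
    have hfl1 : 1 ≤ ⌊r⌋₊ := Nat.le_floor (by exact_mod_cast hr1.le)
    have c2 : (F2.card : ℝ) ≤ r + 1 := by
      have h1 : F2.card ≤ ⌊r⌋₊ + 1 := le_trans card_image_le (by rw [card_range])
      calc (F2.card : ℝ) ≤ ((⌊r⌋₊ + 1 : ℕ) : ℝ) := by exact_mod_cast h1
        _ ≤ r + 1 := by push_cast; linarith
    have c3 : (F3.card : ℝ) ≤ r / 2 * (1 + Real.log r) + r := by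
      have h1 : F3.card ≤ ∑ a ∈ Icc 1 ⌊r⌋₊, (⌊r / (2 * a)⌋₊ + 1) := by
        refine le_trans card_biUnion_le (sum_le_sum fun a _ => ?_)
        exact le_trans card_image_le (by rw [card_range])
      have h2 : ((∑ a ∈ Icc 1 ⌊r⌋₊, (⌊r / (2 * a)⌋₊ + 1) : ℕ) : ℝ) ≤
          ∑ a ∈ Icc 1 ⌊r⌋₊, (r / 2 * (a : ℝ)⁻¹ + 1) := by
        push_cast
        refine sum_le_sum fun a ha => ?_
        have ha1 : 1 ≤ a := (mem_Icc.1 ha).1
        have ha0 : (0 : ℝ) < a := by exact_mod_cast ha1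
        have h3 : ((⌊r / (2 * (a : ℝ))⌋₊ : ℕ) : ℝ) ≤ r / (2 * a) := Nat.floor_le (by positivity)
        have h4 : r / (2 * (a : ℝ)) = r / 2 * (a : ℝ)⁻¹ := by
          field_simp
        rw [← h4]
        linarith
      have h3 : ∑ a ∈ Icc 1 ⌊r⌋₊, (r / 2 * (a : ℝ)⁻¹ + 1) =
          r / 2 * ∑ a ∈ Icc 1 ⌊r⌋₊, (a : ℝ)⁻¹ + ⌊r⌋₊ := by
        rw [sum_add_distrib, ← mul_sum]
        simp
      have h4 : ∑ a ∈ Icc 1 ⌊r⌋₊, (a : ℝ)⁻¹ ≤ 1 + Real.log r := by
        have h5 := harmonic_le_one_add_log ⌊r⌋₊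
        have h6 : ((harmonic ⌊r⌋₊ : ℚ) : ℝ) = ∑ a ∈ Icc 1 ⌊r⌋₊, (a : ℝ)⁻¹ := by
          rw [harmonic_eq_sum_Icc]
          push_cast
          rfl
        rw [h6] at h5
        have h7 : Real.log (⌊r⌋₊ : ℝ) ≤ Real.log r :=
          Real.log_le_log (by exact_mod_cast hfl1) hfl
        linarith
      calc (F3.card : ℝ) ≤ ((∑ a ∈ Icc 1 ⌊r⌋₊, (⌊r / (2 * a)⌋₊ + 1) : ℕ) : ℝ) := by
            exact_mod_cast h1
        _ ≤ r / 2 * ∑ a ∈ Icc 1 ⌊r⌋₊, (a : ℝ)⁻¹ + ⌊r⌋₊ := h2.trans h3.le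
        _ ≤ r / 2 * (1 + Real.log r) + r := by
            refine add_le_add (mul_le_mul_of_nonneg_left h4 (by positivity)) hfl
    have hcard : ((F1 ∪ F2 ∪ F3).card : ℝ) ≤ (F1.card : ℝ) + F2.card + F3.card := by
      have h1 := card_union_le (F1 ∪ F2) F3
      have h2 := card_union_le F1 F2
      have : (F1 ∪ F2 ∪ F3).card ≤ F1.card + F2.card + F3.card := by omega
      exact_mod_cast this
    have hlog0 : 0 ≤ Real.log (1 / δ) := Real.log_nonneg (by
      rw [le_div_iff₀ hδ]; linarith)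
    rw [hlog] at c3
    have h8 : 0 ≤ r * Real.log (1 / δ) := by positivity
    nlinarith
  · intro s hs
    obtain ⟨a, b, g, hg, ha, hb, hg0, hg1, hsphi, hsinv⟩ := decomp hs
    have ha0 : (0 : ℝ) < a := by exact_mod_cast ha
    have hb0 : (0 : ℝ) < b := by exact_mod_cast hb
    have hs0 : 0 < s := hs.1
    have hs2a : s < 1 / (2 * a) := by
      have h1 : 2 * (a : ℝ) < s⁻¹ := by
        rw [hsinv]
        have : 0 < ((b : ℝ) + g)⁻¹ := by positivity
        linarith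
      rw [lt_div_iff₀ (by positivity)]
      have h2 : s * (2 * a) < s * s⁻¹ := mul_lt_mul_of_pos_left h1 hs0
      rwa [mul_inv_cancel₀ hs0.ne'] at h2
    by_cases hab : (a, b) ∈ T
    · obtain ⟨f, hf, hf1, hf2⟩ := (hG (a, b) hab).2 g hg
      refine ⟨phi a b (max f 0), ?_, ?_⟩
      · rw [mem_union, mem_union]
        left; left
        rw [hF1, mem_biUnion]
        exact ⟨(a, b), hab, mem_image.2 ⟨f, hf, rfl⟩⟩
      · have h1 := phi_diff a b (max f 0) g (le_max_right _ _) (max_le hf1 hg0.le)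
          (((2 * a * b + 1 : ℕ) : ℝ) ^ 2 * δ) (by
            have : f ≤ max f 0 := le_max_left _ _
            have h2 : g ≤ f + ((2 * a * b + 1 : ℕ) : ℝ) ^ 2 * δ := hf2
            linarith)
        have h3 : (((2 * a * b + 1 : ℕ) : ℝ) ^ 2 * δ) / ((2 * a * b + 1 : ℕ) : ℝ) ^ 2 = δ := by
          have : (((2 * a * b + 1 : ℕ) : ℝ)) ≠ 0 := by positivity
          field_simp
        rw [h3] at h1
        rw [hsphi]
        exact ⟨h1.1, by linarith [h1.2]⟩
    · by_cases h2a : r < 2 * a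
      · -- small s
        have h1 : s < r * δ := by
          have h3 : 1 / (2 * (a : ℝ)) < 1 / r := one_div_lt_one_div_of_lt hr0 h2a
          have h4 : 1 / r = r * δ := by
            rw [div_eq_iff hr0.ne']
            nlinarith
          linarith
        refine ⟨(⌊s / δ⌋₊ : ℝ) * δ, ?_, ?_, ?_⟩
        · rw [mem_union, mem_union]
          left; right
          rw [hF2, mem_image]
          refine ⟨⌊s / δ⌋₊, ?_, rfl⟩
          rw [mem_range, Nat.lt_succ_iff]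
          refine Nat.floor_le_floor ?_
          rw [div_le_iff₀ hδ]
          exact h1.le
        · have := Nat.floor_le (show 0 ≤ s / δ by positivity)
          rwa [le_div_iff₀ hδ] at this
        · have := (Nat.lt_floor_add_one (s / δ)).le
          rw [div_le_iff₀ hδ] at this
          linarith
      · rw [not_lt] at h2a
        -- large b
        have h3 : 1 < ((2 * a * b + 1 : ℕ) : ℝ) ^ 2 * δ := by
          by_contra h
          rw [not_lt] at h
          exact hab ((hT (a, b)).2 ⟨ha, hb, h⟩)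
        have h4 : r < 2 * a * b + 1 := by
          by_contra h
          rw [not_lt] at h
          have h5 : (((2 * a * b + 1 : ℕ) : ℝ)) = 2 * a * b + 1 := by push_cast; ring
          rw [h5] at h3
          have h6 : (2 * (a : ℝ) * b + 1) ^ 2 ≤ r ^ 2 := pow_le_pow_left₀ (by positivity) h 2
          have h7 : (2 * (a : ℝ) * b + 1) ^ 2 * δ ≤ r ^ 2 * δ :=
            mul_le_mul_of_nonneg_right h6 hδ.le
          linarith
        have hr10 : 0 < r - 1 := by linarith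
        -- lower bound for s
        have h5 : 1 / (2 * (a : ℝ)) * ((r - 1) / r) ≤ s := by
          have h6 : s⁻¹ ≤ 2 * a * (r / (r - 1)) := by
            rw [hsinv]
            have h7 : ((b : ℝ) + g)⁻¹ ≤ (b : ℝ)⁻¹ := inv_anti₀ hb0 (by linarith)
            have h8 : (b : ℝ)⁻¹ ≤ 2 * a / (r - 1) := by
              rw [inv_eq_one_div, div_le_div_iff₀ hb0 hr10]
              linarith
            have h9 : 2 * (a : ℝ) * (r / (r - 1)) = 2 * a + 2 * a / (r - 1) := by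
              field_simp
              ring
            linarith
          have h10 : 0 < 2 * (a : ℝ) * (r / (r - 1)) := by positivity
          have h11 : (2 * (a : ℝ) * (r / (r - 1)))⁻¹ ≤ (s⁻¹)⁻¹ := inv_anti₀ (by positivity) h6
          rw [inv_inv] at h11
          have h12 : (2 * (a : ℝ) * (r / (r - 1)))⁻¹ = 1 / (2 * (a : ℝ)) * ((r - 1) / r) := by
            field_simp
          rwa [h12] at h11
        set lo : ℝ := 1 / (2 * (a : ℝ)) * ((r - 1) / r) with hlo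
        have h6 : s - lo ≤ r / (2 * a) * δ := by
          have h7 : 1 / (2 * (a : ℝ)) - lo = r / (2 * a) * δ := by
            have h8 : r / (2 * (a : ℝ)) * δ = 1 / (2 * a) * (1 / r) := by
              have h9 : 1 / r = r * δ := by
                rw [div_eq_iff hr0.ne']
                nlinarith
              rw [h9]
              ring
            rw [h8, hlo]
            field_simp
            ring
          linarith
        refine ⟨lo + (⌊(s - lo) / δ⌋₊ : ℝ) * δ, ?_, ?_, ?_⟩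
        · rw [mem_union]
          right
          rw [hF3, mem_biUnion]
          refine ⟨a, ?_, ?_⟩
          · rw [mem_Icc]
            refine ⟨ha, Nat.le_floor ?_⟩
            linarith
          · rw [mem_image]
            refine ⟨⌊(s - lo) / δ⌋₊, ?_, rfl⟩
            rw [mem_range, Nat.lt_succ_iff]
            refine Nat.floor_le_floor ?_
            rw [div_le_iff₀ hδ]
            exact h6
        · have h7 : 0 ≤ (s - lo) / δ := div_nonneg (by linarith) hδ.le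
          have := Nat.floor_le h7
          rw [le_div_iff₀ hδ] at this
          linarith
        · have := (Nat.lt_floor_add_one ((s - lo) / δ)).le
          rw [div_le_iff₀ hδ] at this
          linarith

end Pool.Agent.H843R2.KZ
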