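import Pool.Agent.H843R2.KZ.Stubs

set_option autoImplicit false

namespace Pool.Agent.H843R2.KZ

theorem RED_ok : S_RED := by
  intro n _ hRep x k ⟨hk, hdvd, h1, h2, h3⟩
  by_contra hpar
  apply hRep
  obtain ⟨l, hl⟩ := hdvd
  have hkR : (0 : ℝ) < k := by exact_mod_cast hk
  set s := √(n : ℝ) with hs
  have hs2 : s ^ 2 = n := Real.sq_sqrt (Nat.cast_nonneg n)
  have hs0 : 0 ≤ s := Real.sqrt_nonneg _
  have a1 : (k : ℝ) < x + s := by rwa [lt_div_iff₀ hkR, one_mul] at h1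
  have a2 : -(k : ℝ) < x - s := by
    rw [lt_div_iff₀ hkR] at h2
    linarith
  have a3 : (x : ℝ) - s < 0 := by
    have := (div_lt_iff₀ hkR).1 h3
    linarith
  have hlR : (n : ℝ) - (x : ℝ) ^ 2 = k * l := by exact_mod_cast hl
  have hx0 : (0 : ℝ) < x := by linarith
  have hx2 : (x : ℝ) ^ 2 < n := by nlinarith
  have hl0 : (0 : ℝ) < l := by
    by_contra hc
    push Not at hc
    nlinarith [mul_nonneg hkR.le (neg_nonneg.2 hc)]
  have b : ((k : ℝ) + l) < 2 * s := by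
    have h4 : 0 < ((x : ℝ) - (k - s)) * (x + (k - s)) := mul_pos (by linarith) (by linarith)
    have h5 : (k : ℝ) * (k + l) < k * (2 * s) := by nlinarith
    exact lt_of_mul_lt_mul_left h5 hkR.le
  have c : (k + l) ^ 2 < 4 * (n : ℤ) := by
    have : ((k : ℝ) + l) ^ 2 < 4 * n := by nlinarith
    exact_mod_cast this
  have hx2' : x ^ 2 < (n : ℤ) := by exact_mod_cast hx2
  have hlpos : 0 < l := by exact_mod_cast hl0
  have hp : ¬ Even (x - (n : ℤ)) := by
    rw [Int.even_iff]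
    exact hpar
  rw [Int.even_sub] at hp
  have hodd : Odd ((n : ℤ) - x ^ 2) := by
    rw [← Int.not_even_iff_odd, Int.even_sub, Int.even_pow' two_ne_zero]
    tauto
  rw [hl, Int.odd_mul] at hodd
  obtain ⟨⟨a, ha⟩, ⟨b', hb⟩⟩ := hodd
  have hkl : 0 < k * l := mul_pos hk hlpos
  refine ⟨x, a + b' + 1, a - b', ?_, hx2'.le, ?_, ?_⟩
  · rw [ha, hb] at hl
    linear_combination hl
  · rw [ha, hb] at c
    nlinarith
  · rw [ha, hb] at c hkl
    nlinarith

end Pool.Agent.H843R2.KZ
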