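import Pool.Agent.H843R2.KZ.Stubs

set_option autoImplicit false

namespace Pool.Agent.H843R2.KZ

open Finset

/-- one root and the gcd: cofactor divides the sum -/
private theorem RHD_cof (N : ℕ) (h c : ℤ) (hN : 1 ≤ N) (hh : IsCoprime h (N : ℤ))
    (r0 r1 : ℤ) (e0 : (N : ℤ) ∣ h * r0 ^ 2 - c) (e1 : (N : ℤ) ∣ h * r1 ^ 2 - c) :
    ∃ N' : ℤ, (N : ℤ) = (Int.gcd N (r1 - r0) : ℤ) * N' ∧ N' ∣ r1 + r0 := by
  set g : ℕ := Int.gcd (N : ℤ) (r1 - r0) with hgdef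
  have hN0 : (N : ℤ) ≠ 0 := by exact_mod_cast (by omega : N ≠ 0)
  have hg0 : 0 < g := Int.gcd_pos_of_ne_zero_left _ hN0
  obtain ⟨N', hN'⟩ : (g : ℤ) ∣ N := Int.gcd_dvd_left _ _
  obtain ⟨s, hs⟩ : (g : ℤ) ∣ (r1 - r0) := Int.gcd_dvd_right _ _
  refine ⟨N', hN', ?_⟩
  have hg0' : (g : ℤ) ≠ 0 := by exact_mod_cast hg0.ne'
  have hcop : IsCoprime N' s := by
    rw [Int.isCoprime_iff_gcd_eq_one]
    have h1 : Int.gcd ((g : ℤ) * N') ((g : ℤ) * s) = g := by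
      rw [← hN', ← hs]
    rw [Int.gcd_mul_left] at h1
    simp only [Int.natAbs_natCast] at h1
    exact Nat.eq_of_mul_eq_mul_left hg0 (by rw [h1, mul_one])
  have h2 : (N : ℤ) ∣ h * ((r1 - r0) * (r1 + r0)) := by
    have := dvd_sub e1 e0
    have e : h * r1 ^ 2 - c - (h * r0 ^ 2 - c) = h * ((r1 - r0) * (r1 + r0)) := by ring
    rwa [e] at this
  have h3 : (N : ℤ) ∣ (r1 - r0) * (r1 + r0) := hh.symm.dvd_of_dvd_mul_left h2
  rw [hN', hs, mul_assoc] at h3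
  have h4 : N' ∣ s * (r1 + r0) := (mul_dvd_mul_iff_left hg0').1 h3
  exact hcop.dvd_of_dvd_mul_left h4

/-- two roots with the same gcd -/
theorem RHD_gen (N : ℕ) (h c : ℤ) (hN : 1 ≤ N) (hh : IsCoprime h (N : ℤ))
    (hc : IsCoprime c (N : ℤ)) (r0 r1 r2 : ℤ) (e0 : (N : ℤ) ∣ h * r0 ^ 2 - c)
    (e1 : (N : ℤ) ∣ h * r1 ^ 2 - c) (e2 : (N : ℤ) ∣ h * r2 ^ 2 - c)
    (hg : Int.gcd (N : ℤ) (r1 - r0) = Int.gcd (N : ℤ) (r2 - r0)) :
    (N : ℤ) ∣ 2 * (r1 - r2) := by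
  obtain ⟨N', hN', h1⟩ := RHD_cof N h c hN hh r0 r1 e0 e1
  obtain ⟨N'', hN'', h2⟩ := RHD_cof N h c hN hh r0 r2 e0 e2
  have hN0 : (N : ℤ) ≠ 0 := by exact_mod_cast (by omega : N ≠ 0)
  rw [← hg] at hN''
  set g : ℤ := (Int.gcd (N : ℤ) (r1 - r0) : ℤ) with hgdef
  have hg0 : g ≠ 0 := by
    intro h0
    rw [h0, zero_mul] at hN'
    exact hN0 hN'
  have hNN : N'' = N' := by
    have : g * N'' = g * N' := by rw [← hN'', ← hN']
    exact mul_left_cancel₀ hg0 this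
  subst hNN
  obtain ⟨s1, hs1⟩ : g ∣ (r1 - r0) := Int.gcd_dvd_right _ _
  obtain ⟨s2, hs2⟩ : g ∣ (r2 - r0) := by
    rw [hgdef, hg]; exact Int.gcd_dvd_right _ _
  have hr0 : IsCoprime r0 (N : ℤ) := by
    have h3 : IsCoprime (h * r0 ^ 2) (N : ℤ) := by
      obtain ⟨k, hk⟩ := e0
      have : h * r0 ^ 2 = c + N * k := by linarith
      rw [this]
      exact IsCoprime.add_mul_left_left hc k
    exact (IsCoprime.pow_left_iff (by norm_num)).1 (h3.of_mul_left_right)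
  obtain ⟨a, b, hab⟩ := hr0
  obtain ⟨x1, hx1⟩ := h1
  obtain ⟨x2, hx2⟩ := h2
  -- g ∣ r1 - r2, N' ∣ r1 - r2
  have hA : r1 - r2 = g * (s1 - s2) := by linear_combination hs1 - hs2
  have hB : r1 - r2 = N'' * (x1 - x2) := by linear_combination hx1 - hx2
  have h2r0 : 2 * r0 = N'' * x1 - g * s1 := by linear_combination hx1 - hs1
  refine ⟨a * x1 * (s1 - s2) - a * s1 * (x1 - x2) + 2 * b * (r1 - r2), ?_⟩
  have e3 : 2 * (r1 - r2) = a * (2 * r0) * (r1 - r2) + 2 * b * N * (r1 - r2) := by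
    linear_combination (-2 * (r1 - r2)) * hab
  rw [e3, h2r0]
  have e4 : a * (N'' * x1 - g * s1) * (r1 - r2)
      = a * N'' * x1 * (g * (s1 - s2)) - a * g * s1 * (N'' * (x1 - x2)) := by
    rw [← hA, ← hB]; ring
  rw [e4, hN']
  ring

theorem RHD_ok : S_RHD := by
  intro n d hd hcop
  classical
  have hodd : IsCoprime (2 : ℤ) (d : ℤ) := by
    have : Nat.Coprime d 2 := Nat.Coprime.coprime_mul_right_right hcop
    exact_mod_cast (Nat.isCoprime_iff_coprime.2 this.symm)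
  have hn : IsCoprime (n : ℤ) (d : ℤ) := by
    have : Nat.Coprime d n := Nat.Coprime.coprime_mul_left_right hcop
    exact_mod_cast (Nat.isCoprime_iff_coprime.2 this.symm)
  unfold rho
  rcases Finset.eq_empty_or_nonempty
    ((range d).filter (fun y : ℕ => (d : ℤ) ∣ (n : ℤ) - (y : ℤ) ^ 2)) with he | ⟨y0, hy0⟩
  · rw [he]; simp
  · have key : ∀ y : ℕ, (d : ℤ) ∣ (n : ℤ) - (y : ℤ) ^ 2 → (d : ℤ) ∣ 1 * (y : ℤ) ^ 2 - n := by
      intro y hy
      have := (dvd_neg (a := (d : ℤ))).2 hy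
      have e : -((n : ℤ) - (y : ℤ) ^ 2) = 1 * (y : ℤ) ^ 2 - n := by ring
      rwa [e] at this
    rw [mem_filter] at hy0
    apply Finset.card_le_card_of_injOn (fun y : ℕ => Int.gcd (d : ℤ) ((y : ℤ) - y0))
    · intro y hy
      simp only [coe_filter, mem_range, Set.mem_ofPred_eq] at hy
      simp only [mem_coe, Nat.mem_divisors]
      refine ⟨?_, by omega⟩
      have : ((Int.gcd (d : ℤ) ((y : ℤ) - y0) : ℕ) : ℤ) ∣ (d : ℤ) := Int.gcd_dvd_left _ _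
      exact_mod_cast this
    · intro y hy z hz hyz
      simp only [coe_filter, mem_range, Set.mem_ofPred_eq] at hy hz
      have h1 := RHD_gen d 1 n hd isCoprime_one_left hn y0 y z (key _ hy0.2) (key _ hy.2)
        (key _ hz.2) hyz
      have h2 : (d : ℤ) ∣ (y : ℤ) - z := hodd.symm.dvd_of_dvd_mul_left h1
      have h3 : (y : ℤ) - z = 0 := by
        apply Int.eq_zero_of_abs_lt_dvd h2
        rw [abs_lt]; constructor <;> omega
      omega

end Pool.Agent.H843R2.KZ
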