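import Pool.Agent.H843R2.KZ.Stubs

set_option autoImplicit false

namespace Pool.Agent.H843R2.KZ

open Finset

namespace RHO

/-- right hand side -/
def GG (n d : ℕ) : ℕ := ∑ g ∈ (Icc 1 d).filter (fun g => g ^ 2 ∣ d), rho n (d / g ^ 2)

/-- left hand side -/
def FF (n d : ℕ) : ℤ := ∑ e ∈ d.divisors, jacobiSym n e

theorem rho_mul (n a b : ℕ) (ha : 1 ≤ a) (hb : 1 ≤ b) (hab : Nat.Coprime a b) :
    rho n a * rho n b ≤ rho n (a * b) := by
  unfold rho
  rw [← Finset.card_product]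
  refine Finset.card_le_card_of_injOn
    (fun z => (Nat.chineseRemainder hab z.1 z.2 : ℕ)) ?_ ?_
  · rintro ⟨y, z⟩ hyz
    simp only [Finset.coe_product, Set.mem_prod, Finset.mem_coe, mem_filter, mem_range] at hyz
    obtain ⟨⟨hy1, hy2⟩, hz1, hz2⟩ := hyz
    simp only [Finset.mem_coe, mem_filter, mem_range]
    refine ⟨Nat.chineseRemainder_lt_mul hab y z (by omega) (by omega), ?_⟩
    have h1 := (Nat.chineseRemainder hab y z).2.1
    have h2 := (Nat.chineseRemainder hab y z).2.2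
    set t : ℕ := (Nat.chineseRemainder hab y z : ℕ)
    have e1 : (a : ℤ) ∣ (n : ℤ) - (t : ℤ) ^ 2 := by
      have : (a : ℤ) ∣ (y : ℤ) - t := (Int.natCast_modEq_iff.mpr h1).dvd
      have h3 : (n : ℤ) - (t : ℤ) ^ 2 = ((n : ℤ) - (y : ℤ) ^ 2) + ((y : ℤ) - t) * (y + t) := by
        ring
      rw [h3]
      exact dvd_add hy2 (this.mul_right _)
    have e2 : (b : ℤ) ∣ (n : ℤ) - (t : ℤ) ^ 2 := by
      have : (b : ℤ) ∣ (z : ℤ) - t := (Int.natCast_modEq_iff.mpr h2).dvd
      have h3 : (n : ℤ) - (t : ℤ) ^ 2 = ((n : ℤ) - (z : ℤ) ^ 2) + ((z : ℤ) - t) * (z + t) := by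
        ring
      rw [h3]
      exact dvd_add hz2 (this.mul_right _)
    push_cast
    exact (Nat.isCoprime_iff_coprime.mpr hab).mul_dvd e1 e2
  · rintro ⟨y, z⟩ hyz ⟨y', z'⟩ hyz' h
    simp only [Finset.coe_product, Set.mem_prod, Finset.mem_coe, mem_filter, mem_range] at hyz hyz'
    simp only at h
    have h1 := (Nat.chineseRemainder hab y z).2.1
    have h2 := (Nat.chineseRemainder hab y z).2.2
    have h1' := (Nat.chineseRemainder hab y' z').2.1
    have h2' := (Nat.chineseRemainder hab y' z').2.2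
    rw [h] at h1 h2
    have e1 : y = y' := by
      have := h1.symm.trans h1'
      exact Nat.ModEq.eq_of_lt_of_lt this hyz.1.1 hyz'.1.1
    have e2 : z = z' := by
      have := h2.symm.trans h2'
      exact Nat.ModEq.eq_of_lt_of_lt this hyz.2.1 hyz'.2.1
    rw [e1, e2]

theorem GG_mul (n a b : ℕ) (ha : 1 ≤ a) (hb : 1 ≤ b) (hab : Nat.Coprime a b) :
    GG n a * GG n b ≤ GG n (a * b) := by
  unfold GG
  rw [Finset.sum_mul_sum, ← Finset.sum_product']
  calc ∑ x ∈ ((Icc 1 a).filter (fun g => g ^ 2 ∣ a)) ×ˢ ((Icc 1 b).filter (fun g => g ^ 2 ∣ b)),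
        rho n (a / x.1 ^ 2) * rho n (b / x.2 ^ 2)
      ≤ ∑ x ∈ ((Icc 1 a).filter (fun g => g ^ 2 ∣ a)) ×ˢ ((Icc 1 b).filter (fun g => g ^ 2 ∣ b)),
        rho n (a * b / (x.1 * x.2) ^ 2) := by
        refine Finset.sum_le_sum ?_
        rintro ⟨g, h⟩ hx
        simp only [mem_product, mem_filter, mem_Icc] at hx
        obtain ⟨⟨⟨hg1, -⟩, hg2⟩, ⟨hh1, -⟩, hh2⟩ := hx
        simp only
        have e : a * b / (g * h) ^ 2 = (a / g ^ 2) * (b / h ^ 2) := by
          rw [mul_pow, Nat.mul_div_mul_comm hg2 hh2]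
        rw [e]
        have hga : 1 ≤ a / g ^ 2 := Nat.div_pos (Nat.le_of_dvd (by omega) hg2) (by positivity)
        have hhb : 1 ≤ b / h ^ 2 := Nat.div_pos (Nat.le_of_dvd (by omega) hh2) (by positivity)
        exact rho_mul n _ _ hga hhb
          ((hab.coprime_div_left hg2).coprime_div_right hh2)
    _ = ∑ g ∈ (((Icc 1 a).filter (fun g => g ^ 2 ∣ a)) ×ˢ
          ((Icc 1 b).filter (fun g => g ^ 2 ∣ b))).image (fun x => x.1 * x.2),
          rho n (a * b / g ^ 2) := by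
        rw [Finset.sum_image]
        rintro ⟨g, h⟩ hx ⟨g', h'⟩ hx' hh
        simp only [Finset.coe_product, Set.mem_prod, Finset.mem_coe, mem_filter, mem_Icc] at hx hx'
        simp only at hh
        obtain ⟨⟨⟨hg1, -⟩, hg2⟩, ⟨hh1, -⟩, hh2⟩ := hx
        obtain ⟨⟨⟨hg1', -⟩, hg2'⟩, ⟨hh1', -⟩, hh2'⟩ := hx'
        have ga : g ∣ a := (dvd_pow_self g two_ne_zero).trans hg2
        have ga' : g' ∣ a := (dvd_pow_self g' two_ne_zero).trans hg2'
        have hb' : h ∣ b := (dvd_pow_self h two_ne_zero).trans hh2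
        have hb'' : h' ∣ b := (dvd_pow_self h' two_ne_zero).trans hh2'
        have c1 : Nat.Coprime g h' := (hab.coprime_dvd_left ga).coprime_dvd_right hb''
        have c2 : Nat.Coprime g' h := (hab.coprime_dvd_left ga').coprime_dvd_right hb'
        have e1 : g = g' := by
          apply Nat.dvd_antisymm
          · exact c1.dvd_of_dvd_mul_right (Dvd.intro h hh)
          · exact c2.dvd_of_dvd_mul_right (Dvd.intro h' hh.symm)
        subst e1
        have e2 : h = h' := Nat.eq_of_mul_eq_mul_left (by omega) hh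
        rw [e2]
    _ ≤ ∑ g ∈ (Icc 1 (a * b)).filter (fun g => g ^ 2 ∣ a * b), rho n (a * b / g ^ 2) := by
        refine Finset.sum_le_sum_of_subset ?_
        intro x hx
        rw [mem_image] at hx
        obtain ⟨⟨g, h⟩, hx, rfl⟩ := hx
        simp only [mem_product, mem_filter, mem_Icc] at hx
        obtain ⟨⟨⟨hg1, hg3⟩, hg2⟩, ⟨hh1, hh3⟩, hh2⟩ := hx
        simp only [mem_filter, mem_Icc]
        refine ⟨⟨?_, Nat.mul_le_mul hg3 hh3⟩, ?_⟩
        · exact Nat.mul_pos hg1 hh1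
        · rw [mul_pow]
          exact Nat.mul_dvd_mul hg2 hh2

open scoped Pointwise in
theorem FF_mul (n a b : ℕ) (ha : 1 ≤ a) (hb : 1 ≤ b) (hab : Nat.Coprime a b) :
    FF n (a * b) = FF n a * FF n b := by
  unfold FF
  rw [Nat.divisors_mul, Finset.sum_mul_sum, ← Finset.sum_product']
  have hm : (a.divisors * b.divisors : Finset ℕ) =
      (a.divisors ×ˢ b.divisors).image (fun x => x.1 * x.2) := rfl
  rw [hm, Finset.sum_image]
  · refine Finset.sum_congr rfl ?_
    rintro ⟨g, h⟩ hx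
    simp only [mem_product, Nat.mem_divisors] at hx
    have hg : g ≠ 0 := by
      rintro rfl
      exact hx.1.2 (Nat.eq_zero_of_zero_dvd hx.1.1)
    have hh : h ≠ 0 := by
      rintro rfl
      exact hx.2.2 (Nat.eq_zero_of_zero_dvd hx.2.1)
    haveI : NeZero g := ⟨hg⟩
    haveI : NeZero h := ⟨hh⟩
    exact jacobiSym.mul_right _ _ _
  · rintro ⟨g, h⟩ hx ⟨g', h'⟩ hx' hh
    simp only [Finset.coe_product, Set.mem_prod, Finset.mem_coe, Nat.mem_divisors] at hx hx'
    simp only at hh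
    have c1 : Nat.Coprime g h' := (hab.coprime_dvd_left hx.1.1).coprime_dvd_right hx'.2.1
    have c2 : Nat.Coprime g' h := (hab.coprime_dvd_left hx'.1.1).coprime_dvd_right hx.2.1
    have e1 : g = g' := by
      apply Nat.dvd_antisymm
      · exact c1.dvd_of_dvd_mul_right (Dvd.intro h hh)
      · exact c2.dvd_of_dvd_mul_right (Dvd.intro h' hh.symm)
    subst e1
    have hg : g ≠ 0 := by
      rintro rfl
      exact hx.1.2 (Nat.eq_zero_of_zero_dvd hx.1.1)
    have e2 : h = h' := Nat.eq_of_mul_eq_mul_left (by omega) hh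
    rw [e2]

theorem GG_step (n d p : ℕ) (hd : 1 ≤ d) (hp : 2 ≤ p) :
    rho n (d * p ^ 2) + GG n d ≤ GG n (d * p ^ 2) := by
  have hle : d ≤ d * p ^ 2 := Nat.le_mul_of_pos_right _ (by positivity)
  unfold GG
  have h1 : ∑ g ∈ (Icc 1 d).filter (fun g => g ^ 2 ∣ d), rho n (d / g ^ 2) =
      ∑ g ∈ ((Icc 1 d).filter (fun g => g ^ 2 ∣ d)).image (fun g => p * g),
        rho n (d * p ^ 2 / g ^ 2) := by
    rw [Finset.sum_image]
    · refine Finset.sum_congr rfl ?_
      intro g hg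
      rw [mul_pow, mul_comm d, Nat.mul_div_mul_left _ _ (by positivity)]
    · intro x _ y _ hxy
      exact Nat.eq_of_mul_eq_mul_left (by omega) hxy
  have h2 : rho n (d * p ^ 2) = ∑ g ∈ ({1} : Finset ℕ), rho n (d * p ^ 2 / g ^ 2) := by
    simp
  rw [h1, h2, ← Finset.sum_union]
  · refine Finset.sum_le_sum_of_subset ?_
    intro x hx
    rw [mem_union, mem_singleton, mem_image] at hx
    rcases hx with rfl | ⟨g, hg, rfl⟩
    · simp only [mem_filter, mem_Icc]
      exact ⟨⟨le_rfl, by omega⟩, by simp⟩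
    · simp only [mem_filter, mem_Icc] at hg ⊢
      refine ⟨⟨Nat.mul_pos (by omega) hg.1.1, ?_⟩, ?_⟩
      · calc p * g ≤ p * d := Nat.mul_le_mul_left _ hg.1.2
          _ = d * p := mul_comm _ _
          _ ≤ d * p ^ 2 := Nat.mul_le_mul_left _ (by nlinarith)
      · rw [mul_pow, mul_comm d]
        exact Nat.mul_dvd_mul_left _ hg.2
  · rw [Finset.disjoint_singleton_left, mem_image]
    rintro ⟨g, hg, h⟩
    simp only [mem_filter, mem_Icc] at hg
    have : 2 * 1 ≤ p * g := Nat.mul_le_mul hp hg.1.1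
    omega

theorem hensel (n p : ℕ) (hp : p.Prime) (hp2 : p ≠ 2) (hpn : ¬ p ∣ n) (y0 : ℤ)
    (hy0 : (p : ℤ) ∣ (n : ℤ) - y0 ^ 2) (m : ℕ) :
    ∃ y : ℤ, (p : ℤ) ^ (m + 1) ∣ (n : ℤ) - y ^ 2 := by
  have hpI : Prime (p : ℤ) := Nat.prime_iff_prime_int.mp hp
  induction m with
  | zero => exact ⟨y0, by simpa using hy0⟩
  | succ m ih =>
    obtain ⟨y, c, hc⟩ := ih
    have hy : ¬ (p : ℤ) ∣ y := by
      intro h
      apply hpn
      have h1 : (p : ℤ) ∣ (n : ℤ) - y ^ 2 := by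
        rw [hc]
        exact (dvd_pow_self _ (Nat.succ_ne_zero m)).mul_right _
      have h2 : (p : ℤ) ∣ (n : ℤ) := by
        have := dvd_add h1 (h.mul_left y)
        rwa [show (n : ℤ) - y ^ 2 + y * y = n by ring] at this
      exact_mod_cast h2
    have h2y : IsCoprime (2 * y) (p : ℤ) := by
      rw [isCoprime_comm]
      refine (Prime.coprime_iff_not_dvd hpI).mpr ?_
      intro h
      rcases hpI.dvd_or_dvd h with h | h
      · have : p ∣ 2 := by exact_mod_cast h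
        exact hp2 ((Nat.prime_dvd_prime_iff_eq hp Nat.prime_two).mp this)
      · exact hy h
    obtain ⟨u, v, huv⟩ := h2y
    -- want t with 2 y t ≡ c mod p
    refine ⟨y + (u * c) * (p : ℤ) ^ (m + 1), ?_⟩
    have : (n : ℤ) - (y + (u * c) * (p : ℤ) ^ (m + 1)) ^ 2 =
        (p : ℤ) ^ (m + 1 + 1) * (v * c - (u * c) ^ 2 * (p : ℤ) ^ m) := by
      have e1 : (n : ℤ) = y ^ 2 + (p : ℤ) ^ (m + 1) * c := by linarith
      have e2 : (2 * y) * u = 1 - v * p := by linarith
      calc (n : ℤ) - (y + (u * c) * (p : ℤ) ^ (m + 1)) ^ 2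
          = (p : ℤ) ^ (m + 1) * c - ((2 * y) * u) * c * (p : ℤ) ^ (m + 1) -
            (u * c) ^ 2 * ((p : ℤ) ^ (m + 1)) ^ 2 := by rw [e1]; ring
        _ = _ := by rw [e2]; ring
    rw [this]
    exact dvd_mul_right _ _

theorem rho_ge_two (n p : ℕ) (hp : p.Prime) (hp2 : p ≠ 2) (hpn : ¬ p ∣ n) (y0 : ℤ)
    (hy0 : (p : ℤ) ∣ (n : ℤ) - y0 ^ 2) (m : ℕ) : 2 ≤ rho n (p ^ (m + 1)) := by
  obtain ⟨y, hy⟩ := hensel n p hp hp2 hpn y0 hy0 m
  set N : ℕ := p ^ (m + 1) with hN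
  have hNpos : 0 < N := pow_pos hp.pos _
  have hNZ : (0 : ℤ) < (N : ℤ) := by exact_mod_cast hNpos
  have hpN : (p : ℤ) ∣ (N : ℤ) := by
    rw [hN]; push_cast; exact dvd_pow_self _ (Nat.succ_ne_zero m)
  have hyN : (N : ℤ) ∣ (n : ℤ) - y ^ 2 := by rw [hN]; push_cast; exact hy
  -- r = y mod N, s = -y mod N
  have key : ∀ z : ℤ, (N : ℤ) ∣ (n : ℤ) - z ^ 2 →
      (z % N).toNat ∈ (range N).filter (fun y : ℕ => (N : ℤ) ∣ (n : ℤ) - (y : ℤ) ^ 2) := by
    intro z hz
    have h1 : 0 ≤ z % N := Int.emod_nonneg _ (by omega)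
    have h2 : z % N < N := Int.emod_lt_of_pos _ hNZ
    rw [mem_filter, mem_range]
    have h3 : (((z % N).toNat : ℕ) : ℤ) = z % N := Int.toNat_of_nonneg h1
    refine ⟨by omega, ?_⟩
    rw [h3]
    have h4 : (N : ℤ) ∣ z - z % N := Int.dvd_self_sub_emod
    have h5 : (n : ℤ) - (z % N) ^ 2 = ((n : ℤ) - z ^ 2) + (z - z % N) * (z + z % N) := by ring
    rw [h5]
    exact dvd_add hz (h4.mul_right _)
  have hne : (y % N).toNat ≠ ((-y) % N).toNat := by
    intro h
    have h1 : 0 ≤ y % N := Int.emod_nonneg _ (by omega)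
    have h2 : 0 ≤ (-y) % N := Int.emod_nonneg _ (by omega)
    have h3 : y % N = (-y) % N := by omega
    have h4 : (N : ℤ) ∣ y - (-y) := Int.ModEq.dvd (show (-y) ≡ y [ZMOD N] from h3.symm)
    have h5 : (p : ℤ) ∣ 2 * y := by
      have := hpN.trans h4
      rwa [show y - -y = 2 * y by ring] at this
    have hpI : Prime (p : ℤ) := Nat.prime_iff_prime_int.mp hp
    rcases hpI.dvd_or_dvd h5 with h | h
    · have : p ∣ 2 := by exact_mod_cast h
      exact hp2 ((Nat.prime_dvd_prime_iff_eq hp Nat.prime_two).mp this)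
    · apply hpn
      have h6 : (p : ℤ) ∣ (n : ℤ) := by
        have := dvd_add (hpN.trans hyN) (h.mul_left y)
        rwa [show (n : ℤ) - y ^ 2 + y * y = n by ring] at this
      exact_mod_cast h6
  unfold rho
  have hsub : ({(y % N).toNat, ((-y) % N).toNat} : Finset ℕ) ⊆
      (range N).filter (fun y : ℕ => (N : ℤ) ∣ (n : ℤ) - (y : ℤ) ^ 2) := by
    intro x hx
    rw [mem_insert, mem_singleton] at hx
    rcases hx with rfl | rfl
    · exact key y hyN
    · exact key (-y) (by rwa [neg_sq])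
  calc 2 = ({(y % N).toNat, ((-y) % N).toNat} : Finset ℕ).card := by
        rw [Finset.card_pair hne]
    _ ≤ _ := Finset.card_le_card hsub

theorem FF_pp (n p k : ℕ) (hp : p.Prime) :
    FF n (p ^ k) = ∑ i ∈ range (k + 1), (jacobiSym n p) ^ i := by
  unfold FF
  rw [Nat.sum_divisors_prime_pow hp]
  exact Finset.sum_congr rfl fun i _ => jacobiSym.pow_right _ _ _

theorem GG_one_le (n d : ℕ) (hd : 1 ≤ d) : rho n d ≤ GG n d := by
  unfold GG
  have : rho n d = rho n (d / 1 ^ 2) := by simp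
  rw [this]
  exact Finset.single_le_sum (f := fun g => rho n (d / g ^ 2)) (fun _ _ => Nat.zero_le _)
    (by simp only [mem_filter, mem_Icc]; exact ⟨⟨le_rfl, hd⟩, by simp⟩)

theorem pp (n p : ℕ) (hp : p.Prime) (hp2 : p ≠ 2) (hpn : ¬ p ∣ n) (k : ℕ) :
    (0 ≤ FF n (p ^ k) ∧ FF n (p ^ k) ≤ GG n (p ^ k)) ∧
    (0 ≤ FF n (p ^ (k + 1)) ∧ FF n (p ^ (k + 1)) ≤ GG n (p ^ (k + 1))) := by
  have hcop : Int.gcd (n : ℤ) (p : ℤ) = 1 := by
    rw [Int.gcd_natCast_natCast]
    exact (Nat.coprime_comm.mp ((Nat.Prime.coprime_iff_not_dvd hp).mpr hpn))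
  have hroot : jacobiSym n p = 1 → ∃ y0 : ℤ, (p : ℤ) ∣ (n : ℤ) - y0 ^ 2 := by
    intro hJ
    have : Fact p.Prime := ⟨hp⟩
    rw [← jacobiSym.legendreSym.to_jacobiSym] at hJ
    have h0 : ((n : ℤ) : ZMod p) ≠ 0 := by
      intro h
      rw [ZMod.intCast_zmod_eq_zero_iff_dvd] at h
      exact hpn (by exact_mod_cast h)
    obtain ⟨y, hy⟩ := (legendreSym.eq_one_iff p h0).mp hJ
    refine ⟨y.val, ?_⟩
    rw [← ZMod.intCast_zmod_eq_zero_iff_dvd]
    push_cast
    rw [ZMod.natCast_zmod_val]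
    have : ((n : ℤ) : ZMod p) = y * y := hy
    push_cast at this
    rw [this]
    ring
  have h0 : FF n (p ^ 0) = 1 := by
    rw [FF_pp n p 0 hp]; simp
  have h1 : FF n (p ^ 1) = 1 + jacobiSym n p := by
    rw [FF_pp n p 1 hp, Finset.sum_range_succ, Finset.sum_range_succ]; simp
  have hG0 : 1 ≤ GG n (p ^ 0) := by
    refine le_trans ?_ (GG_one_le n (p ^ 0) (by simp))
    rw [pow_zero]
    unfold rho
    simp
  induction k with
  | zero =>
    refine ⟨⟨by rw [h0]; norm_num, by rw [h0]; exact_mod_cast hG0⟩, ?_⟩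
    rw [zero_add, h1]
    rcases jacobiSym.eq_one_or_neg_one hcop with hJ | hJ
    · rw [hJ]
      refine ⟨by norm_num, ?_⟩
      obtain ⟨y0, hy0⟩ := hroot hJ
      have h2 := rho_ge_two n p hp hp2 hpn y0 hy0 0
      have h3 := GG_one_le n (p ^ 1) (by rw [pow_one]; exact hp.pos)
      rw [zero_add] at h2
      have h4 : 2 ≤ GG n (p ^ 1) := h2.trans h3
      exact_mod_cast h4
    · rw [hJ]
      refine ⟨by norm_num, ?_⟩
      norm_num
  | succ k ih =>
    refine ⟨ih.2, ?_⟩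
    have e : p ^ (k + 1 + 1) = p ^ k * p ^ 2 := by ring
    have hF : FF n (p ^ (k + 1 + 1)) = FF n (p ^ k) +
        ((jacobiSym n p) ^ (k + 1) + (jacobiSym n p) ^ (k + 2)) := by
      rw [FF_pp n p _ hp, FF_pp n p _ hp, Finset.sum_range_succ, Finset.sum_range_succ]
      ring
    have hG := GG_step n (p ^ k) p (Nat.one_le_iff_ne_zero.mpr (pow_ne_zero _ hp.ne_zero))
      hp.two_le
    rw [← e] at hG
    have hGZ : (rho n (p ^ (k + 1 + 1)) : ℤ) + GG n (p ^ k) ≤ GG n (p ^ (k + 1 + 1)) := by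
      exact_mod_cast hG
    rcases jacobiSym.eq_one_or_neg_one hcop with hJ | hJ
    · obtain ⟨y0, hy0⟩ := hroot hJ
      have h2 := rho_ge_two n p hp hp2 hpn y0 hy0 (k + 1)
      have h2Z : (2 : ℤ) ≤ rho n (p ^ (k + 1 + 1)) := by exact_mod_cast h2
      rw [hF, hJ, one_pow, one_pow]
      exact ⟨by linarith [ih.1.1], by linarith [ih.1.2]⟩
    · have h3 : (-1 : ℤ) ^ (k + 1) + (-1) ^ (k + 2) = 0 := by ring
      rw [hF, hJ, h3, add_zero]
      have h4 : (0 : ℤ) ≤ rho n (p ^ (k + 1 + 1)) := by positivity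
      exact ⟨ih.1.1, by linarith [ih.1.2]⟩

theorem all (n d : ℕ) : 1 ≤ d → Nat.Coprime d (2 * n) → 0 ≤ FF n d ∧ FF n d ≤ GG n d := by
  induction d using Nat.recOnPosPrimePosCoprime with
  | prime_pow p k hp hk =>
    intro _ hc
    have h2 : Nat.Coprime p (2 * n) := Nat.Coprime.coprime_dvd_left (dvd_pow_self p hk.ne') hc
    have hp2 : p ≠ 2 := by
      rintro rfl
      have := Nat.Coprime.coprime_dvd_right (Nat.dvd_mul_right 2 n) h2
      norm_num at this
    have hpn : ¬ p ∣ n := by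
      intro h
      have h3 := Nat.Coprime.coprime_dvd_right (h.mul_left 2) h2
      rw [Nat.coprime_self] at h3
      exact hp.one_lt.ne' h3
    exact (pp n p hp hp2 hpn k).1
  | zero => intro h; omega
  | one =>
    intro _ _
    have h0 : FF n 1 = 1 := by
      unfold FF; simp
    have hG0 : 1 ≤ GG n 1 := by
      refine le_trans ?_ (GG_one_le n 1 le_rfl)
      unfold rho
      simp
    rw [h0]
    exact ⟨by norm_num, by exact_mod_cast hG0⟩
  | coprime a b ha hb hab iha ihb =>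
    intro _ hc
    have h1 := iha (by omega) (Nat.Coprime.coprime_dvd_left (Nat.dvd_mul_right a b) hc)
    have h2 := ihb (by omega) (Nat.Coprime.coprime_dvd_left (Nat.dvd_mul_left b a) hc)
    rw [FF_mul n a b (by omega) (by omega) hab]
    refine ⟨mul_nonneg h1.1 h2.1, ?_⟩
    calc FF n a * FF n b ≤ (GG n a : ℤ) * GG n b :=
          mul_le_mul h1.2 h2.2 h2.1 (by positivity)
      _ ≤ _ := by exact_mod_cast GG_mul n a b (by omega) (by omega) hab

end RHO

theorem RHO_ok : S_RHO := by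
  intro n d hd hc
  exact (RHO.all n d hd hc).2

end Pool.Agent.H843R2.KZ
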