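import Pool.Agent.H843R2.KZ.T_RHD

set_option autoImplicit false

namespace Pool.Agent.H843R2.KZ

open Finset

theorem ROOT_ok (hD : S_DIV) : S_ROOT := by
  intro ε hε
  obtain ⟨C, hC, hCb⟩ := hD ε hε
  refine ⟨2 * C, by positivity, ?_⟩
  intro N hN h c hh hc
  classical
  have hcard : ((range N).filter (fun r : ℕ => (N : ℤ) ∣ h * (r : ℤ) ^ 2 - c)).card
      ≤ 2 * N.divisors.card := by
    rcases Finset.eq_empty_or_nonempty
      ((range N).filter (fun r : ℕ => (N : ℤ) ∣ h * (r : ℤ) ^ 2 - c)) with he | ⟨y0, hy0⟩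
    · rw [he]; simp
    · rw [mem_filter] at hy0
      have h1 : (N.divisors ×ˢ (univ : Finset Bool)).card = 2 * N.divisors.card := by
        rw [card_product]; simp [mul_comm]
      rw [← h1]
      apply Finset.card_le_card_of_injOn
        (fun y : ℕ => (Int.gcd (N : ℤ) ((y : ℤ) - y0), decide (2 * y < N)))
      · intro y hy
        simp only [mem_coe, mem_product, Nat.mem_divisors, mem_univ, and_true]
        refine ⟨?_, by omega⟩
        have : ((Int.gcd (N : ℤ) ((y : ℤ) - y0) : ℕ) : ℤ) ∣ (N : ℤ) := Int.gcd_dvd_left _ _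
        exact_mod_cast this
      · intro y hy z hz hyz
        rw [mem_coe, mem_filter, mem_range] at hy hz
        simp only [Prod.mk.injEq, decide_eq_decide] at hyz
        have h1 := RHD_gen N h c hN hh hc y0 y z hy0.2 hy.2 hz.2 hyz.1
        have h3 : 2 * ((y : ℤ) - z) = 0 := by
          apply Int.eq_zero_of_abs_lt_dvd h1
          rw [abs_lt]
          by_cases hlt : 2 * y < N
          · have := hyz.2.1 hlt
            constructor <;> omega
          · have : ¬ 2 * z < N := fun h' => hlt (hyz.2.2 h')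
            constructor <;> omega
        omega
  calc ((((range N).filter (fun r : ℕ => (N : ℤ) ∣ h * (r : ℤ) ^ 2 - c)).card : ℕ) : ℝ)
      ≤ ((2 * N.divisors.card : ℕ) : ℝ) := by exact_mod_cast hcard
    _ = 2 * (N.divisors.card : ℝ) := by push_cast; ring
    _ ≤ 2 * (C * (N : ℝ) ^ ε) := by
        have := hCb N hN
        linarith
    _ = 2 * C * (N : ℝ) ^ ε := by ring

end Pool.Agent.H843R2.KZ
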