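import Pool.Agent.H843R2.KZ.Stubs
import Pool.Agent.H307R2.Sg6

set_option autoImplicit false

namespace Pool.Agent.H843R2.KZ

open Finset

namespace SIGaux

theorem two_pow_le (q : ℕ) (hq : q ≠ 0) : 2 ^ q.primeFactors.card ≤ q.divisors.card := by
  rw [Nat.card_divisors hq]
  have : ∀ p ∈ q.primeFactors, 2 ≤ q.factorization p + 1 := by
    intro p hp
    have : q.factorization p ≠ 0 := by
      rw [← Nat.support_factorization, Finsupp.mem_support_iff] at hp
      exact hp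
    omega
  calc 2 ^ q.primeFactors.card = ∏ _p ∈ q.primeFactors, 2 := by rw [prod_const]
    _ ≤ _ := prod_le_prod' this

end SIGaux

open SIGaux

theorem SIG_ok (hD : S_DIV) : S_SIG := by
  intro ε hε
  obtain ⟨c1, hc1, h1⟩ := Pool.Agent.H307R2.siegel (ε / 2) (by positivity)
  obtain ⟨C, hC, h2⟩ := hD (ε / 2) (by positivity)
  refine ⟨c1 / C, by positivity, ?_⟩
  intro q _ χ hχ2 hχ1
  have hf0 : χ.conductor ≠ 0 := DirichletCharacter.conductor_ne_zero χ
  haveI : NeZero χ.conductor := ⟨hf0⟩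
  have hcl := DirichletCharacter.changeLevel_primitiveCharacter χ
  set χ0 := χ.primitiveCharacter with hχ0
  have hinj := DirichletCharacter.changeLevel_injective (R := ℂ) (DirichletCharacter.conductor_dvd_level χ)
  have h02 : χ0 ^ 2 = 1 := by
    apply hinj
    rw [map_pow, map_one, hcl, hχ2]
  have h01 : χ0 ≠ 1 := by
    intro h
    apply hχ1
    rw [← hcl, h, map_one]
  have hL := DirichletCharacter.LFunction_changeLevel (DirichletCharacter.conductor_dvd_level χ) χ0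
    (s := 1) (Or.inl h01)
  rw [hcl] at hL
  have hS := h1 χ.conductor χ0 (DirichletCharacter.primitiveCharacter_isPrimitive χ) h02 h01
  have hq0 : q ≠ 0 := NeZero.ne q
  have hq : (1 : ℝ) ≤ q := by exact_mod_cast Nat.one_le_iff_ne_zero.2 hq0
  have hfq : (χ.conductor : ℝ) ≤ q := by
    exact_mod_cast Nat.le_of_dvd (Nat.pos_of_ne_zero hq0) (DirichletCharacter.conductor_dvd_level χ)
  have hf1 : (1 : ℝ) ≤ χ.conductor := by exact_mod_cast Nat.one_le_iff_ne_zero.2 hf0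
  have hprod : (1 / 2 : ℝ) ^ q.primeFactors.card ≤
      ‖∏ p ∈ q.primeFactors, (1 - χ0 p * (p : ℂ) ^ (-(1 : ℂ)))‖ := by
    rw [norm_prod, ← prod_const]
    refine prod_le_prod (fun _ _ => by norm_num) fun p hp => ?_
    have hp2 : (2 : ℝ) ≤ p := by exact_mod_cast (Nat.prime_of_mem_primeFactors hp).two_le
    have e1 : ‖χ0 p * (p : ℂ) ^ (-(1 : ℂ))‖ ≤ 1 / 2 := by
      rw [norm_mul, Complex.cpow_neg_one, norm_inv, Complex.norm_natCast]
      calc ‖χ0 p‖ * (p : ℝ)⁻¹ ≤ 1 * (2 : ℝ)⁻¹ :=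
            mul_le_mul (DirichletCharacter.norm_le_one χ0 _) (inv_anti₀ (by norm_num) hp2)
              (by positivity) zero_le_one
        _ = 1 / 2 := by norm_num
    have e2 := norm_sub_norm_le (1 : ℂ) (χ0 p * (p : ℂ) ^ (-(1 : ℂ)))
    rw [norm_one] at e2
    linarith
  have hdq : (1 / 2 : ℝ) ^ q.primeFactors.card * (C * (q : ℝ) ^ (ε / 2)) ≥ 1 := by
    have e1 : ((2 : ℝ) ^ q.primeFactors.card) ≤ C * (q : ℝ) ^ (ε / 2) := by
      refine le_trans ?_ (h2 q (Nat.one_le_iff_ne_zero.2 hq0))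
      exact_mod_cast two_pow_le q hq0
    calc (1 / 2 : ℝ) ^ q.primeFactors.card * (C * (q : ℝ) ^ (ε / 2))
        ≥ (1 / 2 : ℝ) ^ q.primeFactors.card * (2 : ℝ) ^ q.primeFactors.card :=
          mul_le_mul_of_nonneg_left e1 (by positivity)
      _ = 1 := by rw [← mul_pow]; norm_num
  have hqp : 0 < (q : ℝ) ^ (ε / 2) := Real.rpow_pos_of_pos (by linarith) _
  have hfp : (q : ℝ) ^ (-(ε / 2)) ≤ (χ.conductor : ℝ) ^ (-(ε / 2)) :=
    Real.rpow_le_rpow_of_nonpos (by linarith) hfq (by linarith)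
  have hsplit : (q : ℝ) ^ (-ε) = (q : ℝ) ^ (-(ε / 2)) * ((q : ℝ) ^ (ε / 2))⁻¹ := by
    rw [← Real.rpow_neg (by linarith), ← Real.rpow_add (by linarith)]
    congr 1
    ring
  rw [hL, norm_mul]
  calc c1 / C * (q : ℝ) ^ (-ε) = (c1 * (q : ℝ) ^ (-(ε / 2))) * (1 / (C * (q : ℝ) ^ (ε / 2))) := by
        rw [hsplit]
        field_simp
    _ ≤ ‖χ0.LFunction 1‖ * ‖∏ p ∈ q.primeFactors, (1 - χ0 p * (p : ℂ) ^ (-(1 : ℂ)))‖ := by
        refine mul_le_mul ?_ ?_ (by positivity) (norm_nonneg _)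
        · exact le_trans (mul_le_mul_of_nonneg_left hfp hc1.le) hS
        · refine le_trans ?_ hprod
          rw [div_le_iff₀ (by positivity)]
          exact hdq

end Pool.Agent.H843R2.KZ
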