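import Pool.Agent.H843R2.KZ.Stubs

set_option autoImplicit false

namespace Pool.Agent.H843R2.KZ

theorem STEP_ok : S_STEP := by
  intro n hn x k ⟨hk, hdvd, h1, h2, h3⟩
  obtain ⟨l, hl⟩ := hdvd
  have hkR : (0 : ℝ) < k := by exact_mod_cast hk
  have hirr : Irrational (√(n : ℝ)) := irrational_sqrt_natCast_iff.2 hn
  set s := √(n : ℝ) with hs
  have hs2 : s ^ 2 = n := Real.sq_sqrt (Nat.cast_nonneg n)
  have hs0 : 0 ≤ s := Real.sqrt_nonneg _
  set t : ℝ := ((x : ℝ) + s) / k with ht
  set a : ℤ := ⌊t⌋ with ha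
  have ha1 : 1 ≤ a := Int.le_floor.2 (by exact_mod_cast h1.le)
  have haR : (1 : ℝ) ≤ a := by exact_mod_cast ha1
  have hfr : Int.fract t = t - a := rfl
  have htk : t * k = x + s := by rw [ht]; field_simp
  have a3 : (x : ℝ) - s < 0 := by
    have := (div_lt_iff₀ hkR).1 h3
    linarith
  have a2 : -(k : ℝ) < x - s := by
    rw [lt_div_iff₀ hkR] at h2
    linarith
  set x' : ℤ := a * k - x with hx'
  have hx'R : (x' : ℝ) = a * k - x := by rw [hx']; push_cast; ring
  set k' : ℤ := l + 2 * a * x - a ^ 2 * k with hk'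
  have hkk : k * k' = n - x' ^ 2 := by
    rw [hk', hx']
    linear_combination -hl
  have hkkR : (k : ℝ) * k' = n - (x' : ℝ) ^ 2 := by exact_mod_cast hkk
  have hf0 : 0 < Int.fract t := by
    rcases (Int.fract_nonneg t).eq_or_lt with h | h
    · exfalso
      apply hirr
      have h4 : t = a := by rw [hfr] at h; linarith
      rw [h4] at htk
      exact ⟨((a * k - x : ℤ) : ℚ), by push_cast; linarith⟩
    · exact h
  have hf1 : Int.fract t < 1 := Int.fract_lt_one t
  have hsx : s - x' = k * Int.fract t := by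
    rw [hfr, hx'R]
    linarith
  have hsx0 : 0 < s - x' := by rw [hsx]; positivity
  have hsx1 : s - x' < k := by rw [hsx]; nlinarith
  have hsp : (k : ℝ) < s + x' := by
    rw [hx'R]
    nlinarith
  have hprod : (k : ℝ) * k' = k * (Int.fract t * (s + x')) := by
    rw [hkkR, ← hs2]
    have : s ^ 2 - (x' : ℝ) ^ 2 = (s - x') * (s + x') := by ring
    rw [this, hsx]
    ring
  have hk'R : (k' : ℝ) = Int.fract t * (s + x') := mul_left_cancel₀ hkR.ne' hprod
  have hspos : 0 < s + x' := by linarith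
  have hk'0 : (0 : ℝ) < k' := by rw [hk'R]; positivity
  have hquot : ((x' : ℝ) + s) / k' = (Int.fract t)⁻¹ := by
    rw [hk'R]
    field_simp
    ring
  refine ⟨x', k', ⟨by exact_mod_cast hk'0, ⟨k, by rw [← hkk]; ring⟩, ?_, ?_, ?_⟩, rfl, hkk,
    hquot.symm⟩
  · rw [hquot]
    exact (one_lt_inv₀ hf0).2 hf1
  · rw [lt_div_iff₀ hk'0, hk'R]
    have h5 : (s - (x' : ℝ)) < Int.fract t * (s + x') := by
      rw [hsx]
      nlinarith
    linarith
  · exact div_neg_of_neg_of_pos (by linarith) hk'0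

end Pool.Agent.H843R2.KZ
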