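import Pool.Agent.H843R2.KZ.Stubs

/-! Task SUMS. -/

set_option autoImplicit false

open Finset

namespace Pool.Agent.H843R2.KZ

theorem SUMS_sqrt (M : ℕ) : ∑ j ∈ Icc 1 M, 1 / √(j : ℝ) ≤ 2 * √(M : ℝ) := by
  induction M with
  | zero => simp
  | succ M ih =>
    rw [Finset.sum_Icc_succ_top (by omega)]
    have h0 : (0 : ℝ) ≤ M := Nat.cast_nonneg M
    have h1 : 0 < √((M + 1 : ℕ) : ℝ) := Real.sqrt_pos.2 (by positivity)
    have h2 : √((M + 1 : ℕ) : ℝ) ^ 2 = (M : ℝ) + 1 := by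
      rw [Real.sq_sqrt (by positivity)]; push_cast; ring
    have h3 : √(M : ℝ) ^ 2 = M := Real.sq_sqrt h0
    have h4 : 0 ≤ √(M : ℝ) := Real.sqrt_nonneg _
    have h5 : √(M : ℝ) ≤ √((M + 1 : ℕ) : ℝ) := Real.sqrt_le_sqrt (by push_cast; linarith)
    have h6 : 1 / √((M + 1 : ℕ) : ℝ) ≤ 2 * √((M + 1 : ℕ) : ℝ) - 2 * √(M : ℝ) := by
      rw [div_le_iff₀ h1]
      nlinarith [sq_nonneg (√((M + 1 : ℕ) : ℝ) - √(M : ℝ))]
    linarith

/-- the sum over `S` for fixed `h` -/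
theorem SUMS_inner (H h : ℕ) (hh : 1 ≤ h) (c : ℝ) (hc : 0 ≤ c) :
    ∑ S ∈ ((Icc (-(2 * (H : ℤ) ^ 2)) (2 * (H : ℤ) ^ 2)).filter (fun S => S ≠ 0)).filter
      (fun S => (h : ℤ) ^ 2 ∣ S), (1 + c / √(|(S : ℝ)|)) ≤
      4 * (H : ℝ) ^ 2 + 6 * (c / (h : ℝ) ^ 2) * H := by
  set M : ℕ := 2 * H ^ 2 / h ^ 2 with hM
  have hh2 : 0 < h ^ 2 := by positivity
  have hhr : (1 : ℝ) ≤ h := by exact_mod_cast hh
  have hsub : ((Icc (-(2 * (H : ℤ) ^ 2)) (2 * (H : ℤ) ^ 2)).filter (fun S => S ≠ 0)).filter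
      (fun S => (h : ℤ) ^ 2 ∣ S) ⊆
      (Icc 1 M).image (fun j : ℕ => (h : ℤ) ^ 2 * j) ∪
        (Icc 1 M).image (fun j : ℕ => -((h : ℤ) ^ 2 * j)) := by
    intro S hS
    rw [mem_filter, mem_filter, mem_Icc] at hS
    obtain ⟨⟨⟨hS1, hS2⟩, hS0⟩, k, hk⟩ := hS
    have hk0 : k ≠ 0 := by rintro rfl; exact hS0 (by rw [hk, mul_zero])
    have hle : k.natAbs ≤ M := by
      rw [hM, Nat.le_div_iff_mul_le hh2]
      have : S.natAbs ≤ 2 * H ^ 2 := by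
        zify
        rw [abs_le]
        exact ⟨hS1, hS2⟩
      rw [hk, Int.natAbs_mul, Int.natAbs_pow, Int.natAbs_natCast] at this
      rw [mul_comm]
      exact this
    have hge : 1 ≤ k.natAbs := Int.natAbs_pos.2 hk0
    rw [mem_union, mem_image, mem_image]
    rcases le_or_gt 0 k with h0 | h0
    · left
      refine ⟨k.natAbs, mem_Icc.2 ⟨hge, hle⟩, ?_⟩
      rw [hk, Int.natAbs_of_nonneg h0]
    · right
      refine ⟨k.natAbs, mem_Icc.2 ⟨hge, hle⟩, ?_⟩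
      rw [hk, Int.ofNat_natAbs_of_nonpos h0.le]
      ring
  have hnn : ∀ S : ℤ, 0 ≤ 1 + c / √(|(S : ℝ)|) := fun S => by positivity
  have hinj1 : Set.InjOn (fun j : ℕ => (h : ℤ) ^ 2 * j) (Icc 1 M : Finset ℕ) := by
    intro a _ b _ hab
    have h0 : (h : ℤ) ^ 2 ≠ 0 := by positivity
    have := mul_left_cancel₀ h0 hab
    exact_mod_cast this
  have hinj2 : Set.InjOn (fun j : ℕ => -((h : ℤ) ^ 2 * j)) (Icc 1 M : Finset ℕ) := by
    intro a ha b hb hab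
    exact hinj1 ha hb (neg_injective hab)
  have hval : ∀ j ∈ Icc 1 M, 1 + c / √(|((((h : ℤ) ^ 2 * j : ℤ)) : ℝ)|) =
      1 + c / h * (1 / √(j : ℝ)) := by
    intro j _
    have e : |((((h : ℤ) ^ 2 * j : ℤ)) : ℝ)| = (h : ℝ) ^ 2 * j := by
      push_cast
      exact abs_of_nonneg (by positivity)
    rw [e, Real.sqrt_mul (by positivity), Real.sqrt_sq (by positivity)]
    rw [div_mul_div_comm, mul_one]
  have hval2 : ∀ j ∈ Icc 1 M, 1 + c / √(|(((-((h : ℤ) ^ 2 * j) : ℤ)) : ℝ)|) =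
      1 + c / h * (1 / √(j : ℝ)) := by
    intro j hj
    rw [Int.cast_neg, abs_neg]
    exact hval j hj
  have hone : ∑ j ∈ Icc 1 M, (1 + c / h * (1 / √(j : ℝ))) ≤ M + c / h * (2 * √(M : ℝ)) := by
    rw [sum_add_distrib, ← mul_sum]
    have h1 : ∑ _j ∈ Icc 1 M, (1 : ℝ) = M := by simp
    rw [h1]
    have h2 := mul_le_mul_of_nonneg_left (SUMS_sqrt M) (div_nonneg hc (by linarith : (0:ℝ) ≤ h))
    linarith
  have hMr : (M : ℝ) ≤ 2 * (H : ℝ) ^ 2 / (h : ℝ) ^ 2 := by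
    have := @Nat.cast_div_le ℝ _ _ _ (2 * H ^ 2) (h ^ 2)
    push_cast at this
    exact this
  have hM1 : (M : ℝ) ≤ 2 * (H : ℝ) ^ 2 := by
    refine hMr.trans (div_le_self (by positivity) ?_)
    exact one_le_pow₀ hhr
  have hMs : √(M : ℝ) ≤ 3 / 2 * (H / h) := by
    rw [Real.sqrt_le_left (by positivity)]
    refine hMr.trans ?_
    have h1 : (3 / 2 * ((H : ℝ) / h)) ^ 2 = 9 / 4 * ((H : ℝ) ^ 2 / (h : ℝ) ^ 2) := by
      rw [mul_pow, div_pow (H : ℝ)]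
      norm_num
    rw [h1, mul_div_assoc]
    have : 0 ≤ (H : ℝ) ^ 2 / (h : ℝ) ^ 2 := by positivity
    linarith
  calc _ ≤ ∑ S ∈ (Icc 1 M).image (fun j : ℕ => (h : ℤ) ^ 2 * j) ∪
        (Icc 1 M).image (fun j : ℕ => -((h : ℤ) ^ 2 * j)), (1 + c / √(|(S : ℝ)|)) :=
        sum_le_sum_of_subset_of_nonneg hsub fun S _ _ => hnn S
    _ ≤ ∑ S ∈ (Icc 1 M).image (fun j : ℕ => (h : ℤ) ^ 2 * j), (1 + c / √(|(S : ℝ)|)) +
        ∑ S ∈ (Icc 1 M).image (fun j : ℕ => -((h : ℤ) ^ 2 * j)), (1 + c / √(|(S : ℝ)|)) := by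
        rw [← sum_union_inter]
        have := sum_nonneg fun S (_ : S ∈ (Icc 1 M).image (fun j : ℕ => (h : ℤ) ^ 2 * j) ∩
          (Icc 1 M).image (fun j : ℕ => -((h : ℤ) ^ 2 * j))) => hnn S
        linarith
    _ = 2 * ∑ j ∈ Icc 1 M, (1 + c / h * (1 / √(j : ℝ))) := by
        rw [sum_image hinj1, sum_image hinj2, sum_congr rfl hval, sum_congr rfl hval2]
        ring
    _ ≤ 2 * (M + c / h * (2 * √(M : ℝ))) := by linarith
    _ ≤ 4 * (H : ℝ) ^ 2 + 6 * (c / (h : ℝ) ^ 2) * H := by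
        have h1 : c / h * (2 * √(M : ℝ)) ≤ c / h * (2 * (3 / 2 * (H / h))) :=
          mul_le_mul_of_nonneg_left (by linarith) (by positivity)
        have h2 : c / h * (2 * (3 / 2 * (H / h))) = 3 * (c / (h : ℝ) ^ 2) * H := by
          field_simp
        linarith

theorem SUMS_ok (hD : S_DIV) : S_SUMS := by
  intro ε hε
  obtain ⟨C, hC, hdiv⟩ := hD ε hε
  refine ⟨10 * C * 4 ^ ε, by positivity, ?_⟩
  intro n D H hH hHn hD1 hDn
  have hn1 : 1 ≤ n := by nlinarith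
  set Hs : Finset ℕ := (Icc 1 (2 * H)).filter (fun h => (h : ℤ) ^ 2 ∣ 4 * (n : ℤ)) with hHs
  set SS : Finset ℤ := (Icc (-(2 * (H : ℤ) ^ 2)) (2 * (H : ℤ) ^ 2)).filter (fun S => S ≠ 0)
    with hSS
  set Q : ℝ := 1 + D / √(n : ℝ) with hQ
  have hQ1 : 1 ≤ Q := by
    have : 0 ≤ (D : ℝ) / √(n : ℝ) := by positivity
    linarith
  have hex : ∑ S ∈ SS, ∑ h ∈ hs n H S, trm n D H S h =
      ∑ h ∈ Hs, ∑ S ∈ SS.filter (fun S => (h : ℤ) ^ 2 ∣ S), trm n D H S h := by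
    apply sum_comm'
    intro S h
    unfold hs
    simp only [hHs, mem_filter]
    tauto
  have hinner : ∀ h ∈ Hs, ∑ S ∈ SS.filter (fun S => (h : ℤ) ^ 2 ∣ S), trm n D H S h ≤
      10 * Q * (H : ℝ) ^ 2 := by
    intro h hh
    have hh1 : 1 ≤ h := (mem_Icc.1 (mem_filter.1 hh).1).1
    have hhr : (1 : ℝ) ≤ h := by exact_mod_cast hh1
    have h1 := SUMS_inner H h hh1 (Q * H * (h : ℝ) ^ (3 / 2 : ℝ)) (by positivity)
    have h2 : (h : ℝ) ^ (3 / 2 : ℝ) ≤ (h : ℝ) ^ 2 := by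
      rw [← Real.rpow_natCast (h : ℝ) 2]
      exact Real.rpow_le_rpow_of_exponent_le hhr (by norm_num)
    have h3 : Q * H * (h : ℝ) ^ (3 / 2 : ℝ) / (h : ℝ) ^ 2 ≤ Q * H := by
      rw [div_le_iff₀ (by positivity)]
      exact mul_le_mul_of_nonneg_left h2 (by positivity)
    have h4 : 6 * (Q * H * (h : ℝ) ^ (3 / 2 : ℝ) / (h : ℝ) ^ 2) * H ≤ 6 * (Q * H) * H := by
      have : (0 : ℝ) ≤ H := Nat.cast_nonneg H
      nlinarith
    have h5 : (4 : ℝ) * (H : ℝ) ^ 2 ≤ 4 * Q * (H : ℝ) ^ 2 := by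
      have : (0 : ℝ) ≤ (H : ℝ) ^ 2 := by positivity
      nlinarith
    have h6 : ∑ S ∈ SS.filter (fun S => (h : ℤ) ^ 2 ∣ S), trm n D H S h ≤
        4 * (H : ℝ) ^ 2 + 6 * (Q * H * (h : ℝ) ^ (3 / 2 : ℝ) / (h : ℝ) ^ 2) * H := h1
    nlinarith
  have hcard : (Hs.card : ℝ) ≤ C * (4 ^ ε * (n : ℝ) ^ ε) := by
    have h1 : Hs ⊆ (4 * n).divisors := by
      intro h hh
      rw [Nat.mem_divisors]
      refine ⟨?_, by omega⟩
      have h2 := (mem_filter.1 hh).2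
      have h3 : h ^ 2 ∣ 4 * n := by exact_mod_cast h2
      exact (dvd_pow_self h two_ne_zero).trans h3
    have h2 : (Hs.card : ℝ) ≤ ((4 * n).divisors.card : ℝ) := by exact_mod_cast card_le_card h1
    refine h2.trans ((hdiv (4 * n) (by omega)).trans_eq ?_)
    push_cast
    rw [Real.mul_rpow (by norm_num) (Nat.cast_nonneg n)]
  rw [hex]
  calc ∑ h ∈ Hs, ∑ S ∈ SS.filter (fun S => (h : ℤ) ^ 2 ∣ S), trm n D H S h ≤
        ∑ _h ∈ Hs, 10 * Q * (H : ℝ) ^ 2 := sum_le_sum hinner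
    _ = Hs.card * (10 * Q * (H : ℝ) ^ 2) := by rw [sum_const, nsmul_eq_mul]
    _ ≤ C * (4 ^ ε * (n : ℝ) ^ ε) * (10 * Q * (H : ℝ) ^ 2) :=
        mul_le_mul_of_nonneg_right hcard (by positivity)
    _ = _ := by ring

end Pool.Agent.H843R2.KZ
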