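import Mathlib
import Pool.Agent.H843R2.KZ.T_KE
import Pool.Agent.H843R2.KZ.T_RED
import Pool.Agent.H843R2.KZ.T_STEP
import Pool.Agent.H843R2.KZ.T_DIG
import Pool.Agent.H843R2.KZ.T_PRE
import Pool.Agent.H843R2.KZ.T_NUM
import Pool.Agent.H843R2.KZ.T_REC
import Pool.Agent.H843R2.KZ.T_COV0
import Pool.Agent.H843R2.KZ.T_FREE
import Pool.Agent.H843R2.KZ.T_COVW
import Pool.Agent.H843R2.KZ.T_PLOW
import Pool.Agent.H843R2.KZ.T_CLOSE
import Pool.Agent.H843R2.KZ.T_DIV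
import Pool.Agent.H843R2.KZ.T_QCH
import Pool.Agent.H843R2.KZ.T_SIG
import Pool.Agent.H843R2.KZ.T_POS
import Pool.Agent.H843R2.KZ.T_PV
import Pool.Agent.H843R2.KZ.T_LSER
import Pool.Agent.H843R2.KZ.T_COP
import Pool.Agent.H843R2.KZ.T_HYP
import Pool.Agent.H843R2.KZ.T_RHO
import Pool.Agent.H843R2.KZ.T_RHD
import Pool.Agent.H843R2.KZ.T_LOW
import Pool.Agent.H843R2.KZ.T_IDEN
import Pool.Agent.H843R2.KZ.T_PSFIN
import Pool.Agent.H843R2.KZ.T_PM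
import Pool.Agent.H843R2.KZ.T_NF
import Pool.Agent.H843R2.KZ.T_ROOT
import Pool.Agent.H843R2.KZ.T_DET
import Pool.Agent.H843R2.KZ.T_CON
import Pool.Agent.H843R2.KZ.T_ARC
import Pool.Agent.H843R2.KZ.T_CLS
import Pool.Agent.H843R2.KZ.T_MP
import Pool.Agent.H843R2.KZ.T_SUMS
import Pool.Agent.H843R2.KZ.T_PAIR
import Pool.Agent.H843R2.KZ.T_MAIN

set_option autoImplicit false

namespace Pool.Agent.H843R2.KZ

theorem KZ_all : S_MAIN := by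
  have hDIV := DIV_ok
  have hRHD := RHD_ok
  have hDIG := DIG_ok RED_ok STEP_ok
  have hCOV0 := COV0_ok REC_ok NUM_ok
  have hCOVW := COVW_ok hCOV0 FREE_ok
  have hPLOW := PLOW_ok PRE_ok hDIG hCOVW
  have hSIG := SIG_ok hDIV
  have hLSER := LSER_ok PV_ok
  have hHYP := HYP_ok hSIG POS_ok PV_ok hLSER COP_ok hDIV
  have hLOW := LOW_ok QCH_ok hHYP RHO_ok hRHD hDIV
  have hPM := PM_ok IDEN_ok PSFIN_ok hRHD hDIV
  have hROOT := ROOT_ok hDIV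
  have hCLS := CLS_ok PSFIN_ok hROOT DET_ok CON_ok ARC_ok
  have hMP := MP_ok NF_ok hCLS PSFIN_ok hDIV
  have hPAIR := PAIR_ok hPM hMP (SUMS_ok hDIV)
  exact MAIN_ok KE_ok hLOW hPLOW CLOSE_ok hPAIR hRHD hDIV

end Pool.Agent.H843R2.KZ
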