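import Pool.Agent.H843R2.KZ.Stubs
import Pool.Agent.Helper112.Arith

set_option autoImplicit false

namespace Pool.Agent.H843R2.KZ

theorem DIV_ok : S_DIV := fun ε hε => Pool.Agent.Helper112.divisor_bound ε hε

end Pool.Agent.H843R2.KZ
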