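import Pool.Agent.H843R2.KZ.Stubs

set_option autoImplicit false

namespace Pool.Agent.H843R2.KZ

open Finset

namespace PMaux

/-- half difference -/
def Af (z : (ℕ × ℕ) × (ℕ × ℕ)) : ℤ := ((z.2.1 : ℤ) - z.1.1) / 2
/-- half sum -/
def Bf (z : (ℕ × ℕ) × (ℕ × ℕ)) : ℤ := ((z.2.1 : ℤ) + z.1.1) / 2
/-- the third coordinate -/
def Ef (z : (ℕ × ℕ) × (ℕ × ℕ)) : ℤ := (z.1.2 : ℤ) * z.2.1 - (z.2.2 : ℤ) * z.1.1
/-- the invariant -/
def Sf (n : ℕ) (z : (ℕ × ℕ) × (ℕ × ℕ)) : ℤ :=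
  ((z.2.2 : ℤ) - z.1.2) ^ 2 + ((z.2.1 : ℤ) - z.1.1) * (lv n z.2 - lv n z.1)
/-- the gcd -/
def gf (z : (ℕ × ℕ) × (ℕ × ℕ)) : ℕ := Int.gcd (Af z) (Bf z)

/-- the map -/
def Phi (n : ℕ) (z : (ℕ × ℕ) × (ℕ × ℕ)) : (_ : ℤ) × (ℕ × (ℤ × ℤ × ℤ)) :=
  ⟨Sf n z, (gf z, (Af z / gf z, Bf z / gf z, Ef z / gf z))⟩

theorem data (hI : S_IDEN) {n D H : ℕ} (hn : ¬ IsSquare n) {z : (ℕ × ℕ) × (ℕ × ℕ)}
    (hz : z ∈ prs n D H) : 2 * Af z = (z.2.1 : ℤ) - z.1.1 ∧ 2 * Bf z = (z.2.1 : ℤ) + z.1.1 ∧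
      Ef z ^ 2 = (4 * n - Sf n z) * Af z ^ 2 + Sf n z * Bf z ^ 2 ∧ Sf n z ≠ 0 ∧
      (gf z : ℤ) ∣ Sf n z * (4 * n - Sf n z) ∧ (gf z : ℤ) ∣ Ef z ∧ |Sf n z| ≤ 2 * (H : ℤ) ^ 2 ∧
      1 ≤ Bf z ∧ Bf z ≤ D ∧ |Af z| ≤ H := by
  rw [prs, mem_filter, mem_product] at hz
  obtain ⟨⟨hP, hQ⟩, hne, h1, h2, h3⟩ := hz
  obtain ⟨A, B, E, S, hA, hB, hE, hS, heq, hS0, hg, hgE⟩ := hI n D hn z.1 hP z.2 hQ hne
  have eA : A = Af z := by
    unfold Af
    omega
  have eB : B = Bf z := by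
    unfold Bf
    omega
  have eE : E = Ef z := hE
  have eS : S = Sf n z := hS
  subst eA eB eE eS
  have hP' := (mem_filter.1 hP).1
  have hQ' := (mem_filter.1 hQ).1
  rw [mem_product, mem_Icc] at hP' hQ'
  refine ⟨hA, hB, heq, hS0, hg, hgE, ?_, by omega, by omega, ?_⟩
  · have e1 : |((z.2.2 : ℤ) - z.1.2) ^ 2| ≤ (H : ℤ) ^ 2 := by
      rw [abs_pow, abs_sub_comm]
      exact pow_le_pow_left₀ (abs_nonneg _) h2 2
    have e2 : |((z.2.1 : ℤ) - z.1.1) * (lv n z.2 - lv n z.1)| ≤ (H : ℤ) ^ 2 := by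
      rw [abs_mul, abs_sub_comm, abs_sub_comm (lv n z.2), sq]
      exact mul_le_mul h1 h3 (abs_nonneg _) (by positivity)
    have e3 := abs_add_le (((z.2.2 : ℤ) - z.1.2) ^ 2) (((z.2.1 : ℤ) - z.1.1) * (lv n z.2 - lv n z.1))
    unfold Sf
    linarith
  · rw [abs_le] at h1 ⊢
    constructor <;> omega

end PMaux

open PMaux

theorem PM_ok (hI : S_IDEN) (hF : S_PSFIN) (hR : S_RHD) (hD : S_DIV) : S_PM := by
  intro ε hε
  obtain ⟨C, hC, h1⟩ := hD (ε / 3) (by positivity)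
  refine ⟨C * (C * 5 ^ (ε / 3)), by positivity, ?_⟩
  intro n D H hn hH hHn hD1 hDn
  have hn2 : 2 ≤ n := by nlinarith
  have hnR : (1 : ℝ) ≤ n := by exact_mod_cast (by omega : 1 ≤ n)
  set J := (Icc (-(2 * (H : ℤ) ^ 2)) (2 * (H : ℤ) ^ 2)).filter (fun S => S ≠ 0) with hJ
  set T : Finset ((_ : ℤ) × (ℕ × (ℤ × ℤ × ℤ))) :=
    J.sigma (fun S => (S * (4 * n - S)).natAbs.divisors ×ˢ (hF n D H S).toFinset) with hT
  have hHn' : 2 * (H : ℤ) ^ 2 ≤ n := by exact_mod_cast hHn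
  have hSn : ∀ S ∈ J, |S| ≤ n ∧ S ≠ 0 ∧ 0 < 4 * (n : ℤ) - S ∧ 4 * (n : ℤ) - S ≤ 5 * n := by
    intro S hS
    rw [hJ, mem_filter, mem_Icc] at hS
    obtain ⟨⟨h, h'⟩, h0⟩ := hS
    have : |S| ≤ n := abs_le.2 ⟨by linarith, by linarith⟩
    refine ⟨this, h0, ?_, ?_⟩
    · have := (abs_le.1 this).2
      omega
    · have := (abs_le.1 this).1
      omega
  have hmaps : ∀ z ∈ prs n D H, Phi n z ∈ T := by
    intro z hz
    obtain ⟨hA, hB, heq, hS0, hg, hgE, hS, hB1, hBD, hAH⟩ := data hI hn hz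
    have hSJ : Sf n z ∈ J := by
      rw [hJ, mem_filter, mem_Icc]
      exact ⟨abs_le.1 hS, hS0⟩
    have hgpos : 0 < gf z := by
      unfold gf
      apply Int.gcd_pos_of_ne_zero_right
      omega
    have hgZ : (gf z : ℤ) ≠ 0 := by exact_mod_cast hgpos.ne'
    have hgA : (gf z : ℤ) ∣ Af z := Int.gcd_dvd_left _ _
    have hgB : (gf z : ℤ) ∣ Bf z := Int.gcd_dvd_right _ _
    rw [hT, mem_sigma, mem_product]
    refine ⟨hSJ, ?_, ?_⟩
    · show gf z ∈ (Sf n z * (4 * n - Sf n z)).natAbs.divisors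
      rw [Nat.mem_divisors]
      refine ⟨Int.natCast_dvd.1 hg, ?_⟩
      rw [Int.natAbs_ne_zero]
      exact mul_ne_zero hS0 (hSn _ hSJ).2.2.1.ne'
    · show (Af z / gf z, Bf z / gf z, Ef z / gf z) ∈ (hF n D H (Sf n z)).toFinset
      rw [Set.Finite.mem_toFinset]
      obtain ⟨a, ha⟩ := hgA
      obtain ⟨b, hb⟩ := hgB
      obtain ⟨e, he⟩ := hgE
      have ea : Af z / gf z = a := by rw [ha, Int.mul_ediv_cancel_left _ hgZ]
      have eb : Bf z / gf z = b := by rw [hb, Int.mul_ediv_cancel_left _ hgZ]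
      have ee : Ef z / gf z = e := by rw [he, Int.mul_ediv_cancel_left _ hgZ]
      rw [ea, eb, ee]
      have hg1 : (1 : ℤ) ≤ gf z := by exact_mod_cast hgpos
      refine ⟨?_, ?_, ?_, ?_, ?_⟩
      · show |a| ≤ H
        have : |Af z| = gf z * |a| := by rw [ha, abs_mul, Nat.abs_cast]
        nlinarith [abs_nonneg a]
      · show 1 ≤ b
        by_contra hb0
        have : b ≤ 0 := by omega
        nlinarith
      · show b ≤ D
        have : 0 < b := by
          by_contra hb0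
          have : b ≤ 0 := by omega
          nlinarith
        nlinarith
      · show Int.gcd a b = 1
        have h5 : gf z = gf z * Int.gcd a b := by
          conv_lhs => unfold gf
          rw [ha, hb, Int.gcd_mul_left]
          simp
        have h6 : gf z * 1 = gf z * Int.gcd a b := by rw [mul_one]; exact h5
        exact (Nat.eq_of_mul_eq_mul_left hgpos h6).symm
      · show e ^ 2 = (4 * n - Sf n z) * a ^ 2 + Sf n z * b ^ 2
        rw [ha, hb, he] at heq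
        have h7 : (gf z : ℤ) ^ 2 * (e ^ 2 - ((4 * n - Sf n z) * a ^ 2 + Sf n z * b ^ 2)) = 0 := by
          linear_combination heq
        rcases mul_eq_zero.1 h7 with h | h
        · exact absurd (pow_eq_zero_iff (by norm_num) |>.1 h) hgZ
        · linarith
  have hfib : ∀ b ∈ T, ((prs n D H).filter (fun z => Phi n z = b)).card ≤
      ⌊C * (n : ℝ) ^ (ε / 3)⌋₊ := by
    intro b _
    rcases ((prs n D H).filter (fun z => Phi n z = b)).eq_empty_or_nonempty with he | ⟨w, hw⟩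
    · rw [he, card_empty]
      exact Nat.zero_le _
    · rw [mem_filter] at hw
      obtain ⟨hw, hwb⟩ := hw
      have hwP : w.1 ∈ obj n D := by
        rw [prs, mem_filter, mem_product] at hw
        exact hw.1.1
      have hwP' := hwP
      rw [obj, mem_filter, mem_product, mem_Icc] at hwP
      obtain ⟨⟨⟨hd1, hdD⟩, -⟩, -, hcop, -, -⟩ := hwP
      have hrho : (rho n w.1.1 : ℝ) ≤ C * (n : ℝ) ^ (ε / 3) := by
        calc (rho n w.1.1 : ℝ) ≤ (w.1.1.divisors.card : ℝ) := by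
              exact_mod_cast hR n w.1.1 hd1 hcop
          _ ≤ C * (w.1.1 : ℝ) ^ (ε / 3) := h1 _ hd1
          _ ≤ C * (n : ℝ) ^ (ε / 3) := by
              refine mul_le_mul_of_nonneg_left ?_ hC.le
              refine Real.rpow_le_rpow (by positivity) ?_ (by positivity)
              exact_mod_cast hdD.trans hDn
      refine le_trans ?_ (Nat.le_floor hrho)
      unfold rho
      have key : ∀ z ∈ (prs n D H).filter (fun z => Phi n z = b),
          z.1.1 = w.1.1 ∧ z.2.1 = w.2.1 ∧ Ef z = Ef w := by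
        intro z hz
        rw [mem_filter] at hz
        obtain ⟨hz, hzb⟩ := hz
        have heq : Phi n z = Phi n w := hzb.trans hwb.symm
        obtain ⟨hA, hB, -, -, -, hgE, -, hB1, -, -⟩ := data hI hn hz
        obtain ⟨hA', hB', -, -, -, hgE', -, hB1', -, -⟩ := data hI hn hw
        have q1 : gf z = gf w := congrArg (fun x : (_ : ℤ) × (ℕ × (ℤ × ℤ × ℤ)) => x.2.1) heq
        have q2 : Af z / gf z = Af w / gf w :=
          congrArg (fun x : (_ : ℤ) × (ℕ × (ℤ × ℤ × ℤ)) => x.2.2.1) heq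
        have q3 : Bf z / gf z = Bf w / gf w :=
          congrArg (fun x : (_ : ℤ) × (ℕ × (ℤ × ℤ × ℤ)) => x.2.2.2.1) heq
        have q4 : Ef z / gf z = Ef w / gf w :=
          congrArg (fun x : (_ : ℤ) × (ℕ × (ℤ × ℤ × ℤ)) => x.2.2.2.2) heq
        have r2 : Af z = Af w := by
          rw [← Int.ediv_mul_cancel (Int.gcd_dvd_left (Af z) (Bf z)),
            ← Int.ediv_mul_cancel (Int.gcd_dvd_left (Af w) (Bf w))]
          change Af z / gf z * gf z = Af w / gf w * gf w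
          rw [q2, q1]
        have r3 : Bf z = Bf w := by
          rw [← Int.ediv_mul_cancel (Int.gcd_dvd_right (Af z) (Bf z)),
            ← Int.ediv_mul_cancel (Int.gcd_dvd_right (Af w) (Bf w))]
          change Bf z / gf z * gf z = Bf w / gf w * gf w
          rw [q3, q1]
        have r4 : Ef z = Ef w := by
          rw [← Int.ediv_mul_cancel hgE, ← Int.ediv_mul_cancel hgE', q4, q1]
        refine ⟨by omega, by omega, r4⟩
      refine card_le_card_of_injOn (fun z => z.1.2) ?_ ?_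
      · intro z hz
        have hz' := mem_coe.1 hz
        obtain ⟨k1, -, -⟩ := key z hz'
        have hzP : z.1 ∈ obj n D := by
          rw [mem_filter, prs, mem_filter, mem_product] at hz'
          exact hz'.1.1.1
        rw [obj, mem_filter, mem_product, mem_Icc] at hzP
        obtain ⟨-, -, -, hlt, hdvd⟩ := hzP
        rw [mem_coe, mem_filter, mem_range, ← k1]
        exact ⟨hlt, hdvd⟩
      · intro z hz z' hz' heq
        have heq' : z.1.2 = z'.1.2 := heq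
        obtain ⟨k1, k2, k3⟩ := key z (mem_coe.1 hz)
        obtain ⟨k1', k2', k3'⟩ := key z' (mem_coe.1 hz')
        have k3'' : Ef z = Ef z' := k3.trans k3'.symm
        unfold Ef at k3''
        rw [k1, k2, k1', k2', heq'] at k3''
        have h5 : (z.2.2 : ℤ) * w.1.1 = (z'.2.2 : ℤ) * w.1.1 := by linarith
        have h6 : (z.2.2 : ℤ) = z'.2.2 := by
          refine mul_right_cancel₀ ?_ h5
          have : w.1.1 ≠ 0 := by omega
          exact_mod_cast this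
        have h7 : z.2.2 = z'.2.2 := by exact_mod_cast h6
        refine Prod.ext (Prod.ext (k1.trans k1'.symm) heq') (Prod.ext (k2.trans k2'.symm) h7)
  have hmain := card_le_mul_card_image_of_maps_to hmaps _ hfib
  have hTc : (T.card : ℝ) ≤ ∑ S ∈ J, (C * 5 ^ (ε / 3) * (n : ℝ) ^ (2 * ε / 3)) *
      ((ps n D H S).ncard : ℝ) := by
    rw [hT, card_sigma]
    push_cast
    refine sum_le_sum fun S hS => ?_
    rw [card_product, ← Set.ncard_eq_toFinset_card _ (hF n D H S)]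
    push_cast
    refine mul_le_mul_of_nonneg_right ?_ (by positivity)
    obtain ⟨hS1, hS2, hS3, hS4⟩ := hSn S hS
    have hne : (S * (4 * n - S)).natAbs ≠ 0 := by
      rw [Int.natAbs_ne_zero]
      exact mul_ne_zero hS2 hS3.ne'
    refine le_trans (h1 _ (Nat.one_le_iff_ne_zero.2 hne)) ?_
    have hb : (((S * (4 * n - S)).natAbs : ℕ) : ℝ) ≤ 5 * (n : ℝ) ^ 2 := by
      have e1 : (((S * (4 * n - S)).natAbs : ℕ) : ℤ) ≤ 5 * (n : ℤ) ^ 2 := by
        rw [Int.natCast_natAbs, abs_mul, abs_of_pos hS3]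
        nlinarith [abs_nonneg S]
      exact_mod_cast e1
    calc C * (((S * (4 * n - S)).natAbs : ℕ) : ℝ) ^ (ε / 3)
        ≤ C * (5 * (n : ℝ) ^ 2) ^ (ε / 3) :=
          mul_le_mul_of_nonneg_left (Real.rpow_le_rpow (by positivity) hb (by positivity)) hC.le
      _ = C * 5 ^ (ε / 3) * (n : ℝ) ^ (2 * ε / 3) := by
          rw [Real.mul_rpow (by norm_num) (by positivity), ← Real.rpow_natCast,
            ← Real.rpow_mul (by positivity)]
          rw [show ((2 : ℕ) : ℝ) * (ε / 3) = 2 * ε / 3 by push_cast; ring]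
          ring
  calc ((prs n D H).card : ℝ) ≤ ((⌊C * (n : ℝ) ^ (ε / 3)⌋₊ * T.card : ℕ) : ℝ) := by
        exact_mod_cast hmain
    _ = (⌊C * (n : ℝ) ^ (ε / 3)⌋₊ : ℝ) * (T.card : ℝ) := by push_cast; ring
    _ ≤ (C * (n : ℝ) ^ (ε / 3)) * ∑ S ∈ J, (C * 5 ^ (ε / 3) * (n : ℝ) ^ (2 * ε / 3)) *
          ((ps n D H S).ncard : ℝ) :=
        mul_le_mul (Nat.floor_le (by positivity)) hTc (by positivity) (by positivity)
    _ = C * (C * 5 ^ (ε / 3)) * (n : ℝ) ^ ε * ∑ S ∈ J, ((ps n D H S).ncard : ℝ) := by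
        rw [← mul_sum]
        have : (n : ℝ) ^ ε = (n : ℝ) ^ (ε / 3) * (n : ℝ) ^ (2 * ε / 3) := by
          rw [← Real.rpow_add (by linarith)]
          congr 1
          ring
        rw [this]
        ring

end Pool.Agent.H843R2.KZ
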